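import Pool.Agent.Work.MP_8f87b2_h73.T4U
import Pool.Agent.Work.MP_8f87b2_mid.Types

/-!
MP_8f87b2_co, rows of the middle types against the words of the layers `t ≤ 4` (`k = n + 7`): words with two components,
plain triples.
-/

set_option autoImplicit false

namespace Pool.OddHC

open Finset BinaryTree Equiv Pool.OddHop

namespace T4

variable {n : ℕ}

theorem app_snoc {X A B : BinaryTree Unit} (h : app X (.nil △ .nil) = A △ (B △ .nil)) (hX : X ≠ .nil) :
    X = A △ .nil ∧ B = .nil := by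
  cases X with
  | nil => exact absurd rfl hX
  | node _ C D =>
    change C △ app D (.nil △ .nil) = _ at h
    injection h with _ h1 h2
    cases D with
    | nil =>
      change .nil △ .nil = _ at h2
      injection h2 with _ h3 _
      exact ⟨by rw [h1], h3.symm⟩
    | node _ E F =>
      exact absurd h2 (app_np (by simp))

/-- the words of the layer with two components -/
theorem two_cases (hn : 1 ≤ n) {w : X (n + 2 + 5)} (h : w ∈ WAll n) {A B : BinaryTree Unit}
    (e : w.1 = A △ (B △ .nil)) (h3 : ht w.1 ≤ n + 3) :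
    (∃ f : ZMod (2 * (n + 2) + 1) → ℕ, ∑ x, f x = 3 ∧ ((B = .nil ∧ A △ .nil = yT (pwX (n + 2)) f) ∨
      (A = .nil ∧ B △ .nil = yT (pwX (n + 2)) f))) ∨
    (A = pw (n + 2) ∧ B = pw 3) ∨ (A = .nil △ (.nil △ (.nil △ .nil)) ∧ B = pw (n + 2)) ∨
    (A = .nil △ pw (n + 2) ∧ B = .nil △ (.nil △ .nil)) ∨
    (A = .nil △ (.nil △ .nil) ∧ B = (.nil △ pw (n + 1)) △ .nil) ∨
    (A = pw (n + 2) ∧ B = (.nil △ .nil) △ (.nil △ .nil)) ∨
    (∃ q, 1 ≤ q ∧ q ≤ n + 1 ∧ ((A △ .nil = Rq n q ∧ B = .nil △ .nil) ∨ (A = .nil △ .nil ∧ B △ .nil = Rq n q))) := by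
  rcases h with ⟨q, h, -, f, hf, e' | e' | e'⟩ | h | ⟨a, ha, h⟩ | h | h | h | h | h | ⟨i, hi, -, rfl⟩ | ⟨q, hq, i, hi, rfl⟩
  · rw [e', ht_node, ht_yT _ _ (by omega)] at h3
    change max (ht (pw (n + 2)) + 1 + 1) _ ≤ _ at h3
    rw [ht_pw] at h3
    omega
  · rw [e'] at e
    obtain ⟨h1, h2⟩ := app_snoc e (yT_ne (by omega) _ _)
    exact Or.inl ⟨f, hf, Or.inl ⟨h2, h1.symm⟩⟩
  · rw [e'] at e
    injection e with _ h1 h2
    exact Or.inl ⟨f, hf, Or.inr ⟨h1.symm, h2.symm⟩⟩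
  · rcases h with rfl | rfl | rfl
    · have := pA_inv n; omega
    · change app (pw (n + 3)) (pw 3 △ .nil) = _ at e
      rw [pw_succ (n + 2), app_node', app_nil'] at e
      injection e with _ h1 h2
      injection h2 with _ h2 _
      exact Or.inr (Or.inl ⟨h1.symm, h2.symm⟩)
    · change app (pw 3) (.nil △ pw (n + 3)) = _ at e
      simp [pw_succ, app_node', app_nil'] at e
  · rcases h with rfl | rfl | rfl
    · rw [ht_xH] at h3; omega
    · change app (Xa n a) (.nil △ .nil) = _ at e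
      obtain ⟨h1, -⟩ := app_snoc e Xa_ne
      rcases Xform (n := n) (b := a) (by omega) with ⟨-, h⟩ | ⟨-, h⟩ | ⟨-, h⟩ | ⟨-, _, _, h⟩ <;> rw [h] at h1 <;>
        simp [pw_succ] at h1
    · change .nil △ Xa n a = _ at e
      injection e with _ _ h1
      rcases Xform (n := n) (b := a) (by omega) with ⟨-, h⟩ | ⟨-, h⟩ | ⟨-, h⟩ | ⟨-, _, _, h⟩ <;> rw [h] at h1 <;>
        simp [pw_succ] at h1
  · rcases h with rfl | rfl | rfl
    · have := kA_inv n; omega
    · change app (app (pw (n + 3)) ((.nil △ .nil) △ .nil)) ((.nil △ .nil) △ .nil) = _ at e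
      simp [pw_succ, app_node', app_nil'] at e
    · change .nil △ (.nil △ app (pw (n + 3)) ((.nil △ .nil) △ .nil)) = _ at e
      simp [pw_succ, app_node', app_nil'] at e
  · rcases h with rfl | rfl | rfl
    · have := lA_inv n; omega
    · change app (pw (n + 3)) (.nil △ (.nil △ (.nil △ (.nil △ .nil)))) = _ at e
      simp [pw_succ, app_node', app_nil'] at e
    · change (.nil △ (.nil △ (.nil △ .nil))) △ pw (n + 3) = _ at e
      rw [pw_succ (n + 2)] at e
      injection e with _ h1 h2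
      injection h2 with _ h2 _
      exact Or.inr (Or.inr (Or.inl ⟨h1.symm, h2.symm⟩))
  · rcases h with rfl | rfl | rfl
    · have := mA_inv n; omega
    · change app (pw (n + 3)) (.nil △ (.nil △ (.nil △ (.nil △ .nil)))) = _ at e
      simp [pw_succ, app_node', app_nil'] at e
    · change app (Xa n 1) (.nil △ .nil) = _ at e
      obtain ⟨h1, -⟩ := app_snoc e Xa_ne
      rw [Xa_1] at h1
      simp [pw_succ] at h1
  · rcases h with rfl | rfl | rfl
    · have := rA_inv n; omega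
    · change (.nil △ pw (n + 2)) △ ((.nil △ (.nil △ .nil)) △ .nil) = _ at e
      injection e with _ h1 h2
      injection h2 with _ h2 _
      exact Or.inr (Or.inr (Or.inr (Or.inl ⟨h1.symm, h2.symm⟩)))
    · change .nil △ (.nil △ (.nil △ ((.nil △ pw (n + 2)) △ .nil))) = _ at e
      simp at e
  · rcases h with rfl | rfl | rfl
    · have := sA_inv n; omega
    · change (((.nil △ pw (n + 1)) △ .nil)) △ (.nil △ (.nil △ (.nil △ .nil))) = _ at e
      simp at e
    · change (.nil △ (.nil △ .nil)) △ (((.nil △ pw (n + 1)) △ .nil) △ .nil) = _ at e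
      injection e with _ h1 h2
      injection h2 with _ h2 _
      exact Or.inr (Or.inr (Or.inr (Or.inr (Or.inl ⟨h1.symm, h2.symm⟩))))
  · have hv := wr_inv hn i hi
    have h1 := congrArg Prod.fst hv
    change ht _ = _ at h1
    rw [h1] at h3
    rw [wr_val] at e
    by_cases h13 : i = 13
    · subst h13
      change pw (n + 2) △ (((.nil △ .nil) △ (.nil △ .nil)) △ .nil) = _ at e
      injection e with _ h1 h2
      injection h2 with _ h2 _
      exact Or.inr (Or.inr (Or.inr (Or.inr (Or.inr (Or.inl ⟨h1.symm, h2.symm⟩)))))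
    · exfalso
      interval_cases i <;> first
        | (simp [hr] at h3; done)
        | (simp [tr, pw_succ] at e; done)
        | (exact h13 rfl)
  · have hv := xt_inv (n := n) hi hq
    have h1 := congrArg Prod.fst hv
    change ht _ = _ at h1
    rw [h1] at h3
    rw [xt_val hi (by omega)] at e
    have hR0 : Rq n q ≠ .nil := Rq_ne (by omega)
    rcases Rform hq with ⟨q0, hR⟩ | ⟨q1, A1, B1, C1, hR⟩
    · exfalso
      rw [hR] at e
      interval_cases i <;> first
        | (simp [shi] at h3; done)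
        | (simp [sh_0, sh_1, sh_2, sh_3, sh_4, sh_5, sh_6, sh_7, sh_8, sh_9, app_nil', app_node', pw_succ] at e; done)
    · have key : (A △ .nil = Rq n q ∧ B = .nil △ .nil) ∨ (A = .nil △ .nil ∧ B △ .nil = Rq n q) := by
        rw [hR] at e ⊢
        interval_cases i
        · exfalso; simp [shi] at h3
        · exfalso; simp [sh_1, app_nil', app_node'] at e
        · exfalso; simp [sh_2] at e
        · exfalso; simp [shi] at h3
        · exfalso; simp [shi] at h3
        · exfalso; simp [shi] at h3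
        · exfalso; simp [shi] at h3
        · left
          rw [sh_7, app_node', app_nil'] at e
          injection e with _ h1 h2
          injection h2 with _ h2 _
          exact ⟨by rw [h1], h2.symm⟩
        · exfalso; simp [sh_8, app_nil', app_node'] at e
        · right
          rw [sh_9] at e
          injection e with _ h1 h2
          exact ⟨h1.symm, h2.symm⟩
      exact Or.inr (Or.inr (Or.inr (Or.inr (Or.inr (Or.inr ⟨q, q1, hq, key⟩)))))

/-! ### Plain triples -/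

variable {ι : Q3 (n + 2) → Q3 (n + 2)} {F : Set (Cyc (n + 2 + 5))} {g : DG (n + 2 + 5)} {P Q R : BinaryTree Unit}

/-- the host of a plain triple is at most one higher -/
theorem host_ht (h : IsTri P Q R F g) {s : ℕ} (hF : ∀ c ∈ F, htc c ≤ s) : ht (w1 P Q R) ≤ s + 1 := by
  obtain ⟨a, b, c, ha, hb, hc, -, -, -, rfl, -⟩ := h
  have h1 := hF (cyc b) (Or.inl rfl)
  rw [htc_cyc, hb] at h1
  unfold w1 at h1 ⊢
  rw [ht_app, ht_node] at h1 ⊢
  omega

theorem tri_low (h : IsTri P Q R F g) (hF : ∀ c ∈ F, htc c ≤ n + 1) : ∀ w ∈ g.B, LowW n w := by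
  intro w hw
  left
  rcases h.words w hw with e | ⟨e, -⟩
  · rw [e]
    exact host_ht h hF
  · have := hF _ e
    rw [htc_cyc] at this
    omega

/-- **ROW**: a plain triple of height at most `k - 6` has no word of the layers `t ≤ 4` -/
theorem tri_top (hn : 1 ≤ n) (h : IsTri P Q R F g) (hF : ∀ c ∈ F, htc c ≤ n + 1) :
    ∀ w ∈ g.B, w ∉ WAll n ∧ w ∉ topW8' (n + 2) ι := fun w hw => (tri_low h hF w hw).free hn

/-- the same for a triple of height at most `k - 5` if the host is free -/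
theorem tri_top5 (hn : 1 ≤ n) (h : IsTri P Q R F g) (hF : ∀ c ∈ F, htc c ≤ n + 2)
    (hh : ∀ w : X (n + 2 + 5), w.1 = w1 P Q R → ht w.1 = n + 3 → w ∉ WAll n) :
    ∀ w ∈ g.B, w ∉ WAll n ∧ w ∉ topW8' (n + 2) ι := by
  intro w hw
  rcases h.words w hw with e | ⟨e, -⟩
  · have h1 := host_ht h hF
    rw [← e] at h1
    rcases Nat.lt_or_ge (ht w.1) (n + 3) with h2 | h2
    · exact LowW.free hn (Or.inl (by omega))
    · refine ⟨hh w e (by omega), fun h3 => ?_⟩
      have := top_low h3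
      omega
  · have := hF _ e
    rw [htc_cyc] at this
    exact LowW.free hn (Or.inl this)

/-- **ROW E**: the triples `(X); X(), ()X` of height at most `k - 5` -/
theorem triE_top (hn : 1 ≤ n) (h : IsTri .nil Q .nil F g) (hF : ∀ c ∈ F, htc c ≤ n + 2) :
    ∀ w ∈ g.B, w ∉ WAll n ∧ w ∉ topW8' (n + 2) ι :=
  tri_top5 hn h hF fun w e h3 h' => WAll_np hn h' (by omega) Q e

theorem tri_arcs (h : IsTri P Q R F g) : ∀ a ∈ g.arcs, False := by
  rw [h.arcs]
  simp

theorem pkn_yT4 (f : ZMod (2 * (n + 2) + 1) → ℕ) : pkn (yT (pwX (n + 2)) f) = 1 + ∑ x, f x := by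
  unfold yT
  rw [(ins_num (pwX (n + 2)).1 _ (by rw [lf_length, X_num])).2, lf_sum]
  change pkn (pw (n + 2)) + _ = _
  rw [pkn_pw]

theorem pw_inj {a b : ℕ} (h : pw a = pw b) : a = b := by
  have := congrArg ht h
  rwa [ht_pw, ht_pw] at this

/-! ### The hosts of the links of the height `k - 5` -/

/-- `[4]([s])` -/
theorem host_P (hn : 3 ≤ n) {w : X (n + 2 + 5)} (e : w.1 = w1 (pw 4) (pw (n + 2)) .nil) (h3 : ht w.1 = n + 3) :
    w ∉ WAll n := by
  intro h
  have e' : w.1 = pw 3 △ (pw (n + 2) △ .nil) := e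
  rcases two_cases (by omega) h e' (by omega) with ⟨f, hf, ⟨h1, -⟩ | ⟨h1, -⟩⟩ | ⟨h1, -⟩ | ⟨h1, -⟩ | ⟨h1, -⟩ | ⟨h1, -⟩ |
    ⟨h1, -⟩ | ⟨q, -, -, ⟨-, h1⟩ | ⟨h1, -⟩⟩
  · exact absurd (pw_inj (b := 0) h1) (by omega)
  · cases h1
  · exact absurd (pw_inj h1) (by omega)
  · cases h1
  · have := congrArg ht h1
    rw [ht_pw, ht_node, ht_nil, ht_pw] at this
    omega
  · cases h1
  · exact absurd (pw_inj h1) (by omega)
  · exact absurd (pw_inj (b := 1) h1) (by omega)
  · cases h1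

/-- `(())(([s - 1]()()))` -/
theorem host_C1 (hn : 3 ≤ n) {w : X (n + 2 + 5)}
    (e : w.1 = w1 (pw 2) (app (pw (n + 1)) (.nil △ (.nil △ .nil)) △ .nil) .nil) (h3 : ht w.1 = n + 3) :
    w ∉ WAll n := by
  intro h
  have e' : w.1 = (.nil △ .nil) △ (((pw n △ (.nil △ (.nil △ .nil))) △ .nil) △ .nil) := e
  rcases two_cases (by omega) h e' (by omega) with ⟨f, hf, ⟨h1, -⟩ | ⟨h1, -⟩⟩ | ⟨h1, -⟩ | ⟨h1, -⟩ | ⟨h1, -⟩ | ⟨h1, -⟩ |
    ⟨h1, -⟩ | ⟨q, q1, q2, ⟨-, h1⟩ | ⟨-, h1⟩⟩
  · cases h1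
  · cases h1
  · exact absurd (pw_inj (a := 1) h1) (by omega)
  · cases h1
  · have := congrArg ht h1
    rw [ht_node, ht_node, ht_nil, ht_pw] at this
    omega
  · cases h1
  · exact absurd (pw_inj (a := 1) h1) (by omega)
  · have := congrArg ht h1
    simp only [ht_node, ht_nil, ht_pw] at this
    omega
  · have := congrArg pkn h1
    rw [(pkn_Rq q2).1] at this
    obtain ⟨m, rfl⟩ : ∃ m, n = m + 1 := ⟨n - 1, by omega⟩
    change 0 + (0 + (leaf (pw (m + 1)) + pkn (pw (m + 1)) + (1 + 0 + (1 + 0 + 0))) + 0) + 0 = 2 at this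
    rw [pkn_pw] at this
    omega

/-- `(())([s](()))` -/
theorem host_C2 (hn : 3 ≤ n) {w : X (n + 2 + 5)}
    (e : w.1 = w1 (pw 2) (app (pw (n + 2)) ((.nil △ .nil) △ .nil)) .nil) (h3 : ht w.1 = n + 3) :
    w ∉ WAll n := by
  intro h
  have e' : w.1 = (.nil △ .nil) △ ((pw (n + 1) △ ((.nil △ .nil) △ .nil)) △ .nil) := e
  rcases two_cases (by omega) h e' (by omega) with ⟨f, hf, ⟨h1, -⟩ | ⟨h1, -⟩⟩ | ⟨h1, -⟩ | ⟨h1, -⟩ | ⟨h1, -⟩ | ⟨h1, -⟩ |
    ⟨h1, -⟩ | ⟨q, q1, q2, ⟨-, h1⟩ | ⟨-, h1⟩⟩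
  · cases h1
  · cases h1
  · exact absurd (pw_inj (a := 1) h1) (by omega)
  · cases h1
  · have := congrArg ht h1
    rw [ht_node, ht_node, ht_nil, ht_pw] at this
    omega
  · cases h1
  · exact absurd (pw_inj (a := 1) h1) (by omega)
  · have := congrArg ht h1
    simp only [ht_node, ht_nil, ht_pw] at this
    omega
  · obtain ⟨q, rfl⟩ : ∃ q', q = q' + 1 := ⟨q - 1, by omega⟩
    rw [Rq_succ] at h1
    injection h1 with _ h1 _
    rcases q with _ | q
    · change pw (n + 1) △ _ = (.nil △ .nil) △ _ at h1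
      injection h1 with _ h1 _
      exact absurd (pw_inj (b := 1) h1) (by omega)
    · change pw (n + 1) △ _ = _ △ .nil at h1
      injection h1 with _ _ h1
      cases h1

/-- `()(S)` with at most three peaks in `S` -/
theorem host_K (hn : 3 ≤ n) {w : X (n + 2 + 5)} {S : BinaryTree Unit} (hS : pkn S ≤ 3) (hS0 : S ≠ .nil)
    (e : w.1 = w1 (.nil △ .nil) S .nil) (h3 : ht w.1 = n + 3) : w ∉ WAll n := by
  intro h
  have e' : w.1 = .nil △ (S △ .nil) := e
  rcases two_cases (by omega) h e' (by omega) with ⟨f, hf, ⟨h1, -⟩ | ⟨-, h1⟩⟩ | ⟨h1, -⟩ | ⟨h1, -⟩ | ⟨h1, -⟩ | ⟨h1, -⟩ |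
    ⟨h1, -⟩ | ⟨q, q1, q2, ⟨h1, -⟩ | ⟨h1, -⟩⟩
  · exact hS0 h1
  · have := congrArg pkn h1
    rw [pkn_yT4, hf] at this
    change leaf S + pkn S + 0 = _ at this
    have h4 : leaf S = 0 := by
      cases S with
      | nil => exact absurd rfl hS0
      | node _ _ _ => rfl
    omega
  · exact absurd (pw_inj (a := 0) h1) (by omega)
  · cases h1
  · cases h1
  · cases h1
  · exact absurd (pw_inj (a := 0) h1) (by omega)
  · obtain ⟨q, rfl⟩ : ∃ q', q = q' + 1 := ⟨q - 1, by omega⟩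
    rw [Rq_succ] at h1
    injection h1 with _ h1 _
    have := congrArg ht h1
    rw [ht_nil, ht_nest, ht_node, ht_node] at this
    omega
  · cases h1

end T4

end Pool.OddHC
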