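import Pool.Agent.Work.MP_8f87b2_bot.Mid
import Pool.Agent.Work.MP_8f87b2_mid.Types

/-!
MP_8f87b2_co, rows of the middle types against the words of the bottom.
-/

set_option autoImplicit false

namespace Pool.OddHC

open Finset BinaryTree Equiv

variable {k : ℕ}

/-- `[3]()^m` -/
def w3L (m : ℕ) : BinaryTree Unit := tw2 △ uT m
/-- `()^m[3]` -/
def w3R (m : ℕ) : BinaryTree Unit := lv m (tw2 △ .nil)

/-- the words of the bottom: low, prime, `(P)()`, or one word over `[3]` -/
theorem bot_cases {s : Bool} {w : X k} (h : w ∈ botW k s) : ht w.1 ≤ 2 ∨ (∃ Y, w.1 = Y △ .nil) ∨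
    (∃ P, w.1 = P △ (.nil △ .nil) ∧ ht P = 2 ∧ pkn w.1 + 3 ≤ k) ∨
    (s = false ∧ w.1 = w3L (k - 3)) ∨ (s = true ∧ w.1 = w3R (k - 3)) := by
  rcases h with h | ⟨a, ha, hak, f, hf, rfl⟩ | ⟨b, hb, hb', hu, h⟩
  · exact Or.inl h
  · exact Or.inr (Or.inl ⟨_, rfl⟩)
  · unfold lkh at h
    by_cases h1 : b = 1
    · rw [if_pos h1] at h
      subst h1
      have e : k - 2 * (1 + 1) + 1 = k - 3 := by omega
      rw [e] at h
      cases s with
      | false => exact Or.inr (Or.inr (Or.inr (Or.inl ⟨rfl, h⟩)))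
      | true =>
        refine Or.inr (Or.inr (Or.inr (Or.inr ⟨rfl, ?_⟩)))
        rw [h, if_pos rfl, app_uT]
        rfl
    · rw [if_neg h1] at h
      have hP := lP_num b (k - 2 * (b + 1)) (tb k (b + 1))
      refine Or.inr (Or.inr (Or.inl ⟨_, h, ?_, ?_⟩))
      · unfold lP
        rw [ht_yT _ _ hb]
        change ht (uT b) + 1 = 2
        rw [ht_uT' b hb]
      · rw [h]
        change leaf (lP b (k - 2 * (b + 1)) (tb k (b + 1))) + pkn (lP b (k - 2 * (b + 1)) (tb k (b + 1))) +
          (1 + 0 + 0) + 3 ≤ k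
        have hl : leaf (lP b (k - 2 * (b + 1)) (tb k (b + 1))) = 0 := by
          cases hh : lP b (k - 2 * (b + 1)) (tb k (b + 1)) with
          | nil =>
            rw [hh, nz] at hP
            omega
          | node _ A B => rfl
        have hp : pkn (lP b (k - 2 * (b + 1)) (tb k (b + 1))) = b + (k - 2 * (b + 1)) := by
          unfold lP yT
          rw [(ins_num _ _ (by rw [lf_length, X_num])).2, lf_sum, (cm b _ _).2]
          change pkn (uT b) + _ = _
          rw [uT_pkn]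
        rw [hl, hp]
        omega

/-- **the way to use it**: a word of height at least `3` which is not prime, not `(P)()` with `ht P = 2`, and not one of the two
words over `[3]`, is not in the bottom -/
theorem bot_free {s : Bool} {w : X k} (h3 : 3 ≤ ht w.1) (h : 4 ≤ ht w.1 ∨ ((∀ Y, w.1 ≠ Y △ .nil) ∧
    (∀ P, w.1 = P △ (.nil △ .nil) → ht P = 2 → pkn w.1 + 3 ≤ k → False) ∧ (s = false → w.1 ≠ w3L (k - 3)) ∧
    (s = true → w.1 ≠ w3R (k - 3)))) : w ∉ botW k s := by
  intro hw
  have h1 := botW_ht hw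
  rcases h with h | ⟨a, b, c, d⟩
  · omega
  · rcases bot_cases hw with h | ⟨Y, h⟩ | ⟨P, h, h4, h5⟩ | ⟨h, h4⟩ | ⟨h, h4⟩
    · omega
    · exact a Y h
    · exact b P h h4 h5
    · exact c h h4
    · exact d h h4

/-- content of the two special words: all parts but one are beads -/
theorem w3L_pkn {k : ℕ} (hk : 3 ≤ k) : pkn (w3L (k - 3)) + 2 = k := by
  change 0 + (0 + (1 + 0 + 0) + 0) + pkn (uT (k - 3)) + 2 = k
  rw [uT_pkn]
  omega

end Pool.OddHC
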