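import Pool.Agent.Work.MP_8f87b2_h73.T4S

/-!
MP_8f87b2_co, the layer `t = 4` (`k = n + 7`, `s = n + 3`), part U: facts for the rows of the middle types against the words of
this layer and of the top.
-/

set_option autoImplicit false

namespace Pool.OddHC

open Finset BinaryTree Equiv Pool.OddHop

namespace T4

variable {n : ℕ}

theorem app_np {X Y : BinaryTree Unit} (hX : X ≠ .nil) : app X (.nil △ .nil) ≠ Y △ .nil := by
  intro h
  cases X with
  | nil => exact hX rfl
  | node _ A B =>
    change A △ app B (.nil △ .nil) = Y △ .nil at h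
    injection h with _ _ h2
    cases B with
    | nil => cases h2
    | node _ _ _ => cases h2

theorem Xa_ne {a : ℕ} : Xa n a ≠ .nil := by
  intro h
  have := Xa_num n a
  rw [h, nz] at this
  omega

theorem wr_val (i : ℕ) : (wr n i).1 = tr n i := rfl

/-- **F1**: a word of height `k - 4` of the layer is not prime -/
theorem WAll_np (hn : 1 ≤ n) {w : X (n + 2 + 5)} (h : w ∈ WAll n) (h3 : ht w.1 ≤ n + 3) (Y : BinaryTree Unit) :
    w.1 ≠ Y △ .nil := by
  rcases h with ⟨q, h, -, f, hf, e | e | e⟩ | h | ⟨a, ha, h⟩ | h | h | h | h | h | ⟨i, hi, -, rfl⟩ | ⟨q, hq, i, hi, rfl⟩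
  · rw [e, ht_node, ht_yT _ _ (by omega)] at h3
    change max (ht (pw (n + 2)) + 1 + 1) _ ≤ _ at h3
    rw [ht_pw] at h3
    omega
  · rw [e]
    exact app_np (yT_ne (by omega) _ _)
  · rw [e]
    intro h
    injection h with _ _ h2
    exact yT_ne (by omega) _ _ h2
  · rcases h with rfl | rfl | rfl
    · have := pA_inv n; omega
    · change app (pw (n + 3)) (pw 3 △ .nil) ≠ _
      simp [pw_succ, app_node', app_nil']
    · change app (pw 3) (.nil △ pw (n + 3)) ≠ _
      simp [pw_succ, app_node', app_nil']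
  · rcases h with rfl | rfl | rfl
    · rw [ht_xH] at h3; omega
    · exact app_np Xa_ne
    · intro h
      injection h with _ _ h2
      exact Xa_ne h2
  · rcases h with rfl | rfl | rfl
    · have := kA_inv n; omega
    · change app (app (pw (n + 3)) ((.nil △ .nil) △ .nil)) ((.nil △ .nil) △ .nil) ≠ _
      simp [pw_succ, app_node', app_nil']
    · change .nil △ (.nil △ S0 n) ≠ _
      simp
  · rcases h with rfl | rfl | rfl
    · have := lA_inv n; omega
    · change app (pw (n + 3)) (.nil △ (.nil △ (.nil △ (.nil △ .nil)))) ≠ _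
      simp [pw_succ, app_node', app_nil']
    · change (.nil △ (.nil △ (.nil △ .nil))) △ pw (n + 3) ≠ _
      simp [pw_succ]
  · rcases h with rfl | rfl | rfl
    · have := mA_inv n; omega
    · change app (pw (n + 3)) (.nil △ (.nil △ (.nil △ (.nil △ .nil)))) ≠ _
      simp [pw_succ, app_node', app_nil']
    · exact app_np Xa_ne
  · rcases h with rfl | rfl | rfl
    · have := rA_inv n; omega
    · change (.nil △ pw (n + 2)) △ ((.nil △ (.nil △ .nil)) △ .nil) ≠ _
      simp
    · change .nil △ (.nil △ (.nil △ ((.nil △ pw (n + 2)) △ .nil))) ≠ _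
      simp
  · rcases h with rfl | rfl | rfl
    · have := sA_inv n; omega
    · change (((.nil △ pw (n + 1)) △ .nil)) △ (.nil △ (.nil △ (.nil △ .nil))) ≠ _
      simp
    · change (.nil △ (.nil △ .nil)) △ (((.nil △ pw (n + 1)) △ .nil) △ .nil) ≠ _
      simp
  · have hv := wr_inv hn i hi
    have h1 := congrArg Prod.fst hv
    change ht _ = _ at h1
    rw [h1] at h3
    rw [wr_val]
    interval_cases i <;> first
      | (exfalso; simp [hr] at h3; done)
      | (simp [tr, pw_succ]; done)
  · have hv := xt_inv (n := n) hi hq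
    have h1 := congrArg Prod.fst hv
    change ht _ = _ at h1
    rw [h1] at h3
    rw [xt_val hi (by omega)]
    rcases Rform hq with ⟨q0, hR⟩ | ⟨q1, A, B, C, hR⟩ <;> rw [hR] <;> interval_cases i <;> first
      | (exfalso; simp [shi] at h3; done)
      | (simp [sh_0, sh_1, sh_2, sh_3, sh_4, sh_5, sh_6, sh_7, sh_8, sh_9, app_nil', app_node', pw_succ]; done)

/-- **F2**: a word of height `k - 3` of the top is not prime -/
theorem top_np {ι : Q3 (n + 2) → Q3 (n + 2)} {w : X (n + 2 + 5)} (h : w ∈ topW8' (n + 2) ι)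
    (h3 : ht w.1 ≤ n + 4) (Y : BinaryTree Unit) : w.1 ≠ Y △ .nil := by
  rcases top_cases h with c | c | c | ⟨-, -, e⟩ | ⟨-, -, e⟩ | ⟨-, -, e⟩ | ⟨-, -, -, e⟩ | ⟨-, -, f, hf, -, e | e⟩
  · omega
  · omega
  · omega
  · rw [e]; simp
  · rw [e]; simp [pw_succ]
  · rw [e]; simp
  · rw [e]; simp
  · rw [e]
    exact app_yT_ne
  · rw [e]
    intro h
    injection h with _ _ h2
    exact yT_ne (by omega) _ _ h2

/-- a word which is lower than `k - 4`, or prime and of height `k - 4` -/
def LowW (n : ℕ) (w : X (n + 2 + 5)) : Prop := ht w.1 ≤ n + 2 ∨ (ht w.1 = n + 3 ∧ ∃ Y, w.1 = Y △ .nil)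

/-- **such a word is not in the layer and not in the top** -/
theorem LowW.free (hn : 1 ≤ n) {w : X (n + 2 + 5)} (h : LowW n w) {ι : Q3 (n + 2) → Q3 (n + 2)} :
    w ∉ WAll n ∧ w ∉ topW8' (n + 2) ι := by
  constructor
  · intro h'
    rcases h with h | ⟨h, Y, e⟩
    · have := WAll_ht hn h'
      omega
    · exact WAll_np hn h' (by omega) Y e
  · intro h'
    have := top_low h'
    rcases h with h | ⟨h, -⟩ <;> omega

end T4

end Pool.OddHC
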