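import Pool.Agent.Work.MP_8f87b2_h73.Row1
import Pool.Agent.Work.MP_8f87b2_h73.RowB

/-!
MP_8f87b2_co, rows of the windows (all the words `W R [q + 1] B S`, any `Dat q R B S`) against the layers `t ≤ 4`.
-/

set_option autoImplicit false

namespace Pool.OddHC

open Finset BinaryTree Equiv Pool.OddHop

namespace T4

open H1

variable {n q : ℕ} {R B S : BinaryTree Unit}

theorem ht_ch (q : ℕ) : ht (H1.ch q) = q := by
  induction q with
  | zero => rfl
  | succ q ih => rw [H1.ch, ht_node, ih, ht_nil]; omega

theorem ch_eq_pw (q : ℕ) : H1.ch q = pw q := by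
  induction q with
  | zero => rfl
  | succ q ih => rw [H1.ch, pw_succ, ih]

/-- the heights of the words of a window of height at most `k - 6`: only the words `9` and `17` can have the height `k - 4` -/
theorem W_low (hn : 3 ≤ n) (d : Dat q R B S) (hk : R.numNodes + q + 3 = n + 7) (h6 : ht R ≤ n + 1) {i : ℕ} (hi : i < 20) :
    ht (W R (ch (q + 1)) B S i) ≤ n + 2 ∨
      (ht R = n + 1 ∧ (i = 9 ∨ i = 17) ∧ ht (W R (ch (q + 1)) B S i) = n + 3) := by
  have h1 := d.htS
  have h2 := d.htB
  have h3 := d.num
  have h4 := d.big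
  have h5 : ht B ≤ B.numNodes := ht_le B
  have h7 : ht S ≤ S.numNodes := ht_le S
  have hq : ht (ch (q + 1)) = q + 1 := ht_ch _
  have e9 : ht (W R (ch (q + 1)) B S 9) = ht R + 2 := by
    simp only [W, ht_app, ht_node, ht_nil, hq]
    omega
  have e17 : ht (W R (ch (q + 1)) B S 17) = ht S + 2 := by
    simp only [W, ht_app, ht_node, ht_nil, hq]
    omega
  by_cases i9 : i = 9
  · subst i9
    rcases Nat.lt_or_ge (ht R) (n + 1) with h | h
    · left; omega
    · exact Or.inr ⟨by omega, Or.inl rfl, by omega⟩
  · by_cases i17 : i = 17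
    · subst i17
      rcases Nat.lt_or_ge (ht R) (n + 1) with h | h
      · left; omega
      · exact Or.inr ⟨by omega, Or.inr rfl, by omega⟩
    · left
      interval_cases i <;> first
        | exact absurd rfl i9
        | exact absurd rfl i17
        | (simp only [W, ht_app, ht_node, ht_nil, hq]; omega)

theorem leaf_ne {t : BinaryTree Unit} (h : t ≠ .nil) : leaf t = 0 := by
  cases t with
  | nil => exact absurd rfl h
  | node _ A B => rfl

theorem pkn_prime {t : BinaryTree Unit} (h : t ≠ .nil) : pkn (t △ .nil) = pkn t := by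
  change leaf t + pkn t + 0 = pkn t
  rw [leaf_ne h]
  omega

theorem pkn_dat (d : Dat q R B S) : pkn R = pkn S + pkn B := by
  have hn := d.num
  have hR := d.ne
  have h := TT2 (k := R.numNodes) (x := ⟨R, mem_treesOfNumNodesEq.2 rfl⟩)
    (y := ⟨app B S, mem_treesOfNumNodesEq.2 (by rw [num_app]; omega)⟩) hR d.sq rfl
  have h2 := pkn_same (same2 h)
  change pkn R = pkn (app B S) at h2
  rw [h2, pkn_app]
  omega

/-- the exceptional windows of the height `k - 6`: content `(s, 3, 1, 1, 1)`; content `(s, 4, 2)` over `R_p`; content `(s, 6)` -/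
def WinBad (n q : ℕ) (R B S : BinaryTree Unit) : Prop :=
  (q = 0 ∧ pkn R = 4) ∨
  (q = 1 ∧ pkn R = 2 ∧ ∃ p, 1 ≤ p ∧ p ≤ n + 1 ∧ ((R △ .nil) △ .nil = Rq n p ∨ (S △ B) △ .nil = Rq n p)) ∨
  (q = 3 ∧ R = pw (n + 1))

/-- **ROW, windows of the height at most `k - 6`, words** -/
theorem W_free6 (hn : 3 ≤ n) (d : Dat q R B S) (hk : R.numNodes + q + 3 = n + 7) (h6 : ht R ≤ n + 1)
    (hbad : ht R = n + 1 → ¬ WinBad n q R B S) {i : ℕ} (hi : i < 20) {w : X (n + 2 + 5)}
    (e : w.1 = W R (ch (q + 1)) B S i) {ι : Q3 (n + 2) → Q3 (n + 2)} : w ∉ WAll n ∧ w ∉ topW8' (n + 2) ι := by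
  rcases W_low hn d hk h6 hi with h1 | ⟨h1, h2, h3⟩
  · exact LowW.free (by omega) (Or.inl (by rw [e]; exact h1))
  · rw [← e] at h3
    have hb := hbad h1
    have hR : R ≠ .nil := d.ne
    have hS : S ≠ .nil := by
      intro h
      have := d.htS
      rw [h, ht_nil] at this
      omega
    have hnum := d.num
    have hbig := d.big
    refine ⟨fun hw => ?_, fun hw => ?_⟩
    · rcases h2 with rfl | rfl
      · have e' : w.1 = (R △ .nil) △ (ch q △ .nil) := e
        rcases two_cases (by omega) hw e' (by omega) with ⟨f, hf, ⟨h4, h5⟩ | ⟨h4, -⟩⟩ | ⟨h4, h5⟩ | ⟨h4, -⟩ | ⟨h4, -⟩ |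
          ⟨h4, -⟩ | ⟨-, h4⟩ | ⟨p, p1, p2, ⟨h4, h5⟩ | ⟨h4, -⟩⟩
        · have h6 := congrArg pkn h5
          rw [pkn_yT4, hf, pkn_prime (by simp), pkn_prime hR] at h6
          have h7 := congrArg ht h4
          rw [ht_ch, ht_nil] at h7
          exact hb (Or.inl ⟨h7, h6⟩)
        · cases h4
        · have h7 := congrArg ht h5
          rw [ht_ch, ht_pw] at h7
          injection h4 with _ h4 _
          exact hb (Or.inr (Or.inr ⟨h7, h4⟩))
        · injection h4 with _ _ h4
          cases h4
        · injection h4 with _ _ h4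
          exact absurd (pw_inj (a := 0) h4) (by omega)
        · injection h4 with _ _ h4
          cases h4
        · rcases q with _ | q
          · cases h4
          · injection h4 with _ _ h4
            cases h4
        · have h7 := congrArg ht h5
          rw [ht_ch, ht_node, ht_nil] at h7
          have h8 := congrArg pkn h4
          rw [(pkn_Rq p2).1, pkn_prime (by simp), pkn_prime hR] at h8
          exact hb (Or.inr (Or.inl ⟨by omega, h8, p, p1, p2, Or.inl h4⟩))
        · injection h4 with _ h4 _
          exact hR h4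
      · have e' : w.1 = ch q △ ((S △ B) △ .nil) := e
        rcases two_cases (by omega) hw e' (by omega) with ⟨f, hf, ⟨h4, h5⟩ | ⟨h4, h5⟩⟩ | ⟨h4, h5⟩ | ⟨h4, -⟩ | ⟨h4, -⟩ |
          ⟨h4, -⟩ | ⟨h4, -⟩ | ⟨p, p1, p2, ⟨h4, h5⟩ | ⟨h4, h5⟩⟩
        · cases h4
        · have h6 := congrArg pkn h5
          rw [pkn_yT4, hf, pkn_prime (by simp)] at h6
          have h7 := congrArg ht h4
          rw [ht_ch, ht_nil] at h7
          have h8 := pkn_dat d
          change leaf S + pkn S + pkn B = _ at h6
          rw [leaf_ne hS] at h6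
          exact hb (Or.inl ⟨h7, by omega⟩)
        · have h7 := congrArg ht h4
          rw [ht_ch, ht_pw] at h7
          omega
        · rcases q with _ | q
          · cases h4
          · injection h4 with _ _ h4
            cases h4
        · rcases q with _ | q
          · cases h4
          · injection h4 with _ _ h4
            exact absurd (pw_inj (a := 0) h4) (by omega)
        · rcases q with _ | q
          · cases h4
          · injection h4 with _ _ h4
            cases h4
        · have h7 := congrArg ht h4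
          rw [ht_ch, ht_pw] at h7
          omega
        · injection h5 with _ h5 _
          exact hS h5
        · have h7 := congrArg ht h4
          rw [ht_ch, ht_node, ht_nil] at h7
          have h8 := congrArg pkn h5
          have h9 := pkn_dat d
          rw [(pkn_Rq p2).1, pkn_prime (by simp)] at h8
          change leaf S + pkn S + pkn B = _ at h8
          rw [leaf_ne hS] at h8
          exact hb (Or.inr (Or.inl ⟨by omega, by omega, p, p1, p2, Or.inr h5⟩))
    · have := top_low hw
      omega

end T4

end Pool.OddHC
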