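import Pool.Agent.Work.MP_8f87b2_h73.Row2
import Pool.Agent.Work.MP_8f87b2_mid.FirstMax

/-!
MP_8f87b2_co, rows of type A (the H1 windows) against the layers `t ≤ 4`.
-/

set_option autoImplicit false

namespace Pool.OddHC

open Finset BinaryTree Equiv Pool.OddHop

namespace T4

open H1

variable {n q : ℕ} {B1 H s B : BinaryTree Unit}

/-! ### Heavy words which are almost as small as their height -/

theorem hv_num {t : BinaryTree Unit} (h : hv t) (h0 : t ≠ .nil) : 3 ≤ t.numNodes := by
  have h1 := hv_ht h h0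
  rw [tht] at h1
  have := ht_le t
  omega

theorem hv_pw {t : BinaryTree Unit} (h : hv t) (h0 : t ≠ .nil) (hs : t.numNodes ≤ ht t + 2) : t = pw (ht t) := by
  induction t with
  | nil => exact absurd rfl h0
  | node u A X ihA ihX =>
    change A △ X = pw (ht (A △ X))
    change (A △ X).numNodes ≤ ht (A △ X) + 2 at hs
    rw [nn, ht_node] at hs
    have h1 := hv_node.1 h
    have hA : 2 ≤ A.numNodes := by
      rcases h1.1 with e | ⟨e, e'⟩
      · rw [e, nn, nn, nz]
      · have := hv_num e' e
        omega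
    have a1 := ht_le A
    have a2 := ht_le X
    have hX : X = .nil := by
      by_contra hX
      have := hv_num h1.2 hX
      omega
    subst hX
    rw [ht_node, ht_nil]
    rw [nz, ht_nil] at hs
    rcases h1.1 with e | ⟨e, e'⟩
    · subst e
      rfl
    · have := ihA e' e (by omega)
      rw [Nat.max_eq_left (by omega), pw_succ, ← this]

/-- the nodes of the height `k - 6`: `R = (H[n])`, `|H| + q = 3` -/
theorem nodeG6 (h : NodeG (n + 2 + 5) q B1 H s B) (hs : ht s = n) : B1 = .nil ∧ B = .nil ∧ s = pw n ∧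
    H.numNodes + q = 3 := by
  have h1 := h.size
  unfold gR at h1
  rw [num_app, nn, num_app] at h1
  have h2 := ht_le s
  have h3 : 1 ≤ H.numNodes := by
    have := h.H0
    cases H with
    | nil => exact absurd rfl this
    | node _ A X => change 1 ≤ A.numNodes + X.numNodes + 1; omega
  have hB1 : B1 = .nil := by
    by_contra h4
    have := hv_num h.h1 h4
    omega
  have hB : B = .nil := by
    by_contra h4
    have := hv_num h.hB h4
    omega
  subst hB1
  subst hB
  rw [nz] at h1
  have e : s = pw n := by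
    have := hv_pw h.hs h.s0 (by omega)
    rw [this, hs]
  refine ⟨rfl, rfl, e, ?_⟩
  have : s.numNodes = n := by rw [e, pw_num]
  omega

theorem gR6 (H : BinaryTree Unit) (n : ℕ) : gR .nil H (pw n) .nil = app H (pw n) △ .nil := rfl

/-- the content of a word with four parts -/
theorem cont4 {t : BinaryTree Unit} {m : ℕ} (h1 : pkn t = 4) (h2 : t.numNodes = m + 3) (h3 : m ∈ cont t) :
    cont t = {m, 1, 1, 1} := by
  obtain ⟨M, hM⟩ := Multiset.exists_cons_of_mem h3
  have c1 := cont_card t
  have c2 := cont_sum t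
  have c3 := cont_pos t
  rw [hM] at c1 c2 c3 ⊢
  rw [Multiset.card_cons] at c1
  rw [Multiset.sum_cons] at c2
  have c4 : M = Multiset.replicate 3 1 := by
    have h4 : Multiset.card M = 3 := by omega
    have h5 : M.sum = 3 := by omega
    obtain ⟨a, b, c, rfl⟩ := Multiset.card_eq_three.1 h4
    have h6 := c3 a (by simp)
    have h7 := c3 b (by simp)
    have h8 := c3 c (by simp)
    simp at h5
    obtain rfl : a = 1 := by omega
    obtain rfl : b = 1 := by omega
    obtain rfl : c = 1 := by omega
    rfl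
  rw [c4]
  rfl

/-- the content of a word with two parts -/
theorem cont2 {t : BinaryTree Unit} {m j : ℕ} (h1 : pkn t = 2) (h2 : t.numNodes = m + j) (h3 : m ∈ cont t) :
    cont t = {m, j} := by
  obtain ⟨M, hM⟩ := Multiset.exists_cons_of_mem h3
  have c1 := cont_card t
  have c2 := cont_sum t
  rw [hM] at c1 c2 ⊢
  rw [Multiset.card_cons] at c1
  rw [Multiset.sum_cons] at c2
  obtain ⟨a, rfl⟩ := Multiset.card_eq_one.1 (show Multiset.card M = 1 by omega)
  simp at c2
  obtain rfl : a = j := by omega
  rfl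

theorem sup_mem {M : Multiset ℕ} (h : M ≠ 0) : M.sup ∈ M := by
  induction M using Multiset.induction with
  | empty => exact absurd rfl h
  | cons a M ih =>
    rw [Multiset.sup_cons]
    by_cases h0 : M = 0
    · subst h0
      simp
    · rcases le_total a M.sup with h1 | h1
      · rw [sup_eq_right.2 h1]
        exact Multiset.mem_cons_of_mem (ih h0)
      · rw [sup_eq_left.2 h1]
        exact Multiset.mem_cons_self _ _

theorem ht_mem_cont {t : BinaryTree Unit} (h : t ≠ .nil) : ht t ∈ cont t := by
  have h1 : cont t ≠ 0 := by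
    intro h2
    have := cont_sum t
    rw [h2] at this
    change 0 = _ at this
    cases t with
    | nil => exact absurd rfl h
    | node _ A X => change 0 = A.numNodes + X.numNodes + 1 at this; omega
  have h3 := sup_mem h1
  rwa [← _root_.Pool.OddHC.ht_eq t] at h3

variable {F : Set (Cyc (n + 2 + 5))} {g : DG (n + 2 + 5)} {ι : Q3 (n + 2) → Q3 (n + 2)}

/-- **ROW A, words** -/
theorem tyA_top (hn : 3 ≤ n) (h : TyA F g) (hF : ∀ c ∈ F, htc c ≤ n + 1)
    (hc : ∀ c ∈ F, contc c ≠ {n + 1, 4, 2} ∧ contc c ≠ {n + 1, 3, 1, 1, 1}) :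
    ∀ w ∈ g.B, w ∉ WAll n ∧ w ∉ topW8' (n + 2) ι := by
  obtain ⟨q, B1, H, s, B, w0, h1, rfl, rfl⟩ := h
  intro w hw
  obtain ⟨i, hi, rfl⟩ := mem_gad20.1 hw
  have d := h1.dat
  have e0 := h1.cont0 w0
  have hR := h1.ht
  have hs := h1.size
  have hh : htc (cyc (gX q B1 H s B w0 0)) = ht (gR B1 H s B) := by
    rw [htc_cyc, h1.word w0 (by norm_num)]
    have b1 := d.big
    have b2 : ht (ch (q + 1)) = q + 1 := ht_ch _
    simp only [W, ht_app, ht_node, ht_nil, b2]
    omega
  have h6 := hF _ rfl
  rw [hh] at h6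
  have hc' := hc _ rfl
  change cont (gX q B1 H s B w0 0).1 ≠ _ ∧ cont (gX q B1 H s B w0 0).1 ≠ _ at hc'
  rw [e0] at hc'
  refine W_free6 hn d (by omega) h6 ?_ hi (h1.word w0 hi)
  intro h7
  have hm : n + 1 ∈ cont (gR B1 H s B) := by
    rw [← h7]
    exact ht_mem_cont d.ne
  rintro (⟨rfl, h8⟩ | ⟨rfl, h8, -⟩ | ⟨rfl, h8⟩)
  · apply hc'.2
    rw [cont4 h8 (by omega) hm]
    change ((n + 1) ::ₘ ({1, 1, 1} : Multiset ℕ)) + {3} = (n + 1) ::ₘ ({3, 1, 1, 1} : Multiset ℕ)
    rw [Multiset.cons_add]
    exact congrArg (Multiset.cons (n + 1)) (by decide)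
  · apply hc'.1
    rw [cont2 h8 (show _ = n + 1 + 2 by omega) hm]
    change ((n + 1) ::ₘ ({2} : Multiset ℕ)) + {4} = (n + 1) ::ₘ ({4, 2} : Multiset ℕ)
    rw [Multiset.cons_add]
    exact congrArg (Multiset.cons (n + 1)) (by decide)
  · obtain ⟨-, -, -, h9⟩ := nodeG6 h1 (by omega)
    have := h1.H0
    cases hH : H with
    | nil => exact absurd hH this
    | node _ A X =>
      rw [hH] at h9
      change A.numNodes + X.numNodes + 1 + 3 = 3 at h9
      omega

/-! ### The inner word of the arc `9 → 17` -/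

/-- ends with five times `0` -/
def Z5 (l : List Bool) : Prop := ∃ v, l = v ++ List.replicate 5 false

theorem Z5.suf {l : List Bool} (h : Z5 l) : Suf l := by
  obtain ⟨v, rfl⟩ := h
  exact Suf.rep (by norm_num) v

theorem not_Z5 {u : List Bool} : ¬ Z5 (u ++ [true, true, false, false]) := by
  rintro ⟨v, hv⟩
  have h := congrArg (fun l => (l.reverse.drop 2).head?) hv
  simp [List.replicate] at h

theorem not_Z5' {u : List Bool} : ¬ Z5 (u ++ [true, false, false]) := by
  rintro ⟨v, hv⟩
  have h := congrArg (fun l => (l.reverse.drop 2).head?) hv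
  simp [List.replicate] at h

theorem not_Z54 {u : List Bool} : ¬ Z5 (u ++ [true, false, false, false, false]) := by
  rintro ⟨v, hv⟩
  have h := congrArg (fun l => (l.reverse.drop 4).head?) hv
  simp [List.replicate] at h

/-- a word of the layer of height `k - 4` does not start with `1^(n+3)` and end with five times `0` -/
theorem WAll_PZ (hn : 3 ≤ n) {w : X (n + 2 + 5)} (h : w ∈ WAll n) (h3 : ht w.1 ≤ n + 3) (hP : Pre (n + 3) (wd w.1))
    (hZ : Z5 (wd w.1)) : False := by
  have hS := hZ.suf
  have e00 : wd ((.nil △ .nil) △ .nil) = [true, true, false, false] := rfl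
  rcases h with ⟨q, h, -, f, hf, e' | e' | e'⟩ | h | ⟨a, ha, h⟩ | h | h | h | h | h | ⟨i, hi, -, rfl⟩ | ⟨q, hq, i, hi, rfl⟩
  · rw [e', ht_node, ht_yT _ _ (by omega)] at h3
    change max (ht (pw (n + 2)) + 1 + 1) _ ≤ _ at h3
    rw [ht_pw] at h3
    omega
  · rw [e'] at hS
    exact notSuf1 hS
  · rw [e'] at hP
    exact notPre1 hP
  · rcases h with rfl | rfl | rfl
    · have := pA_inv n; omega
    · change Z5 (wd (app (pw (n + 3)) (pw 3 △ .nil))) at hZ
      rw [wd_app] at hZ
      have e : wd (pw 3 △ .nil) = [true, true, true] ++ [true, false, false, false, false] := rfl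
      rw [e, ← List.append_assoc] at hZ
      exact not_Z54 hZ
    · change Pre (n + 3) (wd (app (pw 3) (.nil △ pw (n + 3)))) at hP
      obtain ⟨m, rfl⟩ : ∃ m, n = m + 1 := ⟨n - 1, by omega⟩
      obtain ⟨v, hv⟩ := hP
      have e3 : wd (pw 3) = [true, true, true, false, false, false] := rfl
      rw [wd_app, e3] at hv
      simp [List.replicate_succ] at hv
  · rcases h with rfl | rfl | rfl
    · rw [ht_xH] at h3; omega
    · exact notSuf1 hS
    · exact notPre1 hP
  · rcases h with rfl | rfl | rfl
    · have := kA_inv n; omega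
    · change Z5 (wd (app (S0 n) ((.nil △ .nil) △ .nil))) at hZ
      rw [wd_app, e00] at hZ
      exact not_Z5 hZ
    · exact notPre1 hP
  · rcases h with rfl | rfl | rfl
    · have := lA_inv n; omega
    · have e : (lB n).1 = app (app (pw (n + 3)) (.nil △ (.nil △ (.nil △ .nil)))) (.nil △ .nil) := by
        change app (pw (n + 3)) (.nil △ (.nil △ (.nil △ (.nil △ .nil)))) = _
        simp [pw_succ, app_node', app_nil']
      rw [e] at hS
      exact notSuf1 hS
    · exact notPre2 hP
  · rcases h with rfl | rfl | rfl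
    · have := mA_inv n; omega
    · have e : (lB n).1 = app (app (pw (n + 3)) (.nil △ (.nil △ (.nil △ .nil)))) (.nil △ .nil) := by
        change app (pw (n + 3)) (.nil △ (.nil △ (.nil △ (.nil △ .nil)))) = _
        simp [pw_succ, app_node', app_nil']
      rw [e] at hS
      exact notSuf1 hS
    · exact notSuf1 hS
  · rcases h with rfl | rfl | rfl
    · have := rA_inv n; omega
    · exact notPre2 hP
    · exact notPre1 hP
  · rcases h with rfl | rfl | rfl
    · have := sA_inv n; omega
    · exact notPre3 (by omega) hP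
    · exact notPre2 hP
  · have hv := wr_inv (show 1 ≤ n by omega) i hi
    have h1 := congrArg Prod.fst hv
    change ht _ = _ at h1
    rw [h1] at h3
    rw [wr_val] at hP hZ hS
    have f0 : tr n 0 = app (pw (n + 2) △ ((.nil △ .nil) △ .nil)) ((.nil △ .nil) △ .nil) := rfl
    have f1 : tr n 1 = app (pw (n + 2) △ ((.nil △ .nil) △ (.nil △ .nil))) (.nil △ .nil) := rfl
    have f13 : tr n 13 = app (pw (n + 2) △ .nil) (((.nil △ .nil) △ (.nil △ .nil)) △ .nil) := rfl
    have f16 : tr n 16 = app (pw (n + 2) △ (((.nil △ .nil) △ .nil) △ .nil)) (.nil △ .nil) := rfl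
    interval_cases i
    · rw [f0, wd_app, e00] at hZ
      exact not_Z5 hZ
    · rw [f1] at hS
      exact notSuf1 hS
    · exact notPre1 hP
    · simp [hr] at h3
    · exact notPre2 hP
    · exact notPre1 hP
    · simp [hr] at h3
    · simp [hr] at h3
    · simp [hr] at h3
    · simp [hr] at h3
    · exact notPre2 hP
    · exact notPre2 hP
    · simp [hr] at h3
    · have e : wd (((.nil △ .nil) △ (.nil △ .nil)) △ .nil : BinaryTree Unit) =
          [true, true, true, false, false] ++ [true, false, false] := rfl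
      rw [f13, wd_app, e, ← List.append_assoc] at hZ
      exact not_Z5' hZ
    · simp [hr] at h3
    · simp [hr] at h3
    · rw [f16] at hS
      exact notSuf1 hS
    · simp [hr] at h3
    · exact notPre1 hP
    · simp [hr] at h3
  · have hv := xt_inv (n := n) hi hq
    have h1 := congrArg Prod.fst hv
    change ht _ = _ at h1
    rw [h1] at h3
    rw [xt_val hi (by omega)] at hP hZ hS
    interval_cases i
    · simp [shi] at h3
    · exact notPre1 hP
    · exact notPre1 hP
    · simp [shi] at h3
    · simp [shi] at h3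
    · simp [shi] at h3
    · simp [shi] at h3
    · rw [sh_7, wd_app, e00] at hZ
      exact not_Z5 hZ
    · have e : sh 8 (Rq n q) = app (app (Rq n q) (.nil △ .nil)) (.nil △ .nil) := by
        rw [sh_8, H1.app_assoc]
        rfl
      rw [e] at hS
      exact notSuf1 hS
    · exact notPre2 hP

theorem rep_snoc (m : ℕ) (l : List Bool) : List.replicate m false ++ false :: l = List.replicate (m + 1) false ++ l := by
  rw [List.replicate_succ', List.append_assoc]
  rfl

/-- **ROW A, inner words** -/
theorem tyA_topI (hn : 6 ≤ n) (h : TyA F g) (hF : ∀ c ∈ F, htc c ≤ n + 1) :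
    ∀ a ∈ g.arcs, ∀ w ∈ innA a, w ∉ WAll n ∧ w ∉ topW8' (n + 2) ι := by
  obtain ⟨q, B1, H, s, B, w0, h1, rfl, rfl⟩ := h
  intro a ha w hw
  obtain rfl : w = TT a.1 := hw
  have d := h1.dat
  have hR := h1.ht
  have hs := h1.size
  have hh : htc (cyc (gX q B1 H s B w0 0)) = ht (gR B1 H s B) := by
    rw [htc_cyc, h1.word w0 (by norm_num)]
    have b1 := d.big
    have b2 : ht (ch (q + 1)) = q + 1 := ht_ch _
    simp only [W, ht_app, ht_node, ht_nil, b2]
    omega
  have h6 := hF _ rfl
  rw [hh] at h6
  obtain ⟨i, hi, h17, e⟩ : ∃ i < 20, i ≠ 17 ∧ a.1 = gX q B1 H s B w0 i := by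
    have ha' : a = (gX q B1 H s B w0 0, gX q B1 H s B w0 10) ∨
      a = (gX q B1 H s B w0 1, gX q B1 H s B w0 11) ∨
      a = (gX q B1 H s B w0 3, gX q B1 H s B w0 12) ∨
      a = (gX q B1 H s B w0 6, gX q B1 H s B w0 15) ∨
      a = (gX q B1 H s B w0 8, gX q B1 H s B w0 14) ∨
      a = (gX q B1 H s B w0 9, gX q B1 H s B w0 17) := ha
    rcases ha' with rfl | rfl | rfl | rfl | rfl | rfl
    · exact ⟨0, by norm_num, by norm_num, rfl⟩
    · exact ⟨1, by norm_num, by norm_num, rfl⟩
    · exact ⟨3, by norm_num, by norm_num, rfl⟩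
    · exact ⟨6, by norm_num, by norm_num, rfl⟩
    · exact ⟨8, by norm_num, by norm_num, rfl⟩
    · exact ⟨9, by norm_num, by norm_num, rfl⟩
  have hT : ht (TT a.1).1 = ht a.1.1 := ht_same (same_T _)
  have hw := h1.word w0 hi
  rcases W_low (by omega) d (by omega) h6 hi with h2 | ⟨h2, h3, h4⟩
  · refine LowW.free (by omega) (Or.inl ?_)
    rw [hT, e, hw]
    exact h2
  · rcases h3 with rfl | rfl
    · obtain ⟨rfl, rfl, rfl, hH⟩ := nodeG6 h1 (by omega)
      have k1 : Tsq.ht H ≤ 2 := bl_ht h1.light
      obtain ⟨m, rfl⟩ : ∃ m, n = m + 1 := ⟨n - 1, by omega⟩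
      have t0 : Tsq.ht (pw (m + 1)) = m + 1 := by rw [tht, ht_pw]
      have f1 := (FM_pw m).app_left (P := H) (by omega)
      have t1 : Tsq.ht (app H (pw (m + 1))) = m + 1 := by rw [Tsq.ht_app, t0]; omega
      have tn : Tsq.ht (.nil : BinaryTree Unit) = 0 := rfl
      have f2 := f1.node (Z := .nil) (by omega)
      have t2 : Tsq.ht (app H (pw (m + 1)) △ .nil) = m + 2 := by rw [Tsq.ht_node, t1, tn]; omega
      have f3 := f2.node (Z := .nil) (by omega)
      have t3 : Tsq.ht ((app H (pw (m + 1)) △ .nil) △ .nil) = m + 3 := by rw [Tsq.ht_node, t2, tn]; omega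
      have tc : Tsq.ht (ch (q + 1)) = q + 1 := by rw [tht, ht_ch]
      have hb := d.big
      rw [hR, ht_pw] at hb
      have f4 := f3.node (Z := ch (q + 1)) (by omega)
      have e9 : a.1.1 = ((app H (pw (m + 1)) △ .nil) △ .nil) △ ch (q + 1) := by rw [e, hw]; rfl
      rw [← e9] at f4
      have eT := f4.wdT
      have en : wd (.nil : BinaryTree Unit) = [] := rfl
      rw [en, rep_snoc, List.append_nil, rep_snoc, List.append_nil, rep_snoc] at eT
      have hta : ht (TT a.1).1 = m + 1 + 3 := by rw [hT, e, hw, h4]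
      refine ⟨fun hw' => ?_, fun hw' => ?_⟩
      · refine WAll_PZ (by omega) hw' (by omega) ?_ ?_
        · rw [eT]
          exact ⟨(wd (ch (q + 1))).map not ++ false ::
            (true :: true :: true :: (wd H ++ List.replicate m true)).map not, by simp⟩
        · rw [eT]
          obtain ⟨r, rfl⟩ : ∃ r, m = r + 5 := ⟨m - 5, by omega⟩
          refine ⟨(List.replicate (r + 5 + 1 + 1 + 1 + 1) false ++ wd (ch (q + 1))).map not ++ false ::
            ((true :: true :: true :: wd H).map not ++ List.replicate r false), ?_⟩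
          have e5 : List.replicate (r + 5) true = List.replicate r true ++ List.replicate 5 true := by
            rw [List.replicate_append_replicate]
          rw [e5]
          simp
      · have := top_low hw'
        omega
    · exact absurd rfl h17

end T4

end Pool.OddHC
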