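import Pool.Agent.Work.MP_8f87b2_h73.RowF
import Pool.Agent.Work.MP_8f87b2_h73.Row3

/-!
# The windows of type A against top, layer `k - 4` and bottom
-/

set_option autoImplicit false

namespace Pool.OddHC

open Finset Equiv BinaryTree Pool.Agent.Work.MP_8f87b2_co T4

variable {n k : ℕ} {s : Bool}

section

variable {F : Set (Cyc (n + 2 + 5))} {g : DG (n + 2 + 5)}

/-- **TOP, A**: height at most `k - 6`, two contents excluded -/
theorem TyA.topF (hn : 3 ≤ n) (h : TyA F g) (hF : ∀ c ∈ F, htc c ≤ n + 1)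
    (hc : ∀ c ∈ F, contc c ≠ {n + 1, 4, 2} ∧ contc c ≠ {n + 1, 3, 1, 1, 1}) : ∀ w ∈ g.B, FreeTop n w :=
  fun w hw => FreeTop.mk2 fun ι => tyA_top hn h hF hc w hw

/-- **TOP, A, inner words** -/
theorem TyA.topIF (hn : 6 ≤ n) (h : TyA F g) (hF : ∀ c ∈ F, htc c ≤ n + 1) :
    ∀ a ∈ g.arcs, ∀ w ∈ innA a, FreeTop n w :=
  fun a ha w hw => FreeTop.mk2 fun ι => tyA_topI hn h hF a ha w hw

/-- **TOP, A**, height at most `k - 7` -/
theorem TyA.topF7 (hn : 3 ≤ n) (h : TyA F g) (hF : ∀ c ∈ F, htc c ≤ n) : ∀ w ∈ g.B, FreeTop n w := by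
  refine h.topF hn (fun c hc => by have := hF c hc; omega) fun c hc => ⟨fun e => ?_, fun e => ?_⟩
  all_goals
    have h1 := hF c hc
    unfold htc at h1
    rw [e] at h1
    have h2 : n + 1 ≤ ({n + 1, 4, 2} : Multiset ℕ).sup := Multiset.le_sup (by simp)
    have h3 : n + 1 ≤ ({n + 1, 3, 1, 1, 1} : Multiset ℕ).sup := Multiset.le_sup (by simp)
    omega

end

variable {F : Set (Cyc k)} {g : DG k}

theorem TyA.ht473 (h : TyA F g) : ∀ c ∈ F, 4 ≤ htc c := by
  obtain ⟨q, B1, H, s, B, w0, h1, rfl, rfl⟩ := h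
  rintro c rfl
  have h2 := h1.cont0 w0
  have h3 := h1.ht
  have h4 := h1.hs3
  unfold htc
  rw [contc_cyc, h2]
  have h5 : (cont (H1.gR B1 H s B)).sup = ht (H1.gR B1 H s B) := (ht_eq _).symm
  rw [Multiset.sup_add, h5]
  have : ht (H1.gR B1 H s B) ≤ ht (H1.gR B1 H s B) ⊔ ({q + 3} : Multiset ℕ).sup := le_sup_left
  omega

/-- **BOTTOM, A** -/
theorem TyA.botF (h : TyA F g) : ∀ w ∈ g.B, w ∉ botW k s := by
  intro w hw
  have h4 := h.ht473
  have h5 : 4 ≤ ht w.1 := by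
    rcases h.rank w hw with h1 | h1
    · have := h4 _ h1
      rwa [htc_cyc] at this
    · obtain ⟨q, B1, H, s, B, w0, h6, rfl, rfl⟩ := h
      have h2 := h4 _ rfl
      have h3 := h1 _ rfl
      unfold htc at h2
      rw [contc_cyc] at h3
      rw [ht_eq]
      rcases h3 with h3 | ⟨h3, -⟩
      · omega
      · omega
  exact bot_free (by omega) (Or.inl h5)

end Pool.OddHC
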