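import Pool.Agent.Work.MP_8f87b2_fin.Asm
import Pool.Agent.Work.MP_8f87b2_h73.Row1
import Pool.Agent.Work.MP_8f87b2_h73.Row2
import Pool.Agent.Work.MP_8f87b2_h73.RowB
import Pool.Agent.Work.MP_8f87b2_h27.Ed
import Pool.Agent.Work.MP_8f87b2_h2.KHj
import Pool.Agent.Work.MP_8f87b2_h29.DnRows

/-!
# The plain triples against top, layer `k - 4` and bottom

`IsTri.topF`: height at most `k - 6`. `TyE.topF`: height at most `k - 5`. `IsTri.bot`: the bottom, with `BotOK`.
-/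

set_option autoImplicit false

namespace Pool.OddHC

open Finset Equiv BinaryTree Pool.Agent.Work.MP_8f87b2_co T4

variable {n k : ℕ} {P Q R S : BinaryTree Unit}

theorem FreeTop.mk2 {w : X (n + 2 + 5)} (h : ∀ ι : Q3 (n + 2) → Q3 (n + 2), w ∉ WAll n ∧ w ∉ topW8' (n + 2) ι) :
    FreeTop n w := FreeTop.of (fun ι => (h ι).2) (fun h' => absurd h' (h id).1)

section

variable {F : Set (Cyc (n + 2 + 5))} {g : DG (n + 2 + 5)}

/-- **TOP, every plain triple of height at most `k - 6`** -/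
theorem IsTri.topF (hn : 1 ≤ n) (h : IsTri P Q R F g) (hF : ∀ c ∈ F, htc c ≤ n + 1) : ∀ w ∈ g.B, FreeTop n w :=
  fun w hw => FreeTop.mk2 fun ι => tri_top hn h hF w hw

/-- a plain triple has no inner words -/
theorem IsTri.topI (h : IsTri P Q R F g) (inn : X (n + 2 + 5) × X (n + 2 + 5) → Set (X (n + 2 + 5))) :
    ∀ a ∈ g.arcs, ∀ w ∈ inn a, FreeTop n w := fun a ha => (tri_arcs h a ha).elim

/-- **TOP, height at most `k - 5`, with a free host** -/
theorem IsTri.topF5 (hn : 1 ≤ n) (h : IsTri P Q R F g) (hF : ∀ c ∈ F, htc c ≤ n + 2)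
    (hh : ∀ w : X (n + 2 + 5), w.1 = w1 P Q R → ht w.1 = n + 3 → w ∉ WAll n) : ∀ w ∈ g.B, FreeTop n w :=
  fun w hw => FreeTop.mk2 fun ι => tri_top5 hn h hF hh w hw

/-- **TOP, E triples, height at most `k - 5`** -/
theorem IsTri.topE (hn : 1 ≤ n) (h : IsTri .nil Q .nil F g) (hF : ∀ c ∈ F, htc c ≤ n + 2) : ∀ w ∈ g.B, FreeTop n w :=
  fun w hw => FreeTop.mk2 fun ι => triE_top hn h hF w hw

theorem TyE.topF (hn : 1 ≤ n) (h : TyE F g) (hF : ∀ c ∈ F, htc c ≤ n + 2) : ∀ w ∈ g.B, FreeTop n w := by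
  obtain ⟨j, r, f, -, -, h⟩ := h
  exact h.topE hn hF

theorem TyL.topF (hn : 1 ≤ n) (h : TyL F g) (hF : ∀ c ∈ F, htc c ≤ n + 1) : ∀ w ∈ g.B, FreeTop n w := by
  obtain ⟨R', e, -, -, -, -, h⟩ := h
  exact h.topF hn hF

theorem TyKh.topF (hn : 1 ≤ n) (h : TyKh F g) (hF : ∀ c ∈ F, htc c ≤ n + 1) : ∀ w ∈ g.B, FreeTop n w := by
  obtain ⟨S, -, h⟩ := h
  exact IsTri.topF hn h hF

theorem TyDn.topF (hn : 1 ≤ n) (h : TyDn F g) (hF : ∀ c ∈ F, htc c ≤ n + 1) : ∀ w ∈ g.B, FreeTop n w := by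
  obtain ⟨S, -, h⟩ := h
  exact IsTri.topF hn h hF

/-! ### The links of the height `k - 5` -/

/-- `Cl([s], 5)`: host `[4]([s])` -/
theorem IsTri.topP (hn : 3 ≤ n) (h : TyC' 4 (H1.ch (n + 2)) F g) (hF : ∀ c ∈ F, htc c ≤ n + 2) :
    ∀ w ∈ g.B, FreeTop n w := by
  refine IsTri.topF5 (by omega) h hF fun w e h3 => host_P hn (e.trans ?_) h3
  rw [ch_eq_pw, ch_eq_pw]

/-- `Cl(([s-1]()()), 3)`: host `(())(([s-1]()()))` -/
theorem IsTri.topC1 (hn : 3 ≤ n)
    (h : TyC' 2 (app (H1.ch (n + 1)) (lp 2) △ .nil) F g) (hF : ∀ c ∈ F, htc c ≤ n + 2) :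
    ∀ w ∈ g.B, FreeTop n w := by
  refine IsTri.topF5 (by omega) h hF fun w e h3 => host_C1 hn (e.trans ?_) h3
  rw [ch_eq_pw, ch_eq_pw]
  rfl

/-- `Cl([s](()), 3)`: host `(())([s](()))` -/
theorem IsTri.topC2 (hn : 3 ≤ n)
    (h : TyC' 2 (app (H1.ch (n + 2)) (H1.ch 2)) F g) (hF : ∀ c ∈ F, htc c ≤ n + 2) :
    ∀ w ∈ g.B, FreeTop n w := by
  refine IsTri.topF5 (by omega) h hF fun w e h3 => host_C2 hn (e.trans ?_) h3
  rw [ch_eq_pw, ch_eq_pw]
  rfl

/-- `K'(S)` with at most three leaves: host `()(S)` -/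
theorem IsTri.topK' (hn : 3 ≤ n) (hS : pkn S ≤ 3) (hS0 : S ≠ .nil) (h : TyK' S F g) (hF : ∀ c ∈ F, htc c ≤ n + 2) :
    ∀ w ∈ g.B, FreeTop n w :=
  IsTri.topF5 (by omega) h hF fun w e h3 => host_K hn hS hS0 e h3

/-- LONG: host `()^5([s])`, only for `n + 3` not `1` mod `4` -/
theorem IsTri.topLong (hn : 3 ≤ n) (h4 : (n + 3) % 4 ≠ 1) (h : IsTri P Q R F g) (hF : ∀ c ∈ F, htc c ≤ n + 2)
    (e : w1 P Q R = (oX n).1) : ∀ w ∈ g.B, FreeTop n w := by
  intro w hw
  rcases h.words w hw with e1 | ⟨e1, -⟩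
  · have e2 : w = oX n := Subtype.ext (e1.trans e)
    refine FreeTop.of (fun ι => ?_) fun _ => ⟨e2, h4⟩
    have h1 : ht w.1 ≤ n + 3 := by
      rw [e1]
      exact host_ht h hF
    intro hw
    have := top_low hw
    omega
  · have h1 : LowW n w := Or.inl (by
      have := hF _ e1
      rw [htc_cyc] at this
      omega)
    exact FreeTop.mk2 fun ι => h1.free (by omega)

end

/-! ### Bottom -/

/-- the condition on the tree of a new word of height `3` -/
def BotOK (k : ℕ) (s : Bool) (t : BinaryTree Unit) : Prop :=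
  (∀ Y, t ≠ Y △ .nil) ∧ (∀ P, t = P △ (.nil △ .nil) → ht P = 2 → pkn t + 3 ≤ k → False) ∧
    (s = false → t ≠ w3L (k - 3)) ∧ (s = true → t ≠ w3R (k - 3))

variable {F : Set (Cyc k)} {g : DG k} {s : Bool}

theorem IsTri.bot (h : IsTri P Q R F g) (hF : ∀ c ∈ F, 3 ≤ htc c)
    (hb : (∀ c ∈ F, 4 ≤ htc c) ∨ (BotOK k s (w1 Q R P) ∧ BotOK k s (w1 R P Q))) : ∀ w ∈ g.B, w ∉ botW k s := by
  intro w hw
  rcases h.rank w hw with h1 | h1
  · have h2 := hF _ h1
    rw [htc_cyc] at h2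
    refine bot_free h2 ?_
    rcases hb with hb | ⟨hb, hb'⟩
    · left
      have h3 := hb _ h1
      rwa [htc_cyc] at h3
    · right
      rcases h.words w hw with e | ⟨-, e | e⟩
      · exfalso
        obtain ⟨a, b, c, ha, -, -, -, h4, h5, rfl, -⟩ := h
        obtain rfl : w = a := Subtype.ext (e.trans ha.symm)
        rcases h1 with h1 | h1
        · rw [h1] at h5
          exact lt_irrefl _ h5
        · rw [h1, h4] at h5
          exact lt_irrefl _ h5
      · rw [e]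
        exact hb
      · rw [e]
        exact hb'
  · obtain ⟨c, hc⟩ : ∃ c, c ∈ F := by
      obtain ⟨a, b, c, -, -, -, -, -, -, rfl, -⟩ := h
      exact ⟨_, Or.inl rfl⟩
    have h2 := h1 c hc
    have h3 := hF c hc
    rw [htc_cyc] at h2
    exact bot_free (by omega) (Or.inl (by omega))

theorem w1_snoc (Q : BinaryTree Unit) : w1 Q .nil .nil = app Q (.nil △ .nil) := rfl

theorem app_snoc' {X A B : BinaryTree Unit} (h : app X (.nil △ .nil) = A △ B) (hX : X ≠ .nil) :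
    ∃ X', X = A △ X' ∧ B = app X' (.nil △ .nil) := by
  cases X with
  | nil => exact absurd rfl hX
  | node _ C D =>
    change C △ app D (.nil △ .nil) = _ at h
    injection h with _ h1 h2
    exact ⟨D, by rw [h1], h2.symm⟩

theorem app_ne_nil {X Y : BinaryTree Unit} (hY : Y ≠ .nil) : app X Y ≠ .nil := by
  cases X with
  | nil => exact hY
  | node _ _ _ => intro h; cases h

/-- `(P)()` with `ht P = 2` and two more nodes than leaves has a part `2` -/
theorem two_of_pkn {P t : BinaryTree Unit} (hk : t.numNodes = k) (e : t = P △ (.nil △ .nil)) (hP : ht P = 2)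
    (h : pkn t + 3 ≤ k) : 1 ≤ (cont t).count 2 := by
  by_contra h0
  have h0 : (cont t).count 2 = 0 := by omega
  have h2 : 2 ∉ cont t := fun h3 => by have := Multiset.count_pos.2 h3; omega
  have hP0 : P ≠ .nil := by
    rintro rfl
    exact absurd hP (by decide)
  have e1 : cont t = (2 + 1) ::ₘ ((cont P).erase 2 + {1}) := by
    rw [e, cont_node, show cont (.nil △ .nil) = {1} from rfl]
    unfold raise
    rw [← ht_eq, hP, Multiset.cons_add]
  have e2 : ∀ x ∈ (cont P).erase 2 + {1}, x = 1 := by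
    intro x hx
    have h3 : x ≠ 2 := by
      rintro rfl
      exact h2 (by rw [e1]; exact Multiset.mem_cons_of_mem hx)
    rcases Multiset.mem_add.1 hx with hx | hx
    · have h4 := Multiset.mem_of_mem_erase hx
      have h5 := cont_pos P x h4
      have h6 := Multiset.le_sup h4
      rw [← ht_eq, hP] at h6
      omega
    · exact Multiset.mem_singleton.1 hx
  have e3 := Multiset.eq_replicate_card.2 e2
  have c1 := cont_sum t
  have c2 := cont_card t
  rw [e1, Multiset.sum_cons, e3, Multiset.sum_replicate] at c1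
  rw [e1, Multiset.card_cons, e3, Multiset.card_replicate] at c2
  simp only [smul_eq_mul, mul_one] at c1
  omega

end Pool.OddHC
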