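import Pool.Agent.Work.MP_8f87b2_h73.RowF
import Pool.Agent.Work.MP_8f87b2_h27.S5D

/-!
# The plain types against the bottom

`TyE.bot`, `TyL.bot`, `bot_K`, `bot_K'`, `TyDn.bot`, `bot_C` (`c + 1 ≤ ht R`), `bot_C'`. Only the E triples have a condition: `PileOK`.
-/

set_option autoImplicit false

namespace Pool.OddHC

open Finset Equiv BinaryTree Pool.Agent.Work.MP_8f87b2_co T4

variable {k : ℕ} {P Q R S t A : BinaryTree Unit} {L : List (BinaryTree Unit)} {s : Bool}

theorem comps_w3L (m : ℕ) : comps (w3L m) = tw2 :: List.replicate m .nil := by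
  change tw2 :: comps (uT m) = _
  rw [show uT m = lp m from rfl, comps_lp]

theorem comps_w3R (m : ℕ) : comps (w3R m) = List.replicate m .nil ++ [tw2] := by
  unfold w3R
  induction m with
  | zero => rfl
  | succ m ih =>
    change .nil :: comps (lv m (tw2 △ .nil)) = _
    rw [ih, List.replicate_succ]
    rfl

theorem heavy_mem {S : BinaryTree Unit} (h : 2 ≤ ht S) : ∃ x ∈ comps S, x ≠ .nil := by
  by_contra h0
  push_neg at h0
  exact not_lp h (List.eq_replicate_of_mem h0)

/-- the last component is not a leaf -/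
theorem botOK_last (hk : 4 ≤ k) (h : comps t = L ++ [A]) (hA : A ≠ .nil) (hL : L ≠ [])
    (h3 : A = tw2 → ∃ x ∈ L, x ≠ .nil) : BotOK k s t := by
  refine ⟨?_, ?_, ?_, ?_⟩
  · rintro Y rfl
    have e : [] ++ [Y] = L ++ [A] := h
    exact hL (List.append_inj_left' e rfl).symm
  · rintro P rfl _ _
    have e : [P] ++ [.nil] = L ++ [A] := h
    have := List.append_inj_right' e rfl
    injection this with e1 _
    exact hA e1.symm
  · rintro _ rfl
    obtain ⟨m, e⟩ : ∃ m, k - 3 = m + 1 := ⟨k - 4, by omega⟩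
    rw [comps_w3L, e, List.replicate_succ', ← List.cons_append] at h
    have := List.append_inj_right' h rfl
    injection this with e1 _
    exact hA e1.symm
  · rintro _ rfl
    rw [comps_w3R] at h
    have h1 := List.append_inj_right' h rfl
    injection h1 with e1 _
    obtain ⟨x, hx, hx'⟩ := h3 e1.symm
    rw [← List.append_inj_left' h rfl] at hx
    exact hx' (List.eq_of_mem_replicate hx)

/-- the first component is not a leaf -/
theorem botOK_first (hk : 4 ≤ k) (h : comps t = A :: L) (hA : A ≠ .nil) (hL : L ≠ [])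
    (h2 : ht A = 2 → L ≠ [.nil]) (h3 : A = tw2 → ∃ x ∈ L, x ≠ .nil) : BotOK k s t := by
  refine ⟨?_, ?_, ?_, ?_⟩
  · rintro Y rfl
    injection h with h4 h5
    exact hL h5.symm
  · rintro P rfl h4 _
    injection h with h5 h6
    exact h2 (h5 ▸ h4) h6.symm
  · rintro _ rfl
    rw [comps_w3L] at h
    injection h with h5 h6
    obtain ⟨x, hx, hx'⟩ := h3 h5.symm
    rw [← h6] at hx
    exact hx' (List.eq_of_mem_replicate hx)
  · rintro _ rfl
    obtain ⟨m, e⟩ : ∃ m, k - 3 = m + 1 := ⟨k - 4, by omega⟩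
    rw [comps_w3R, e, List.replicate_succ, List.cons_append] at h
    injection h with h5 _
    exact hA h5.symm

/-- `()()S`, `S` does not start with a leaf -/
theorem botOK_two (hk : 6 ≤ k) (h : comps t = .nil :: .nil :: A :: L) (hA : A ≠ .nil) : BotOK k s t := by
  refine ⟨?_, ?_, ?_, ?_⟩
  · rintro Y rfl
    injection h with h4 h5
    cases h5
  · rintro P rfl h4 _
    injection h with h5 h6
    rw [h5] at h4
    exact absurd h4 (by decide)
  · rintro _ rfl
    rw [comps_w3L] at h
    injection h with h5 h6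
    exact absurd h5 (by decide)
  · rintro _ rfl
    obtain ⟨m, e⟩ : ∃ m, k - 3 = m + 1 + 1 + 1 := ⟨k - 6, by omega⟩
    rw [comps_w3R, e, List.replicate_succ, List.replicate_succ, List.replicate_succ] at h
    injection h with _ h5
    injection h5 with _ h5
    injection h5 with h5 _
    exact hA h5.symm

/-- `S()()`, `S` not `[3]()^m` -/
theorem botOK_two' (hk : 5 ≤ k) (h : comps t = L ++ [.nil, .nil]) (hL : L ≠ []) (h3 : L ≠ tw2 :: List.replicate (k - 5) .nil) :
    BotOK k s t := by
  refine ⟨?_, ?_, ?_, ?_⟩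
  · rintro Y rfl
    have := congrArg List.length h
    simp only [comps, List.length_cons, List.length_nil, List.length_append] at this
    omega
  · rintro P rfl _ _
    have := congrArg List.length h
    simp only [comps, List.length_cons, List.length_nil, List.length_append] at this
    exact hL (List.eq_nil_of_length_eq_zero (by omega))
  · rintro _ rfl
    obtain ⟨m, e⟩ : ∃ m, k - 3 = m + 2 ∧ k - 5 = m := ⟨k - 5, by omega, rfl⟩
    rw [e.2] at h3
    rw [comps_w3L, e.1, List.replicate_add, ← List.cons_append] at h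
    exact h3 (List.append_inj_left' h rfl).symm
  · rintro _ rfl
    have e : L ++ [.nil, .nil] = (L ++ [.nil]) ++ [(.nil : BinaryTree Unit)] := by simp
    rw [comps_w3R, e] at h
    have h1 := List.append_inj_right' h rfl
    injection h1 with e1 _
    exact absurd e1 (by decide)

variable {F : Set (Cyc k)} {g : DG k}

/-- **BOTTOM, right K links** -/
theorem bot_K (hk : 6 ≤ k) (h : TyK S F g) (hF : ∀ c ∈ F, 3 ≤ htc c) (h0 : S ≠ .nil) (h1 : ∀ Y, S ≠ .nil △ Y) :
    ∀ w ∈ g.B, w ∉ botW k s := by
  refine IsTri.bot h hF (Or.inr ⟨?_, ?_⟩)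
  · refine botOK_last (L := comps S) (A := .nil △ .nil) (by omega) (by rw [comps_w1]; simp [comps]) (by simp)
      (comps_ne h0) (fun e => absurd e (by decide))
  · obtain ⟨A, X, rfl⟩ : ∃ A X, S = A △ X := by
      cases S with
      | nil => exact absurd rfl h0
      | node _ A X => exact ⟨A, X, rfl⟩
    exact botOK_two hk (A := A) (L := comps X) rfl (by rintro rfl; exact h1 X rfl)

theorem TyKh.bot (hk : 6 ≤ k) (h : TyKh F g) (hF : ∀ c ∈ F, 3 ≤ htc c) : ∀ w ∈ g.B, w ∉ botW k s := by
  obtain ⟨S, h1, h2⟩ := h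
  refine bot_K hk h2 hF h1.ne ?_
  rintro Y rfl
  have key : ∀ S1 X : BinaryTree Unit, H1.hv S1 → S1 ≠ .nil → (.nil : BinaryTree Unit) △ Y ≠ app S1 X := by
    intro S1 X h3 h4 e
    cases S1 with
    | nil => exact h4 rfl
    | node _ A Z =>
      have e1 : (.nil : BinaryTree Unit) △ Y = A △ app Z X := e
      have e2 := (H1.node_inj e1).1
      rcases h3.1 with h5 | ⟨h5, _⟩
      · rw [h5] at e2
        exact absurd e2 (by simp)
      · exact h5 e2.symm
  rcases h1 with h1 | h1 | h1 | h1 | h1 | h1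
  · obtain ⟨S1, q, e, h3, h4, _⟩ := h1
    exact key _ _ h3 h4 e
  · obtain ⟨S1, q, e, h3, h4⟩ := h1
    exact key _ _ h3 h4 e
  · obtain ⟨S1, q, e, h3, h4⟩ := h1
    exact key _ _ h3 h4 e
  · obtain ⟨S1, q, e, h3, h4⟩ := h1
    exact key _ _ h3 h4 e
  · obtain ⟨S1, A, m, e, h3, h5⟩ := h1
    by_cases h4 : S1 = .nil
    · rw [h4] at e
      have e1 : (.nil : BinaryTree Unit) △ Y = app A (lp 1) △ lp (m + 1) := e
      have e2 := (H1.node_inj e1).1
      cases A with
      | nil => exact absurd e2 (by intro e3; cases e3)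
      | node _ _ _ => exact absurd e2 (by intro e3; cases e3)
    · exact key _ _ h3 h4 e
  · obtain ⟨S1, q, e, h3, h4⟩ := h1
    exact key _ _ h3 h4 e

/-- **BOTTOM, left K links** -/
theorem bot_K' (hk : 6 ≤ k) (h : TyK' S F g) (hF : ∀ c ∈ F, 3 ≤ htc c) (h0 : S ≠ .nil)
    (h1 : ∀ c m, S ≠ app (H1.ch c) (lp m)) : ∀ w ∈ g.B, w ∉ botW k s := by
  refine IsTri.bot h hF (Or.inr ⟨?_, ?_⟩)
  · refine botOK_two' (L := comps S) (by omega) (by rw [comps_w1]; simp [comps]) (comps_ne h0) ?_
    intro e
    refine h1 3 (k - 5) (comps_inj ?_)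
    rw [e, comps_app, comps_lp]
    rfl
  · refine botOK_first (A := .nil △ .nil) (L := comps S) (by omega) (by rw [comps_w1]; rfl) (by simp) (comps_ne h0)
      (fun e => absurd e (by decide)) (fun e => absurd e (by decide))

/-- **BOTTOM, L** -/
theorem bot_L (hk : 6 ≤ k) (h : IsTri (lp 1) Q (lp 1) F g) (hF : ∀ c ∈ F, 3 ≤ htc c) (h0 : Q ≠ .nil) :
    ∀ w ∈ g.B, w ∉ botW k s := by
  have e1 : comps (w1 Q (lp 1) (lp 1)) = comps Q ++ [lp 1, .nil] := by rw [comps_w1]; rfl
  have e2 : comps (w1 (lp 1) (lp 1) Q) = .nil :: lp 1 :: comps Q := by rw [comps_w1]; rfl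
  have h5 := comps_ne h0
  refine IsTri.bot h hF (Or.inr ⟨⟨?_, ?_, ?_, ?_⟩, ⟨?_, ?_, ?_, ?_⟩⟩)
  · intro Y e
    rw [e] at e1
    have := congrArg List.length e1
    simp only [comps, List.length_cons, List.length_nil, List.length_append] at this
    omega
  · intro Y e _ _
    rw [e] at e1
    have := congrArg List.length e1
    simp only [comps, List.length_cons, List.length_nil, List.length_append] at this
    exact h5 (List.eq_nil_of_length_eq_zero (by omega))
  · intro _ e
    obtain ⟨m, e0⟩ : ∃ m, k - 3 = m + 2 := ⟨k - 5, by omega⟩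
    rw [e, comps_w3L, e0, List.replicate_add, ← List.cons_append] at e1
    have := List.append_inj_right' e1 rfl
    injection this with e3 _
    exact absurd e3 (by decide)
  · intro _ e
    have e3 : comps Q ++ [lp 1, .nil] = (comps Q ++ [lp 1]) ++ [(.nil : BinaryTree Unit)] := by simp
    rw [e, comps_w3R, e3] at e1
    have := List.append_inj_right' e1 rfl
    injection this with e3 _
    exact absurd e3 (by decide)
  · intro Y e
    rw [e] at e2
    injection e2 with _ e3
    cases e3
  · intro Y e h6 _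
    rw [e] at e2
    injection e2 with e3 _
    rw [e3] at h6
    exact absurd h6 (by decide)
  · intro _ e
    rw [e, comps_w3L] at e2
    injection e2 with e3 _
    exact absurd e3 (by decide)
  · intro _ e
    obtain ⟨m, e0⟩ : ∃ m, k - 3 = m + 1 + 1 := ⟨k - 5, by omega⟩
    rw [e, comps_w3R, e0, List.replicate_succ, List.replicate_succ] at e2
    injection e2 with _ e3
    injection e3 with e3 _
    exact absurd e3 (by decide)

theorem TyL.bot (hk : 6 ≤ k) (h : TyL F g) (hF : ∀ c ∈ F, 3 ≤ htc c) : ∀ w ∈ g.B, w ∉ botW k s := by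
  obtain ⟨R', e, h1, h2, -, -, h3⟩ := h
  refine bot_L hk h3 hF ?_
  have h4 := ht_ins_ge R' e h1
  intro e0
  rw [e0, OddHC.ht] at h4
  omega

/-- **BOTTOM, DOWN links** -/
theorem TyDn.bot (hk : 6 ≤ k) (h : TyDn F g) (hF : ∀ c ∈ F, 3 ≤ htc c) : ∀ w ∈ g.B, w ∉ botW k s := by
  obtain ⟨U, hU, h⟩ := h
  have h3 := hU.h3
  refine IsTri.bot h hF (Or.inr ⟨?_, ?_⟩)
  · exact botOK_last (L := comps U) (A := H1.ch 2) (by omega) (by rw [comps_w1]; rfl) (by decide)
      (comps_ne hU.ne) (fun _ => heavy_mem (by omega))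
  · refine botOK_first (A := H1.ch 1) (L := .nil :: comps U) (by omega) (by rw [comps_w1]; rfl) (by decide) (by simp)
      (fun e => absurd e (by decide)) (fun e => absurd e (by decide))

/-- **BOTTOM, right content links** -/
theorem bot_C {c : ℕ} (h : TyC c R F g) (hc : 3 ≤ c) (hR : c + 1 ≤ ht R) : ∀ w ∈ g.B, w ∉ botW k s := by
  have h4 : ∀ d ∈ F, 4 ≤ htc d := by
    obtain ⟨a, b, c', -, hb, hc', -, h5, -, rfl, -⟩ := h
    have h6 : 4 ≤ htc (cyc c') := by
      rw [htc_cyc, hc']
      unfold w1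
      rw [ht_app, ht_node]
      omega
    rintro d (rfl | rfl)
    · rw [h5]
      exact h6
    · exact h6
  exact IsTri.bot h (fun d hd => by have := h4 d hd; omega) (Or.inl h4)

/-- **BOTTOM, left content links** -/
theorem bot_C' {c : ℕ} (hk : 6 ≤ k) (h : TyC' c R F g) (hc : 2 ≤ c) (hR : c + 1 ≤ ht R) : ∀ w ∈ g.B, w ∉ botW k s := by
  have h4 : ∀ d ∈ F, ht R ≤ htc d := by
    obtain ⟨a, b, c', -, hb, hc', -, h5, -, rfl, -⟩ := h
    have h6 : ht R ≤ htc (cyc b) := by
      rw [htc_cyc, hb]
      unfold w1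
      rw [ht_app]
      omega
    rintro d (rfl | rfl)
    · exact h6
    · rw [← h5]
      exact h6
  rcases Nat.lt_or_ge c 3 with h7 | h7
  · obtain rfl : c = 2 := by omega
    have hR0 : R ≠ .nil := by
      rintro rfl
      exact absurd hR (by decide)
    refine IsTri.bot h (fun d hd => by have := h4 d hd; omega) (Or.inr ⟨?_, ?_⟩)
    · exact botOK_last (L := comps R ++ [.nil]) (A := H1.ch 1) (by omega)
        (by rw [comps_w1, List.append_assoc]; rfl) (by decide) (by simp) (fun e => absurd e (by decide))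
    · refine botOK_first (A := H1.ch 2) (L := comps R) (by omega) (by rw [comps_w1]; rfl) (by decide)
        (comps_ne hR0) (fun _ e => ?_) (fun _ => heavy_mem (by omega))
      obtain ⟨x, hx, hx'⟩ := heavy_mem (S := R) (by omega)
      rw [e] at hx
      exact hx' (List.mem_singleton.1 hx)
  · exact IsTri.bot h (fun d hd => by have := h4 d hd; omega) (Or.inl fun d hd => by have := h4 d hd; omega)

/-- the E pair does not use the word over `[3]` which the bottom uses -/
def PileOK (s : Bool) (F : Set (Cyc k)) : Prop :=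
  (s = false → ∀ w w' : X k, w.1 = w3L (k - 3) → w'.1 = .nil △ w3L (k - 4) → F ≠ {cyc w, cyc w'}) ∧
    (s = true → ∀ w w' : X k, w.1 = app (w3R (k - 4)) (.nil △ .nil) → w'.1 = w3R (k - 3) → F ≠ {cyc w, cyc w'})

theorem w3L_cont {m : ℕ} : cont (w3L m) = 3 ::ₘ Multiset.replicate m 1 := by
  have e : cont (uT m) = Multiset.replicate m 1 := by
    induction m with
    | zero => rfl
    | succ m ih =>
      change raise 0 + cont (uT m) = _
      rw [ih, Multiset.replicate_succ]
      rfl
  change raise (cont tw2) + cont (uT m) = _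
  rw [e]
  rfl

theorem w3R_cont {m : ℕ} : cont (w3R m) = 3 ::ₘ Multiset.replicate m 1 := by
  unfold w3R
  induction m with
  | zero => rfl
  | succ m ih =>
    change raise 0 + cont (lv m (tw2 △ .nil)) = _
    rw [ih, Multiset.replicate_succ, Multiset.cons_swap]
    rfl

/-- only the content `(3, 1, .., 1)` matters -/
theorem PileOK.of_cont {d : Cyc k} (hd : d ∈ F) (h : contc d ≠ 3 ::ₘ Multiset.replicate (k - 3) 1) (hk : 4 ≤ k) :
    PileOK s F := by
  have e4 : k - 3 = k - 4 + 1 := by omega
  refine ⟨?_, ?_⟩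
  · rintro - w w' hw hw' rfl
    rcases hd with rfl | rfl
    · exact h (by rw [contc_cyc, hw, w3L_cont])
    · refine h ?_
      rw [contc_cyc, hw', cont_node, w3L_cont, e4, Multiset.replicate_succ, Multiset.cons_swap]
      rfl
  · rintro - w w' hw hw' rfl
    rcases hd with rfl | rfl
    · refine h ?_
      rw [contc_cyc, hw, cont_app, w3R_cont, e4, Multiset.replicate_succ, Multiset.cons_swap, add_comm]
      rfl
    · exact h (by rw [contc_cyc, hw', w3R_cont])

/-- **BOTTOM, E** -/
theorem TyE.bot (hk : 6 ≤ k) (h : TyE F g) (hF : ∀ c ∈ F, 3 ≤ htc c) (hP : PileOK s F) : ∀ w ∈ g.B, w ∉ botW k s := by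
  obtain ⟨j, r, f, hj, hL, ht⟩ := h
  have hl : (lf f).length = 2 * r.1.numNodes + 1 := by rw [lf_length, X_num]
  obtain ⟨a, b, c, ha, hb, hc, h1, h2, h3, hFe, hg⟩ := ht
  have ht : IsTri .nil (ins r.1 (lf f)) .nil F g := ⟨a, b, c, ha, hb, hc, h1, h2, h3, hFe, hg⟩
  have hQ : ins r.1 (lf f) ≠ .nil := by
    intro e
    have h5 := hF (cyc b) (by rw [hFe]; exact Or.inl rfl)
    rw [htc_cyc, hb, e] at h5
    exact absurd h5 (by decide)
  have key : ∀ P, w1 (ins r.1 (lf f)) .nil .nil = P △ (.nil △ .nil) → OddHC.ht P = 2 →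
      pkn (w1 (ins r.1 (lf f)) .nil .nil) + 3 ≤ k → False := by
    intro P e hP2 hpk
    obtain ⟨e1, -⟩ := T4.app_snoc (X := ins r.1 (lf f)) (A := P) (B := .nil) e hQ
    have h6 := two_of_pkn (k := k) (by rw [← hb]; exact X_num b) e hP2 hpk
    have h7 : 1 ≤ (cont r.1).count 1 := by
      rw [← H1.count_ins hl 0]
      have h8 : cont (w1 (ins r.1 (lf f)) .nil .nil) = cont (ins r.1 (lf f)) + {1} := by
        rw [w1_snoc, cont_app]
        rfl
      rw [h8, Multiset.count_add, Multiset.count_singleton, if_neg (by norm_num)] at h6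
      exact h6
    obtain ⟨r', hr'⟩ := hL.1 h7
    rw [hr'] at e1
    have h9 : ins (.nil △ r') (lf f) = lv ((lf f).headD 0) (ins .nil (bump .nil ((lf f).tail.take 1)) △
      ins r' ((lf f).drop 2)) := rfl
    rw [h9] at e1
    have h10 : ∀ l, ins .nil l = lp (l.headD 0) := fun l => rfl
    rw [h10] at e1
    cases hh : (lf f).headD 0 with
    | zero =>
      rw [hh] at e1
      change lp _ △ _ = P △ .nil at e1
      injection e1 with _ e1 _
      have h11 := ht_lp ((bump .nil ((lf f).tail.take 1)).headD 0)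
      rw [e1, hP2] at h11
      omega
    | succ m =>
      rw [hh] at e1
      change .nil △ _ = P △ .nil at e1
      injection e1 with _ e1 _
      rw [← e1] at hP2
      exact absurd hP2 (by decide)
  have e4 : k - 3 = k - 4 + 1 := by omega
  have c1 : comps (w1 (ins r.1 (lf f)) .nil .nil) = comps (ins r.1 (lf f)) ++ [.nil] := by rw [comps_w1]; rfl
  refine IsTri.bot ht hF (Or.inr ⟨⟨?_, key, ?_, ?_⟩, ⟨?_, ?_, ?_, ?_⟩⟩)
  · intro Y e
    rw [e] at c1
    have := congrArg List.length c1
    simp only [comps, List.length_cons, List.length_nil, List.length_append] at this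
    exact comps_ne hQ (List.eq_nil_of_length_eq_zero (by omega))
  · intro hs e
    have e5 : ins r.1 (lf f) = w3L (k - 4) := by
      apply comps_inj
      rw [e, comps_w3L, e4, List.replicate_succ', ← List.cons_append] at c1
      rw [comps_w3L]
      exact (List.append_inj_left' c1 rfl).symm
    refine hP.1 hs b c (by rw [hb, e]) (by rw [hc, e5]; rfl) hFe
  · intro _ e
    rw [e, comps_w3R] at c1
    have := List.append_inj_right' c1 rfl
    injection this with e3 _
    exact absurd e3 (by decide)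
  · intro Y e
    change .nil △ _ = Y △ .nil at e
    injection e with _ _ e
    exact hQ e
  · intro Y e h6 _
    change .nil △ _ = Y △ _ at e
    injection e with _ e _
    rw [← e] at h6
    exact absurd h6 (by decide)
  · intro _ e
    have := congrArg comps e
    rw [comps_w3L, comps_w1] at this
    injection this with e3 _
    exact absurd e3 (by decide)
  · intro hs e
    have e5 : ins r.1 (lf f) = w3R (k - 4) := by
      apply comps_inj
      have e6 := congrArg comps e
      rw [comps_w3R, comps_w1, e4, List.replicate_succ] at e6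
      rw [comps_w3R]
      injection e6
    refine hP.2 hs b c (by rw [hb, e5]; rfl) (by rw [hc, e]) hFe

end Pool.OddHC
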