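import Pool.Agent.Work.MP_8f87b2_top.Top8B
import Pool.Agent.Work.MP_8f87b2_h35.Links
import Pool.Agent.Work.MP_8f87b2_h24.GadJM
import Pool.Agent.Work.MP_8f87b2_h24.GadJA

/-!
MP_8f87b2_co, the layer `t = 4` (height `s = k - 4`, `k = n + 7`, `s = n + 3`), part A: the square of `T` on nested words, the
words `Rq n q` = `q` brackets around `(())[s - q]`, the ten shapes `sh i R`.
-/

set_option autoImplicit false

namespace Pool.OddHC

open Finset BinaryTree Equiv

namespace T4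

/-! ### The square of `T` on nested words -/

theorem tht (t : BinaryTree Unit) : Tsq.ht t = ht t := by
  induction t with
  | nil => rfl
  | node _ A B ihA ihB =>
    change max (Tsq.ht A + 1) (Tsq.ht B) = max (ht A + 1) (ht B)
    rw [ihA, ihB]

theorem pw_ne {t : ℕ} (h : 1 ≤ t) : pw t ≠ .nil := by
  obtain ⟨t, rfl⟩ : ∃ t', t = t' + 1 := ⟨t - 1, by omega⟩
  rw [pw_succ]
  intro h
  cases h

theorem sq_pw (t : ℕ) : Tsq.sq (pw (t + 1)) = (pw (t + 1), .nil) := by
  induction t with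
  | zero => rfl
  | succ t ih =>
    rw [pw_succ (t + 1), Tsq.sq_wrap (pw_ne (by omega)) (by
      rw [tht, tht]
      change 0 ≤ _
      omega), ih]

/-- prefix and nested word: the first maximum is in the nested word -/
theorem sq_pre_pw (A : BinaryTree Unit) (t : ℕ) (h : ht A < t + 1) :
    Tsq.sq (app A (pw (t + 1))) = (nest 1 (app A (pw t)), .nil) := by
  rw [Tsq.sq_pre A (pw (t + 1)) (by rw [tht, tht, ht_pw]; exact h), sq_pw]
  rfl

/-- `T²` moves the prefix up -/
theorem sq_up (A : BinaryTree Unit) (t i : ℕ) (h : ht A < t + 1) :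
    Tsq.sq (nest i (app A (pw (t + 1)))) = (nest (i + 1) (app A (pw t)), .nil) := by
  induction i with
  | zero => exact sq_pre_pw A t h
  | succ i ih =>
    have hne : nest i (app A (pw (t + 1))) ≠ .nil := by
      intro h0
      have := congrArg BinaryTree.numNodes h0
      rw [nest_num, num_app, pw_num] at this
      simp [BinaryTree.numNodes] at this
    change Tsq.sq (nest i (app A (pw (t + 1))) △ .nil) = _
    rw [Tsq.sq_wrap hne (by
      rw [tht, tht]
      change 0 ≤ _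
      omega), ih]
    rfl

theorem sq_front (t : ℕ) (ht1 : 1 ≤ t) (Z : BinaryTree Unit) (h : ht Z ≤ t) :
    Tsq.sq (app (pw t) Z) = (pw t, Z) := by
  rw [Tsq.sq_app (pw t) Z (pw_ne ht1) (by rw [tht, tht, ht_pw]; exact h)]
  obtain ⟨t, rfl⟩ : ∃ t', t = t' + 1 := ⟨t - 1, by omega⟩
  rw [sq_pw]
  rfl

/-- `T²` moves the suffix down -/
theorem sq_dn (Z : BinaryTree Unit) (t i : ℕ) (ht1 : 1 ≤ t) (h : ht Z ≤ t) :
    Tsq.sq (nest (i + 1) (app (pw t) Z)) = (nest i (app (pw (t + 1)) Z), .nil) := by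
  have hne : ∀ i, nest i (app (pw t) Z) ≠ .nil := by
    intro i h0
    have := congrArg BinaryTree.numNodes h0
    rw [nest_num, num_app, pw_num] at this
    simp [BinaryTree.numNodes] at this
    omega
  induction i with
  | zero =>
    have hne0 : app (pw t) Z ≠ .nil := hne 0
    change Tsq.sq (app (pw t) Z △ .nil) = _
    rw [Tsq.sq_wrap hne0 (by
      rw [tht, tht]
      change 0 ≤ _
      omega), sq_front t ht1 Z h]
    rfl
  | succ i ih =>
    change Tsq.sq (nest (i + 1) (app (pw t) Z) △ .nil) = _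
    rw [Tsq.sq_wrap (hne (i + 1)) (by
      rw [tht, tht]
      change 0 ≤ _
      omega), ih]
    rfl

variable {k : ℕ}

/-- one step of `T²` -/
theorem TT2 {x y : X k} {A B : BinaryTree Unit} (hx : x.1 ≠ .nil) (h : Tsq.sq x.1 = (A, B))
    (hy : y.1 = app B A) : TT (TT x) = y :=
  Tsq.TT_eq hx (by rw [h, hy])

theorem same2 {x y : X k} (h : TT (TT x) = y) : (TT : Perm (X k)).SameCycle x y :=
  ⟨2, by rw [← h]; rfl⟩

/-! ### The ten shapes -/

/-- `((R)), ()R(), ()()R, (()R), (R()), (R)(), ()(R), R(()), R()(), (())R` -/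
def sh (i : ℕ) (R : BinaryTree Unit) : BinaryTree Unit := bw .nil R .nil .nil .nil i

theorem sh_0 (R : BinaryTree Unit) : sh 0 R = (R △ .nil) △ .nil := rfl
theorem sh_1 (R : BinaryTree Unit) : sh 1 R = .nil △ app R (.nil △ .nil) := rfl
theorem sh_2 (R : BinaryTree Unit) : sh 2 R = .nil △ (.nil △ R) := rfl
theorem sh_3 (R : BinaryTree Unit) : sh 3 R = (.nil △ R) △ .nil := rfl
theorem sh_4 (R : BinaryTree Unit) : sh 4 R = app R (.nil △ .nil) △ .nil := rfl
theorem sh_5 (R : BinaryTree Unit) : sh 5 R = R △ (.nil △ .nil) := rfl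
theorem sh_6 (R : BinaryTree Unit) : sh 6 R = .nil △ (R △ .nil) := rfl
theorem sh_7 (R : BinaryTree Unit) : sh 7 R = app R ((.nil △ .nil) △ .nil) := rfl
theorem sh_8 (R : BinaryTree Unit) : sh 8 R = app R (.nil △ (.nil △ .nil)) := rfl
theorem sh_9 (R : BinaryTree Unit) : sh 9 R = (.nil △ .nil) △ R := rfl

theorem sh_num (i : ℕ) (hi : i < 10) (R : BinaryTree Unit) : (sh i R).numNodes = R.numNodes + 2 := by
  interval_cases i
  · rw [sh_0, nn, nn, nz]
  · rw [sh_1, nn, num_app, nn, nz]; ring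
  · rw [sh_2, nn, nn, nz]; ring
  · rw [sh_3, nn, nn, nz]; ring
  · rw [sh_4, nn, num_app, nn, nz]
  · rw [sh_5, nn, nn, nz]
  · rw [sh_6, nn, nn, nz]; ring
  · rw [sh_7, num_app, nn, nn, nz]
  · rw [sh_8, num_app, nn, nn, nz]
  · rw [sh_9, nn, nn, nz]; ring

/-- heights and numbers of peaks of the shapes -/
def shi (s p : ℕ) : ℕ → ℕ × ℕ
  | 0 => (s + 2, p)
  | 1 => (s, p + 2)
  | 2 => (s, p + 2)
  | 3 => (s + 1, p + 1)
  | 4 => (s + 1, p + 1)
  | 5 => (s + 1, p + 1)
  | 6 => (s + 1, p + 1)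
  | 7 => (s, p + 1)
  | 8 => (s, p + 2)
  | _ => (s, p + 1)

theorem leaf_app {R Z : BinaryTree Unit} (h : leaf R = 0) : leaf (app R Z) = 0 := by
  cases R with
  | nil => simp [leaf] at h
  | node _ A B => rfl

theorem pkn_app (P Q : BinaryTree Unit) : pkn (app P Q) = pkn P + pkn Q := by
  rw [← cont_card, cont_app, Multiset.card_add, cont_card, cont_card]

theorem sh_inv {R : BinaryTree Unit} (hR : leaf R = 0) (h2 : 2 ≤ ht R) (i : ℕ) (hi : i < 10) :
    (ht (sh i R), pkn (sh i R)) = shi (ht R) (pkn R) i := by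
  have p1 : pkn (.nil : BinaryTree Unit) = 0 := rfl
  have l1 : leaf (.nil : BinaryTree Unit) = 1 := rfl
  have h0 : ht (.nil : BinaryTree Unit) = 0 := rfl
  have pn : ∀ A B : BinaryTree Unit, pkn (A △ B) = leaf A + pkn A + pkn B := fun _ _ => rfl
  have ln : ∀ A B : BinaryTree Unit, leaf (A △ B) = 0 := fun _ _ => rfl
  have la := leaf_app (Z := .nil △ .nil) hR
  interval_cases i
  · rw [sh_0, ht_node, ht_node, pn, pn, ln, hR, h0, p1]
    simp only [shi, Prod.mk.injEq]
    first | omega | exact ⟨by omega, trivial⟩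
  · rw [sh_1, ht_node, ht_app, ht_node, pn, pkn_app, pn, l1, h0, p1]
    simp only [shi, Prod.mk.injEq]
    first | omega | exact ⟨by omega, trivial⟩
  · rw [sh_2, ht_node, ht_node, pn, pn, l1, h0, p1]
    simp only [shi, Prod.mk.injEq]
    first | omega | exact ⟨by omega, trivial⟩
  · rw [sh_3, ht_node, ht_node, pn, pn, ln, l1, h0, p1]
    simp only [shi, Prod.mk.injEq]
    first | omega | exact ⟨by omega, trivial⟩
  · rw [sh_4, ht_node, ht_app, ht_node, pn, pkn_app, pn, la, l1, h0, p1]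
    simp only [shi, Prod.mk.injEq]
    first | omega | exact ⟨by omega, trivial⟩
  · rw [sh_5, ht_node, ht_node, pn, pn, l1, hR, h0, p1]
    simp only [shi, Prod.mk.injEq]
    first | omega | exact ⟨by omega, trivial⟩
  · rw [sh_6, ht_node, ht_node, pn, pn, l1, hR, h0, p1]
    simp only [shi, Prod.mk.injEq]
    first | omega | exact ⟨by omega, trivial⟩
  · rw [sh_7, ht_app, ht_node, ht_node, pkn_app, pn, pn, ln, l1, h0, p1]
    simp only [shi, Prod.mk.injEq]
    first | omega | exact ⟨by omega, trivial⟩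
  · rw [sh_8, ht_app, ht_node, ht_node, pkn_app, pn, pn, l1, h0, p1]
    simp only [shi, Prod.mk.injEq]
    first | omega | exact ⟨by omega, trivial⟩
  · rw [sh_9, ht_node, ht_node, pn, pn, ln, l1, h0, p1]
    simp only [shi, Prod.mk.injEq]
    first | omega | exact ⟨by omega, trivial⟩

/-- the second block with `B = e` -/
def sp10 : ℕ → ℕ
  | 0 => 3
  | 1 => 6
  | 2 => 8
  | 3 => 9
  | 4 => 0
  | 5 => 1
  | 6 => 2
  | 7 => 4
  | 8 => 5
  | _ => 7

theorem bw_sp (S : BinaryTree Unit) (i : ℕ) : bw .nil .nil S .nil .nil i = sh (sp10 i) S := by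
  match i with
  | 0 => rfl
  | 1 => rfl
  | 2 => rfl
  | 3 => rfl
  | 4 => rfl
  | 5 => rfl
  | 6 => rfl
  | 7 => rfl
  | 8 => rfl
  | n + 9 => rfl

/-- the shape and the core of the word `i` of a mirrored gadget with `B = e` -/
def ji (i : ℕ) : ℕ := if i < 10 then ix20 i else sp10 (ix20 (i - 10))

theorem ji_lt : ∀ i < 20, ji i < 10 := by decide

theorem w20M_sh (R S : BinaryTree Unit) (i : ℕ) :
    w20M R .nil .nil S i = sh (ji i) (if i < 10 then R else S) := by
  unfold w20M ji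
  by_cases h : i < 10
  · rw [if_pos h, if_pos h, if_pos h]
    rfl
  · rw [if_neg h, if_neg h, if_neg h, bw_sp]

/-! ### The words `R_q` -/

/-- `q` brackets around `(())[n + 3 - q]` -/
def Rq (n q : ℕ) : BinaryTree Unit := nest q ((.nil △ .nil) △ pw (n + 3 - q))

theorem Rq_num {n q : ℕ} (h : q ≤ n + 3) : (Rq n q).numNodes = n + 5 := by
  unfold Rq
  rw [nest_num, nn, nn, nz, pw_num]
  omega

theorem ht_nest (i : ℕ) (t : BinaryTree Unit) : ht (nest i t) = ht t + i := by
  induction i with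
  | zero => rfl
  | succ i ih =>
    change max (ht (nest i t) + 1) 0 = _
    rw [ih]
    omega

theorem ht_Rq {n q : ℕ} (h : q ≤ n + 1) : ht (Rq n q) = n + 3 := by
  unfold Rq
  rw [ht_nest, ht_node, ht_node, ht_pw]
  have h0 : ht (.nil : BinaryTree Unit) = 0 := rfl
  rw [h0]
  omega

theorem pkn_Rq {n q : ℕ} (h : q ≤ n + 1) : pkn (Rq n q) = 2 ∧ leaf (Rq n q) = 0 := by
  unfold Rq
  have h1 := pkn_nest q ((.nil △ .nil) △ pw (n + 3 - q)) rfl
  refine ⟨?_, h1.2⟩
  rw [h1.1]
  obtain ⟨r, hr⟩ : ∃ r, n + 3 - q = r + 1 := ⟨n + 2 - q, by omega⟩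
  rw [hr]
  change 0 + (1 + 0 + 0) + pkn (pw (r + 1)) = 2
  rw [pkn_pw]

theorem sq_Rq {n q : ℕ} (h : q ≤ n) : Tsq.sq (Rq n q) = (Rq n (q + 1), .nil) := by
  unfold Rq
  obtain ⟨r, hr⟩ : ∃ r, n + 3 - q = r + 1 := ⟨n + 2 - q, by omega⟩
  have h2 := sq_up ((.nil △ .nil) △ .nil) r q (by
    have h0 : ht (.nil : BinaryTree Unit) = 0 := rfl
    rw [ht_node, ht_node, h0]
    omega)
  rw [hr, show n + 3 - (q + 1) = r by omega]
  exact h2

/-- `R_q` for `q ≥ 1` is prime -/
theorem Rq_succ (n q : ℕ) : Rq n (q + 1) = nest q ((.nil △ .nil) △ pw (n + 2 - q)) △ .nil := by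
  unfold Rq
  rw [show n + 3 - (q + 1) = n + 2 - q by omega]
  rfl

theorem Rq_zero (n : ℕ) : Rq n 0 = (.nil △ .nil) △ (pw (n + 2) △ .nil) := rfl

/-- the cores of `R_q`, `q ≥ 1` -/
def Rc (n q : ℕ) : BinaryTree Unit := nest q ((.nil △ .nil) △ pw (n + 2 - q))

theorem nest_inj {i j : ℕ} {t u : BinaryTree Unit} (hij : i ≤ j) (h : nest i t = nest j u) :
    t = nest (j - i) u := by
  induction i generalizing j with
  | zero => exact h
  | succ i ih =>
    obtain ⟨j, rfl⟩ : ∃ j', j = j' + 1 := ⟨j - 1, by omega⟩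
    have h2 : nest i t △ .nil = nest j u △ .nil := h
    have h3 : nest i t = nest j u := by injection h2
    have := ih (by omega) h3
    rw [this]
    congr 1
    omega

theorem ht_Rc {n q : ℕ} (h : q ≤ n) : ht (Rc n q) = n + 2 := by
  unfold Rc
  rw [ht_nest, ht_node, ht_node, ht_pw]
  have h0 : ht (.nil : BinaryTree Unit) = 0 := rfl
  rw [h0]
  omega

theorem Rc_inj {n q q' : ℕ} (hq : q ≤ n) (hq' : q' ≤ n) (h : Rc n q = Rc n q') : q = q' := by
  unfold Rc at h
  have key : ∀ a b : ℕ, a ≤ b → b ≤ n → nest a ((.nil △ .nil) △ pw (n + 2 - a)) =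
      nest b ((.nil △ .nil) △ pw (n + 2 - b)) → a = b := by
    intro a b hab hb h
    have h1 := nest_inj hab h
    by_contra hne
    obtain ⟨c, hc⟩ : ∃ c, b - a = c + 1 := ⟨b - a - 1, by omega⟩
    rw [hc] at h1
    have h2 : (.nil △ .nil : BinaryTree Unit) △ pw (n + 2 - a) =
      nest c ((.nil △ .nil) △ pw (n + 2 - b)) △ .nil := h1
    injection h2 with _ h3 h4
    exact pw_ne (by omega) h4
  rcases le_total q q' with hle | hle
  · exact key q q' hle hq' h
  · exact (key q' q hle hq h.symm).symm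

theorem Rc_ne {n q : ℕ} (hq : q ≤ n) (hn : 1 ≤ n) {t : BinaryTree Unit} (ht2 : ht t ≤ 2) : Rc n q ≠ t := by
  intro h
  have h1 := ht_Rc hq
  rw [h] at h1
  omega

/-- the shapes of the `R_q` are all different -/
theorem sh_Rq_inj {n : ℕ} (hn : 1 ≤ n) {i j q q' : ℕ} (hi : i < 10) (hj : j < 10) (hq : q ≤ n + 1)
    (hq' : q' ≤ n + 1) (h : sh i (Rq n q) = sh j (Rq n q')) : i = j ∧ q = q' := by
  have a1 : ∀ {P : BinaryTree Unit}, app .nil P = P := fun {P} => rfl
  have a2 : ∀ {A B P : BinaryTree Unit}, app (A △ B) P = A △ app B P := fun {A B P} => rfl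
  have n1 : ∀ q, q ≤ n → Rc n q ≠ .nil := fun q hq => Rc_ne hq hn (by
    have h0 : ht (.nil : BinaryTree Unit) = 0 := rfl
    rw [h0]; omega)
  have n2 : ∀ q, q ≤ n → Rc n q ≠ (.nil △ .nil) := fun q hq => Rc_ne hq hn (by
    have h0 : ht (.nil : BinaryTree Unit) = 0 := rfl
    rw [ht_node, h0]; omega)
  have p1 : ht (pw (n + 2)) = n + 2 := ht_pw _
  have m1 : pw (n + 2) ≠ .nil := pw_ne (by omega)
  have m2 : pw (n + 2) ≠ (.nil △ .nil) := by
    intro h
    rw [h] at p1
    have h0 : ht (.nil : BinaryTree Unit) = 0 := rfl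
    rw [ht_node, h0] at p1
    omega
  rcases Nat.eq_zero_or_pos q with rfl | hq0
  · rcases Nat.eq_zero_or_pos q' with rfl | hq0'
    · refine ⟨?_, rfl⟩
      rw [Rq_zero] at h
      by_contra hne
      interval_cases i <;> interval_cases j <;>
        simp [sh_0, sh_1, sh_2, sh_3, sh_4, sh_5, sh_6, sh_7, sh_8, sh_9, app, m1, m1.symm, m2, m2.symm] at h hne
    · obtain ⟨c, rfl⟩ : ∃ c, q' = c + 1 := ⟨q' - 1, by omega⟩
      have e : Rq n (c + 1) = Rc n c △ .nil := Rq_succ n c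
      rw [Rq_zero, e] at h
      have c1 := n1 c (by omega)
      have c2 := n2 c (by omega)
      have c3 : ht (Rc n c) = n + 2 := ht_Rc (by omega)
      exfalso
      interval_cases i <;> interval_cases j <;>
        simp [sh_0, sh_1, sh_2, sh_3, sh_4, sh_5, sh_6, sh_7, sh_8, sh_9, app, m1, m1.symm, m2, m2.symm,
          c1, c1.symm, c2, c2.symm] at h
  · obtain ⟨c, rfl⟩ : ∃ c, q = c + 1 := ⟨q - 1, by omega⟩
    have e : Rq n (c + 1) = Rc n c △ .nil := Rq_succ n c
    have c1 := n1 c (by omega)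
    have c2 := n2 c (by omega)
    rcases Nat.eq_zero_or_pos q' with rfl | hq0'
    · rw [Rq_zero, e] at h
      exfalso
      interval_cases i <;> interval_cases j <;>
        simp [sh_0, sh_1, sh_2, sh_3, sh_4, sh_5, sh_6, sh_7, sh_8, sh_9, app, m1, m1.symm, m2, m2.symm,
          c1, c1.symm, c2, c2.symm] at h
    · obtain ⟨c', rfl⟩ : ∃ c, q' = c + 1 := ⟨q' - 1, by omega⟩
      have e' : Rq n (c' + 1) = Rc n c' △ .nil := Rq_succ n c'
      have c1' := n1 c' (by omega)
      have c2' := n2 c' (by omega)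
      rw [e, e'] at h
      have key : Rc n c = Rc n c' → c + 1 = c' + 1 := fun hh => by
        rw [Rc_inj (by omega) (by omega) hh]
      interval_cases i <;> interval_cases j <;>
        simp [sh_0, sh_1, sh_2, sh_3, sh_4, sh_5, sh_6, sh_7, sh_8, sh_9, app, m1, m1.symm, m2, m2.symm,
          c1, c1.symm, c2, c2.symm, c1', c1'.symm, c2', c2'.symm] at h ⊢ <;>
        first | exact Rc_inj (by omega) (by omega) h | exact Rc_inj (by omega) (by omega) h.1

end T4

end Pool.OddHC
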