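import Pool.Agent.Work.MP_8f87b2_h73.T4A

/-!
MP_8f87b2_co, the layer `t = 4` (`k = n + 7`, `s = n + 3`), part B: the T-cycles of height `s`.
-/

set_option autoImplicit false

namespace Pool.OddHC

open Finset BinaryTree Equiv Pool.OddHop

namespace T4

/-! ### Lifting without beads -/

/-- lifting without beads -/
def L0 (t : BinaryTree Unit) : BinaryTree Unit := ins t (List.replicate (2 * t.numNodes + 1) 0)

theorem L0_nil : L0 .nil = .nil := rfl

theorem bump_ne {A : BinaryTree Unit} (hA : A ≠ .nil) (e : List ℕ) : bump A e = e := by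
  cases A with
  | nil => exact absurd rfl hA
  | node _ A B => rfl

theorem ins_zero (A B : BinaryTree Unit) {e : List ℕ} (a b : List ℕ) (he : e = 0 :: (a ++ b))
    (ha : a.length = 2 * A.numNodes + 1) : ins (A △ B) e = ins A (bump A a) △ ins B b := by
  subst he
  change lv 0 (ins A (bump A ((a ++ b).take (2 * A.numNodes + 1))) △
    ins B ((0 :: (a ++ b)).drop (2 * A.numNodes + 2))) = _
  rw [List.take_left' ha, List.drop_succ_cons, List.drop_left' ha]
  rfl

theorem L0_split (A B : BinaryTree Unit) : List.replicate (2 * (A △ B).numNodes + 1) 0 =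
    0 :: (List.replicate (2 * A.numNodes + 1) 0 ++ List.replicate (2 * B.numNodes + 1) 0) := by
  rw [← List.replicate_add, ← List.replicate_succ, nn]
  congr 1
  ring

theorem L0_node {A : BinaryTree Unit} (hA : A ≠ .nil) (B : BinaryTree Unit) :
    L0 (A △ B) = L0 A △ L0 B := by
  unfold L0
  rw [ins_zero A B _ _ (L0_split A B) (by rw [List.length_replicate]), bump_ne hA]

theorem L0_one (B : BinaryTree Unit) : L0 (.nil △ B) = (.nil △ .nil) △ L0 B := by
  unfold L0
  rw [ins_zero .nil B _ _ (L0_split .nil B) (by rw [List.length_replicate])]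
  rfl

theorem L0_pw (r : ℕ) : L0 (pw (r + 1)) = pw (r + 2) := by
  induction r with
  | zero => rfl
  | succ r ih =>
    rw [pw_succ (r + 1), L0_node (pw_ne (by omega)), ih]
    rfl

theorem L0_nest {t : BinaryTree Unit} (ht1 : t ≠ .nil) (q : ℕ) : L0 (nest q t) = nest q (L0 t) := by
  induction q with
  | zero => rfl
  | succ q ih =>
    have h : nest q t ≠ .nil := by
      cases q with
      | zero => exact ht1
      | succ q => intro h; cases h
    change L0 (nest q t △ .nil) = nest q (L0 t) △ .nil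
    rw [L0_node h, ih]
    rfl

theorem lf_zero' (n : ℕ) : lf (fun _ : ZMod n => 0) = List.replicate n 0 := by
  unfold lf
  rw [List.map_const', List.length_range]

theorem phi0 {j k : ℕ} (u : X j) (h : j + pkn u.1 + ∑ _x : ZMod (2 * j + 1), 0 = k) :
    (phi u (fun _ => 0) h).1 = L0 u.1 := by
  change ins u.1 (lf (fun _ : ZMod (2 * j + 1) => 0)) = _
  rw [lf_zero']
  unfold L0
  rw [X_num]

/-! ### One bead in the nested word -/

theorem tY_zero (j : ℕ) (hj : 1 ≤ j) : tY j 0 = .nil △ pw (j + 1) := by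
  have h := ins_front (pwX j) (fun _ => 0)
  have e : (fun x : ZMod (2 * j + 1) => (0 : ℕ) + if x = 0 then 1 else 0) =
      fun x => if x = ((0 : ℕ) : ZMod (2 * j + 1)) then 1 else 0 := by
    funext x
    rw [zero_add, Nat.cast_zero]
  rw [e] at h
  unfold tY
  refine h.trans ?_
  rw [lf_zero']
  have h2 : ins (pwX j).1 (List.replicate (2 * j + 1) 0) = L0 (pw j) := by
    unfold L0
    rw [pw_num]
    rfl
  rw [h2]
  obtain ⟨p, rfl⟩ : ∃ p, j = p + 1 := ⟨j - 1, by omega⟩
  rw [L0_pw]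

theorem tY_up (j h : ℕ) (hj : 1 ≤ j) (hh : h ≤ j) : tY j h = nest h (.nil △ pw (j + 1 - h)) := by
  induction h generalizing j with
  | zero => exact tY_zero j hj
  | succ h ih =>
    obtain ⟨p, rfl⟩ : ∃ p, j = p + 1 := ⟨j - 1, by omega⟩
    rcases Nat.eq_zero_or_pos p with rfl | hp
    · obtain rfl : h = 0 := by omega
      rfl
    · rw [tY_node p h hp (by omega), ih p hp (by omega), show p + 1 + 1 - (h + 1) = p + 1 - h by omega]
      rfl

/-- `R_q` is the lift of one bead in the nested word -/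
theorem L0_tY {n q : ℕ} (hq : q ≤ n + 1) : L0 (tY (n + 1) q) = Rq n q := by
  rw [tY_up (n + 1) q (by omega) hq, L0_nest (by intro h; cases h), L0_one]
  unfold Rq
  obtain ⟨r, hr⟩ : ∃ r, n + 1 + 1 - q = r + 1 := ⟨n + 1 - q, by omega⟩
  rw [hr, L0_pw, show n + 3 - q = r + 2 by omega]

/-! ### The class `(s, 2, 2)` -/

theorem pk_pwX (n : ℕ) : pkn (pwX (n + 1)).1 = 1 := pkn_pw n

theorem v2_sum (n : ℕ) (f : ZMod (2 * (n + 1) + 1) → ℕ) (hf : ∑ x, f x = 2) :
    n + 1 + pkn (pwX (n + 1)).1 + ∑ x, f x = n + 4 := by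
  rw [hf, pk_pwX]

/-- two beads over `[n + 1]` -/
noncomputable def v2 (n h : ℕ) : X (n + 4) := phi (pwX (n + 1)) (bd h) (v2_sum n _ (bd_sum h))

theorem z2_sum {n : ℕ} (v : X (n + 4)) (hv : pkn v.1 = 3) :
    n + 4 + pkn v.1 + ∑ _x : ZMod (2 * (n + 4) + 1), 0 = n + 2 + 5 := by
  rw [hv, sum_const_zero]
  omega

theorem pkn_v2 (n h : ℕ) : pkn (v2 n h).1 = 3 := by
  unfold v2
  rw [pkn_phi, pk_pwX, bd_sum]

/-- the word of distance `h` -/
noncomputable def z2 (n h : ℕ) : X (n + 2 + 5) := phi (v2 n h) (fun _ => 0) (z2_sum _ (pkn_v2 n h))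

/-- the T-cycle `(s, 2, 2)` of distance `h` -/
noncomputable def zc (n h : ℕ) : Cyc (n + 2 + 5) := cyc (z2 n h)

theorem Rd_phi {j k : ℕ} (u : X j) (a : ZMod (2 * j + 1) → ℕ) (h : j + pkn u.1 + ∑ x, a x = k) :
    Rd (cyc (phi u a h)) = ⟨j, cyc u⟩ := Rd_ins (e := lf a) (lf_length a) rfl

theorem zc_inj {n h h' : ℕ} (hh : h ≤ n + 1) (hh' : h' ≤ n + 1) (he : zc n h = zc n h') : h = h' := by
  have h1 := congrArg Rd he
  unfold zc z2 at h1
  rw [Rd_phi, Rd_phi] at h1
  have h2 : cyc (v2 n h) = cyc (v2 n h') := eq_of_heq (Sigma.mk.inj_iff.1 h1).2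
  rw [cyc_eq] at h2
  unfold v2 at h2
  rw [same_fix (by omega) _ (T_pwX _)] at h2
  obtain ⟨t, ht⟩ := h2
  exact bd_rot hh hh' ht

theorem count_phi {j k : ℕ} (u : X j) (a : ZMod (2 * j + 1) → ℕ) (h : j + pkn u.1 + ∑ x, a x = k) :
    (cont (phi u a h).1).count 1 = ∑ x, a x := by
  change (cont (ins u.1 (lf a))).count 1 = _
  rw [cont_ins _ _ (by rw [lf_length, X_num]), Multiset.count_add, Multiset.count_replicate_self, lf_sum]
  have h0 : Multiset.count 1 (Multiset.map (fun x => x + 1) (cont u.1)) = 0 := by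
    rw [Multiset.count_eq_zero]
    intro hm
    obtain ⟨x, hx, hx1⟩ := Multiset.mem_map.1 hm
    have := cont_pos u.1 x hx
    omega
  rw [h0, zero_add]

theorem zero_of_sum {N : ℕ} [NeZero N] (a : ZMod N → ℕ) (h : ∑ x, a x = 0) : a = fun _ => 0 := by
  funext x
  exact (Finset.sum_eq_zero_iff.1 h) x (mem_univ x)

/-- the T-cycles of content `(s, 2, 2)` -/
theorem class_C2 {n : ℕ} (w : X (n + 2 + 5)) (h : ht w.1 = n + 3) (hp : pkn w.1 = 3)
    (h1 : (cont w.1).count 1 = 0) : ∃ i, i ≤ n + 1 ∧ cyc w = zc n i := by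
  obtain ⟨j, u, a, hk, rfl, h2, hj⟩ := red_ht w (by omega)
  rw [count_phi] at h1
  rw [pkn_phi] at hp
  have hj4 : j = n + 4 := by omega
  subst hj4
  have ha := zero_of_sum a h1
  subst ha
  obtain ⟨l, v, b, hk', rfl, h3, hl⟩ := red_ht u (by omega)
  rw [pkn_phi] at hp
  have hl1 : l = n + 1 := by omega
  subst hl1
  have hv : v = pwX (n + 1) := ht_fullX v (by omega)
  subst hv
  rw [pk_pwX] at hp
  have hb : ∑ x, b x = 2 := by omega
  obtain ⟨i, hi, t, ht⟩ := two_rot b hb
  refine ⟨i, hi, ?_⟩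
  unfold zc z2
  rw [cyc_eq]
  apply same_phi (c := 0) (fun _ => rfl)
  unfold v2
  rw [same_fix (by omega) _ (T_pwX _)]
  refine ⟨-t, ?_⟩
  funext x
  rw [ht]
  simp

theorem ht_z2 (n h : ℕ) : ht (z2 n h).1 = n + 3 := by
  have h1 : ht (v2 n h).1 = n + 2 := by
    change ht (ins (pwX (n + 1)).1 (lf (bd h))) = _
    rw [ht_ins _ _ (by rw [lf_length, X_num]) (show (pwX (n + 1)).1 ≠ .nil from pw_ne (by omega))]
    change ht (pw (n + 1)) + 1 = _
    rw [ht_pw]
  change ht (ins (v2 n h).1 (lf (fun _ => 0))) = _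
  rw [ht_ins _ _ (by rw [lf_length, X_num]) ?_, h1]
  intro h0
  rw [h0] at h1
  change 0 = n + 2 at h1
  omega

theorem pkn_z2 (n h : ℕ) : pkn (z2 n h).1 = 3 := by
  unfold z2
  rw [pkn_phi, pkn_v2, sum_const_zero, add_zero]

theorem htc_zc (n h : ℕ) : htc (zc n h) = n + 3 := (htc_cyc _).trans (ht_z2 n h)
theorem pkc_zc (n h : ℕ) : pkc (zc n h) = 3 := (pkc_cyc _).trans (pkn_z2 n h)
theorem one_zc (n h : ℕ) : (contc (zc n h)).count 1 = 0 := by
  change (cont (z2 n h).1).count 1 = 0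
  unfold z2
  rw [count_phi, sum_const_zero]

/-- a word as an element of `X` -/
def mk (n : ℕ) (t : BinaryTree Unit) (h : t.numNodes = n + 7) : X (n + 2 + 5) :=
  ⟨t, mem_treesOfNumNodesEq.2 h⟩

theorem shq_num {n i q : ℕ} (hi : i < 10) (hq : q ≤ n + 3) : (sh i (Rq n q)).numNodes = n + 7 := by
  rw [sh_num i hi, Rq_num hq]

/-- the words of the gadgets over `R_q` -/
def xq (n i q : ℕ) (hi : i < 10) (hq : q ≤ n + 3) : X (n + 2 + 5) := mk n (sh i (Rq n q)) (shq_num hi hq)

/-- `(())R_q` has distance `q` -/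
theorem cyc9 {n q : ℕ} (hq : q ≤ n + 1) : cyc (xq n 9 q (by norm_num) (by omega)) = zc n q := by
  unfold zc
  congr 1
  apply Subtype.ext
  change sh 9 (Rq n q) = (z2 n q).1
  unfold z2
  rw [phi0]
  have e : (v2 n q).1 = .nil △ tY (n + 1) q := by
    change ins (pwX (n + 1)).1 (lf (bd q)) = _
    have h1 := ins_front (pwX (n + 1)) (fun x => if x = (q : ZMod (2 * (n + 1) + 1)) then 1 else 0)
    have e1 : (bd q : ZMod (2 * (n + 1) + 1) → ℕ) = fun x =>
        (if x = (q : ZMod (2 * (n + 1) + 1)) then 1 else 0) + if x = 0 then 1 else 0 := by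
      funext x
      unfold bd
      rw [add_comm]
    rw [e1, h1]
    rfl
  rw [e, L0_one, L0_tY hq, sh_9]

/-- `R_q(())` has distance `q + 1` -/
theorem cyc7 {n q : ℕ} (hq : q ≤ n) : cyc (xq n 7 q (by norm_num) (by omega)) = zc n (q + 1) := by
  rw [← cyc9 (by omega)]
  rw [cyc_eq]
  apply same2
  refine TT2 (A := Rq n (q + 1)) (B := (.nil △ .nil) △ .nil) ?_ ?_ rfl
  · intro h
    have := congrArg BinaryTree.numNodes h
    change (sh 7 (Rq n q)).numNodes = 0 at this
    rw [shq_num (by norm_num) (by omega)] at this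
    omega
  · change Tsq.sq (app (Rq n q) ((.nil △ .nil) △ .nil)) = _
    rw [Tsq.sq_app, sq_Rq hq]
    · rfl
    · intro h
      have := Rq_num (n := n) (q := q) (by omega)
      rw [h] at this
      simp [BinaryTree.numNodes] at this
    · rw [tht, tht, ht_Rq (by omega), ht_node, ht_node]
      have h0 : ht (.nil : BinaryTree Unit) = 0 := rfl
      rw [h0]
      omega

/-- the far end: `R_(n+1)(())` has distance `n + 1` as well -/
theorem cyc7_end (n : ℕ) : cyc (xq n 7 (n + 1) (by norm_num) (by omega)) = zc n (n + 1) := by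
  -- the bare word is `app (tY (n+1) (n+1)) ()` with beads `n + 1` and `-1`
  have hb : ∑ x : ZMod (2 * (n + 1) + 1), ((if x = ((n + 1 : ℕ) : ZMod (2 * (n + 1) + 1)) then 1 else 0) +
      if x = -1 then 1 else 0) = 2 := by
    rw [sum_add_distrib, one_bead_sum, one_bead_sum]
  have e1 : xq n 7 (n + 1) (by norm_num) (by omega) = phi (phi (pwX (n + 1))
      (fun x => (if x = ((n + 1 : ℕ) : ZMod (2 * (n + 1) + 1)) then 1 else 0) + if x = -1 then 1 else 0)
      (v2_sum n _ hb)) (fun _ => 0) (z2_sum _ (by rw [pkn_phi, pk_pwX, hb])) := by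
    apply Subtype.ext
    rw [phi0]
    change sh 7 (Rq n (n + 1)) = L0 (ins (pwX (n + 1)).1 (lf _))
    rw [ins_back (pwX (n + 1)) (fun x => if x = ((n + 1 : ℕ) : ZMod (2 * (n + 1) + 1)) then 1 else 0)]
    change _ = L0 (app (tY (n + 1) (n + 1)) (.nil △ .nil))
    have h1 : tY (n + 1) (n + 1) = nest n (.nil △ pw (n + 1 + 1 - (n + 1))) △ .nil :=
      tY_up (n + 1) (n + 1) (by omega) le_rfl
    have h2 := L0_tY (n := n) (q := n + 1) le_rfl
    have hne : nest n (.nil △ pw (n + 1 + 1 - (n + 1))) ≠ .nil := by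
      intro h
      have := congrArg BinaryTree.numNodes h
      rw [nest_num, nn] at this
      simp [BinaryTree.numNodes] at this
    rw [h1] at h2 ⊢
    rw [L0_node hne, L0_nil] at h2
    change _ = L0 (nest n (.nil △ pw (n + 1 + 1 - (n + 1))) △ (.nil △ .nil))
    rw [L0_node hne, L0_one, L0_nil, sh_7, ← h2]
    rfl
  rw [e1]
  unfold zc z2
  rw [cyc_eq]
  apply same_phi (c := 0) (fun _ => rfl)
  unfold v2
  rw [same_fix (by omega) _ (T_pwX _)]
  refine ⟨((n + 1 : ℕ) : ZMod (2 * (n + 1) + 1)), ?_⟩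
  funext x
  have h0 : (2 * ((n : ZMod (2 * (n + 1) + 1)) + 1) + 1 : ZMod (2 * (n + 1) + 1)) = 0 := by
    have := ZMod.natCast_self (2 * (n + 1) + 1)
    push_cast at this
    exact this
  unfold bd
  have a1 : x + ((n + 1 : ℕ) : ZMod (2 * (n + 1) + 1)) = ((n + 1 : ℕ) : ZMod (2 * (n + 1) + 1)) ↔ x = 0 := by
    constructor
    · intro h; linear_combination h
    · rintro rfl; ring
  have a2 : x + ((n + 1 : ℕ) : ZMod (2 * (n + 1) + 1)) = -1 ↔ x = ((n + 1 : ℕ) : ZMod (2 * (n + 1) + 1)) := by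
    push_cast
    constructor
    · intro h; linear_combination h - h0
    · rintro rfl; linear_combination h0
  simp only [a1, a2]

end T4

end Pool.OddHC
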