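import Pool.Agent.Work.MP_8f87b2_h73.T4B
import Pool.Agent.Work.MP_8f87b2_h24.J1Same

/-!
MP_8f87b2_co, the layer `t = 4` (`k = n + 7`, `s = n + 3`), part C: the classes `(s, 2, 1, 1)`, `(s, 1, 1, 1, 1)`, `(s, 3, 1)`, `(s, 4)`.
-/

set_option autoImplicit false

namespace Pool.OddHC

open Finset BinaryTree Equiv Pool.OddHop

namespace T4

/-! ### Lists of beads by natural numbers -/

/-- a list by a function on natural numbers -/
def nl (N : ℕ) (g : ℕ → ℕ) : List ℕ := (List.range N).map g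

/-- one bead -/
def bn (a i : ℕ) : ℕ := if i = a then 1 else 0

theorem nl_length (N : ℕ) (g : ℕ → ℕ) : (nl N g).length = N := by
  unfold nl
  rw [List.length_map, List.length_range]

theorem nl_succ (N : ℕ) (g : ℕ → ℕ) : nl (N + 1) g = g 0 :: nl N (fun i => g (i + 1)) := by
  unfold nl
  rw [List.range_succ_eq_map, List.map_cons, List.map_map]
  rfl

theorem nl_last (N : ℕ) (g : ℕ → ℕ) : nl (N + 1) g = nl N g ++ [g N] := by
  unfold nl
  rw [List.range_succ, List.map_append]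
  rfl

theorem nl_congr {N : ℕ} {g g' : ℕ → ℕ} (h : ∀ i < N, g i = g' i) : nl N g = nl N g' := by
  unfold nl
  apply List.map_congr_left
  intro i hi
  exact h i (List.mem_range.1 hi)

theorem nl_zero (N : ℕ) {g : ℕ → ℕ} (h : ∀ i < N, g i = 0) : nl N g = List.replicate N 0 := by
  rw [nl_congr (g' := fun _ => 0) h]
  unfold nl
  rw [List.map_const', List.length_range]

theorem lf_nl {N : ℕ} (f : ZMod N → ℕ) : lf f = nl N (fun i => f (i : ZMod N)) := rfl

theorem cast_eq {N x y : ℕ} (hx : x < N) (hy : y < N) : (x : ZMod N) = (y : ZMod N) ↔ x = y := by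
  constructor
  · intro h
    have := (ZMod.natCast_eq_natCast_iff' x y N).1 h
    rwa [Nat.mod_eq_of_lt hx, Nat.mod_eq_of_lt hy] at this
  · rintro rfl
    rfl

theorem lf_bn {N a : ℕ} (ha : a < N) : lf (fun x : ZMod N => if x = (a : ZMod N) then 1 else 0) = nl N (bn a) := by
  rw [lf_nl]
  apply nl_congr
  intro i hi
  unfold bn
  simp only [cast_eq hi ha]

theorem lf_bn2 {N a b : ℕ} (ha : a < N) (hb : b < N) :
    lf (fun x : ZMod N => (if x = (a : ZMod N) then 1 else 0) + if x = (b : ZMod N) then 1 else 0) =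
      nl N (fun i => bn a i + bn b i) := by
  rw [lf_nl]
  apply nl_congr
  intro i hi
  unfold bn
  simp only [cast_eq hi ha, cast_eq hi hb]

theorem tY_nl {j h : ℕ} (hh : h < 2 * j + 1) : tY j h = ins (pw j) (nl (2 * j + 1) (bn h)) := by
  unfold tY
  rw [lf_bn hh]

/-! ### Words which are in one T-cycle -/

theorem same_top {j k : ℕ} {u u' : X j} (hs : (TT : Perm (X j)).SameCycle u u')
    (hr : ∀ r : ZMod (2 * j + 1), r ∈ rotGrp u') {a b : ZMod (2 * j + 1) → ℕ} (t : ZMod (2 * j + 1))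
    (hab : b = fun x => a (x + t)) (h : j + pkn u.1 + ∑ x, a x = k) (h' : j + pkn u'.1 + ∑ x, b x = k) :
    (TT : Perm (X k)).SameCycle (phi u a h) (phi u' b h') := by
  obtain ⟨i, hi⟩ := sameCycle_nat hs
  subst hab
  have hk2 : j + pkn u'.1 + ∑ x, a (x + sp u i) = k := by
    rw [← hi, pkn_pow, sum_shift]
    exact h
  have h1 : (TT : Perm (X k)).SameCycle (phi u a h) (phi u' (fun x => a (x + sp u i)) hk2) := by
    refine ⟨(i : ℤ), ?_⟩
    rw [zpow_natCast, pow_phi]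
    exact phi_congr hi rfl _ _
  refine h1.trans ?_
  rw [same_iff]
  obtain ⟨l, h2, h3⟩ := mem_rotGrp.1 (hr (t - sp u i))
  refine ⟨l, h2, ?_⟩
  funext x
  rw [h3]
  congr 1
  ring

theorem all_of_one {j : ℕ} {u : X j} (h : (1 : ZMod (2 * j + 1)) ∈ rotGrp u) (r : ZMod (2 * j + 1)) :
    r ∈ rotGrp u := by
  have h3 := (rotGrp u).nsmul_mem h r.val
  rw [nsmul_eq_mul, mul_one, ZMod.natCast_zmod_val] at h3
  exact h3

theorem all_of_two {j : ℕ} {u : X j} (h : (2 : ZMod (2 * j + 1)) ∈ rotGrp u) (r : ZMod (2 * j + 1)) :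
    r ∈ rotGrp u := by
  have h0 : ((2 * j + 1 : ℕ) : ZMod (2 * j + 1)) = 0 := ZMod.natCast_self _
  have h3 := (rotGrp u).nsmul_mem h ((j + 1) * r.val)
  rw [nsmul_eq_mul] at h3
  have h4 : (((j + 1) * r.val : ℕ) : ZMod (2 * j + 1)) * 2 = r := by
    rw [Nat.cast_mul, ZMod.natCast_zmod_val]
    push_cast at h0 ⊢
    linear_combination r * h0
  rw [h4] at h3
  exact h3

/-- words of height `n + 2` in `X (n + 3)` -/
theorem rot_sub {n : ℕ} (u : X (n + 3)) (h : ht u.1 = n + 2) (r : ZMod (2 * (n + 3) + 1)) : r ∈ rotGrp u := by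
  have h1 := turn_one (q := n + 1) (by omega) u (by omega)
  exact all_of_one ⟨_, h1.1, h1.2⟩ r

/-! ### The class `(s, 2, 1, 1)` -/

theorem ht_nil : ht (.nil : BinaryTree Unit) = 0 := rfl

/-- `()[n + 2]` -/
def uY (n : ℕ) : X (n + 3) := ⟨.nil △ pw (n + 2), mem_treesOfNumNodesEq.2 (by rw [nn, nz, pw_num]; omega)⟩

theorem ht_uY (n : ℕ) : ht (uY n).1 = n + 2 := by
  change ht (.nil △ pw (n + 2)) = n + 2
  rw [ht_node, ht_nil, ht_pw]
  omega

theorem pkn_uY (n : ℕ) : pkn (uY n).1 = 2 := by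
  change 1 + 0 + pkn (pw (n + 1 + 1)) = 2
  rw [pkn_pw]

theorem pkn_of_sub {n : ℕ} (u : X (n + 3)) (h : ht u.1 = n + 2) : pkn u.1 = 2 := by
  have h1 := same_sub (by omega) u (uY n) (by omega) (by rw [ht_uY])
  rw [← cont_card, cont_same h1, cont_card, pkn_uY]

theorem y2_sum {n : ℕ} (u : X (n + 3)) (h : ht u.1 = n + 2) (f : ZMod (2 * (n + 3) + 1) → ℕ)
    (hf : ∑ x, f x = 2) : n + 3 + pkn u.1 + ∑ x, f x = n + 2 + 5 := by
  rw [hf, pkn_of_sub u h]

/-- the word of distance `h` -/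
noncomputable def y2 (n h : ℕ) : X (n + 2 + 5) := phi (uY n) (bd h) (y2_sum _ (ht_uY n) _ (bd_sum h))

/-- the T-cycle `(s, 2, 1, 1)` of distance `h` -/
noncomputable def yc (n h : ℕ) : Cyc (n + 2 + 5) := cyc (y2 n h)

/-- two beads over a word of height `n + 2` -/
theorem cyc_y {n : ℕ} (u : X (n + 3)) (h : ht u.1 = n + 2) {f : ZMod (2 * (n + 3) + 1) → ℕ} {i : ℕ}
    (t : ZMod (2 * (n + 3) + 1)) (hf : f = fun x => bd i (x + t))
    (hk : n + 3 + pkn u.1 + ∑ x, f x = n + 2 + 5) : cyc (phi u f hk) = yc n i := by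
  unfold yc y2
  rw [cyc_eq]
  refine same_top (same_sub (by omega) u (uY n) (by omega) (by rw [ht_uY])) (rot_sub _ (ht_uY n)) (-t) ?_ _ _
  funext x
  rw [hf]
  simp

theorem yc_inj {n h h' : ℕ} (hh : h ≤ n + 3) (hh' : h' ≤ n + 3) (he : yc n h = yc n h') : h = h' := by
  unfold yc y2 at he
  rw [cyc_eq, same_iff] at he
  obtain ⟨i, -, h1⟩ := he
  exact bd_rot hh hh' h1

theorem ht_phi {j k : ℕ} (u : X j) (a : ZMod (2 * j + 1) → ℕ) (h : j + pkn u.1 + ∑ x, a x = k) (hj : 1 ≤ j) :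
    ht (phi u a h).1 = ht u.1 + 1 := ht_yT u a hj

theorem htc_yc (n h : ℕ) : htc (yc n h) = n + 3 := by
  unfold yc y2
  rw [htc_cyc, ht_phi _ _ _ (by omega), ht_uY]

theorem pkc_yc (n h : ℕ) : pkc (yc n h) = 4 := by
  unfold yc y2
  rw [pkc_cyc, pkn_phi, pkn_uY, bd_sum]

theorem class_C1 {n : ℕ} (w : X (n + 2 + 5)) (h : ht w.1 = n + 3) (hp : pkn w.1 = 4) :
    ∃ i, i ≤ n + 3 ∧ cyc w = yc n i := by
  obtain ⟨j, u, a, hk, rfl, h2, hj⟩ := red_ht w (by omega)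
  rw [pkn_phi] at hp
  have hj4 : j = n + 3 := by omega
  subst hj4
  have h3 : ht u.1 = n + 2 := by omega
  have h4 := pkn_of_sub u h3
  obtain ⟨i, hi, t, ht⟩ := two_rot a (by omega)
  exact ⟨i, hi, cyc_y u h3 t ht _⟩

/-! ### The class `(s, 1, 1, 1, 1)` -/

theorem hk4 (n : ℕ) : n + 2 + pkn (pwX (n + 2)).1 + 4 = n + 2 + 5 := by
  have : pkn (pwX (n + 2)).1 = 1 := pkn_pw (n + 1)
  omega

abbrev Q4 (n : ℕ) : Type := Quotient (msSetoid 4 (one_dvd (2 * (n + 2) + 1)))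

/-- the T-cycle of a class of four beads -/
noncomputable def hc (n : ℕ) (q : Q4 n) : Cyc (n + 2 + 5) := fc (by omega) (pwX (n + 2)) (T_pwX _) (hk4 n) q

theorem hc_inj {n : ℕ} {q q' : Q4 n} (h : hc n q = hc n q') : q = q' := fc_inj _ _ _ _ h

theorem htc_hc {n : ℕ} (q : Q4 n) : htc (hc n q) = n + 3 := by
  obtain ⟨x, rfl⟩ := Quotient.exists_rep q
  unfold hc
  rw [fc_mk, htc_cyc, ht_fw _ _ _ (by omega)]
  change ht (pw (n + 2)) + 1 = n + 3
  rw [ht_pw]

theorem pkc_hc {n : ℕ} (q : Q4 n) : pkc (hc n q) = 5 := by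
  obtain ⟨x, rfl⟩ := Quotient.exists_rep q
  unfold hc
  rw [fc_mk, pkc_cyc]
  unfold fw
  rw [pkn_phi]
  change pkn (pw (n + 1 + 1)) + ∑ z, x.1 z = 5
  rw [pkn_pw, x.2]

theorem class_H {n : ℕ} (w : X (n + 2 + 5)) (h : ht w.1 = n + 3) (hp : pkn w.1 = 5) :
    ∃ q, cyc w = hc n q := by
  obtain ⟨j, u, a, hk, rfl, h2, hj⟩ := red_ht w (by omega)
  rw [pkn_phi] at hp
  have hj4 : j = n + 2 := by omega
  subst hj4
  have hv : u = pwX (n + 2) := ht_fullX u (by omega)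
  subst hv
  have h3 : pkn (pwX (n + 2)).1 = 1 := pkn_pw (n + 1)
  refine ⟨Quotient.mk _ ⟨a, by omega⟩, ?_⟩
  unfold hc
  rw [fc_mk]
  rfl

/-! ### The classes `(s, 3, 1)` and `(s, 4)` -/

theorem two_le_pkn {j : ℕ} (u : X j) (h : ht u.1 < j) : 2 ≤ pkn u.1 := by
  by_contra hc
  have h0 : pkn u.1 = 1 ∨ pkn u.1 = 0 := by omega
  have h3 := cont_card u.1
  have h4 := cont_sum u.1
  have h5 := ht_eq u.1
  rcases h0 with h0 | h0
  · rw [h0, Multiset.card_eq_one] at h3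
    obtain ⟨x, hx⟩ := h3
    rw [hx] at h4 h5
    rw [X_num] at h4
    simp at h4 h5
    omega
  · rw [h0, Multiset.card_eq_zero] at h3
    rw [h3, X_num] at h4
    simp at h4
    omega

theorem cont_two {j m : ℕ} (u : X (m + j)) (h : ht u.1 = m) (hp : pkn u.1 = 2) :
    cont u.1 = {m} + {j} := by
  have h1 := cont_card u.1
  rw [hp, Multiset.card_eq_two] at h1
  obtain ⟨x, y, hxy⟩ := h1
  have h2 := cont_sum u.1
  have h3 := ht_eq u.1
  rw [h] at h3
  rw [X_num, hxy] at h2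
  rw [hxy] at h3 ⊢
  have h4 : x + y = m + j := by
    rw [← h2]
    simp
  have h5 : m = max x y := by
    rw [h3]
    simp
  rcases le_total x y with hle | hle
  · rw [max_eq_right hle] at h5
    obtain rfl : x = j := by omega
    rw [h5, Multiset.pair_comm]
    rfl
  · rw [max_eq_left hle] at h5
    obtain rfl : y = j := by omega
    rw [h5]
    rfl

theorem class_B {n : ℕ} (hn : 1 ≤ n) (w w' : X (n + 2 + 5)) (h : ht w.1 = n + 3) (hp : pkn w.1 = 3)
    (h1 : (cont w.1).count 1 ≠ 0) (h' : ht w'.1 = n + 3) (hp' : pkn w'.1 = 3)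
    (h1' : (cont w'.1).count 1 ≠ 0) : cyc w = cyc w' := by
  obtain ⟨j, u, a, hk, rfl, h2, hj⟩ := red_ht w (by omega)
  obtain ⟨j', u', a', hk', rfl, h2', hj'⟩ := red_ht w' (by omega)
  rw [count_phi] at h1 h1'
  rw [pkn_phi] at hp hp'
  have hj4 : j = n + 4 := by omega
  have hj4' : j' = n + 4 := by omega
  subst hj4
  subst hj4'
  have k1 := two_le_pkn u (by omega)
  have k2 := two_le_pkn u' (by omega)
  obtain ⟨t, ht⟩ := one_bead a (by omega)
  obtain ⟨t', ht'⟩ := one_bead a' (by omega)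
  obtain ⟨d, rfl⟩ : ∃ d, n = d + 1 := ⟨n - 1, by omega⟩
  have hs : (TT : Perm (X (d + 1 + 4))).SameCycle u u' :=
    same_d1 d u u' (by omega) (by omega) (by omega) (by omega)
  have hc : cont u'.1 = {d + 1 + 2} + {2} :=
    cont_two (m := d + 1 + 2) (j := 2) u' (by omega) (by omega)
  have h3 := J1.turn_two (q := d + 1) (by omega) u' hc
  rw [cyc_eq]
  refine same_top hs (all_of_two ⟨_, h3.1, h3.2⟩) (t - t') ?_ _ _
  rw [ht, ht']
  funext x
  have : x + (t - t') = t ↔ x = t' := by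
    constructor
    · intro h; linear_combination h
    · rintro rfl; ring
  simp only [this]

theorem class_P {n : ℕ} (hn : 3 ≤ n) (w w' : X (n + 2 + 5)) (h : ht w.1 = n + 3) (hp : pkn w.1 = 2)
    (h' : ht w'.1 = n + 3) (hp' : pkn w'.1 = 2) : cyc w = cyc w' := by
  obtain ⟨j, u, a, hk, rfl, h2, hj⟩ := red_ht w (by omega)
  obtain ⟨j', u', a', hk', rfl, h2', hj'⟩ := red_ht w' (by omega)
  rw [pkn_phi] at hp hp'
  have hj4 : j = n + 5 := by omega
  have hj4' : j' = n + 5 := by omega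
  subst hj4
  subst hj4'
  have k1 := two_le_pkn u (by omega)
  have k2 := two_le_pkn u' (by omega)
  have ha := zero_of_sum a (by omega)
  have ha' := zero_of_sum a' (by omega)
  subst ha
  subst ha'
  rw [cyc_eq]
  exact same_phi (c := 0) (fun _ => rfl) _ _ (same_m3a (d := n) hn u u' (by omega) (by omega) (by omega) (by omega))

/-- the T-cycles of height `n + 3` -/
theorem class_all {n : ℕ} (w : X (n + 2 + 5)) (h : ht w.1 = n + 3) :
    pkn w.1 = 2 ∨ (pkn w.1 = 3 ∧ (cont w.1).count 1 ≠ 0) ∨ (∃ i, i ≤ n + 1 ∧ cyc w = zc n i) ∨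
      (∃ i, i ≤ n + 3 ∧ cyc w = yc n i) ∨ ∃ q, cyc w = hc n q := by
  have h5 : pkn w.1 ≤ 5 ∧ 2 ≤ pkn w.1 := by
    refine ⟨?_, two_le_pkn w (by omega)⟩
    obtain ⟨j, u, a, hk, rfl, h2, hj⟩ := red_ht w (by omega)
    rw [pkn_phi]
    have := ht_le u.1
    rw [X_num] at this
    omega
  rcases (by omega : pkn w.1 = 2 ∨ pkn w.1 = 3 ∨ pkn w.1 = 4 ∨ pkn w.1 = 5) with h6 | h6 | h6 | h6
  · exact Or.inl h6
  · by_cases h7 : (cont w.1).count 1 = 0
    · exact Or.inr (Or.inr (Or.inl (class_C2 w h h6 h7)))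
    · exact Or.inr (Or.inl ⟨h6, h7⟩)
  · exact Or.inr (Or.inr (Or.inr (Or.inl (class_C1 w h h6))))
  · exact Or.inr (Or.inr (Or.inr (Or.inr (class_H w h h6))))

end T4

end Pool.OddHC
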