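import Pool.Agent.Work.MP_8f87b2_h73.T4C
import Pool.Agent.Work.MP_8f87b2_mid.FirstMax

/-!
MP_8f87b2_co, the layer `t = 4` (`k = n + 7`, `s = n + 3`), part D: one window gadget as a system, chains of systems, the inner
words, the `T²` links of the words `sh i R_q`, the gadgets J2M.
-/

set_option autoImplicit false

namespace Pool.OddHC

open Finset BinaryTree Equiv Pool.OddHop

namespace T4

variable {k : ℕ}

/-! ### One gadget, chains -/

/-- one gadget with links of length two is a system -/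
theorem sys_one {O Fc : Set (Cyc k)} {W I : Set (X k)} (g : DG k) (hF : ∀ w, w ∈ g.F ↔ cyc w ∈ Fc)
    (hnew : ∀ c ∈ Fc, ∃ u ∈ g.B, cyc u = c) (hold : ∃ u ∈ g.B, cyc u ∉ Fc)
    (hB : ∀ w ∈ g.B, cyc w ∈ Fc ∨ cyc w ∈ O) (hW : ∀ w ∈ g.B, w ∈ W) (hI : ∀ w ∈ W, w ∉ I)
    (hpath : ∀ a ∈ g.arcs, TT (TT a.1) = a.2 ∧ a.1 ∈ g.B ∧ TT a.1 ∈ I) (habs : g.Abs) :
    HasSys O Fc W I := by
  refine ⟨Unit, inferInstance, fun _ => g, fun _ => Fc, fun _ => 0, ?_⟩
  constructor
  · intro _; exact hF
  · intro _ c hc; exact hc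
  · intro c hc; exact ⟨(), hc⟩
  · intro a b h; exact absurd rfl h
  · intro a b h; exact absurd rfl h
  · intro _; exact hnew
  · intro _; exact hold
  · intro _ w hw
    rcases hB w hw with h | h
    · exact Or.inl h
    · exact Or.inr (Or.inl h)
  · intro _; exact hW
  · intro _ a ha
    obtain ⟨h1, h2, h3⟩ := hpath a ha
    refine ⟨1, ?_, h2, ?_⟩
    · rw [← h1]; rfl
    · intro i hi
      obtain rfl : i = 0 := by omega
      have e : (TT ^ (0 + 1) : Perm (X k)) a.1 = TT a.1 := rfl
      rw [e]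
      refine ⟨fun h => hI _ (hW _ h) h3, h3, ?_⟩
      intro h hne _
      exact absurd rfl hne
  · intro _; exact habs

/-- a chain of systems, every one may use the new cycles of the former ones -/
theorem sys_chain (O : Set (Cyc k)) (N : ℕ → Set (Cyc k)) (W : ℕ → Set (X k)) (I : Set (X k)) : ∀ n : ℕ,
    (∀ i < n, HasSys (O ∪ {c | ∃ j < i, c ∈ N j}) (N i) (W i) I) →
    (∀ i < n, ∀ j < i, ∀ c ∈ N j, c ∉ N i) → (∀ i < n, ∀ j < i, ∀ w ∈ W j, w ∉ W i) →
    (∀ i < n, ∀ w ∈ W i, w ∉ I) →
    HasSys O {c | ∃ i < n, c ∈ N i} {w | ∃ i < n, w ∈ W i} I := by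
  intro n
  induction n with
  | zero =>
    intro _ _ _ _
    have e : {c : Cyc k | ∃ i < 0, c ∈ N i} = ∅ := by
      ext c
      constructor
      · rintro ⟨i, hi, -⟩
        omega
      · intro h
        exact absurd h (Set.notMem_empty _)
    rw [e]
    exact sys_empty _ _ _
  | succ n ih =>
    intro h hN hW hI
    have h1 := ih (fun i hi => h i (by omega)) (fun i hi => hN i (by omega)) (fun i hi => hW i (by omega))
      (fun i hi => hI i (by omega))
    have h2 := sys_union h1 (h n (by omega)) (by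
      rintro c ⟨i, hi, hc⟩
      exact hN n (by omega) i hi c hc) (by
      rintro w ⟨i, hi, hw⟩
      exact hW n (by omega) i hi w hw) (by
      rintro w ⟨i, hi, hw⟩
      exact hI i (by omega) w hw)
    have e : {c : Cyc k | ∃ i < n, c ∈ N i} ∪ N n = {c | ∃ i < n + 1, c ∈ N i} := by
      ext c
      constructor
      · rintro (⟨i, hi, hc⟩ | hc)
        · exact ⟨i, by omega, hc⟩
        · exact ⟨n, by omega, hc⟩
      · rintro ⟨i, hi, hc⟩
        rcases Nat.lt_or_ge i n with h3 | h3
        · exact Or.inl ⟨i, h3, hc⟩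
        · obtain rfl : i = n := by omega
          exact Or.inr hc
    rw [e] at h2
    refine h2.mono ?_ (fun w hw => by simpa using hw)
    rintro w (⟨i, hi, hw⟩ | hw)
    · exact ⟨i, by omega, hw⟩
    · exact ⟨n, by omega, hw⟩

/-! ### The inner words -/

/-- starts with `1^s` -/
def Pre (s : ℕ) (l : List Bool) : Prop := ∃ v, l = List.replicate s true ++ v

/-- ends with `000` or `1100` -/
def Suf (l : List Bool) : Prop :=
  (∃ v, l = v ++ [false, false, false]) ∨ ∃ v, l = v ++ [true, true, false, false]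

theorem Suf.app {l : List Bool} (h : Suf l) (u : List Bool) : Suf (u ++ l) := by
  rcases h with ⟨v, rfl⟩ | ⟨v, rfl⟩
  · exact Or.inl ⟨u ++ v, by rw [List.append_assoc]⟩
  · exact Or.inr ⟨u ++ v, by rw [List.append_assoc]⟩

theorem Suf.cons {l : List Bool} (h : Suf l) (b : Bool) : Suf (b :: l) := h.app [b]

theorem Suf.rep {r : ℕ} (h : 3 ≤ r) (u : List Bool) : Suf (u ++ List.replicate r false) := by
  obtain ⟨r, rfl⟩ : ∃ r', r = r' + 3 := ⟨r - 3, by omega⟩
  refine Or.inl ⟨u ++ List.replicate r false, ?_⟩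
  rw [List.append_assoc]
  congr 1
  rw [show r + 3 = r + 1 + 1 + 1 by rfl, List.replicate_succ', List.replicate_succ', List.replicate_succ']
  simp

/-- the inner words of the layer -/
def Inn (n : ℕ) : Set (X (n + 2 + 5)) :=
  {w | (Pre (n + 3) (wd w.1) ∧ Suf (wd w.1) ∧ ((ht w.1 = n + 3 ∧ pkn w.1 = 4) ∨ (ht w.1 = n + 4 ∧ pkn w.1 = 3))) ∨
    w.1 = app (pw (n + 5)) ((.nil △ .nil) △ .nil)}

theorem pkn_same {x y : X k} (h : (TT : Perm (X k)).SameCycle x y) : pkn x.1 = pkn y.1 := by
  rw [← cont_card, cont_same h, cont_card]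

theorem same_T (x : X k) : (TT : Perm (X k)).SameCycle (TT x) x := ⟨-1, by simp⟩

/-- the inner word by the first maximum -/
theorem inner_of {n : ℕ} {x : X (n + 2 + 5)} {a b a1 a2 c : List Bool} (h : H1.FM x.1 a b)
    (hb : b = List.replicate (n + 3) false ++ c) (ha : a = a1 ++ a2) (hs : Suf (a2.map not))
    (hi : (ht x.1 = n + 3 ∧ pkn x.1 = 4) ∨ (ht x.1 = n + 4 ∧ pkn x.1 = 3)) : TT x ∈ Inn n := by
  refine Or.inl ⟨?_, ?_, ?_⟩
  · rw [h.wdT, hb]
    exact ⟨c.map not ++ false :: a.map not, by simp⟩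
  · rw [h.wdT, ha, List.map_append]
    exact Suf.app ((hs.app _).cons _) _
  · have h1 : ht (TT x).1 = ht x.1 := ht_same (same_T x)
    have h2 : pkn (TT x).1 = pkn x.1 := pkn_same (same_T x)
    rw [h1, h2]
    exact hi

/-- the first maximum of a nested word -/
theorem FM_pw (t : ℕ) : H1.FM (pw (t + 1)) (List.replicate t true) (List.replicate (t + 1) false) := by
  induction t with
  | zero => exact ⟨rfl, fun m => by rw [tht, ht_pw]; simp, by rw [tht, ht_pw]; simp⟩
  | succ t ih =>
    have h := ih.node (Z := .nil) (by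
      rw [tht, tht]
      change 0 ≤ _
      omega)
    rw [pw_succ]
    have e : List.replicate (t + 1) false ++ false :: wd .nil = List.replicate (t + 1 + 1) false := by
      rw [List.replicate_succ' (n := t + 1)]
      rfl
    rw [e] at h
    exact h

/-- the first maximum of `R_q` -/
theorem FM_Rq {n q : ℕ} (h : q ≤ n) : H1.FM (Rq n q)
    (List.replicate q true ++ ([true, true, false, false] ++ List.replicate (n + 2 - q) true))
    (List.replicate (n + 3) false) := by
  have key : ∀ r q : ℕ, 2 ≤ r → H1.FM (nest q ((.nil △ .nil) △ pw (r + 1)))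
      (List.replicate q true ++ ([true, true, false, false] ++ List.replicate r true))
      (List.replicate (r + 1 + q) false) := by
    intro r q hr
    induction q with
    | zero =>
      have h1 := (FM_pw r).app_left (P := (.nil △ .nil) △ .nil) (by
        rw [tht, tht, ht_pw, ht_node, ht_node, ht_nil]
        omega)
      exact h1
    | succ q ih =>
      have h1 := ih.node (Z := .nil) (by
        rw [tht, tht]
        change 0 ≤ _
        omega)
      have e : List.replicate (r + 1 + q) false ++ false :: wd .nil =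
          List.replicate (r + 1 + (q + 1)) false := by
        rw [show r + 1 + (q + 1) = r + 1 + q + 1 by ring, List.replicate_succ' (n := r + 1 + q)]
        rfl
      rw [e] at h1
      exact h1
  have h2 := key (n + 2 - q) q (by omega)
  unfold Rq
  rw [show n + 2 - q + 1 = n + 3 - q by omega, show n + 3 - q + q = n + 3 by omega] at h2
  exact h2

theorem Suf_a {n q : ℕ} (h : q ≤ n) :
    Suf ((([true, true, false, false] ++ List.replicate (n + 2 - q) true) : List Bool).map not) := by
  rw [List.map_append, List.map_replicate]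
  rcases Nat.lt_or_ge q n with h1 | h1
  · exact Suf.rep (by omega) _
  · obtain rfl : q = n := by omega
    rw [show q + 2 - q = 2 by omega]
    exact Or.inr ⟨[false, false], rfl⟩

/-! ### Words which are not inner words -/

theorem notPre1 {n : ℕ} {B : BinaryTree Unit} : ¬ Pre (n + 3) (wd (.nil △ B)) := by
  rintro ⟨v, hv⟩
  rw [wd_node, List.replicate_succ, List.replicate_succ] at hv
  simp [wd] at hv

theorem notPre2 {n : ℕ} {A B : BinaryTree Unit} : ¬ Pre (n + 3) (wd ((.nil △ A) △ B)) := by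
  rintro ⟨v, hv⟩
  rw [wd_node, wd_node, List.replicate_succ, List.replicate_succ, List.replicate_succ] at hv
  simp [wd] at hv

theorem notPre3 {n : ℕ} (hn : 1 ≤ n) {A A' B : BinaryTree Unit} :
    ¬ Pre (n + 3) (wd (((.nil △ A) △ A') △ B)) := by
  obtain ⟨n, rfl⟩ : ∃ n', n = n' + 1 := ⟨n - 1, by omega⟩
  rintro ⟨v, hv⟩
  rw [wd_node, wd_node, wd_node, List.replicate_succ, List.replicate_succ, List.replicate_succ,
    List.replicate_succ] at hv
  simp [wd] at hv

theorem wd_snoc {C : BinaryTree Unit} (h : C ≠ .nil) : ∃ u, wd C = u ++ [false] := by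
  induction C with
  | nil => exact absurd rfl h
  | node _ A B _ ih =>
    change ∃ u, wd (A △ B) = _
    by_cases hB : B = .nil
    · subst hB
      exact ⟨true :: wd A, by rw [wd_node]; simp [wd]⟩
    · obtain ⟨u, hu⟩ := ih hB
      exact ⟨true :: (wd A ++ false :: u), by rw [wd_node, hu]; simp⟩

theorem notSuf_tf {u : List Bool} : ¬ Suf (u ++ [true, false]) := by
  rintro (⟨v, hv⟩ | ⟨v, hv⟩)
  · have h := congrArg (fun l => (l.reverse.drop 1).head?) hv
    simp at h
  · have h := congrArg (fun l => (l.reverse.drop 1).head?) hv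
    simp at h

theorem notSuf_ftff {u : List Bool} : ¬ Suf (u ++ [false, true, false, false]) := by
  rintro (⟨v, hv⟩ | ⟨v, hv⟩)
  · have h := congrArg (fun l => (l.reverse.drop 2).head?) hv
    simp at h
  · have h := congrArg (fun l => (l.reverse.drop 3).head?) hv
    simp at h

theorem notSuf1 {A : BinaryTree Unit} : ¬ Suf (wd (app A (.nil △ .nil))) := by
  rw [wd_app, wd_node]
  exact notSuf_tf

theorem notSuf2 {A C : BinaryTree Unit} (hC : C ≠ .nil) : ¬ Suf (wd (app A (app C (.nil △ .nil) △ .nil))) := by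
  obtain ⟨u, hu⟩ := wd_snoc hC
  rw [wd_app, wd_node, wd_app, wd_node, hu]
  have e : wd A ++ true :: (u ++ [false] ++ true :: (wd .nil ++ false :: wd .nil) ++ false :: wd .nil) =
      (wd A ++ true :: u) ++ [false, true, false, false] := by simp [wd]
  rw [e]
  exact notSuf_ftff

/-! ### The words `sh i R_q` -/

/-- the words of the gadgets over `R_q`, total -/
noncomputable def xt (n i q : ℕ) : X (n + 2 + 5) :=
  if h : i < 10 ∧ q ≤ n + 3 then xq n i q h.1 h.2 else xq n 0 0 (by norm_num) (by omega)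

theorem xt_eq {n i q : ℕ} (hi : i < 10) (hq : q ≤ n + 3) : xt n i q = xq n i q hi hq := dif_pos ⟨hi, hq⟩

theorem xt_val {n i q : ℕ} (hi : i < 10) (hq : q ≤ n + 3) : (xt n i q).1 = sh i (Rq n q) := by
  rw [xt_eq hi hq]
  rfl

theorem xt_inv {n i q : ℕ} (hi : i < 10) (hq : q ≤ n + 1) :
    (ht (xt n i q).1, pkn (xt n i q).1) = shi (n + 3) 2 i := by
  rw [xt_val hi (by omega)]
  have h1 := sh_inv (R := Rq n q) (pkn_Rq hq).2 (by rw [ht_Rq hq]; omega) i hi
  rw [ht_Rq hq, (pkn_Rq hq).1] at h1
  exact h1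

theorem Rq_ne {n q : ℕ} (hq : q ≤ n + 3) : Rq n q ≠ .nil := by
  intro h
  have := Rq_num hq
  rw [h, nz] at this
  omega

theorem xt_inn {n i q : ℕ} (hi : i < 10) (hq : q ≤ n + 1) : xt n i q ∉ Inn n := by
  have hv := xt_inv hi hq
  have h1 := congrArg Prod.fst hv
  have h2 := congrArg Prod.snd hv
  change ht _ = _ at h1
  change pkn _ = _ at h2
  have e := xt_val (n := n) hi (show q ≤ n + 3 by omega)
  rintro (⟨hP, hS, hh⟩ | hh)
  · rw [e] at hP hS
    rw [h1, h2] at hh
    interval_cases i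
    · simp [shi] at hh
    · exact notPre1 hP
    · exact notPre1 hP
    · exact notPre2 hP
    · rw [sh_4] at hS
      exact notSuf2 (A := .nil) (Rq_ne (by omega)) hS
    · exact notSuf1 (A := Rq n q △ .nil) hS
    · exact notPre1 hP
    · simp [shi] at hh
    · have e8 : sh 8 (Rq n q) = app (app (Rq n q) (.nil △ .nil)) (.nil △ .nil) := by
        rw [sh_8, Tsq.app_assoc]
        rfl
      rw [e8] at hS
      exact notSuf1 hS
    · simp [shi] at hh
  · rw [hh] at h1 h2
    rw [ht_app, ht_pw, ht_node, ht_node, ht_nil] at h1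
    rw [pkn_app, show n + 5 = n + 4 + 1 by rfl, pkn_pw] at h2
    rw [e] at hh
    interval_cases i <;> simp only [shi] at h1 <;> try omega
    rw [sh_0, show n + 5 = n + 4 + 1 by rfl, pw_succ] at hh
    change _ = _ △ ((.nil △ .nil) △ .nil) at hh
    injection hh with _ h3 h4
    cases h4

/-- the `T²` links -/
theorem lk {n q i j : ℕ} (hq : q ≤ n)
    (hij : (i, j) ∈ [(8, 2), (4, 5), (5, 6), (6, 3), (0, 0), (7, 9)]) :
    TT (TT (xt n i q)) = xt n j (q + 1) := by
  have hR := Rq_ne (n := n) (q := q) (by omega)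
  have hs := sq_Rq hq
  have hh : Tsq.ht (.nil : BinaryTree Unit) ≤ Tsq.ht (Rq n q) := by
    rw [tht, ht_nil]; omega
  have hh2 : Tsq.ht (.nil : BinaryTree Unit) + 2 ≤ Tsq.ht (Rq n q) := by
    rw [tht, tht, ht_nil, ht_Rq (by omega)]; omega
  simp only [List.mem_cons, Prod.mk.injEq, List.not_mem_nil, or_false] at hij
  rcases hij with ⟨rfl, rfl⟩ | ⟨rfl, rfl⟩ | ⟨rfl, rfl⟩ | ⟨rfl, rfl⟩ | ⟨rfl, rfl⟩ | ⟨rfl, rfl⟩
  · refine Tsq.link (i := 1) (j := 1) hR hh (by simp) ?_ ?_
    · rw [xt_val (by norm_num) (by omega)]; rfl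
    · rw [xt_val (by norm_num) (by omega), hs]; rfl
  · refine Tsq.link (i := 3) (j := 2) hR hh (by simp) ?_ ?_
    · rw [xt_val (by norm_num) (by omega)]; rfl
    · rw [xt_val (by norm_num) (by omega), hs]; rfl
  · refine Tsq.link (i := 6) (j := 5) hR hh (by simp) ?_ ?_
    · rw [xt_val (by norm_num) (by omega)]; rfl
    · rw [xt_val (by norm_num) (by omega), hs]; rfl
  · refine Tsq.link (i := 8) (j := 4) hR hh (by simp) ?_ ?_
    · rw [xt_val (by norm_num) (by omega)]; rfl
    · rw [xt_val (by norm_num) (by omega), hs]; rfl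
  · refine Tsq.link (i := 9) (j := 7) hR hh (by simp) ?_ ?_
    · rw [xt_val (by norm_num) (by omega)]; rfl
    · rw [xt_val (by norm_num) (by omega), hs]; rfl
  · refine Tsq.link0 hh2 ?_ ?_
    · rw [xt_val (by norm_num) (by omega)]; rfl
    · rw [xt_val (by norm_num) (by omega), hs]; rfl

/-- the inner words of the links -/
theorem lk_inn {n q i : ℕ} (hq : q ≤ n) (hi : i ∈ [8, 4, 5, 6]) : TT (xt n i q) ∈ Inn n := by
  have hF := FM_Rq hq
  have hS := Suf_a hq
  have hi10 : i < 10 := by
    simp only [List.mem_cons, List.not_mem_nil, or_false] at hi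
    omega
  have hv := xt_inv (n := n) hi10 (show q ≤ n + 1 by omega)
  have h1 := congrArg Prod.fst hv
  have h2 := congrArg Prod.snd hv
  change ht _ = _ at h1
  change pkn _ = _ at h2
  have hRh : Tsq.ht (Rq n q) = n + 3 := by rw [tht, ht_Rq (by omega)]
  simp only [List.mem_cons, List.not_mem_nil, or_false] at hi
  rcases hi with rfl | rfl | rfl | rfl
  · have h := hF.app_right (Z := .nil △ (.nil △ .nil)) (by
      rw [hRh, tht, ht_node, ht_node, ht_nil]; omega)
    exact inner_of (x := xt n 8 q) (by rw [xt_val (by norm_num) (by omega)]; exact h) rfl rfl hS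
      (Or.inl ⟨h1, h2⟩)
  · have h := (hF.app_right (Z := .nil △ .nil) (by
      rw [hRh, tht, ht_node, ht_nil]; omega)).node (Z := .nil) (by rw [tht, ht_nil]; omega)
    exact inner_of (x := xt n 4 q) (by rw [xt_val (by norm_num) (by omega)]; exact h)
      (by rw [List.append_assoc]) (a1 := true :: List.replicate q true) rfl hS (Or.inr ⟨h1, h2⟩)
  · have h := hF.node (Z := .nil △ .nil) (by
      rw [hRh, tht, ht_node, ht_nil]; omega)
    exact inner_of (x := xt n 5 q) (by rw [xt_val (by norm_num) (by omega)]; exact h)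
      rfl (a1 := true :: List.replicate q true) rfl hS (Or.inr ⟨h1, h2⟩)
  · have h := (hF.node (Z := .nil) (by rw [tht, ht_nil]; omega)).app_left (P := .nil △ .nil) (by
      rw [tht, tht, ht_node, ht_node, ht_nil, ht_Rq (by omega)]; omega)
    exact inner_of (x := xt n 6 q) (by rw [xt_val (by norm_num) (by omega)]; exact h)
      rfl (a1 := wd (.nil △ .nil) ++ true :: List.replicate q true)
      (by simp) hS (Or.inr ⟨h1, h2⟩)

end T4

end Pool.OddHC
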