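import Pool.Agent.Work.MP_8f87b2_h73.T4D

/-!
MP_8f87b2_co, the layer `t = 4` (`k = n + 7`, `s = n + 3`), part E: the chain of the gadgets J2M.
-/

set_option autoImplicit false

namespace Pool.OddHC

open Finset BinaryTree Equiv Pool.OddHop

namespace T4

/-- the ten words over `R_q` -/
def WJ (n q : ℕ) : Set (X (n + 2 + 5)) := {w | ∃ i < 10, w = xt n i q}

theorem WJ_inn {n q : ℕ} (hq : q ≤ n + 1) : ∀ w ∈ WJ n q, w ∉ Inn n := by
  rintro w ⟨i, hi, rfl⟩
  exact xt_inn hi hq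

theorem xt_inj {n : ℕ} (hn : 1 ≤ n) {i j q q' : ℕ} (hi : i < 10) (hj : j < 10) (hq : q ≤ n + 1)
    (hq' : q' ≤ n + 1) (h : xt n i q = xt n j q') : i = j ∧ q = q' := by
  have h1 := congrArg Subtype.val h
  rw [xt_val hi (by omega), xt_val hj (by omega)] at h1
  exact sh_Rq_inj hn hi hj hq hq' h1

theorem WJ_dis {n : ℕ} (hn : 1 ≤ n) {q q' : ℕ} (hq : q ≤ n + 1) (hq' : q' ≤ n + 1) (hne : q ≠ q') :
    ∀ w ∈ WJ n q, w ∉ WJ n q' := by
  rintro w ⟨i, hi, rfl⟩ ⟨j, hj, h⟩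
  exact hne (xt_inj hn hi hj hq hq' h).2

theorem cyc_9 {n q : ℕ} (hq : q ≤ n + 1) : cyc (xt n 9 q) = zc n q := by
  rw [xt_eq (by norm_num) (by omega)]
  exact cyc9 hq

theorem cyc_7 {n q : ℕ} (hq : q ≤ n) : cyc (xt n 7 q) = zc n (q + 1) := by
  rw [xt_eq (by norm_num) (by omega)]
  exact cyc7 hq

theorem cyc_7_end (n : ℕ) : cyc (xt n 7 (n + 1)) = zc n (n + 1) := by
  rw [xt_eq (by norm_num) (by omega)]
  exact cyc7_end n

/-- the T-cycles which have to be old for the gadgets of this part -/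
def OJ (n : ℕ) : Set (Cyc (n + 2 + 5)) := {c | n + 4 ≤ htc c ∨ (htc c = n + 3 ∧ pkc c = 4)}

theorem xt_old {n i q : ℕ} (hi : i < 10) (hq : q ≤ n + 1) (h7 : i ≠ 7) (h9 : i ≠ 9) :
    cyc (xt n i q) ∈ OJ n := by
  have hv := xt_inv hi hq
  have h1 := congrArg Prod.fst hv
  have h2 := congrArg Prod.snd hv
  change ht _ = _ at h1
  change pkn _ = _ at h2
  change n + 4 ≤ htc (cyc _) ∨ (htc (cyc _) = n + 3 ∧ pkc (cyc _) = 4)
  rw [htc_cyc, pkc_cyc, h1, h2]
  interval_cases i <;> simp [shi] at h7 h9 ⊢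

theorem OJ_z {n i : ℕ} : zc n i ∉ OJ n := by
  rintro (h | ⟨h, h'⟩)
  · rw [htc_zc] at h; omega
  · rw [pkc_zc] at h'; omega

/-- the words of the gadget J2M with the places `p`, `p + 1` -/
noncomputable def wj (n p i : ℕ) : X (n + 2 + 5) := xt n (ji i) (if i < 10 then p else p - 1)

theorem wj_val {n p i : ℕ} (hp : p ≤ n + 1) (hi : i < 20) :
    (wj n p i).1 = w20M (Rq n p) .nil .nil (Rq n (p - 1)) i := by
  unfold wj
  rw [w20M_sh]
  split_ifs with h
  · rw [xt_val (ji_lt i hi) (by omega)]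
  · rw [xt_val (ji_lt i hi) (by omega)]

theorem ji_inj : ∀ i < 20, ∀ j < 20, (i < 10 ↔ j < 10) → ji i = ji j → i = j := by decide

theorem wj_inj {n p i j : ℕ} (hn : 1 ≤ n) (hp : 1 ≤ p) (hp' : p ≤ n + 1) (hi : i < 20) (hj : j < 20)
    (h : wj n p i = wj n p j) : i = j := by
  have h1 := xt_inj hn (ji_lt i hi) (ji_lt j hj) (by split_ifs <;> omega) (by split_ifs <;> omega) h
  refine ji_inj i hi j hj ?_ h1.1
  have h2 := h1.2
  by_cases a : i < 10 <;> by_cases b : j < 10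
  · exact ⟨fun _ => b, fun _ => a⟩
  · rw [if_pos a, if_neg b] at h2; omega
  · rw [if_neg a, if_pos b] at h2; omega
  · exact ⟨fun h => absurd h a, fun h => absurd h b⟩

theorem wj_WJ {n p i : ℕ} (hi : i < 20) : wj n p i ∈ WJ n p ∪ WJ n (p - 1) := by
  unfold wj
  split_ifs with h
  · exact Or.inl ⟨_, ji_lt i hi, rfl⟩
  · exact Or.inr ⟨_, ji_lt i hi, rfl⟩

theorem ji_79' : ∀ i < 20, i = 0 ∨ i = 4 ∨ i = 10 ∨ i = 13 ∨ (ji i ≠ 7 ∧ ji i ≠ 9) := by decide

theorem ji_79 (i : ℕ) (hi : i < 20) (h0 : i ≠ 0) (h4 : i ≠ 4) (h10 : i ≠ 10) (h13 : i ≠ 13) :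
    ji i ≠ 7 ∧ ji i ≠ 9 := by
  rcases ji_79' i hi with h | h | h | h | h
  · exact absurd h h0
  · exact absurd h h4
  · exact absurd h h10
  · exact absurd h h13
  · exact h

theorem wj_0 {n p : ℕ} (hp : p ≤ n + 1) : cyc (wj n p 0) = zc n p := cyc_9 hp
theorem wj_4 {n p : ℕ} (hp : p ≤ n) : cyc (wj n p 4) = zc n (p + 1) := cyc_7 hp
theorem wj_10 {n p : ℕ} (hp1 : 1 ≤ p) (hp : p ≤ n + 1) : cyc (wj n p 10) = zc n p := by
  have h := cyc_7 (n := n) (q := p - 1) (by omega)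
  rw [show p - 1 + 1 = p by omega] at h
  exact h
theorem wj_13 {n p : ℕ} (hp : p ≤ n + 1) : cyc (wj n p 13) = zc n (p - 1) :=
  cyc_9 (q := p - 1) (by omega)

theorem wj_old {n p i : ℕ} (hp : p ≤ n + 1) (hi : i < 20) (h0 : i ≠ 0) (h4 : i ≠ 4) (h10 : i ≠ 10)
    (h13 : i ≠ 13) : cyc (wj n p i) ∈ OJ n := by
  obtain ⟨a, b⟩ := ji_79 i hi h0 h4 h10 h13
  exact xt_old (ji_lt i hi) (by split_ifs <;> omega) a b

/-- **THE GADGET J2M with the places `p`, `p + 1`** -/
theorem sys_JM {n p : ℕ} (hn : 1 ≤ n) (hp : 1 ≤ p) (hpn : p ≤ n) {O : Set (Cyc (n + 2 + 5))}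
    (hO : OJ n ⊆ O) (hO' : zc n (p - 1) ∈ O) :
    HasSys O {c | c = zc n p ∨ c = zc n (p + 1)} (WJ n p ∪ WJ n (p - 1)) (Inn n) := by
  have ne1 : zc n p ≠ zc n (p + 1) := fun h => by
    have := zc_inj (by omega) (by omega) h
    omega
  have ne2 : zc n (p - 1) ≠ zc n p := fun h => by
    have := zc_inj (by omega) (by omega) h
    omega
  have ne3 : zc n (p - 1) ≠ zc n (p + 1) := fun h => by
    have := zc_inj (by omega) (by omega) h
    omega
  have e0 := wj_0 (n := n) (p := p) (by omega)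
  have e4 := wj_4 (n := n) (p := p) (by omega)
  have e10 := wj_10 (n := n) (p := p) hp (by omega)
  have e13 := wj_13 (n := n) (p := p) (by omega)
  have hB : ∀ x, x ∈ (gadJM (wj n p)).B ↔ ∃ i < 20, i ≠ 5 ∧ wj n p i = x := by
    intro x
    change x ∈ ((range 20).erase 5).image (wj n p) ↔ _
    rw [mem_image]
    constructor
    · rintro ⟨i, hi, rfl⟩
      rw [mem_erase, mem_range] at hi
      exact ⟨i, hi.2, hi.1, rfl⟩
    · rintro ⟨i, h1, h2, rfl⟩
      exact ⟨i, mem_erase.2 ⟨h2, mem_range.2 h1⟩, rfl⟩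
  have hmem : ∀ i < 20, i ≠ 5 → wj n p i ∈ (gadJM (wj n p)).B := fun i h1 h2 => (hB _).2 ⟨i, h1, h2, rfl⟩
  have hold : ∀ i < 20, i ≠ 0 → i ≠ 4 → i ≠ 10 → cyc (wj n p i) ≠ zc n p ∧ cyc (wj n p i) ≠ zc n (p + 1) := by
    intro i hi h0 h4 h10
    by_cases h13 : i = 13
    · subst h13
      rw [e13]
      exact ⟨ne2, ne3⟩
    · have h := wj_old (n := n) (p := p) (by omega) hi h0 h4 h10 h13
      constructor
      · intro he
        rw [he] at h
        exact OJ_z h
      · intro he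
        rw [he] at h
        exact OJ_z h
  apply sys_one (gadJM (wj n p))
  · intro w
    change ((TT : Perm (X (n + 2 + 5))).SameCycle (wj n p 0) w ∨ TT.SameCycle (wj n p 4) w) ↔
      (cyc w = zc n p ∨ cyc w = zc n (p + 1))
    rw [← e0, ← e4, cyc_eq, cyc_eq]
    constructor
    · rintro (h | h)
      · exact Or.inl h.symm
      · exact Or.inr h.symm
    · rintro (h | h)
      · exact Or.inl h.symm
      · exact Or.inr h.symm
  · rintro c (rfl | rfl)
    · exact ⟨_, hmem 0 (by norm_num) (by norm_num), e0⟩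
    · exact ⟨_, hmem 4 (by norm_num) (by norm_num), e4⟩
  · refine ⟨_, hmem 13 (by norm_num) (by norm_num), ?_⟩
    rw [e13]
    rintro (h | h)
    · exact ne2 h
    · exact ne3 h
  · intro w hw
    obtain ⟨i, hi, -, rfl⟩ := (hB w).1 hw
    by_cases h0 : i = 0
    · subst h0; exact Or.inl (Or.inl e0)
    by_cases h4 : i = 4
    · subst h4; exact Or.inl (Or.inr e4)
    by_cases h10 : i = 10
    · subst h10; exact Or.inl (Or.inl e10)
    by_cases h13 : i = 13
    · subst h13; right; rw [e13]; exact hO'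
    · exact Or.inr (hO (wj_old (by omega) hi h0 h4 h10 h13))
  · intro w hw
    obtain ⟨i, hi, -, rfl⟩ := (hB w).1 hw
    exact wj_WJ hi
  · rintro w (hw | hw)
    · exact WJ_inn (by omega) w hw
    · exact WJ_inn (by omega) w hw
  · have hp1 : p - 1 + 1 = p := by omega
    rintro a (rfl | rfl | rfl | rfl)
    · refine ⟨?_, hmem 11 (by norm_num) (by norm_num), lk_inn (q := p - 1) (by omega) (i := 8) (by simp)⟩
      have h := lk (n := n) (q := p - 1) (i := 8) (j := 2) (by omega) (by simp)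
      rw [hp1] at h
      exact h
    · refine ⟨?_, hmem 12 (by norm_num) (by norm_num), lk_inn (q := p - 1) (by omega) (i := 6) (by simp)⟩
      have h := lk (n := n) (q := p - 1) (i := 6) (j := 3) (by omega) (by simp)
      rw [hp1] at h
      exact h
    · refine ⟨?_, hmem 15 (by norm_num) (by norm_num), lk_inn (q := p - 1) (by omega) (i := 5) (by simp)⟩
      have h := lk (n := n) (q := p - 1) (i := 5) (j := 6) (by omega) (by simp)
      rw [hp1] at h
      exact h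
    · refine ⟨?_, hmem 14 (by norm_num) (by norm_num), lk_inn (q := p - 1) (by omega) (i := 4) (by simp)⟩
      have h := lk (n := n) (q := p - 1) (i := 4) (j := 5) (by omega) (by simp)
      rw [hp1] at h
      exact h
  · refine gadJM_abs (R := Rq n p) (B := .nil) (S := Rq n (p - 1)) ?_ ?_ ?_ ?_ ?_ ?_ ?_
    · rw [Rq_num (by omega)]
    · rw [Rq_num (by omega), nz]
    · intro i hi _
      exact wj_val (by omega) hi
    · intro i hi _ j hj _ h
      exact wj_inj hn hp (by omega) hi hj h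
    · rw [← cyc_eq, e0, e10]
    · rw [← cyc_eq, e0, e4]
      exact ne1
    · intro i hi h0 h4 _ h10
      obtain ⟨a, b⟩ := hold i hi h0 h4 h10
      constructor
      · intro h
        apply a
        rw [← e0]
        exact (cyc_eq.2 h).symm
      · intro h
        apply b
        rw [← e4]
        exact (cyc_eq.2 h).symm

/-- **THE CHAIN of the gadgets J2M** with the places `p₀, p₀ + 1`, `p₀ + 2, p₀ + 3`, ... -/
theorem sys_Jchain {n p₀ m : ℕ} (hn : 1 ≤ n) (hp : 1 ≤ p₀) (hm : p₀ + 2 * m ≤ n + 2)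
    {O : Set (Cyc (n + 2 + 5))} (hO : OJ n ⊆ O) (hO' : zc n (p₀ - 1) ∈ O) :
    HasSys O {c | ∃ i, p₀ ≤ i ∧ i < p₀ + 2 * m ∧ c = zc n i}
      {w | ∃ q, p₀ - 1 ≤ q ∧ q < p₀ - 1 + 2 * m ∧ w ∈ WJ n q} (Inn n) := by
  have h := sys_chain O (fun i => {c | c = zc n (p₀ + 2 * i) ∨ c = zc n (p₀ + 2 * i + 1)})
    (fun i => WJ n (p₀ + 2 * i) ∪ WJ n (p₀ + 2 * i - 1)) (Inn n) m ?_ ?_ ?_ ?_
  · have e : {c | ∃ i < m, c ∈ {c | c = zc n (p₀ + 2 * i) ∨ c = zc n (p₀ + 2 * i + 1)}} =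
        {c | ∃ i, p₀ ≤ i ∧ i < p₀ + 2 * m ∧ c = zc n i} := by
      ext c
      constructor
      · rintro ⟨i, hi, hc | hc⟩
        · exact ⟨p₀ + 2 * i, by omega, by omega, hc⟩
        · exact ⟨p₀ + 2 * i + 1, by omega, by omega, hc⟩
      · rintro ⟨i, h1, h2, hc⟩
        rcases Nat.even_or_odd' (i - p₀) with ⟨l, hl | hl⟩
        · exact ⟨l, by omega, Or.inl (by rw [hc]; congr 1; omega)⟩
        · exact ⟨l, by omega, Or.inr (by rw [hc]; congr 1; omega)⟩
    rw [e] at h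
    refine h.mono ?_ (fun _ hx => hx)
    rintro w ⟨i, hi, hw | hw⟩
    · exact ⟨p₀ + 2 * i, by omega, by omega, hw⟩
    · exact ⟨p₀ + 2 * i - 1, by omega, by omega, hw⟩
  · intro i hi
    refine sys_JM hn (by omega) (by omega) (fun c hc => Or.inl (hO hc)) ?_
    rcases Nat.eq_zero_or_pos i with rfl | h0
    · exact Or.inl hO'
    · refine Or.inr ⟨i - 1, by omega, Or.inr ?_⟩
      congr 1
      omega
  · rintro i hi j hj c (hc | hc) (hc' | hc')
    · rw [hc] at hc'
      have := zc_inj (by omega) (by omega) hc'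
      omega
    · rw [hc] at hc'
      have := zc_inj (by omega) (by omega) hc'
      omega
    · rw [hc] at hc'
      have := zc_inj (by omega) (by omega) hc'
      omega
    · rw [hc] at hc'
      have := zc_inj (by omega) (by omega) hc'
      omega
  · rintro i hi j hj w (hw | hw) (hw' | hw')
    · exact WJ_dis hn (by omega) (by omega) (by omega) w hw hw'
    · exact WJ_dis hn (by omega) (by omega) (by omega) w hw hw'
    · exact WJ_dis hn (by omega) (by omega) (by omega) w hw hw'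
    · exact WJ_dis hn (by omega) (by omega) (by omega) w hw hw'
  · rintro i hi w (hw | hw)
    · exact WJ_inn (by omega) w hw
    · exact WJ_inn (by omega) w hw

end T4

end Pool.OddHC
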