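import Pool.Agent.Work.MP_8f87b2_h73.T4D

/-!
MP_8f87b2_co, the layer `t = 4` (`k = n + 7`, `s = n + 3`), part F: the triples of the class `(s, 2, 1, 1)` and their words.
-/

set_option autoImplicit false

namespace Pool.OddHC

open Finset BinaryTree Equiv Pool.OddHop

namespace T4

/-- one bead at the place `a` of `()[n + 2]` -/
noncomputable def Xa (n a : ℕ) : BinaryTree Unit :=
  yT (uY n) (fun x : ZMod (2 * (n + 3) + 1) => if x = (a : ZMod (2 * (n + 3) + 1)) then 1 else 0)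

theorem Xa_num (n a : ℕ) : (Xa n a).numNodes = n + 6 := by
  unfold Xa
  rw [yT_num, pkn_uY, one_bead_sum]

theorem ht_Xa (n a : ℕ) : ht (Xa n a) = n + 3 := by
  unfold Xa
  rw [ht_yT _ _ (by omega), ht_uY]

theorem pkn_Xa (n a : ℕ) : pkn (Xa n a) = 3 := by
  unfold Xa yT
  rw [(ins_num (uY n).1 _ (by rw [lf_length, X_num])).2, lf_sum, pkn_uY, one_bead_sum]

theorem Xa_inj {n a b : ℕ} (ha : a ≤ n + 3) (hb : b ≤ n + 3) (h : Xa n a = Xa n b) : a = b := by
  have h1 := congrFun (yT_inj h) (a : ZMod (2 * (n + 3) + 1))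
  simp only [if_true] at h1
  by_contra hne
  rw [if_neg] at h1
  · omega
  · intro h2
    exact hne ((cast_eq (by omega) (by omega)).1 h2)

theorem Xa_list {n a : ℕ} (ha : a ≤ n + 3) : Xa n a =
    lv (bn a 0) (lp (bn a 1 + 1) △ ins (pw (n + 2)) (nl (2 * (n + 2) + 1) (fun i => bn a (i + 1 + 1)))) := by
  have h : Xa n a = ins (.nil △ pw (n + 2)) (nl (2 * (n + 3) + 1) (bn a)) := by
    unfold Xa yT
    rw [lf_bn (by omega)]
    rfl
  rw [h, show 2 * (n + 3) + 1 = 2 * (n + 2) + 1 + 1 + 1 by ring, nl_succ, nl_succ]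
  rfl

theorem ins_pw0 (n : ℕ) : ins (pw (n + 2)) (List.replicate (2 * (n + 2) + 1) 0) = pw (n + 3) := by
  have h := L0_pw (n + 1)
  unfold L0 at h
  rw [pw_num] at h
  exact h

theorem Xa_0 (n : ℕ) : Xa n 0 = .nil △ ((.nil △ .nil) △ pw (n + 3)) := by
  rw [Xa_list (by omega), nl_zero, ins_pw0]
  · rfl
  · intro i _
    rfl

theorem Xa_1 (n : ℕ) : Xa n 1 = (.nil △ (.nil △ .nil)) △ pw (n + 3) := by
  rw [Xa_list (by omega), nl_zero, ins_pw0]
  · rfl
  · intro i _
    unfold bn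
    rw [if_neg (by omega)]

theorem Xa_2 {n h : ℕ} (hh : h ≤ n + 1) : Xa n (h + 2) = (.nil △ .nil) △ tY (n + 2) h := by
  rw [Xa_list (by omega), tY_nl (by omega)]
  have e : nl (2 * (n + 2) + 1) (fun i => bn (h + 2) (i + 1 + 1)) = nl (2 * (n + 2) + 1) (bn h) := by
    apply nl_congr
    intro i _
    unfold bn
    congr 1
    apply propext
    constructor <;> intro h1 <;> omega
  rw [e]
  have e0 : bn (h + 2) 0 = 0 := by unfold bn; rw [if_neg (by omega)]
  have e1 : bn (h + 2) 1 = 0 := by unfold bn; rw [if_neg (by omega)]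
  rw [e0, e1]
  rfl

/-! ### The words -/

noncomputable def xH (n a : ℕ) : X (n + 2 + 5) := mk n (Xa n a △ .nil) (by rw [nn, Xa_num, nz])
noncomputable def xB (n a : ℕ) : X (n + 2 + 5) := mk n (app (Xa n a) (.nil △ .nil)) (by rw [num_app, Xa_num, nn, nz])
noncomputable def xF (n a : ℕ) : X (n + 2 + 5) := mk n (.nil △ Xa n a) (by rw [nn, Xa_num, nz]; ring)

theorem ht_xH (n a : ℕ) : ht (xH n a).1 = n + 4 := by
  change ht (Xa n a △ .nil) = _
  rw [ht_node, ht_Xa, ht_nil]
  omega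
theorem ht_xB (n a : ℕ) : ht (xB n a).1 = n + 3 := by
  change ht (app (Xa n a) (.nil △ .nil)) = _
  rw [ht_app, ht_Xa, ht_node, ht_nil]
  omega
theorem ht_xF (n a : ℕ) : ht (xF n a).1 = n + 3 := by
  change ht (.nil △ Xa n a) = _
  rw [ht_node, ht_Xa, ht_nil]
  omega
theorem leaf_Xa (n a : ℕ) : leaf (Xa n a) = 0 := by
  have h := Xa_num n a
  cases hx : Xa n a with
  | nil => rw [hx, nz] at h; omega
  | node _ A B => rfl
theorem pkn_xH (n a : ℕ) : pkn (xH n a).1 = 3 := by
  change leaf (Xa n a) + pkn (Xa n a) + 0 = _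
  rw [leaf_Xa, pkn_Xa]
theorem pkn_xB (n a : ℕ) : pkn (xB n a).1 = 4 := by
  change pkn (app (Xa n a) (.nil △ .nil)) = _
  rw [pkn_app, pkn_Xa]
  rfl
theorem pkn_xF (n a : ℕ) : pkn (xF n a).1 = 4 := by
  change 1 + 0 + pkn (Xa n a) = _
  rw [pkn_Xa]

theorem sum_f {N a : ℕ} [NeZero N] (b : ZMod N) :
    ∑ x : ZMod N, ((if x = (a : ZMod N) then 1 else 0) + if x = b then 1 else 0) = 2 := by
  rw [sum_add_distrib, one_bead_sum, one_bead_sum]

theorem cyc_xF (n a : ℕ) : cyc (xF n a) = yc n a := by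
  have h := cyc_y (n := n) (uY n) (ht_uY n)
    (f := fun x => (if x = (a : ZMod (2 * (n + 3) + 1)) then 1 else 0) + if x = 0 then 1 else 0) (i := a) 0
    (by funext x; unfold bd; rw [add_zero, add_comm]) (y2_sum _ (ht_uY n) _ (sum_f 0))
  rw [← h]
  congr 1
  apply Subtype.ext
  exact (ins_front (uY n) _).symm

theorem cyc_xB (n a : ℕ) : cyc (xB n a) = yc n (a + 1) := by
  have h := cyc_y (n := n) (uY n) (ht_uY n)
    (f := fun x => (if x = (a : ZMod (2 * (n + 3) + 1)) then 1 else 0) + if x = -1 then 1 else 0) (i := a + 1) 1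
    (by
      funext x
      unfold bd
      have e1 : x + 1 = 0 ↔ x = -1 := by
        constructor
        · intro h; linear_combination h
        · rintro rfl; ring
      have e2 : x + 1 = ((a + 1 : ℕ) : ZMod (2 * (n + 3) + 1)) ↔ x = (a : ZMod (2 * (n + 3) + 1)) := by
        push_cast
        constructor
        · intro h; linear_combination h
        · rintro rfl; ring
      simp only [e1, e2]
      rw [add_comm]) (y2_sum _ (ht_uY n) _ (sum_f (-1)))
  rw [← h]
  congr 1
  apply Subtype.ext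
  exact (ins_back (uY n) _).symm

/-- the words of the triple of the places `a`, `a + 1` -/
def WE (n a : ℕ) : Set (X (n + 2 + 5)) := {w | w = xH n a ∨ w = xB n a ∨ w = xF n a}

/-- the T-cycles of greater height -/
def OT (n : ℕ) : Set (Cyc (n + 2 + 5)) := {c | n + 4 ≤ htc c}

/-- **THE TRIPLE** of the distances `a`, `a + 1` -/
theorem sys_C {n a : ℕ} (ha : a + 1 ≤ n + 3) {O : Set (Cyc (n + 2 + 5))} (hO : OT n ⊆ O) :
    HasSys O {c | c = yc n (a + 1) ∨ c = yc n a} (WE n a) ∅ := by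
  have h1 : htc (cyc (xH n a)) = n + 4 := by rw [htc_cyc, ht_xH]
  have hne : yc n (a + 1) ≠ yc n a := fun h => by
    have := yc_inj (by omega) (by omega) h
    omega
  have h := sys_tri' O (P := .nil) (Q := Xa n a) (R := .nil) (k := n + 2 + 5) (by rw [Xa_num, nz]; omega)
    (a := xH n a) (b := xB n a) (c := xF n a) rfl rfl rfl
    (by rw [cyc_xB]; intro h; rw [h, htc_yc] at h1; omega)
    (by rw [cyc_xF]; intro h; rw [h, htc_yc] at h1; omega)
    (by rw [cyc_xB, cyc_xF]; exact hne) (hO (by change n + 4 ≤ _; rw [h1]))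
  rw [cyc_xB, cyc_xF] at h
  exact h

theorem WE_dis {n a b : ℕ} (hab : a + 2 ≤ b) (hb : b + 1 ≤ n + 3) : ∀ w ∈ WE n a, w ∉ WE n b := by
  have y : ∀ i j, i ≤ n + 3 → j ≤ n + 3 → i ≠ j → yc n i ≠ yc n j := fun i j hi hj hne h =>
    hne (yc_inj hi hj h)
  rintro w (rfl | rfl | rfl) (h | h | h)
  · have h2 : Xa n a △ .nil = Xa n b △ .nil := congrArg Subtype.val h
    injection h2 with _ h3 _
    have := Xa_inj (by omega) (by omega) h3
    omega
  · have := ht_xH n a; rw [h, ht_xB] at this; omega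
  · have := ht_xH n a; rw [h, ht_xF] at this; omega
  · have := ht_xH n b; rw [← h, ht_xB] at this; omega
  · have := congrArg cyc h
    rw [cyc_xB, cyc_xB] at this
    exact y _ _ (by omega) (by omega) (by omega) this
  · have := congrArg cyc h
    rw [cyc_xB, cyc_xF] at this
    exact y _ _ (by omega) (by omega) (by omega) this
  · have := ht_xH n b; rw [← h, ht_xF] at this; omega
  · have := congrArg cyc h
    rw [cyc_xF, cyc_xB] at this
    exact y _ _ (by omega) (by omega) (by omega) this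
  · have := congrArg cyc h
    rw [cyc_xF, cyc_xF] at this
    exact y _ _ (by omega) (by omega) (by omega) this

/-- the triples `{a₀, a₀ + 1}, {a₀ + 2, a₀ + 3}, ..` -/
theorem sys_Cs {n a₀ m : ℕ} (hm : a₀ + 2 * m ≤ n + 4) {O : Set (Cyc (n + 2 + 5))} (hO : OT n ⊆ O) :
    HasSys O {c | ∃ i, a₀ ≤ i ∧ i < a₀ + 2 * m ∧ c = yc n i} {w | ∃ i < m, w ∈ WE n (a₀ + 2 * i)} ∅ := by
  have h := sys_range O (fun i => {c | c = yc n (a₀ + 2 * i + 1) ∨ c = yc n (a₀ + 2 * i)})
    (fun i => WE n (a₀ + 2 * i)) m ?_ ?_ ?_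
  · have e : {c | ∃ i < m, c ∈ {c | c = yc n (a₀ + 2 * i + 1) ∨ c = yc n (a₀ + 2 * i)}} =
        {c | ∃ i, a₀ ≤ i ∧ i < a₀ + 2 * m ∧ c = yc n i} := by
      ext c
      constructor
      · rintro ⟨i, hi, hc | hc⟩
        · exact ⟨a₀ + 2 * i + 1, by omega, by omega, hc⟩
        · exact ⟨a₀ + 2 * i, by omega, by omega, hc⟩
      · rintro ⟨i, h1, h2, hc⟩
        rcases Nat.even_or_odd' (i - a₀) with ⟨l, hl | hl⟩
        · exact ⟨l, by omega, Or.inr (by rw [hc]; congr 1; omega)⟩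
        · exact ⟨l, by omega, Or.inl (by rw [hc]; congr 1; omega)⟩
    rw [e] at h
    exact h
  · intro i hi
    exact sys_C (by omega) hO
  · rintro i hi j hj c (hc | hc) (hc' | hc')
    · rw [hc] at hc'
      have := yc_inj (by omega) (by omega) hc'
      omega
    · rw [hc] at hc'
      have := yc_inj (by omega) (by omega) hc'
      omega
    · rw [hc] at hc'
      have := yc_inj (by omega) (by omega) hc'
      omega
    · rw [hc] at hc'
      have := yc_inj (by omega) (by omega) hc'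
      omega
  · rintro i hi j hj
    exact WE_dis (by omega) (by omega)

end T4

end Pool.OddHC
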