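import Pool.Agent.Work.MP_8f87b2_h73.T4F
import Pool.Agent.Work.MP_8f87b2_h73.T4E

/-!
MP_8f87b2_co, the layer `t = 4` (`k = n + 7`, `s = n + 3`), part G: the plain triples of the ends (P4 - B, K, HL, LONG) and the
system of the class `(s, 1, 1, 1, 1)`.
-/

set_option autoImplicit false

namespace Pool.OddHC

open Finset BinaryTree Equiv Pool.OddHop

namespace T4

/-! ### The class `(s, 1, 1, 1, 1)` -/

theorem odd_choose4 (j : ℕ) : Odd ((2 * j + 4).choose 4) ↔ (j + 2) / 2 % 2 = 1 := by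
  haveI : Fact (Nat.Prime 2) := ⟨Nat.prime_two⟩
  have h1 := Choose.choose_modEq_choose_mod_mul_choose_div_nat (n := 2 * j + 4) (k := 4) (p := 2)
  rw [show (2 * j + 4) % 2 = 0 by omega, show 4 % 2 = 0 by norm_num, show (2 * j + 4) / 2 = j + 2 by omega,
    show 4 / 2 = 2 by norm_num, Nat.choose_self, one_mul] at h1
  have h2 := Choose.choose_modEq_choose_mod_mul_choose_div_nat (n := j + 2) (k := 2) (p := 2)
  rw [show 2 % 2 = 0 by norm_num, show 2 / 2 = 1 by norm_num, Nat.choose_zero_right, one_mul,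
    Nat.choose_one_right] at h2
  rw [Nat.odd_iff]
  have h3 : (2 * j + 4).choose 4 % 2 = (j + 2) / 2 % 2 := h1.trans h2
  rw [h3]

theorem odd_card4 (n : ℕ) : Odd (Nat.card (Q4 n)) ↔ ((n + 3) % 4 = 1 ∨ (n + 3) % 4 = 2) := by
  rw [Nat.odd_iff, card_classes_mod_two ⟨n + 2, rfl⟩, card_Ms, ← Nat.odd_iff,
    show 2 * (n + 2) + 1 + 4 - 1 = 2 * (n + 2) + 4 by omega, odd_choose4]
  omega

/-- the T-cycles of four beads without the class `q0` (if their number is odd) -/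
def NH (n : ℕ) (q0 : Q4 n) : Set (Cyc (n + 2 + 5)) :=
  {c | ∃ q, hc n q = c ∧ ¬ (q = q0 ∧ ((n + 3) % 4 = 1 ∨ (n + 3) % 4 = 2))}

/-- the words of the triples of four beads -/
def WH (n : ℕ) (q0 : Q4 n) : Set (X (n + 2 + 5)) :=
  {w | (∃ Y : BinaryTree Unit, w.1 = Y △ .nil ∧ ht w.1 = n + 4 ∧ pkn w.1 = 4) ∨
    (cyc w ∈ NH n q0 ∧ ht w.1 = n + 3 ∧ pkn w.1 = 5)}

theorem sys_H (n : ℕ) (q0 : Q4 n) {O : Set (Cyc (n + 2 + 5))} (hO : OT n ⊆ O) :
    HasSys O (NH n q0) (WH n q0) ∅ := by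
  obtain ⟨ι, h1, h2, h3⟩ := near_prescribed (n := 2 * (n + 2) + 1) ⟨n + 2, rfl⟩
    (one_dvd _) (show 1 ≤ 4 by norm_num) (show 4 ≠ 2 by norm_num) q0
  have h := sys_efix (by omega) (pwX (n + 2)) (T_pwX _) (hk4 n) ι h1 h2 O (by
    intro f hf _ _
    apply hO
    change n + 4 ≤ htc (cyc _)
    rw [htc_cyc, ht_wH _ _ _ (by omega)]
    change n + 4 ≤ ht (pw (n + 2)) + 2
    rw [ht_pw])
  have e : {c | ∃ q, ι q ≠ q ∧ fc (by omega) (pwX (n + 2)) (T_pwX _) (hk4 n) q = c} = NH n q0 := by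
    ext c
    constructor
    · rintro ⟨q, hq, rfl⟩
      refine ⟨q, rfl, ?_⟩
      rwa [Ne, h3, odd_card4] at hq
    · rintro ⟨q, hq, hq'⟩
      refine ⟨q, ?_, hq⟩
      rw [Ne, h3, odd_card4]
      exact hq'
  rw [e] at h
  refine h.mono ?_ (fun _ hx => hx)
  rintro w ⟨f, hf, a1, a2, a3, a4⟩
  have hk := hk4 n
  have hpf : ∀ (g : ZMod (2 * (n + 2) + 1) → ℕ), pkn (yT (pwX (n + 2)) g) = 1 + ∑ x, g x := by
    intro g
    unfold yT
    rw [(ins_num (pwX (n + 2)).1 _ (by rw [lf_length, X_num])).2, lf_sum]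
    change pkn (pw (n + 1 + 1)) + _ = _
    rw [pkn_pw]
  have hhf : ∀ (g : ZMod (2 * (n + 2) + 1) → ℕ), ht (yT (pwX (n + 2)) g) = n + 3 := by
    intro g
    rw [ht_yT _ _ (by omega)]
    change ht (pw (n + 2)) + 1 = _
    rw [ht_pw]
  have hln : leaf (yT (pwX (n + 2)) f) = 0 := by
    have h5 := hhf f
    cases hx : yT (pwX (n + 2)) f with
    | nil => rw [hx, ht_nil] at h5; omega
    | node _ A B => rfl
  rcases a4 with a4 | a4 | a4
  · left
    refine ⟨yT (pwX (n + 2)) f, by rw [a4]; rfl, ?_, ?_⟩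
    · rw [a4, ht_wH _ _ _ (by omega)]
      change ht (pw (n + 2)) + 2 = _
      rw [ht_pw]
    · rw [a4]
      change leaf (yT (pwX (n + 2)) f) + pkn (yT (pwX (n + 2)) f) + 0 = 4
      rw [hln, hpf]
      omega
  · right
    refine ⟨?_, ?_, ?_⟩
    · rw [← e, a4]
      exact ⟨qB f hf (-1), by rw [a2]; exact a3, (wB_cyc (by omega) _ (T_pwX _) (hk4 n) f hf).symm⟩
    · rw [a4]
      change ht (app (yT (pwX (n + 2)) f) (.nil △ .nil)) = _
      rw [ht_app, hhf, ht_node, ht_nil]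
      omega
    · rw [a4]
      change pkn (app (yT (pwX (n + 2)) f) (.nil △ .nil)) = _
      rw [pkn_app, hpf]
      change 1 + _ + 1 = 5
      omega
  · right
    refine ⟨?_, ?_, ?_⟩
    · rw [← e, a4]
      exact ⟨qB f hf 0, by rw [a1]; exact a3.symm, (wF_cyc (by omega) _ (T_pwX _) (hk4 n) f hf).symm⟩
    · rw [a4]
      change ht (.nil △ yT (pwX (n + 2)) f) = _
      rw [ht_node, hhf, ht_nil]
      omega
    · rw [a4]
      change 1 + 0 + pkn (yT (pwX (n + 2)) f) = _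
      rw [hpf]
      omega

/-! ### P4 - B -/

/-- `([s])[3]` -/
def pA (n : ℕ) : X (n + 2 + 5) := mk n (pw (n + 3) △ pw 3) (by rw [nn, pw_num, pw_num])
/-- `[s][4]` -/
def pB (n : ℕ) : X (n + 2 + 5) := mk n (app (pw (n + 3)) (pw 3 △ .nil)) (by rw [num_app, nn, pw_num, pw_num, nz])
/-- `[3]()[s]` -/
def pC (n : ℕ) : X (n + 2 + 5) := mk n (app (pw 3) (.nil △ pw (n + 3))) (by rw [num_app, nn, pw_num, pw_num, nz]; ring)

theorem pA_inv (n : ℕ) : ht (pA n).1 = n + 4 ∧ pkn (pA n).1 = 2 := by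
  constructor
  · change ht (pw (n + 3) △ pw 3) = _
    rw [ht_node, ht_pw, ht_pw]; omega
  · change leaf (pw (n + 2 + 1)) + pkn (pw (n + 2 + 1)) + pkn (pw (2 + 1)) = 2
    rw [pkn_pw, pkn_pw]; rfl

theorem pB_inv {n : ℕ} (hn : 1 ≤ n) : ht (pB n).1 = n + 3 ∧ pkn (pB n).1 = 2 := by
  constructor
  · change ht (app (pw (n + 3)) (pw 3 △ .nil)) = _
    rw [ht_app, ht_node, ht_pw, ht_pw, ht_nil]; omega
  · change pkn (app (pw (n + 2 + 1)) (pw (3 + 1))) = 2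
    rw [pkn_app, pkn_pw, pkn_pw]

theorem pC_inv (n : ℕ) : ht (pC n).1 = n + 3 ∧ pkn (pC n).1 = 3 ∧ (cont (pC n).1).count 1 ≠ 0 := by
  refine ⟨?_, ?_, ?_⟩
  · change ht (app (pw 3) (.nil △ pw (n + 3))) = _
    rw [ht_app, ht_node, ht_pw, ht_pw, ht_nil]; omega
  · change pkn (app (pw (2 + 1)) (.nil △ pw (n + 2 + 1))) = 3
    rw [pkn_app]
    change _ + (1 + 0 + pkn (pw (n + 2 + 1))) = 3
    rw [pkn_pw, pkn_pw]
  · change (cont (app (pw 3) (app (.nil △ .nil) (pw (n + 3))))).count 1 ≠ 0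
    rw [cont_app, cont_app, Multiset.count_add, Multiset.count_add]
    have : (cont (.nil △ .nil)).count 1 = 1 := by decide
    omega

/-- the T-cycles `(s, 4)` and `(s, 3, 1)` -/
def NP (n : ℕ) : Set (Cyc (n + 2 + 5)) := {c | c = cyc (pB n) ∨ c = cyc (pC n)}
def WP (n : ℕ) : Set (X (n + 2 + 5)) := {w | w = pA n ∨ w = pB n ∨ w = pC n}

theorem sys_P {n : ℕ} (hn : 1 ≤ n) {O : Set (Cyc (n + 2 + 5))} (hO : OT n ⊆ O) :
    HasSys O (NP n) (WP n) ∅ := by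
  obtain ⟨a1, a2⟩ := pA_inv n
  obtain ⟨b1, b2⟩ := pB_inv hn
  obtain ⟨c1, c2, -⟩ := pC_inv n
  refine sys_tri' O (P := .nil) (Q := pw (n + 3)) (R := pw 3) (k := n + 2 + 5) (by rw [pw_num, pw_num, nz]; ring)
    (a := pA n) (b := pB n) (c := pC n) rfl rfl rfl ?_ ?_ ?_ (hO ?_)
  · intro h
    have := ht_same (cyc_eq.1 h)
    omega
  · intro h
    have := ht_same (cyc_eq.1 h)
    omega
  · intro h
    have := pkn_same (cyc_eq.1 h)
    omega
  · change n + 4 ≤ htc (cyc _)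
    rw [htc_cyc, a1]

/-! ### K -/

/-- `[s](())` -/
def S0 (n : ℕ) : BinaryTree Unit := app (pw (n + 3)) ((.nil △ .nil) △ .nil)

theorem S0_num (n : ℕ) : (S0 n).numNodes = n + 5 := by
  unfold S0
  rw [num_app, pw_num, nn, nn, nz]

theorem S0_inv (n : ℕ) : ht (S0 n) = n + 3 ∧ pkn (S0 n) = 2 ∧ leaf (S0 n) = 0 := by
  refine ⟨?_, ?_, rfl⟩
  · unfold S0
    have h2 : ht ((.nil △ .nil) △ .nil : BinaryTree Unit) = 2 := rfl
    rw [ht_app, ht_pw, h2]; omega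
  · unfold S0
    rw [pkn_app, show n + 3 = n + 2 + 1 by rfl, pkn_pw]
    rfl

def kA (n : ℕ) : X (n + 2 + 5) := mk n (S0 n △ (.nil △ .nil)) (by rw [nn, S0_num, nn, nz])
def kB (n : ℕ) : X (n + 2 + 5) := mk n (app (S0 n) ((.nil △ .nil) △ .nil)) (by rw [num_app, S0_num, nn, nn, nz])
def kC (n : ℕ) : X (n + 2 + 5) := mk n (.nil △ (.nil △ S0 n)) (by rw [nn, nn, S0_num, nz]; ring)

theorem kB_cyc (n : ℕ) : cyc (kB n) = zc n 0 := by
  rw [← cyc_9 (n := n) (q := 0) (by omega), cyc_eq]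
  apply same2
  refine TT2 (A := pw (n + 3)) (B := (.nil △ .nil) △ ((.nil △ .nil) △ .nil)) ?_ ?_ ?_
  · intro h
    have := congrArg BinaryTree.numNodes h
    change (app (S0 n) ((.nil △ .nil) △ .nil)).numNodes = 0 at this
    rw [num_app, S0_num] at this
    omega
  · change Tsq.sq (app (app (pw (n + 3)) ((.nil △ .nil) △ .nil)) ((.nil △ .nil) △ .nil)) = _
    rw [Tsq.app_assoc]
    exact sq_front (n + 3) (by omega) _ (by
      have h2 : ht (app ((.nil △ .nil) △ .nil) ((.nil △ .nil) △ .nil)) = 2 := rfl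
      rw [h2]; omega)
  · rw [xt_val (by norm_num) (by omega), sh_9, Rq]
    rfl

/-- `[n + 2]()` -/
def uZ (n : ℕ) : X (n + 3) := ⟨pw (n + 1) △ (.nil △ .nil), mem_treesOfNumNodesEq.2 (by rw [nn, nn, nz, pw_num])⟩

theorem ht_uZ (n : ℕ) : ht (uZ n).1 = n + 2 := by
  change ht (pw (n + 1) △ (.nil △ .nil)) = n + 2
  rw [ht_node, ht_node, ht_nil, ht_pw]
  omega

theorem uZ0 (n : ℕ) : ins (uZ n).1 (List.replicate (2 * (n + 3) + 1) 0) = S0 n := by
  have h : L0 (uZ n).1 = S0 n := by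
    change L0 (pw (n + 1) △ (.nil △ .nil)) = _
    rw [L0_node (pw_ne (by omega)), L0_one, L0_nil, L0_pw]
    rfl
  unfold L0 at h
  rw [X_num] at h
  exact h

theorem kC_cyc (n : ℕ) : cyc (kC n) = yc n 0 := by
  have hf : ∑ x : ZMod (2 * (n + 3) + 1), ((fun x : ZMod (2 * (n + 3) + 1) =>
      (0 + if x = 0 then 1 else 0) + if x = 0 then 1 else 0) x) = 2 := by
    simp only [zero_add]
    rw [sum_add_distrib, one_bead_sum]
  have h := cyc_y (n := n) (uZ n) (ht_uZ n) (f := fun x => (0 + if x = 0 then 1 else 0) + if x = 0 then 1 else 0)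
    (i := 0) 0 (by funext x; unfold bd; simp) (y2_sum _ (ht_uZ n) _ hf)
  rw [← h]
  congr 1
  apply Subtype.ext
  change .nil △ (.nil △ S0 n) = ins (uZ n).1 (lf _)
  rw [ins_front (uZ n) (fun x => 0 + if x = 0 then 1 else 0), ins_front (uZ n) (fun _ => 0), lf_zero', uZ0]

def WK (n : ℕ) : Set (X (n + 2 + 5)) := {w | w = kA n ∨ w = kB n ∨ w = kC n}

theorem kA_inv (n : ℕ) : ht (kA n).1 = n + 4 ∧ pkn (kA n).1 = 3 := by
  obtain ⟨a, b, c⟩ := S0_inv n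
  constructor
  · change ht (S0 n △ (.nil △ .nil)) = _
    rw [ht_node, a, ht_node, ht_nil]; omega
  · change leaf (S0 n) + pkn (S0 n) + 1 = 3
    rw [b, c]

theorem kB_inv (n : ℕ) : ht (kB n).1 = n + 3 ∧ pkn (kB n).1 = 3 := by
  rw [← htc_cyc, ← pkc_cyc, kB_cyc, htc_zc, pkc_zc]
  exact ⟨rfl, rfl⟩

theorem kC_inv (n : ℕ) : ht (kC n).1 = n + 3 ∧ pkn (kC n).1 = 4 := by
  rw [← htc_cyc, ← pkc_cyc, kC_cyc, htc_yc, pkc_yc]
  exact ⟨rfl, rfl⟩

theorem sys_K {n : ℕ} {O : Set (Cyc (n + 2 + 5))} (hO : OT n ⊆ O) :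
    HasSys O {c | c = zc n 0 ∨ c = yc n 0} (WK n) ∅ := by
  obtain ⟨a1, a2⟩ := kA_inv n
  obtain ⟨b1, b2⟩ := kB_inv n
  obtain ⟨c1, c2⟩ := kC_inv n
  have h := sys_tri' O (P := .nil) (Q := S0 n) (R := .nil △ .nil) (k := n + 2 + 5)
    (by rw [S0_num, nn, nz]; ring) (a := kA n) (b := kB n) (c := kC n) rfl rfl rfl
    (by
      intro h
      have := ht_same (cyc_eq.1 h)
      omega)
    (by
      intro h
      have := ht_same (cyc_eq.1 h)
      omega)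
    (by
      intro h
      have := pkn_same (cyc_eq.1 h)
      omega)
    (hO (by
      change n + 4 ≤ htc (cyc _)
      rw [htc_cyc, a1]))
  rw [kB_cyc, kC_cyc] at h
  exact h

end T4

end Pool.OddHC
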