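import Pool.Agent.Work.MP_8f87b2_h73.T4G
import Pool.Agent.Work.MP_8f87b2_h24.GadJ

/-!
MP_8f87b2_co, the layer `t = 4` (`k = n + 7`, `s = n + 3`), part H: the gadget J2 (right) over `R = [s](())`.
-/

set_option autoImplicit false

namespace Pool.OddHC

open Finset BinaryTree Equiv Pool.OddHop

namespace T4

/-- the words of J2 over `R = [s](())`, `B = (())`, `S = [s]` -/
def tr (n : ℕ) : ℕ → BinaryTree Unit
  | 0 => pw (n + 2) △ ((.nil △ .nil) △ ((.nil △ .nil) △ .nil))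
  | 1 => pw (n + 2) △ ((.nil △ .nil) △ (.nil △ (.nil △ .nil)))
  | 2 => .nil △ (pw (n + 2) △ ((.nil △ .nil) △ (.nil △ .nil)))
  | 3 => (pw (n + 2) △ ((.nil △ .nil) △ (.nil △ .nil))) △ .nil
  | 4 => (.nil △ .nil) △ (pw (n + 2) △ ((.nil △ .nil) △ .nil))
  | 5 => .nil △ (.nil △ (pw (n + 2) △ ((.nil △ .nil) △ .nil)))
  | 6 => (pw (n + 2) △ ((.nil △ .nil) △ .nil)) △ (.nil △ .nil)
  | 7 => (.nil △ (pw (n + 2) △ ((.nil △ .nil) △ .nil))) △ .nil
  | 8 => .nil △ ((pw (n + 2) △ ((.nil △ .nil) △ .nil)) △ .nil)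
  | 9 => ((pw (n + 2) △ ((.nil △ .nil) △ .nil)) △ .nil) △ .nil
  | 10 => (.nil △ .nil) △ ((.nil △ .nil) △ (pw (n + 2) △ .nil))
  | 11 => (.nil △ .nil) △ (.nil △ (.nil △ (pw (n + 2) △ .nil)))
  | 12 => (pw (n + 2) △ .nil) △ ((.nil △ .nil) △ (.nil △ .nil))
  | 13 => pw (n + 2) △ (((.nil △ .nil) △ (.nil △ .nil)) △ .nil)
  | 14 => (.nil △ (pw (n + 2) △ .nil)) △ ((.nil △ .nil) △ .nil)
  | 15 => .nil △ ((pw (n + 2) △ .nil) △ ((.nil △ .nil) △ .nil))
  | 16 => pw (n + 2) △ (((.nil △ .nil) △ .nil) △ (.nil △ .nil))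
  | 17 => ((pw (n + 2) △ .nil) △ ((.nil △ .nil) △ .nil)) △ .nil
  | 18 => .nil △ (pw (n + 2) △ (((.nil △ .nil) △ .nil) △ .nil))
  | _ => (pw (n + 2) △ (((.nil △ .nil) △ .nil) △ .nil)) △ .nil

theorem tr_w20 (n : ℕ) : ∀ i < 20, tr n i = w20 (S0 n) .nil ((.nil △ .nil) △ .nil) (pw (n + 3)) i := by
  intro i hi
  interval_cases i <;> rfl

theorem tr_num (n : ℕ) (i : ℕ) : (tr n i).numNodes = n + 7 := by
  unfold tr
  split <;> simp only [nn, nz, pw_num] <;> omega

def wr (n i : ℕ) : X (n + 2 + 5) := mk n (tr n i) (tr_num n i)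

/-- heights and numbers of peaks -/
def hr (n : ℕ) : ℕ → ℕ × ℕ
  | 0 => (n + 3, 3)
  | 1 => (n + 3, 4)
  | 2 => (n + 3, 4)
  | 3 => (n + 4, 3)
  | 4 => (n + 3, 3)
  | 5 => (n + 3, 4)
  | 6 => (n + 4, 3)
  | 7 => (n + 4, 3)
  | 8 => (n + 4, 3)
  | 9 => (n + 5, 2)
  | 10 => (n + 3, 3)
  | 11 => (n + 3, 4)
  | 12 => (n + 4, 3)
  | 13 => (n + 3, 3)
  | 14 => (n + 4, 3)
  | 15 => (n + 4, 3)
  | 16 => (n + 3, 3)
  | 17 => (n + 5, 2)
  | 18 => (n + 3, 3)
  | _ => (n + 4, 2)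

theorem wr_inv {n : ℕ} (hn : 1 ≤ n) : ∀ i < 20, (ht (wr n i).1, pkn (wr n i).1) = hr n i := by
  intro i hi
  have p1 : pkn (pw (n + 2)) = 1 := pkn_pw (n + 1)
  have l1 : leaf (pw (n + 2)) = 0 := rfl
  have h1 : ht (pw (n + 2)) = n + 2 := ht_pw _
  have pn : ∀ A B : BinaryTree Unit, pkn (A △ B) = leaf A + pkn A + pkn B := fun _ _ => rfl
  have ln : ∀ A B : BinaryTree Unit, leaf (A △ B) = 0 := fun _ _ => rfl
  have p0 : pkn (.nil : BinaryTree Unit) = 0 := rfl
  have l0 : leaf (.nil : BinaryTree Unit) = 1 := rfl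
  change (ht (tr n i), pkn (tr n i)) = hr n i
  have hm1 : ∀ a b c d : ℕ, a = c → b = d → (a, b) = (c, d) := by
    rintro a b c d rfl rfl; rfl
  interval_cases i <;> refine hm1 _ _ _ _ ?_ ?_ <;>
    simp only [tr, hr, ht_node, ht_nil, h1, pn, ln, p0, l0, p1, l1] <;> omega

theorem wr_inj {n : ℕ} : ∀ i < 20, ∀ j < 20, wr n i = wr n j → i = j := by
  have m1 : pw (n + 2) ≠ .nil := pw_ne (by omega)
  have m2 : pw (n + 2) ≠ (.nil △ .nil) := by
    intro h
    have p1 : ht (pw (n + 2)) = n + 2 := ht_pw _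
    rw [h, ht_node, ht_nil] at p1
    omega
  intro i hi j hj h
  have h1 : tr n i = tr n j := congrArg Subtype.val h
  by_contra hne
  interval_cases i <;> interval_cases j <;>
    simp [tr, m1, m1.symm, m2, m2.symm] at h1 hne

theorem wr_10 (n : ℕ) : cyc (wr n 10) = zc n 0 := by
  rw [← cyc_9 (n := n) (q := 0) (by omega)]
  congr 1

theorem wr_0 (n : ℕ) : cyc (wr n 0) = zc n 0 := by
  rw [← kB_cyc]
  congr 1

theorem wr_4 (n : ℕ) : cyc (wr n 4) = zc n 1 := by
  rw [← cyc_7 (n := n) (q := 0) (by omega)]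
  congr 1

theorem wr_B {n : ℕ} (hn : 1 ≤ n) {i : ℕ} (hi : i = 13 ∨ i = 16 ∨ i = 18) : cyc (wr n i) = cyc (pC n) := by
  obtain ⟨c1, c2, c3⟩ := pC_inv n
  have hi20 : i < 20 := by omega
  have hv := wr_inv hn i hi20
  have h1 := congrArg Prod.fst hv
  have h2 := congrArg Prod.snd hv
  change ht _ = _ at h1
  change pkn _ = _ at h2
  have h3 : hr n i = (n + 3, 3) := by rcases hi with rfl | rfl | rfl <;> rfl
  rw [h3] at h1 h2
  refine class_B hn _ _ h1 h2 ?_ c1 c2 c3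
  have e : ∀ Z : BinaryTree Unit, (cont Z).count 1 ≠ 0 → (cont (pw (n + 2) △ Z)).count 1 ≠ 0 := by
    intro Z hZ
    change (cont (app (pw (n + 3)) Z)).count 1 ≠ 0
    rw [cont_app, Multiset.count_add]
    omega
  rcases hi with rfl | rfl | rfl
  · exact e _ (by decide)
  · exact e _ (by decide)
  · change (cont (app (.nil △ .nil) (pw (n + 2) △ (((.nil △ .nil) △ .nil) △ .nil)))).count 1 ≠ 0
    rw [cont_app, Multiset.count_add]
    have : (cont (.nil △ .nil)).count 1 = 1 := by decide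
    omega

theorem wr_old {n : ℕ} (hn : 1 ≤ n) {i : ℕ} (hi : i < 20) (h0 : i ≠ 0) (h4 : i ≠ 4) (h10 : i ≠ 10) :
    cyc (wr n i) ∈ OJ n ∨ cyc (wr n i) = cyc (pC n) := by
  by_cases hB : i = 13 ∨ i = 16 ∨ i = 18
  · exact Or.inr (wr_B hn hB)
  · left
    have hv := wr_inv hn i hi
    have h1 := congrArg Prod.fst hv
    have h2 := congrArg Prod.snd hv
    change ht _ = _ at h1
    change pkn _ = _ at h2
    change n + 4 ≤ htc (cyc _) ∨ (htc (cyc _) = n + 3 ∧ pkc (cyc _) = 4)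
    rw [htc_cyc, pkc_cyc, h1, h2]
    push Not at hB
    interval_cases i <;> simp [hr] at h0 h4 h10 hB ⊢

theorem pC_ne {n i : ℕ} : cyc (pC n) ≠ zc n i := by
  intro h
  have h1 := one_zc n i
  rw [← h, contc_cyc] at h1
  exact (pC_inv n).2.2 h1

/-- the words -/
def WR (n : ℕ) : Set (X (n + 2 + 5)) := {w | ∃ i < 20, i ≠ 5 ∧ w = wr n i}

theorem sq_S0 (n : ℕ) : Tsq.sq (S0 n) = (pw (n + 3), (.nil △ .nil) △ .nil) :=
  sq_front (n + 3) (by omega) _ (by
    have h2 : ht ((.nil △ .nil) △ .nil : BinaryTree Unit) = 2 := rfl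
    rw [h2]; omega)

theorem FM_S0 (n : ℕ) : H1.FM (S0 n) (List.replicate (n + 2) true)
    (List.replicate (n + 3) false ++ wd ((.nil △ .nil) △ .nil)) :=
  (FM_pw (n + 2)).app_right (by
    have h2 : ht ((.nil △ .nil) △ .nil : BinaryTree Unit) = 2 := rfl
    rw [tht, tht, ht_pw, h2]; omega)

theorem wr_link {n i j : ℕ} (hij : (i, j) ∈ [(1, 11), (3, 12), (6, 15), (8, 14)]) :
    TT (TT (wr n i)) = wr n j := by
  have hR : S0 n ≠ .nil := by
    intro h
    have := S0_num n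
    rw [h, nz] at this
    omega
  have hs := sq_S0 n
  have hh : Tsq.ht (.nil : BinaryTree Unit) ≤ Tsq.ht (S0 n) := by
    rw [tht, ht_nil]; omega
  simp only [List.mem_cons, Prod.mk.injEq, List.not_mem_nil, or_false] at hij
  rcases hij with ⟨rfl, rfl⟩ | ⟨rfl, rfl⟩ | ⟨rfl, rfl⟩ | ⟨rfl, rfl⟩
  · refine Tsq.link (i := 1) (j := 1) hR hh (by simp) rfl ?_
    rw [hs]; rfl
  · refine Tsq.link (i := 3) (j := 2) hR hh (by simp) rfl ?_
    rw [hs]; rfl
  · refine Tsq.link (i := 6) (j := 5) hR hh (by simp) rfl ?_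
    rw [hs]; rfl
  · refine Tsq.link (i := 8) (j := 4) hR hh (by simp) rfl ?_
    rw [hs]; rfl

theorem wr_inner {n i : ℕ} (hn : 1 ≤ n) (hi : i ∈ [1, 3, 6, 8]) : TT (wr n i) ∈ Inn n := by
  have hF := FM_S0 n
  have hS : Suf ((List.replicate (n + 2) true).map not) := by
    rw [List.map_replicate]
    exact Suf.rep (u := []) (show 3 ≤ n + 2 by omega)
  have hi20 : i < 20 := by
    simp only [List.mem_cons, List.not_mem_nil, or_false] at hi
    omega
  have hv := wr_inv hn i hi20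
  have h1 := congrArg Prod.fst hv
  have h2 := congrArg Prod.snd hv
  change ht _ = _ at h1
  change pkn _ = _ at h2
  have hRh : Tsq.ht (S0 n) = n + 3 := by rw [tht, (S0_inv n).1]
  simp only [List.mem_cons, List.not_mem_nil, or_false] at hi
  rcases hi with rfl | rfl | rfl | rfl
  · have h := hF.app_right (Z := .nil △ (.nil △ .nil)) (by
      have h2 : ht (.nil △ (.nil △ .nil) : BinaryTree Unit) = 1 := rfl
      rw [hRh, tht, h2]; omega)
    exact inner_of (x := wr n 1) h (by rw [List.append_assoc]) (a1 := []) rfl hS (Or.inl ⟨h1, h2⟩)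
  · have h := (hF.app_right (Z := .nil △ .nil) (by
      have h2 : ht (.nil △ .nil : BinaryTree Unit) = 1 := rfl
      rw [hRh, tht, h2]; omega)).node (Z := .nil) (by rw [tht, ht_nil]; omega)
    exact inner_of (x := wr n 3) h (by rw [List.append_assoc, List.append_assoc])
      (a1 := [true]) rfl hS (Or.inr ⟨h1, h2⟩)
  · have h := hF.node (Z := .nil △ .nil) (by
      have h2 : ht (.nil △ .nil : BinaryTree Unit) = 1 := rfl
      rw [hRh, tht, h2]; omega)
    exact inner_of (x := wr n 6) h (by rw [List.append_assoc])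
      (a1 := [true]) rfl hS (Or.inr ⟨h1, h2⟩)
  · have h := (hF.node (Z := .nil) (by rw [tht, ht_nil]; omega)).app_left (P := .nil △ .nil) (by
      have h2 : ht (.nil △ .nil : BinaryTree Unit) = 1 := rfl
      rw [tht, tht, h2, ht_node, (S0_inv n).1]; omega)
    exact inner_of (x := wr n 8) h (by rw [List.append_assoc])
      (a1 := wd (.nil △ .nil) ++ [true]) (by simp) hS (Or.inr ⟨h1, h2⟩)

theorem wr_inn {n : ℕ} (hn : 1 ≤ n) : ∀ w ∈ WR n, w ∉ Inn n := by
  rintro w ⟨i, hi, h5, rfl⟩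
  have hv := wr_inv hn i hi
  have h1 := congrArg Prod.fst hv
  have h2 := congrArg Prod.snd hv
  change ht _ = _ at h1
  change pkn _ = _ at h2
  have hS0 : S0 n ≠ .nil := by
    intro h
    have := S0_num n
    rw [h, nz] at this
    omega
  rintro (⟨hP, hS, hh⟩ | hh)
  · rw [h1, h2] at hh
    have e : (wr n i).1 = tr n i := rfl
    rw [e] at hP hS
    interval_cases i
    · simp [hr] at hh
    · exact notSuf1 (A := app (S0 n) (.nil △ .nil)) hS
    · exact notPre1 hP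
    · exact notSuf2 (A := .nil) hS0 hS
    · simp [hr] at hh
    · exact h5 rfl
    · exact notSuf1 (A := S0 n △ .nil) hS
    · exact notPre2 hP
    · exact notPre1 hP
    · simp [hr] at hh
    · simp [hr] at hh
    · exact notPre2 hP
    · exact notSuf1 (A := (pw (n + 2) △ .nil) △ ((.nil △ .nil) △ .nil)) hS
    · simp [hr] at hh
    · exact notPre2 hP
    · exact notPre1 hP
    · simp [hr] at hh
    · simp [hr] at hh
    · simp [hr] at hh
    · simp [hr] at hh
  · rw [hh] at h1 h2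
    have h3 : ht ((.nil △ .nil) △ .nil : BinaryTree Unit) = 2 := rfl
    rw [ht_app, ht_pw, h3] at h1
    rw [pkn_app, show n + 5 = n + 4 + 1 by rfl, pkn_pw] at h2
    have e : (wr n i).1 = tr n i := rfl
    rw [e] at hh
    have h4 : app (pw (n + 5)) ((.nil △ .nil) △ .nil) = pw (n + 4) △ ((.nil △ .nil) △ .nil) := rfl
    rw [h4] at hh
    interval_cases i <;> simp only [hr] at h1 <;> first | omega | (simp [tr] at hh)

/-- **THE GADGET J2 over `[s](())`**: the distances 0 and 1 -/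
theorem sys_JR {n : ℕ} (hn : 1 ≤ n) {O : Set (Cyc (n + 2 + 5))} (hO : OJ n ⊆ O) (hO' : cyc (pC n) ∈ O) :
    HasSys O {c | c = zc n 0 ∨ c = zc n 1} (WR n) (Inn n) := by
  have ne1 : zc n 0 ≠ zc n 1 := fun h => by
    have := zc_inj (by omega) (by omega) h
    omega
  have e0 := wr_0 n
  have e4 := wr_4 n
  have e10 := wr_10 n
  have hB : ∀ x, x ∈ (gadJ (wr n)).B ↔ ∃ i < 20, i ≠ 5 ∧ wr n i = x := by
    intro x
    change x ∈ ((range 20).erase 5).image (wr n) ↔ _
    rw [mem_image]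
    constructor
    · rintro ⟨i, hi, rfl⟩
      rw [mem_erase, mem_range] at hi
      exact ⟨i, hi.2, hi.1, rfl⟩
    · rintro ⟨i, h1, h2, rfl⟩
      exact ⟨i, mem_erase.2 ⟨h2, mem_range.2 h1⟩, rfl⟩
  have hmem : ∀ i < 20, i ≠ 5 → wr n i ∈ (gadJ (wr n)).B := fun i h1 h2 => (hB _).2 ⟨i, h1, h2, rfl⟩
  have hold : ∀ i < 20, i ≠ 0 → i ≠ 4 → i ≠ 10 → cyc (wr n i) ≠ zc n 0 ∧ cyc (wr n i) ≠ zc n 1 := by
    intro i hi h0 h4 h10
    rcases wr_old hn hi h0 h4 h10 with h | h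
    · constructor
      · intro he
        rw [he] at h
        exact OJ_z h
      · intro he
        rw [he] at h
        exact OJ_z h
    · rw [h]
      exact ⟨pC_ne, pC_ne⟩
  apply sys_one (gadJ (wr n))
  · intro w
    change ((TT : Perm (X (n + 2 + 5))).SameCycle (wr n 0) w ∨ TT.SameCycle (wr n 4) w) ↔
      (cyc w = zc n 0 ∨ cyc w = zc n 1)
    rw [← e0, ← e4, cyc_eq, cyc_eq]
    constructor
    · rintro (h | h)
      · exact Or.inl h.symm
      · exact Or.inr h.symm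
    · rintro (h | h)
      · exact Or.inl h.symm
      · exact Or.inr h.symm
  · rintro c (rfl | rfl)
    · exact ⟨_, hmem 0 (by norm_num) (by norm_num), e0⟩
    · exact ⟨_, hmem 4 (by norm_num) (by norm_num), e4⟩
  · refine ⟨_, hmem 13 (by norm_num) (by norm_num), ?_⟩
    rw [wr_B hn (Or.inl rfl)]
    rintro (h | h)
    · exact pC_ne h
    · exact pC_ne h
  · intro w hw
    obtain ⟨i, hi, -, rfl⟩ := (hB w).1 hw
    by_cases h0 : i = 0
    · subst h0; exact Or.inl (Or.inl e0)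
    by_cases h4 : i = 4
    · subst h4; exact Or.inl (Or.inr e4)
    by_cases h10 : i = 10
    · subst h10; exact Or.inl (Or.inl e10)
    right
    rcases wr_old hn hi h0 h4 h10 with h | h
    · exact hO h
    · rw [h]; exact hO'
  · intro w hw
    obtain ⟨i, hi, h5, rfl⟩ := (hB w).1 hw
    exact ⟨i, hi, h5, rfl⟩
  · exact wr_inn hn
  · rintro a (rfl | rfl | rfl | rfl)
    · exact ⟨wr_link (by simp), hmem 1 (by norm_num) (by norm_num), wr_inner hn (by simp)⟩
    · exact ⟨wr_link (by simp), hmem 3 (by norm_num) (by norm_num), wr_inner hn (by simp)⟩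
    · exact ⟨wr_link (by simp), hmem 6 (by norm_num) (by norm_num), wr_inner hn (by simp)⟩
    · exact ⟨wr_link (by simp), hmem 8 (by norm_num) (by norm_num), wr_inner hn (by simp)⟩
  · refine gadJ_abs (R := S0 n) (B := (.nil △ .nil) △ .nil) (S := pw (n + 3)) ?_ ?_ ?_ ?_ ?_ ?_ ?_
    · rw [S0_num]
    · rw [pw_num, nn, nn, nz]
    · intro i hi _
      exact tr_w20 n i hi
    · intro i hi _ j hj _ h
      exact wr_inj i hi j hj h
    · rw [← cyc_eq, e0, e10]
    · rw [← cyc_eq, e0, e4]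
      exact ne1
    · intro i hi h0 h4 _ h10
      obtain ⟨a, b⟩ := hold i hi h0 h4 h10
      constructor
      · intro h
        apply a
        rw [← e0]
        exact (cyc_eq.2 h).symm
      · intro h
        apply b
        rw [← e4]
        exact (cyc_eq.2 h).symm

end T4

end Pool.OddHC
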