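import Pool.Agent.Work.MP_8f87b2_h73.T4E
import Pool.Agent.Work.MP_8f87b2_h24.GadJAN

/-!
MP_8f87b2_co, the layer `t = 4` (`k = n + 7`, `s = n + 3`), part I: the gadget J1a (mirrored) for the last class
`zc n (n + 1)` alone.
-/

set_option autoImplicit false

namespace Pool.OddHC

open Finset BinaryTree Equiv Pool.OddHop

namespace T4

/-- two beads: the word `phi (phi [n+1] F) 0` -/
noncomputable def zF (n : ℕ) (F : ZMod (2 * (n + 1) + 1) → ℕ) (hF : ∑ x, F x = 2) : X (n + 2 + 5) :=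
  phi (phi (pwX (n + 1)) F (v2_sum n F hF)) (fun _ => 0) (z2_sum _ (by rw [pkn_phi, pk_pwX, hF]))

theorem zF_congr {n : ℕ} {F F' : ZMod (2 * (n + 1) + 1) → ℕ} {hF : ∑ x, F x = 2} {hF' : ∑ x, F' x = 2}
    (h : F = F') : zF n F hF = zF n F' hF' := by
  subst h
  rfl

theorem TT_zF {n : ℕ} (F : ZMod (2 * (n + 1) + 1) → ℕ) (hF : ∑ x, F x = 2) :
    TT (zF n F hF) = zF n (fun x => F (x + ((n + 1 : ℕ) : ZMod (2 * (n + 1) + 1))))
      (by rw [sum_shift, hF]) := by
  unfold zF
  rw [TT_phi]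
  apply phi_congr
  · rw [TT_phi]
    apply phi_congr
    · exact T_pwX _
    · rw [Vo_pw (n + 1) (by omega)]
  · rfl

/-- the beads of `R_q(())` -/
def F7 (n q : ℕ) : ZMod (2 * (n + 1) + 1) → ℕ := fun x =>
  (if x = ((q : ℕ) : ZMod (2 * (n + 1) + 1)) then 1 else 0) + if x = -1 then 1 else 0

theorem F7_sum (n q : ℕ) : ∑ x, F7 n q x = 2 := by
  unfold F7
  rw [sum_add_distrib, one_bead_sum, one_bead_sum]

theorem xt7_eq {n q : ℕ} (hq : q ≤ n) : xt n 7 (q + 1) = zF n (F7 n (q + 1)) (F7_sum n (q + 1)) := by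
  apply Subtype.ext
  rw [xt_val (by norm_num) (by omega)]
  unfold zF
  rw [phi0]
  change sh 7 (Rq n (q + 1)) = L0 (ins (pwX (n + 1)).1 (lf _))
  unfold F7
  rw [ins_back (pwX (n + 1)) (fun x => if x = ((q + 1 : ℕ) : ZMod (2 * (n + 1) + 1)) then 1 else 0)]
  change _ = L0 (app (tY (n + 1) (q + 1)) (.nil △ .nil))
  have h1 : tY (n + 1) (q + 1) = nest q (.nil △ pw (n + 1 + 1 - (q + 1))) △ .nil :=
    tY_up (n + 1) (q + 1) (by omega) (by omega)
  have h2 := L0_tY (n := n) (q := q + 1) (by omega)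
  have hne : nest q (.nil △ pw (n + 1 + 1 - (q + 1))) ≠ .nil := by
    intro h
    have := congrArg BinaryTree.numNodes h
    rw [nest_num, nn] at this
    simp [BinaryTree.numNodes] at this
  rw [h1] at h2 ⊢
  rw [L0_node hne, L0_nil] at h2
  change _ = L0 (nest q (.nil △ pw (n + 1 + 1 - (q + 1))) △ (.nil △ .nil))
  rw [L0_node hne, L0_one, L0_nil, sh_7, ← h2]
  rfl

theorem xt9_eq {n q : ℕ} (hq : q ≤ n + 1) : xt n 9 q = zF n (bd q) (bd_sum q) := by
  apply Subtype.ext
  rw [xt_val (by norm_num) (by omega)]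
  change sh 9 (Rq n q) = (z2 n q).1
  unfold z2
  rw [phi0]
  have e : (v2 n q).1 = .nil △ tY (n + 1) q := by
    change ins (pwX (n + 1)).1 (lf (bd q)) = _
    have h1 := ins_front (pwX (n + 1)) (fun x => if x = (q : ZMod (2 * (n + 1) + 1)) then 1 else 0)
    have e1 : (bd q : ZMod (2 * (n + 1) + 1) → ℕ) = fun x =>
        (if x = (q : ZMod (2 * (n + 1) + 1)) then 1 else 0) + if x = 0 then 1 else 0 := by
      funext x
      unfold bd
      rw [add_comm]
    rw [e1, h1]
    rfl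
  rw [e, L0_one, L0_tY hq, sh_9]

theorem z0_eq (n : ℕ) : (2 * ((n : ZMod (2 * (n + 1) + 1)) + 1) + 1 : ZMod (2 * (n + 1) + 1)) = 0 := by
  have := ZMod.natCast_self (2 * (n + 1) + 1)
  push_cast at this
  exact this

theorem TT_10 {n : ℕ} (hn : 1 ≤ n) : TT (xt n 7 n) = xt n 7 (n + 1) := by
  obtain ⟨m, rfl⟩ : ∃ m, n = m + 1 := ⟨n - 1, by omega⟩
  rw [xt7_eq (n := m + 1) (q := m) (by omega), xt7_eq (n := m + 1) (q := m + 1) le_rfl, TT_zF]
  apply zF_congr
  have h0 := z0_eq (m + 1)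
  funext x
  unfold F7
  have a1 : x + ((m + 1 + 1 : ℕ) : ZMod (2 * (m + 1 + 1) + 1)) = ((m + 1 : ℕ) : ZMod (2 * (m + 1 + 1) + 1)) ↔
      x = -1 := by
    push_cast
    constructor
    · intro h; linear_combination h
    · rintro rfl; ring
  have a2 : x + ((m + 1 + 1 : ℕ) : ZMod (2 * (m + 1 + 1) + 1)) = -1 ↔
      x = ((m + 1 + 1 : ℕ) : ZMod (2 * (m + 1 + 1) + 1)) := by
    push_cast at h0 ⊢
    constructor
    · intro h; linear_combination h - h0
    · rintro rfl; linear_combination h0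
  simp only [a1, a2]
  rw [add_comm]

theorem TT_4 (n : ℕ) : TT (xt n 7 (n + 1)) = xt n 9 (n + 1) := by
  rw [xt7_eq le_rfl, xt9_eq le_rfl, TT_zF]
  apply zF_congr
  have h0 := z0_eq n
  funext x
  unfold F7 bd
  have a1 : x + ((n + 1 : ℕ) : ZMod (2 * (n + 1) + 1)) = ((n + 1 : ℕ) : ZMod (2 * (n + 1) + 1)) ↔ x = 0 := by
    constructor
    · intro h; linear_combination h
    · rintro rfl; ring
  have a2 : x + ((n + 1 : ℕ) : ZMod (2 * (n + 1) + 1)) = -1 ↔ x = ((n + 1 : ℕ) : ZMod (2 * (n + 1) + 1)) := by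
    push_cast
    constructor
    · intro h; linear_combination h - h0
    · rintro rfl; linear_combination h0
  simp only [a1, a2]

/-- the inner word of the link `((R_n)) > ((R_(n+1)))` -/
theorem lk_inn0 (n : ℕ) : TT (xt n 0 n) ∈ Inn n := by
  right
  have hF := FM_Rq (n := n) (q := n) le_rfl
  have h1 := (hF.node (Z := .nil) (by rw [tht, tht, ht_nil]; omega)).node (Z := .nil) (by
    rw [tht, tht, ht_nil]; omega)
  have h2 : H1.FM (xt n 0 n).1
      (true :: true :: (List.replicate n true ++ ([true, true, false, false] ++ List.replicate (n + 2 - n) true)))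
      (List.replicate (n + 3) false ++ false :: wd .nil ++ false :: wd .nil) := by
    rw [xt_val (by norm_num) (by omega)]
    exact h1
  refine (wd_inj _ _ [] [] (congrArg (fun l => l ++ [false]) ?_)).1
  rw [h2.wdT, wd_app, wd_pw, wd_node, wd_node]
  have e : ∀ (m : ℕ) (l : List Bool), false :: (List.replicate m false ++ l) =
      List.replicate m false ++ false :: l := by
    intro m l
    induction m with
    | zero => rfl
    | succ m ih => rw [List.replicate_succ, List.cons_append, ih, List.cons_append]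
  simp [wd, List.replicate_succ']
  rw [e, e, e]

/-- **THE GADGET J1a (mirrored)** for the last class -/
theorem sys_JN {n : ℕ} (hn : 1 ≤ n) {O : Set (Cyc (n + 2 + 5))}
    (hO : OJ n ⊆ O) (hO' : zc n n ∈ O) :
    HasSys O {c | c = zc n (n + 1)} (WJ n (n + 1) ∪ WJ n n) (Inn n) := by
  have ne2 : zc n n ≠ zc n (n + 1) := fun h => by
    have := zc_inj (by omega) (by omega) h
    omega
  have e0 : cyc (wj n (n + 1) 0) = zc n (n + 1) := wj_0 le_rfl
  have e4 : cyc (wj n (n + 1) 4) = zc n (n + 1) := cyc_7_end n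
  have e10 : cyc (wj n (n + 1) 10) = zc n (n + 1) := wj_10 (by omega) le_rfl
  have e13 : cyc (wj n (n + 1) 13) = zc n n := wj_13 le_rfl
  have hB : ∀ x, x ∈ (gadJAN (wj n (n + 1))).B ↔ ∃ i < 20, wj n (n + 1) i = x := by
    intro x
    change x ∈ (range 20).image (wj n (n + 1)) ↔ _
    rw [mem_image]
    constructor
    · rintro ⟨i, hi, rfl⟩
      exact ⟨i, mem_range.1 hi, rfl⟩
    · rintro ⟨i, h1, rfl⟩
      exact ⟨i, mem_range.2 h1, rfl⟩
  have hmem : ∀ i < 20, wj n (n + 1) i ∈ (gadJAN (wj n (n + 1))).B := fun i h1 => (hB _).2 ⟨i, h1, rfl⟩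
  have hold : ∀ i < 20, i ≠ 0 → i ≠ 4 → i ≠ 10 → cyc (wj n (n + 1) i) ≠ zc n (n + 1) := by
    intro i hi h0 h4 h10
    by_cases h13 : i = 13
    · subst h13
      rw [e13]
      exact ne2
    · have h := wj_old (n := n) (p := n + 1) le_rfl hi h0 h4 h10 h13
      intro he
      rw [he] at h
      exact OJ_z h
  apply sys_one (gadJAN (wj n (n + 1)))
  · intro w
    change (TT : Perm (X (n + 2 + 5))).SameCycle (wj n (n + 1) 0) w ↔ cyc w = zc n (n + 1)
    rw [← e0, cyc_eq]
    exact ⟨fun h => h.symm, fun h => h.symm⟩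
  · rintro c rfl
    exact ⟨_, hmem 0 (by norm_num), e0⟩
  · exact ⟨_, hmem 13 (by norm_num), by rw [e13]; exact ne2⟩
  · intro w hw
    obtain ⟨i, hi, rfl⟩ := (hB w).1 hw
    by_cases h0 : i = 0
    · subst h0; exact Or.inl e0
    by_cases h4 : i = 4
    · subst h4; exact Or.inl e4
    by_cases h10 : i = 10
    · subst h10; exact Or.inl e10
    by_cases h13 : i = 13
    · subst h13; right; rw [e13]; exact hO'
    · exact Or.inr (hO (wj_old le_rfl hi h0 h4 h10 h13))
  · intro w hw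
    obtain ⟨i, hi, rfl⟩ := (hB w).1 hw
    exact wj_WJ hi
  · rintro w (hw | hw)
    · exact WJ_inn (by omega) w hw
    · exact WJ_inn (by omega) w hw
  · rintro a (rfl | rfl | rfl | rfl | rfl)
    · exact ⟨lk (n := n) (q := n) (i := 8) (j := 2) le_rfl (by simp), hmem 11 (by norm_num),
        lk_inn (q := n) le_rfl (i := 8) (by simp)⟩
    · exact ⟨lk (n := n) (q := n) (i := 6) (j := 3) le_rfl (by simp), hmem 12 (by norm_num),
        lk_inn (q := n) le_rfl (i := 6) (by simp)⟩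
    · exact ⟨lk (n := n) (q := n) (i := 5) (j := 6) le_rfl (by simp), hmem 15 (by norm_num),
        lk_inn (q := n) le_rfl (i := 5) (by simp)⟩
    · exact ⟨lk (n := n) (q := n) (i := 4) (j := 5) le_rfl (by simp), hmem 14 (by norm_num),
        lk_inn (q := n) le_rfl (i := 4) (by simp)⟩
    · exact ⟨lk (n := n) (q := n) (i := 0) (j := 0) le_rfl (by simp), hmem 17 (by norm_num),
        lk_inn0 n⟩
  · refine gadJAN_abs' (R := Rq n (n + 1)) (B := .nil) (S := Rq n n) ?_ ?_ ?_ ?_ ?_ ?_ ?_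
    · rw [Rq_num (by omega)]
    · rw [Rq_num (by omega), nz]
    · intro i hi
      exact wj_val le_rfl hi
    · intro i hi j hj h
      exact wj_inj hn (by omega) le_rfl hi hj h
    · exact TT_10 hn
    · exact TT_4 n
    · intro i hi h0 h4 h10 h
      apply hold i hi h0 h4 h10
      rw [← e0]
      exact (cyc_eq.2 h).symm

end T4

end Pool.OddHC
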