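import Pool.Agent.Work.MP_8f87b2_h73.T4G

/-!
MP_8f87b2_co, the layer `t = 4` (`k = n + 7`, `s = n + 3`), part J: the links of the class `(s, 1, 1, 1, 1)` with the class
`(s, 2, 1, 1)`.
-/

set_option autoImplicit false

namespace Pool.OddHC

open Finset BinaryTree Equiv Pool.OddHop

namespace T4

/-- the class of four beads of `f` -/
def qF (n : ℕ) (f : ZMod (2 * (n + 2) + 1) → ℕ) (hf : ∑ x, f x = 4) : Q4 n := Quotient.mk _ ⟨f, hf⟩

theorem hc_qF {n : ℕ} (f : ZMod (2 * (n + 2) + 1) → ℕ) (hf : ∑ x, f x = 4) {w : X (n + 2 + 5)}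
    (hw : w.1 = ins (pwX (n + 2)).1 (lf f)) : cyc w = hc n (qF n f hf) := by
  unfold hc qF
  rw [fc_mk]
  congr 1
  apply Subtype.ext
  rw [hw]
  rfl

/-- beads -/
def dl (n : ℕ) (a : ZMod (2 * (n + 2) + 1)) : ZMod (2 * (n + 2) + 1) → ℕ := fun x => if x = a then 1 else 0

theorem dl_sum (n : ℕ) (a : ZMod (2 * (n + 2) + 1)) : ∑ x, dl n a x = 1 := one_bead_sum a

theorem d4_sum (n : ℕ) (a b c d : ZMod (2 * (n + 2) + 1)) :
    ∑ x, (((dl n a x + dl n b x) + dl n c x) + dl n d x) = 4 := by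
  rw [sum_add_distrib, sum_add_distrib, sum_add_distrib, dl_sum, dl_sum, dl_sum, dl_sum]

/-- the class of four beads at `a, b, c, d` -/
def q4 (n : ℕ) (a b c d : ZMod (2 * (n + 2) + 1)) : Q4 n :=
  qF n (fun x => ((dl n a x + dl n b x) + dl n c x) + dl n d x) (d4_sum n a b c d)

theorem q4_back {n : ℕ} {h : ℕ} {w : X (n + 2 + 5)}
    (hw : w.1 = app (app (app (tY (n + 2) h) (.nil △ .nil)) (.nil △ .nil)) (.nil △ .nil)) :
    cyc w = hc n (q4 n (h : ZMod (2 * (n + 2) + 1)) (-1) (-1) (-1)) := by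
  unfold q4
  apply hc_qF
  rw [hw]
  unfold dl
  rw [ins_back (pwX (n + 2)), ins_back (pwX (n + 2)), ins_back (pwX (n + 2))]
  rfl

theorem q4_front {n : ℕ} {h : ℕ} {w : X (n + 2 + 5)}
    (hw : w.1 = .nil △ (.nil △ (.nil △ tY (n + 2) h))) :
    cyc w = hc n (q4 n (h : ZMod (2 * (n + 2) + 1)) 0 0 0) := by
  unfold q4
  apply hc_qF
  rw [hw]
  unfold dl
  rw [ins_front (pwX (n + 2)), ins_front (pwX (n + 2)), ins_front (pwX (n + 2))]
  rfl

theorem tY_last (n : ℕ) : tY (n + 2) (2 * (n + 2)) = app (pw (n + 3)) (.nil △ .nil) := by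
  unfold tY
  have h : (fun x : ZMod (2 * (n + 2) + 1) => if x = ((2 * (n + 2) : ℕ) : ZMod (2 * (n + 2) + 1)) then 1 else 0) =
      fun x => (fun _ : ZMod (2 * (n + 2) + 1) => 0) x + if x = -1 then 1 else 0 := by
    funext x
    have e : ((2 * (n + 2) : ℕ) : ZMod (2 * (n + 2) + 1)) = -1 := by
      have := ZMod.natCast_self (2 * (n + 2) + 1)
      push_cast at this ⊢
      linear_combination this
    rw [e]
    simp
  rw [h]
  have h1 := ins_back (pwX (n + 2)) (fun _ => 0)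
  have h2 : ins (pwX (n + 2)).1 (lf fun _ : ZMod (2 * (n + 2) + 1) => 0) = pw (n + 3) := by
    rw [lf_zero']
    exact ins_pw0 n
  rw [h2] at h1
  exact h1

/-- two beads over `()[n + 2]` -/
theorem y_form {n a b : ℕ} (ha : a < 2 * (n + 3) + 1) (hb : b < 2 * (n + 3) + 1) :
    ins (uY n).1 (lf (fun x : ZMod (2 * (n + 3) + 1) =>
      (if x = (a : ZMod (2 * (n + 3) + 1)) then 1 else 0) + if x = (b : ZMod (2 * (n + 3) + 1)) then 1 else 0)) =
    lv (bn a 0 + bn b 0) (lp (bn a 1 + bn b 1 + 1) △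
      ins (pw (n + 2)) (nl (2 * (n + 2) + 1) (fun i => bn a (i + 1 + 1) + bn b (i + 1 + 1)))) := by
  rw [lf_bn2 ha hb, show 2 * (n + 3) + 1 = 2 * (n + 2) + 1 + 1 + 1 by ring, nl_succ, nl_succ]
  rfl

theorem cyc_ab {n a b i : ℕ} (u : X (n + 3)) (h : ht u.1 = n + 2) (t : ZMod (2 * (n + 3) + 1))
    (h1 : (a : ZMod (2 * (n + 3) + 1)) + t = 0) (h2 : (b : ZMod (2 * (n + 3) + 1)) + t = (i : ZMod (2 * (n + 3) + 1)))
    {w : X (n + 2 + 5)}
    (hw : w.1 = ins u.1 (lf (fun x : ZMod (2 * (n + 3) + 1) =>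
      (if x = (a : ZMod (2 * (n + 3) + 1)) then 1 else 0) + if x = (b : ZMod (2 * (n + 3) + 1)) then 1 else 0))) :
    cyc w = yc n i := by
  have h3 := cyc_y (n := n) u h (f := fun x : ZMod (2 * (n + 3) + 1) =>
      (if x = (a : ZMod (2 * (n + 3) + 1)) then 1 else 0) + if x = (b : ZMod (2 * (n + 3) + 1)) then 1 else 0)
    (i := i) t (by
      funext x
      unfold bd
      have e1 : x + t = 0 ↔ x = (a : ZMod (2 * (n + 3) + 1)) := by
        constructor
        · intro h; linear_combination h - h1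
        · rintro rfl; exact h1
      have e2 : x + t = (i : ZMod (2 * (n + 3) + 1)) ↔ x = (b : ZMod (2 * (n + 3) + 1)) := by
        constructor
        · intro h; linear_combination h - h2
        · rintro rfl; exact h2
      simp only [e1, e2]) (y2_sum u h _ (sum_f _))
  rw [← h3]
  congr 1
  apply Subtype.ext
  exact hw

/-! ### LONG (left) -/

/-- `()()()[s + 1]` -/
def lA (n : ℕ) : X (n + 2 + 5) := mk n (.nil △ (.nil △ (.nil △ pw (n + 4)))) (by
  rw [nn, nn, nn, pw_num, nz]; ring)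
/-- `[s]()()()()` -/
def lB (n : ℕ) : X (n + 2 + 5) := mk n (app (pw (n + 3)) (.nil △ (.nil △ (.nil △ (.nil △ .nil))))) (by
  rw [num_app, nn, nn, nn, nn, pw_num, nz])
/-- `(()()())[s]` -/
def lC (n : ℕ) : X (n + 2 + 5) := mk n ((.nil △ (.nil △ (.nil △ .nil))) △ pw (n + 3)) (by
  rw [nn, nn, nn, nn, pw_num, nz]; ring)

/-- the pile -/
noncomputable def qP (n : ℕ) : Q4 n := q4 n (-1) (-1) (-1) (-1)

theorem lB_cyc (n : ℕ) : cyc (lB n) = hc n (qP n) := by
  have h := q4_back (n := n) (h := 2 * (n + 2)) (w := lB n) (by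
    rw [tY_last]
    change app (pw (n + 3)) (.nil △ (.nil △ (.nil △ (.nil △ .nil)))) = _
    rw [Tsq.app_assoc, Tsq.app_assoc, Tsq.app_assoc]
    rfl)
  have e : ((2 * (n + 2) : ℕ) : ZMod (2 * (n + 2) + 1)) = -1 := by
    have := ZMod.natCast_self (2 * (n + 2) + 1)
    push_cast at this ⊢
    linear_combination this
  rw [e] at h
  exact h

theorem lC_cyc (n : ℕ) : cyc (lC n) = yc n 0 := by
  refine cyc_ab (a := 1) (b := 1) (uY n) (ht_uY n) (-1) (by push_cast; ring) (by push_cast; ring) ?_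
  rw [y_form (by omega) (by omega), nl_zero, ins_pw0]
  · rfl
  · intro i _
    unfold bn
    rw [if_neg (by omega)]

theorem lA_inv (n : ℕ) : ht (lA n).1 = n + 4 ∧ pkn (lA n).1 = 4 := by
  constructor
  · change ht (.nil △ (.nil △ (.nil △ pw (n + 4)))) = _
    rw [ht_node, ht_node, ht_node, ht_nil, ht_pw]; omega
  · change 1 + 0 + (1 + 0 + (1 + 0 + pkn (pw (n + 3 + 1)))) = 4
    rw [pkn_pw]

/-- the words -/
def WL (n : ℕ) : Set (X (n + 2 + 5)) := {w | w = lA n ∨ w = lB n ∨ w = lC n}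

theorem yc_hc {n i : ℕ} {q : Q4 n} : hc n q ≠ yc n i := by
  intro h
  have h1 := pkc_hc q
  rw [h, pkc_yc] at h1
  omega

theorem htc_ne {n : ℕ} {a : X (n + 2 + 5)} {c : Cyc (n + 2 + 5)} (h : ht a.1 = n + 4) (hc : htc c = n + 3) :
    cyc a ≠ c := by
  intro he
  rw [← he, htc_cyc] at hc
  omega

theorem sys_L {n : ℕ} {O : Set (Cyc (n + 2 + 5))} (hO : OT n ⊆ O) :
    HasSys O {c | c = hc n (qP n) ∨ c = yc n 0} (WL n) ∅ := by
  obtain ⟨a1, a2⟩ := lA_inv n
  have h := sys_tri' O (P := .nil △ (.nil △ (.nil △ .nil))) (Q := pw (n + 3)) (R := .nil) (k := n + 2 + 5)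
    (by rw [pw_num, nn, nn, nn, nz]; ring) (a := lA n) (b := lB n) (c := lC n) rfl rfl rfl
    (by rw [lB_cyc]; exact htc_ne a1 (htc_hc _))
    (by rw [lC_cyc]; exact htc_ne a1 (htc_yc _ _))
    (by rw [lB_cyc, lC_cyc]; exact yc_hc)
    (hO (by
      change n + 4 ≤ htc (cyc _)
      rw [htc_cyc, a1]))
  rw [lB_cyc, lC_cyc] at h
  exact h

/-! ### The second link of the pile -/

/-- `()()([s]())` -/
def mA (n : ℕ) : X (n + 2 + 5) := mk n (.nil △ (.nil △ (app (pw (n + 3)) (.nil △ .nil) △ .nil))) (by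
  rw [nn, nn, nn, num_app, pw_num, nn, nz]; ring)

theorem mA_inv (n : ℕ) : ht (mA n).1 = n + 4 ∧ pkn (mA n).1 = 4 := by
  constructor
  · change ht (.nil △ (.nil △ (app (pw (n + 3)) (.nil △ .nil) △ .nil))) = _
    rw [ht_node, ht_node, ht_node, ht_app, ht_node, ht_nil, ht_pw]; omega
  · change 1 + 0 + (1 + 0 + (0 + pkn (app (pw (n + 2 + 1)) (.nil △ .nil)) + 0)) = 4
    rw [pkn_app, pkn_pw]
    rfl

/-- the words -/
def WM (n : ℕ) : Set (X (n + 2 + 5)) := {w | w = mA n ∨ w = lB n ∨ w = xB n 1}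

theorem xB1 (n : ℕ) : (xB n 1).1 = (.nil △ (.nil △ .nil)) △ app (pw (n + 3)) (.nil △ .nil) := by
  change app (Xa n 1) (.nil △ .nil) = _
  rw [Xa_1]
  rfl

theorem sys_M {n : ℕ} {O : Set (Cyc (n + 2 + 5))} (hO : OT n ⊆ O) :
    HasSys O {c | c = hc n (qP n) ∨ c = yc n 2} (WM n) ∅ := by
  obtain ⟨a1, a2⟩ := mA_inv n
  have c2 : cyc (xB n 1) = yc n 2 := cyc_xB n 1
  have h := sys_tri' O (P := .nil △ (.nil △ .nil)) (Q := app (pw (n + 3)) (.nil △ .nil)) (R := .nil)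
    (k := n + 2 + 5) (by rw [num_app, pw_num, nn, nn, nz]; ring) (a := mA n) (b := lB n) (c := xB n 1) rfl
    (by
      change app (pw (n + 3)) (.nil △ (.nil △ (.nil △ (.nil △ .nil)))) = app (app _ _) _
      rw [Tsq.app_assoc]
      rfl) (by rw [xB1]; rfl)
    (by rw [lB_cyc]; exact htc_ne a1 (htc_hc _))
    (by rw [c2]; exact htc_ne a1 (htc_yc _ _))
    (by rw [lB_cyc, c2]; exact yc_hc)
    (hO (by
      change n + 4 ≤ htc (cyc _)
      rw [htc_cyc, a1]))
  rw [lB_cyc, c2] at h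
  exact h

/-! ### HL, right -/

/-- `((()[s-1]))()()` -/
def rA (n : ℕ) : X (n + 2 + 5) := mk n (((.nil △ pw (n + 2)) △ .nil) △ (.nil △ (.nil △ .nil))) (by
  simp only [nn, nz, pw_num]; ring)
/-- `(()[s-1])(()())` -/
def rB (n : ℕ) : X (n + 2 + 5) := mk n ((.nil △ pw (n + 2)) △ ((.nil △ (.nil △ .nil)) △ .nil)) (by
  simp only [nn, nz, pw_num]; ring)
/-- `()()()(()[s-1])` -/
def rC (n : ℕ) : X (n + 2 + 5) := mk n (.nil △ (.nil △ (.nil △ ((.nil △ pw (n + 2)) △ .nil)))) (by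
  simp only [nn, nz, pw_num]; ring)

/-- the class of the link -/
noncomputable def qR (n : ℕ) : Q4 n := q4 n ((1 : ℕ) : ZMod (2 * (n + 2) + 1)) 0 0 0

theorem rC_cyc (n : ℕ) : cyc (rC n) = hc n (qR n) := by
  refine q4_front (h := 1) ?_
  rw [tY_up (n + 2) 1 (by omega) (by omega)]
  rfl

theorem rB_cyc (n : ℕ) : cyc (rB n) = yc n 3 := by
  refine cyc_ab (a := 2 * n + 5) (b := 1) (uZ n) (ht_uZ n) 2 ?_ (by push_cast; ring) ?_
  · have := ZMod.natCast_self (2 * (n + 3) + 1)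
    push_cast at this ⊢
    linear_combination this
  · rw [lf_bn2 (by omega) (by omega)]
    have e : nl (2 * (n + 3) + 1) (fun i => bn (2 * n + 5) i + bn 1 i) =
        0 :: ((1 :: List.replicate (2 * n + 2) 0) ++ [0, 1, 0]) := by
      rw [show 2 * (n + 3) + 1 = 2 * n + 2 + 1 + 1 + 1 + 1 + 1 by ring, nl_succ, nl_succ, nl_last, nl_last,
        nl_last, nl_zero]
      · have f : ∀ a i : ℕ, bn a i = if i = a then 1 else 0 := fun _ _ => rfl
        rw [f, f, f, f, f, f, f, f, f, f, if_neg (by omega), if_neg (by omega), if_neg (by omega),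
          if_pos rfl, if_neg (by omega), if_neg (by omega), if_pos (by omega), if_neg (by omega),
          if_neg (by omega), if_neg (by omega)]
        simp
      · intro i hi
        unfold bn
        rw [if_neg (by omega), if_neg (by omega)]
    rw [e]
    change _ = ins (pw (n + 1) △ (.nil △ .nil)) _
    rw [ins_zero (pw (n + 1)) (.nil △ .nil) (1 :: List.replicate (2 * n + 2) 0) [0, 1, 0] rfl (by
      rw [List.length_cons, List.length_replicate, pw_num]; ring), bump_ne (pw_ne (by omega))]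
    have e2 : ins (pw (n + 1)) (1 :: List.replicate (2 * n + 2) 0) = .nil △ pw (n + 2) := by
      have h1 := tY_nl (j := n + 1) (h := 0) (by omega)
      rw [tY_zero (n + 1) (by omega), show 2 * (n + 1) + 1 = 2 * n + 2 + 1 by ring, nl_succ, nl_zero] at h1
      · exact h1.symm
      · intro i _
        rfl
    rw [e2]
    rfl

theorem rA_inv (n : ℕ) : ht (rA n).1 = n + 4 ∧ pkn (rA n).1 = 4 := by
  constructor
  · change ht (((.nil △ pw (n + 2)) △ .nil) △ (.nil △ (.nil △ .nil))) = _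
    simp only [ht_node, ht_nil, ht_pw]; omega
  · change 0 + (0 + (1 + 0 + pkn (pw (n + 1 + 1))) + 0) + (1 + 0 + (1 + 0 + 0)) = 4
    rw [pkn_pw]

/-- the words -/
def WHr (n : ℕ) : Set (X (n + 2 + 5)) := {w | w = rA n ∨ w = rB n ∨ w = rC n}

theorem sys_HLr {n : ℕ} {O : Set (Cyc (n + 2 + 5))} (hO : OT n ⊆ O) :
    HasSys O {c | c = yc n 3 ∨ c = hc n (qR n)} (WHr n) ∅ := by
  obtain ⟨a1, a2⟩ := rA_inv n
  have h := sys_tri' O (P := .nil) (Q := (.nil △ pw (n + 2)) △ .nil) (R := .nil △ (.nil △ .nil))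
    (k := n + 2 + 5) (by simp only [nn, nz, pw_num]; ring) (a := rA n) (b := rB n) (c := rC n) rfl rfl rfl
    (by rw [rB_cyc]; exact htc_ne a1 (htc_yc _ _))
    (by rw [rC_cyc]; exact htc_ne a1 (htc_hc _))
    (by rw [rB_cyc, rC_cyc]; exact fun h => yc_hc h.symm)
    (hO (by
      change n + 4 ≤ htc (cyc _)
      rw [htc_cyc, a1]))
  rw [rB_cyc, rC_cyc] at h
  exact h

/-! ### HL, mirrored -/

/-- `()()(((()[s-2])))` -/
def sA (n : ℕ) : X (n + 2 + 5) := mk n (.nil △ (.nil △ ((((.nil △ pw (n + 1)) △ .nil) △ .nil) △ .nil))) (by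
  simp only [nn, nz, pw_num]; ring)
/-- `((()[s-2]))()()()` -/
def sB (n : ℕ) : X (n + 2 + 5) := mk n ((((.nil △ pw (n + 1)) △ .nil)) △ (.nil △ (.nil △ (.nil △ .nil)))) (by
  simp only [nn, nz, pw_num]; ring)
/-- `(()())((()[s-2]))` -/
def sC (n : ℕ) : X (n + 2 + 5) := mk n ((.nil △ (.nil △ .nil)) △ (((.nil △ pw (n + 1)) △ .nil) △ .nil)) (by
  simp only [nn, nz, pw_num]; ring)

/-- the class of the link -/
noncomputable def qL (n : ℕ) : Q4 n := q4 n ((2 : ℕ) : ZMod (2 * (n + 2) + 1)) (-1) (-1) (-1)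

theorem sB_cyc (n : ℕ) : cyc (sB n) = hc n (qL n) := by
  refine q4_back (h := 2) ?_
  rw [tY_up (n + 2) 2 (by omega) (by omega)]
  rfl

theorem sC_cyc (n : ℕ) : cyc (sC n) = yc n 3 := by
  refine cyc_ab (a := 1) (b := 4) (uY n) (ht_uY n) (-1) (by push_cast; ring) (by push_cast; ring) ?_
  rw [y_form (by omega) (by omega)]
  have e : nl (2 * (n + 2) + 1) (fun i => bn 1 (i + 1 + 1) + bn 4 (i + 1 + 1)) = nl (2 * (n + 2) + 1) (bn 2) := by
    apply nl_congr
    intro i _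
    unfold bn
    rw [if_neg (by omega), zero_add]
    congr 1
    apply propext
    constructor <;> intro h1 <;> omega
  rw [e, ← tY_nl (by omega), tY_up (n + 2) 2 (by omega) (by omega)]
  rfl

theorem sA_inv (n : ℕ) : ht (sA n).1 = n + 4 ∧ pkn (sA n).1 = 4 := by
  constructor
  · change ht (.nil △ (.nil △ ((((.nil △ pw (n + 1)) △ .nil) △ .nil) △ .nil))) = _
    simp only [ht_node, ht_nil, ht_pw]; omega
  · change 1 + 0 + (1 + 0 + (0 + (0 + (0 + (1 + 0 + pkn (pw (n + 1))) + 0) + 0) + 0)) = 4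
    rw [pkn_pw]

/-- the words -/
def WHl (n : ℕ) : Set (X (n + 2 + 5)) := {w | w = sA n ∨ w = sB n ∨ w = sC n}

theorem sys_HLl {n : ℕ} {O : Set (Cyc (n + 2 + 5))} (hO : OT n ⊆ O) :
    HasSys O {c | c = yc n 3 ∨ c = hc n (qL n)} (WHl n) ∅ := by
  obtain ⟨a1, a2⟩ := sA_inv n
  have h := sys_tri' O (P := .nil △ (.nil △ .nil)) (Q := ((.nil △ pw (n + 1)) △ .nil) △ .nil) (R := .nil)
    (k := n + 2 + 5) (by simp only [nn, nz, pw_num]; ring) (a := sA n) (b := sB n) (c := sC n) rfl rfl rfl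
    (by rw [sB_cyc]; exact htc_ne a1 (htc_hc _))
    (by rw [sC_cyc]; exact htc_ne a1 (htc_yc _ _))
    (by rw [sB_cyc, sC_cyc]; exact yc_hc)
    (hO (by
      change n + 4 ≤ htc (cyc _)
      rw [htc_cyc, a1]))
  rw [sB_cyc, sC_cyc] at h
  have e : {x | x = hc n (qL n) ∨ x = yc n 3} = {x | x = yc n 3 ∨ x = hc n (qL n)} := by
    ext x
    exact or_comm
  rw [e] at h
  exact h

end T4

end Pool.OddHC
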