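import Pool.Agent.Work.MP_8f87b2_h73.T4H
import Pool.Agent.Work.MP_8f87b2_h73.T4J

/-!
MP_8f87b2_co, the layer `t = 4` (`k = n + 7`, `s = n + 3`), part K: the words of the gadgets are different.
-/

set_option autoImplicit false

namespace Pool.OddHC

open Finset BinaryTree Equiv Pool.OddHop

namespace T4

/-! ### The shapes -/

theorem nest_form (q : ℕ) (A B C : BinaryTree Unit) :
    ∃ A' B' C', nest q ((A △ B) △ C) = (A' △ B') △ C' := by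
  induction q with
  | zero => exact ⟨A, B, C, rfl⟩
  | succ q ih =>
    obtain ⟨A', B', C', h⟩ := ih
    refine ⟨A' △ B', C', .nil, ?_⟩
    change nest q ((A △ B) △ C) △ .nil = _
    rw [h]

theorem Rform {n q : ℕ} (_hq : q ≤ n + 1) :
    (q = 0 ∧ Rq n q = (.nil △ .nil) △ pw (n + 3)) ∨
    (1 ≤ q ∧ ∃ A B C, Rq n q = ((A △ B) △ C) △ .nil) := by
  rcases q with _ | q
  · exact Or.inl ⟨rfl, rfl⟩
  · right
    obtain ⟨A, B, C, h⟩ := nest_form q .nil .nil (pw (n + 2 - q))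
    exact ⟨by omega, A, B, C, by rw [Rq_succ, h]⟩

theorem Xform {n b : ℕ} (hb : b ≤ n + 3) :
    (b = 0 ∧ Xa n b = .nil △ ((.nil △ .nil) △ pw (n + 3))) ∨
    (b = 1 ∧ Xa n b = (.nil △ (.nil △ .nil)) △ pw (n + 3)) ∨
    (2 ≤ b ∧ Xa n b = (.nil △ .nil) △ (.nil △ pw (n + 3))) ∨
    (2 ≤ b ∧ ∃ A B, Xa n b = (.nil △ .nil) △ ((A △ B) △ .nil)) := by
  rcases b with _ | _ | h
  · exact Or.inl ⟨rfl, Xa_0 n⟩
  · exact Or.inr (Or.inl ⟨rfl, Xa_1 n⟩)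
  · right; right
    rw [Xa_2 (show h ≤ n + 1 by omega), tY_up (n + 2) h (by omega) (by omega)]
    rcases h with _ | h
    · exact Or.inl ⟨by omega, rfl⟩
    · right
      refine ⟨by omega, ?_⟩
      have h1 : ∃ A B, nest h (.nil △ pw (n + 2 + 1 - (h + 1))) = A △ B := by
        cases h with
        | zero => exact ⟨_, _, rfl⟩
        | succ h => exact ⟨_, _, rfl⟩
      obtain ⟨A, B, h1⟩ := h1
      refine ⟨A, B, ?_⟩
      change _ △ (nest h _ △ .nil) = _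
      rw [h1]

theorem app_nil' (t : BinaryTree Unit) : app .nil t = t := rfl
theorem app_node' (A B t : BinaryTree Unit) : app (A △ B) t = A △ app B t := rfl

/-! ### J and E -/

theorem dJE {n q b : ℕ} (hq : q ≤ n + 1) (hb : b ≤ n + 3) (h0 : 1 ≤ q ∨ 1 ≤ b) :
    ∀ w ∈ WJ n q, w ∉ WE n b := by
  rintro w ⟨i, hi, rfl⟩ (h | h | h)
  · have h' := congrArg Subtype.val h
    rw [xt_val hi (by omega)] at h'
    change _ = Xa n b △ .nil at h'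
    rcases Rform hq with ⟨q0, hR⟩ | ⟨q1, A, B, C, hR⟩ <;> rw [hR] at h' <;>
      rcases Xform hb with ⟨b0, hX⟩ | ⟨b0, hX⟩ | ⟨b0, hX⟩ | ⟨b0, A', B', hX⟩ <;> rw [hX] at h' <;>
      interval_cases i <;>
      simp [sh_0, sh_1, sh_2, sh_3, sh_4, sh_5, sh_6, sh_7, sh_8, sh_9, app_nil', app_node', pw_succ] at h' <;> omega
  · have h' := congrArg Subtype.val h
    rw [xt_val hi (by omega)] at h'
    change _ = app (Xa n b) (.nil △ .nil) at h'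
    rcases Rform hq with ⟨q0, hR⟩ | ⟨q1, A, B, C, hR⟩ <;> rw [hR] at h' <;>
      rcases Xform hb with ⟨b0, hX⟩ | ⟨b0, hX⟩ | ⟨b0, hX⟩ | ⟨b0, A', B', hX⟩ <;> rw [hX] at h' <;>
      interval_cases i <;>
      simp [sh_0, sh_1, sh_2, sh_3, sh_4, sh_5, sh_6, sh_7, sh_8, sh_9, app_nil', app_node', pw_succ] at h' <;> omega
  · have h' := congrArg Subtype.val h
    rw [xt_val hi (by omega)] at h'
    change _ = .nil △ Xa n b at h'
    rcases Rform hq with ⟨q0, hR⟩ | ⟨q1, A, B, C, hR⟩ <;> rw [hR] at h' <;>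
      rcases Xform hb with ⟨b0, hX⟩ | ⟨b0, hX⟩ | ⟨b0, hX⟩ | ⟨b0, A', B', hX⟩ <;> rw [hX] at h' <;>
      interval_cases i <;>
      simp [sh_0, sh_1, sh_2, sh_3, sh_4, sh_5, sh_6, sh_7, sh_8, sh_9, app_nil', app_node', pw_succ] at h' <;> omega

/-! ### Heights and numbers of peaks -/

theorem numJ {n q : ℕ} (hq : q ≤ n + 1) {w : X (n + 2 + 5)} (h : w ∈ WJ n q) :
    (ht w.1 = n + 5 ∧ pkn w.1 = 2) ∨ (ht w.1 = n + 4 ∧ pkn w.1 = 3) ∨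
      (ht w.1 = n + 3 ∧ (pkn w.1 = 3 ∨ pkn w.1 = 4)) := by
  obtain ⟨i, hi, rfl⟩ := h
  have hv := xt_inv (n := n) hi hq
  have h1 := congrArg Prod.fst hv
  have h2 := congrArg Prod.snd hv
  change ht _ = _ at h1
  change pkn _ = _ at h2
  rw [h1, h2]
  interval_cases i <;> simp [shi]

theorem numR {n : ℕ} (hn : 1 ≤ n) {w : X (n + 2 + 5)} (h : w ∈ WR n) :
    (ht w.1 = n + 5 ∧ pkn w.1 = 2) ∨ (ht w.1 = n + 4 ∧ (pkn w.1 = 3 ∨ pkn w.1 = 2)) ∨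
      (ht w.1 = n + 3 ∧ (pkn w.1 = 3 ∨ pkn w.1 = 4)) := by
  obtain ⟨i, hi, -, rfl⟩ := h
  have hv := wr_inv hn i hi
  have h1 := congrArg Prod.fst hv
  have h2 := congrArg Prod.snd hv
  change ht _ = _ at h1
  change pkn _ = _ at h2
  rw [h1, h2]
  interval_cases i <;> simp [hr]

theorem numH {n : ℕ} {q : Q4 n} {w : X (n + 2 + 5)} (h : w ∈ WH n q) :
    (ht w.1 = n + 4 ∧ pkn w.1 = 4) ∨ (ht w.1 = n + 3 ∧ pkn w.1 = 5) := by
  rcases h with ⟨Y, -, a, b⟩ | ⟨-, a, b⟩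
  · exact Or.inl ⟨a, b⟩
  · exact Or.inr ⟨a, b⟩

theorem numE {n a : ℕ} {w : X (n + 2 + 5)} (h : w ∈ WE n a) :
    (ht w.1 = n + 4 ∧ pkn w.1 = 3) ∨ (ht w.1 = n + 3 ∧ pkn w.1 = 4) := by
  rcases h with rfl | rfl | rfl
  · exact Or.inl ⟨ht_xH n a, pkn_xH n a⟩
  · exact Or.inr ⟨ht_xB n a, pkn_xB n a⟩
  · exact Or.inr ⟨ht_xF n a, pkn_xF n a⟩

theorem numK {n : ℕ} {w : X (n + 2 + 5)} (h : w ∈ WK n) :
    (ht w.1 = n + 4 ∧ pkn w.1 = 3) ∨ (ht w.1 = n + 3 ∧ pkn w.1 = 3 ∧ cyc w = zc n 0) ∨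
      (ht w.1 = n + 3 ∧ pkn w.1 = 4 ∧ cyc w = yc n 0) := by
  rcases h with rfl | rfl | rfl
  · exact Or.inl (kA_inv n)
  · exact Or.inr (Or.inl ⟨(kB_inv n).1, (kB_inv n).2, kB_cyc n⟩)
  · exact Or.inr (Or.inr ⟨(kC_inv n).1, (kC_inv n).2, kC_cyc n⟩)

theorem numP {n : ℕ} (hn : 1 ≤ n) {w : X (n + 2 + 5)} (h : w ∈ WP n) :
    (ht w.1 = n + 4 ∧ pkn w.1 = 2) ∨ (ht w.1 = n + 3 ∧ pkn w.1 = 2) ∨
      (ht w.1 = n + 3 ∧ pkn w.1 = 3 ∧ w = pC n) := by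
  rcases h with rfl | rfl | rfl
  · exact Or.inl (pA_inv n)
  · exact Or.inr (Or.inl (pB_inv hn))
  · exact Or.inr (Or.inr ⟨(pC_inv n).1, (pC_inv n).2.1, rfl⟩)

theorem num_hc {n : ℕ} {w : X (n + 2 + 5)} {q : Q4 n} (h : cyc w = hc n q) : ht w.1 = n + 3 ∧ pkn w.1 = 5 := by
  rw [← htc_cyc, ← pkc_cyc, h]
  exact ⟨htc_hc q, pkc_hc q⟩

theorem num_yc {n i : ℕ} {w : X (n + 2 + 5)} (h : cyc w = yc n i) : ht w.1 = n + 3 ∧ pkn w.1 = 4 := by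
  rw [← htc_cyc, ← pkc_cyc, h]
  exact ⟨htc_yc n i, pkc_yc n i⟩

theorem numL {n : ℕ} {w : X (n + 2 + 5)} (h : w ∈ WL n) :
    (ht w.1 = n + 4 ∧ pkn w.1 = 4 ∧ w = lA n) ∨ (ht w.1 = n + 3 ∧ pkn w.1 = 5 ∧ cyc w = hc n (qP n)) ∨
      (ht w.1 = n + 3 ∧ pkn w.1 = 4 ∧ cyc w = yc n 0) := by
  rcases h with rfl | rfl | rfl
  · exact Or.inl ⟨(lA_inv n).1, (lA_inv n).2, rfl⟩
  · exact Or.inr (Or.inl ⟨(num_hc (lB_cyc n)).1, (num_hc (lB_cyc n)).2, lB_cyc n⟩)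
  · exact Or.inr (Or.inr ⟨(num_yc (lC_cyc n)).1, (num_yc (lC_cyc n)).2, lC_cyc n⟩)

theorem numM {n : ℕ} {w : X (n + 2 + 5)} (h : w ∈ WM n) :
    (ht w.1 = n + 4 ∧ pkn w.1 = 4 ∧ w = mA n) ∨ (ht w.1 = n + 3 ∧ pkn w.1 = 5 ∧ cyc w = hc n (qP n)) ∨
      (ht w.1 = n + 3 ∧ pkn w.1 = 4 ∧ cyc w = yc n 2) := by
  have c2 : cyc (xB n 1) = yc n 2 := cyc_xB n 1
  rcases h with rfl | rfl | rfl
  · exact Or.inl ⟨(mA_inv n).1, (mA_inv n).2, rfl⟩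
  · exact Or.inr (Or.inl ⟨(num_hc (lB_cyc n)).1, (num_hc (lB_cyc n)).2, lB_cyc n⟩)
  · exact Or.inr (Or.inr ⟨(num_yc c2).1, (num_yc c2).2, c2⟩)

theorem numHr {n : ℕ} {w : X (n + 2 + 5)} (h : w ∈ WHr n) :
    (ht w.1 = n + 4 ∧ pkn w.1 = 4 ∧ w = rA n) ∨ (ht w.1 = n + 3 ∧ pkn w.1 = 5 ∧ cyc w = hc n (qR n)) ∨
      (ht w.1 = n + 3 ∧ pkn w.1 = 4 ∧ cyc w = yc n 3) := by
  rcases h with rfl | rfl | rfl
  · exact Or.inl ⟨(rA_inv n).1, (rA_inv n).2, rfl⟩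
  · exact Or.inr (Or.inr ⟨(num_yc (rB_cyc n)).1, (num_yc (rB_cyc n)).2, rB_cyc n⟩)
  · exact Or.inr (Or.inl ⟨(num_hc (rC_cyc n)).1, (num_hc (rC_cyc n)).2, rC_cyc n⟩)

theorem numHl {n : ℕ} {w : X (n + 2 + 5)} (h : w ∈ WHl n) :
    (ht w.1 = n + 4 ∧ pkn w.1 = 4 ∧ w = sA n) ∨ (ht w.1 = n + 3 ∧ pkn w.1 = 5 ∧ cyc w = hc n (qL n)) ∨
      (ht w.1 = n + 3 ∧ pkn w.1 = 4 ∧ cyc w = yc n 3) := by
  rcases h with rfl | rfl | rfl
  · exact Or.inl ⟨(sA_inv n).1, (sA_inv n).2, rfl⟩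
  · exact Or.inr (Or.inl ⟨(num_hc (sB_cyc n)).1, (num_hc (sB_cyc n)).2, sB_cyc n⟩)
  · exact Or.inr (Or.inr ⟨(num_yc (sC_cyc n)).1, (num_yc (sC_cyc n)).2, sC_cyc n⟩)

/-! ### The class `(s, 1, 1, 1, 1)` and the others -/

theorem dHP {n : ℕ} (hn : 1 ≤ n) {q : Q4 n} : ∀ w ∈ WH n q, w ∉ WP n := by
  intro w h h'
  have a := numH h
  rcases numP hn h' with b | b | b <;> omega

theorem dHE {n a : ℕ} {q : Q4 n} : ∀ w ∈ WH n q, w ∉ WE n a := by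
  intro w h h'
  have a := numH h
  have b := numE h'
  omega

theorem dHK {n : ℕ} {q : Q4 n} : ∀ w ∈ WH n q, w ∉ WK n := by
  intro w h h'
  have a := numH h
  rcases numK h' with b | b | b <;> omega

theorem dHJ {n p : ℕ} (hp : p ≤ n + 1) {q : Q4 n} : ∀ w ∈ WH n q, w ∉ WJ n p := by
  intro w h h'
  have a := numH h
  have b := numJ hp h'
  omega

theorem dHR {n : ℕ} (hn : 1 ≤ n) {q : Q4 n} : ∀ w ∈ WH n q, w ∉ WR n := by
  intro w h h'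
  have a := numH h
  have b := numR hn h'
  omega

/-- the words of the prescribed class and the host of the link are free -/
theorem dH_link {n : ℕ} {q0 : Q4 n} (ho : (n + 3) % 4 = 1 ∨ (n + 3) % 4 = 2) {w : X (n + 2 + 5)}
    (h : w ∈ WH n q0) (h' : (ht w.1 = n + 4 ∧ ∃ A B C, w.1 = A △ (B △ C)) ∨
      (ht w.1 = n + 3 ∧ cyc w = hc n q0) ∨ pkn w.1 ≤ 3 ∨ (ht w.1 = n + 3 ∧ pkn w.1 = 4)) : False := by
  rcases h with ⟨Y, hY, a, b⟩ | ⟨hN, a, b⟩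
  · rcases h' with ⟨-, A, B, C, e⟩ | ⟨h1, -⟩ | h1 | ⟨h1, -⟩
    · rw [hY] at e
      simp at e
    · omega
    · omega
    · omega
  · rcases h' with ⟨h1, -⟩ | ⟨-, h1⟩ | h1 | ⟨-, h1⟩
    · omega
    · obtain ⟨q, hq, hne⟩ := hN
      rw [h1] at hq
      exact hne ⟨hc_inj hq, ho⟩
    · omega
    · omega

theorem dHL {n : ℕ} (ho : (n + 3) % 4 = 1 ∨ (n + 3) % 4 = 2) : ∀ w ∈ WH n (qP n), w ∉ WL n := by
  intro w h h'
  apply dH_link ho h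
  rcases numL h' with ⟨a, -, rfl⟩ | ⟨a, -, c⟩ | ⟨a, b, -⟩
  · exact Or.inl ⟨a, _, _, _, rfl⟩
  · exact Or.inr (Or.inl ⟨a, c⟩)
  · exact Or.inr (Or.inr (Or.inr ⟨a, b⟩))

theorem dHM {n : ℕ} (ho : (n + 3) % 4 = 1 ∨ (n + 3) % 4 = 2) : ∀ w ∈ WH n (qP n), w ∉ WM n := by
  intro w h h'
  apply dH_link ho h
  rcases numM h' with ⟨a, -, rfl⟩ | ⟨a, -, c⟩ | ⟨a, b, -⟩
  · exact Or.inl ⟨a, _, _, _, rfl⟩
  · exact Or.inr (Or.inl ⟨a, c⟩)
  · exact Or.inr (Or.inr (Or.inr ⟨a, b⟩))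

theorem dHHr {n : ℕ} (ho : (n + 3) % 4 = 1 ∨ (n + 3) % 4 = 2) : ∀ w ∈ WH n (qR n), w ∉ WHr n := by
  intro w h h'
  apply dH_link ho h
  rcases numHr h' with ⟨a, -, rfl⟩ | ⟨a, -, c⟩ | ⟨a, b, -⟩
  · exact Or.inl ⟨a, _, _, _, rfl⟩
  · exact Or.inr (Or.inl ⟨a, c⟩)
  · exact Or.inr (Or.inr (Or.inr ⟨a, b⟩))

theorem dHHl {n : ℕ} (ho : (n + 3) % 4 = 1 ∨ (n + 3) % 4 = 2) : ∀ w ∈ WH n (qL n), w ∉ WHl n := by
  intro w h h'
  apply dH_link ho h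
  rcases numHl h' with ⟨a, -, rfl⟩ | ⟨a, -, c⟩ | ⟨a, b, -⟩
  · exact Or.inl ⟨a, _, _, _, rfl⟩
  · exact Or.inr (Or.inl ⟨a, c⟩)
  · exact Or.inr (Or.inr (Or.inr ⟨a, b⟩))

/-! ### P4 - B and the others -/

theorem dPE {n a : ℕ} (hn : 1 ≤ n) : ∀ w ∈ WP n, w ∉ WE n a := by
  intro w h h'
  have b := numE h'
  rcases numP hn h with a | a | a <;> omega

theorem dPK {n : ℕ} (hn : 1 ≤ n) : ∀ w ∈ WP n, w ∉ WK n := by
  intro w h h'
  rcases numP hn h with a | a | ⟨a1, a2, rfl⟩ <;> rcases numK h' with b | ⟨b1, b2, b3⟩ | b <;> first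
    | omega
    | exact pC_ne b3

theorem dPL {n : ℕ} (hn : 1 ≤ n) : ∀ w ∈ WP n, w ∉ WL n := by
  intro w h h'
  rcases numP hn h with a | a | a <;> rcases numL h' with b | b | b <;> omega

theorem dPM {n : ℕ} (hn : 1 ≤ n) : ∀ w ∈ WP n, w ∉ WM n := by
  intro w h h'
  rcases numP hn h with a | a | a <;> rcases numM h' with b | b | b <;> omega

theorem dPHr {n : ℕ} (hn : 1 ≤ n) : ∀ w ∈ WP n, w ∉ WHr n := by
  intro w h h'
  rcases numP hn h with a | a | a <;> rcases numHr h' with b | b | b <;> omega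

theorem dPHl {n : ℕ} (hn : 1 ≤ n) : ∀ w ∈ WP n, w ∉ WHl n := by
  intro w h h'
  rcases numP hn h with a | a | a <;> rcases numHl h' with b | b | b <;> omega

theorem dPJ {n q : ℕ} (hn : 1 ≤ n) (hq : q ≤ n + 1) : ∀ w ∈ WP n, w ∉ WJ n q := by
  intro w h h'
  have b := numJ hq h'
  rcases numP hn h with a | a | ⟨a1, a2, rfl⟩
  · omega
  · omega
  · obtain ⟨i, hi, h1⟩ := h'
    have h2 := congrArg Subtype.val h1
    rw [xt_val hi (by omega)] at h2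
    change app (pw 3) (.nil △ pw (n + 3)) = _ at h2
    rcases Rform hq with ⟨q0, hR⟩ | ⟨q1, A, B, C, hR⟩ <;> rw [hR] at h2 <;> interval_cases i <;>
      simp [sh_0, sh_1, sh_2, sh_3, sh_4, sh_5, sh_6, sh_7, sh_8, sh_9, app_nil', app_node', pw_succ] at h2

theorem dPR {n : ℕ} (hn : 1 ≤ n) : ∀ w ∈ WP n, w ∉ WR n := by
  rintro w (rfl | rfl | rfl) ⟨i, hi, -, h1⟩
  · have h2 : pw (n + 3) △ pw 3 = tr n i := congrArg Subtype.val h1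
    interval_cases i <;> simp [tr, app_nil', app_node', pw_succ] at h2
  · have hv := wr_inv hn i hi
    have h3 := congrArg Prod.snd hv
    have h4 := congrArg Prod.fst hv
    change pkn _ = _ at h3
    change ht _ = _ at h4
    rw [← h1, (pB_inv hn).2] at h3
    rw [← h1, (pB_inv hn).1] at h4
    interval_cases i <;> simp [hr] at h3 h4
  · have h2 : app (pw 3) (.nil △ pw (n + 3)) = tr n i := congrArg Subtype.val h1
    interval_cases i <;> simp [tr, app_nil', app_node', pw_succ] at h2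

/-! ### E and the others -/

theorem dEy {n a i : ℕ} (ha : a + 1 ≤ n + 3) (hi : i ≤ n + 3) (h1 : i ≠ a) (h2 : i ≠ a + 1) {w : X (n + 2 + 5)}
    (h : w ∈ WE n a) (h' : cyc w = yc n i) : False := by
  rcases h with rfl | rfl | rfl
  · have h3 := (num_yc h').1
    rw [ht_xH] at h3
    omega
  · rw [cyc_xB] at h'
    exact h2 (yc_inj (by omega) (by omega) h'.symm)
  · rw [cyc_xF] at h'
    exact h1 (yc_inj (by omega) (by omega) h'.symm)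

theorem dEK {n a : ℕ} (ha : a + 1 ≤ n + 3) (ha1 : 1 ≤ a) : ∀ w ∈ WE n a, w ∉ WK n := by
  intro w h h'
  have b := numE h
  rcases numK h' with ⟨c1, c2⟩ | c | ⟨-, -, c⟩
  · rcases h' with rfl | rfl | rfl
    · rcases h with h | h | h
      · have h2 : S0 n △ (.nil △ .nil) = Xa n a △ .nil := congrArg Subtype.val h
        simp at h2
      · rw [h, ht_xB] at c1; omega
      · rw [h, ht_xF] at c1; omega
    · have := (kB_inv n).1; omega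
    · have := (kC_inv n).1; omega
  · omega
  · exact dEy ha (by omega) (by omega) (by omega) h c

theorem dEL {n a : ℕ} (ha : a + 1 ≤ n + 3) (ha1 : 1 ≤ a) : ∀ w ∈ WE n a, w ∉ WL n := by
  intro w h h'
  have b := numE h
  rcases numL h' with c | c | ⟨-, -, c⟩
  · omega
  · omega
  · exact dEy ha (by omega) (by omega) (by omega) h c

theorem dEM {n a : ℕ} (hn : 1 ≤ n) (ha : a + 1 ≤ n + 3) (ha1 : a ≠ 1) (ha2 : a ≠ 2) : ∀ w ∈ WE n a, w ∉ WM n := by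
  intro w h h'
  have b := numE h
  rcases numM h' with c | c | ⟨-, -, c⟩
  · omega
  · omega
  · exact dEy ha (by omega) (by omega) (by omega) h c

theorem dEHr {n a : ℕ} (ha : a + 1 ≤ n + 3) (ha1 : a ≠ 2) (ha2 : a ≠ 3) : ∀ w ∈ WE n a, w ∉ WHr n := by
  intro w h h'
  have b := numE h
  rcases numHr h' with c | c | ⟨-, -, c⟩
  · omega
  · omega
  · exact dEy ha (by omega) (by omega) (by omega) h c

theorem dEHl {n a : ℕ} (ha : a + 1 ≤ n + 3) (ha1 : a ≠ 2) (ha2 : a ≠ 3) : ∀ w ∈ WE n a, w ∉ WHl n := by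
  intro w h h'
  have b := numE h
  rcases numHl h' with c | c | ⟨-, -, c⟩
  · omega
  · omega
  · exact dEy ha (by omega) (by omega) (by omega) h c

theorem dER {n b : ℕ} (hb : b ≤ n + 3) : ∀ w ∈ WE n b, w ∉ WR n := by
  rintro w hE ⟨i, hi, -, rfl⟩
  rcases hE with h | h | h
  · have h' : tr n i = Xa n b △ .nil := congrArg Subtype.val h
    rcases Xform hb with ⟨b0, hX⟩ | ⟨b0, hX⟩ | ⟨b0, hX⟩ | ⟨b0, A', B', hX⟩ <;> rw [hX] at h' <;>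
      interval_cases i <;> simp [tr, app_nil', app_node', pw_succ] at h'
  · have h' : tr n i = app (Xa n b) (.nil △ .nil) := congrArg Subtype.val h
    rcases Xform hb with ⟨b0, hX⟩ | ⟨b0, hX⟩ | ⟨b0, hX⟩ | ⟨b0, A', B', hX⟩ <;> rw [hX] at h' <;>
      interval_cases i <;> simp [tr, app_nil', app_node', pw_succ] at h'
  · have h' : tr n i = .nil △ Xa n b := congrArg Subtype.val h
    rcases Xform hb with ⟨b0, hX⟩ | ⟨b0, hX⟩ | ⟨b0, hX⟩ | ⟨b0, A', B', hX⟩ <;> rw [hX] at h' <;>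
      interval_cases i <;> simp [tr, app_nil', app_node', pw_succ] at h'

end T4

end Pool.OddHC
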