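import Pool.Agent.Work.MP_8f87b2_h73.T4K

/-!
MP_8f87b2_co, the layer `t = 4` (`k = n + 7`, `s = n + 3`), part L: the words of the gadgets are different (second part), inner
words.
-/

set_option autoImplicit false

namespace Pool.OddHC

open Finset BinaryTree Equiv Pool.OddHop

namespace T4

/-! ### The links and J -/

theorem dKJ {n q : ℕ} (hq : q ≤ n + 1) : ∀ w ∈ WK n, w ∉ WJ n q := by
  rintro w hK ⟨i, hi, rfl⟩
  have key : ∀ t : BinaryTree Unit, (t = S0 n △ (.nil △ .nil) ∨ t = app (S0 n) ((.nil △ .nil) △ .nil) ∨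
      t = .nil △ (.nil △ S0 n)) → sh i (Rq n q) ≠ t := by
    unfold S0
    rintro t ht rfl
    rcases Rform hq with ⟨q0, hR⟩ | ⟨q1, A, B, C, hR⟩ <;> rw [hR] at ht <;>
      interval_cases i <;>
      simp [sh_0, sh_1, sh_2, sh_3, sh_4, sh_5, sh_6, sh_7, sh_8, sh_9, app_nil', app_node', pw_succ] at ht
  refine key (xt n i q).1 ?_ (xt_val hi (by omega)).symm
  rcases hK with h | h | h
  · exact Or.inl (congrArg Subtype.val h)
  · exact Or.inr (Or.inl (congrArg Subtype.val h))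
  · exact Or.inr (Or.inr (congrArg Subtype.val h))

/-- a word of height `n + 3` with four peaks -/
theorem J_four {n q : ℕ} (hq : q ≤ n + 1) {w : X (n + 2 + 5)} (h : w ∈ WJ n q) (hp : pkn w.1 = 4) :
    w.1 = sh 1 (Rq n q) ∨ w.1 = sh 2 (Rq n q) ∨ w.1 = sh 8 (Rq n q) := by
  obtain ⟨i, hi, rfl⟩ := h
  have hv := congrArg Prod.snd (xt_inv (n := n) hi hq)
  change pkn _ = _ at hv
  rw [hp] at hv
  have e := xt_val (n := n) hi (show q ≤ n + 3 by omega)
  interval_cases i <;> first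
    | exact Or.inl e
    | exact Or.inr (Or.inl e)
    | exact Or.inr (Or.inr e)
    | (exfalso; simp [shi] at hv)

theorem dLJ {n q : ℕ} (hq : q ≤ n + 1) : ∀ w ∈ WL n, w ∉ WJ n q := by
  intro w h h'
  have b := numJ hq h'
  rcases h with rfl | rfl | rfl
  · have := lA_inv n; omega
  · have := num_hc (lB_cyc n); omega
  · have a := num_yc (lC_cyc n)
    have h1 := J_four hq h' a.2
    change (.nil △ (.nil △ (.nil △ .nil))) △ pw (n + 3) = _ ∨ (.nil △ (.nil △ (.nil △ .nil))) △ pw (n + 3) = _ ∨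
      (.nil △ (.nil △ (.nil △ .nil))) △ pw (n + 3) = _ at h1
    rcases Rform hq with ⟨q0, hR⟩ | ⟨q1, A, B, C, hR⟩ <;> rw [hR] at h1 <;>
      simp [sh_1, sh_2, sh_8, app_nil', app_node', pw_succ] at h1

theorem dMJ {n q : ℕ} (hq : q ≤ n + 1) : ∀ w ∈ WM n, w ∉ WJ n q := by
  intro w h h'
  have b := numJ hq h'
  rcases h with rfl | rfl | rfl
  · have := mA_inv n; omega
  · have := num_hc (lB_cyc n); omega
  · exact dJE hq (show 1 ≤ n + 3 by omega) (Or.inr le_rfl) _ h' (Or.inr (Or.inl rfl))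

theorem dHrJ {n q : ℕ} (hq : q ≤ n + 1) : ∀ w ∈ WHr n, w ∉ WJ n q := by
  intro w h h'
  have b := numJ hq h'
  rcases h with rfl | rfl | rfl
  · have := rA_inv n; omega
  · have a := num_yc (rB_cyc n)
    have h1 := J_four hq h' a.2
    change (.nil △ pw (n + 2)) △ ((.nil △ (.nil △ .nil)) △ .nil) = _ ∨
      (.nil △ pw (n + 2)) △ ((.nil △ (.nil △ .nil)) △ .nil) = _ ∨
      (.nil △ pw (n + 2)) △ ((.nil △ (.nil △ .nil)) △ .nil) = _ at h1
    rcases Rform hq with ⟨q0, hR⟩ | ⟨q1, A, B, C, hR⟩ <;> rw [hR] at h1 <;>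
      simp [sh_1, sh_2, sh_8, app_nil', app_node', pw_succ] at h1
  · have := num_hc (rC_cyc n); omega

theorem dHlJ {n q : ℕ} (hq : q ≤ n + 1) : ∀ w ∈ WHl n, w ∉ WJ n q := by
  intro w h h'
  have b := numJ hq h'
  rcases h with rfl | rfl | rfl
  · have := sA_inv n; omega
  · have := num_hc (sB_cyc n); omega
  · have a := num_yc (sC_cyc n)
    have h1 := J_four hq h' a.2
    change (.nil △ (.nil △ .nil)) △ (((.nil △ pw (n + 1)) △ .nil) △ .nil) = _ ∨
      (.nil △ (.nil △ .nil)) △ (((.nil △ pw (n + 1)) △ .nil) △ .nil) = _ ∨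
      (.nil △ (.nil △ .nil)) △ (((.nil △ pw (n + 1)) △ .nil) △ .nil) = _ at h1
    rcases Rform hq with ⟨q0, hR⟩ | ⟨q1, A, B, C, hR⟩ <;> rw [hR] at h1 <;>
      simp [sh_1, sh_2, sh_8, app_nil', app_node', pw_succ] at h1

/-! ### The links and J2 over `[s](())` -/

theorem dLR {n : ℕ} (hn : 1 ≤ n) : ∀ w ∈ WL n, w ∉ WR n := by
  intro w h h'
  have b := numR hn h'
  rcases h with rfl | rfl | rfl
  · have := lA_inv n; omega
  · have := num_hc (lB_cyc n); omega
  · obtain ⟨i, hi, -, h1⟩ := h'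
    have h2 : (.nil △ (.nil △ (.nil △ .nil))) △ pw (n + 3) = tr n i := congrArg Subtype.val h1
    interval_cases i <;> simp [tr, app_nil', app_node', pw_succ] at h2

theorem dMR {n : ℕ} (hn : 1 ≤ n) : ∀ w ∈ WM n, w ∉ WR n := by
  intro w h h'
  have b := numR hn h'
  rcases h with rfl | rfl | rfl
  · have := mA_inv n; omega
  · have := num_hc (lB_cyc n); omega
  · exact dER (show 1 ≤ n + 3 by omega) _ (Or.inr (Or.inl rfl)) h'

/-! ### J2 over `[s](())` and J -/

theorem dRJ {n q : ℕ} (hq : q ≤ n + 1) (hq1 : 1 ≤ q) : ∀ w ∈ WR n, w ∉ WJ n q := by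
  rintro w ⟨j, hj, -, rfl⟩ ⟨i, hi, h⟩
  have h2 : tr n j = (xt n i q).1 := congrArg Subtype.val h
  rw [xt_val hi (by omega)] at h2
  rcases Rform hq with ⟨q0, hR⟩ | ⟨q1, A, B, C, hR⟩
  · omega
  · rw [hR] at h2
    interval_cases i <;> interval_cases j <;>
      simp [tr, sh_0, sh_1, sh_2, sh_3, sh_4, sh_5, sh_6, sh_7, sh_8, sh_9, app_nil', app_node', pw_succ] at h2

/-! ### Inner words -/

theorem Inn_num {n : ℕ} {w : X (n + 2 + 5)} (h : w ∈ Inn n) :
    (Pre (n + 3) (wd w.1) ∧ Suf (wd w.1) ∧ ((ht w.1 = n + 3 ∧ pkn w.1 = 4) ∨ (ht w.1 = n + 4 ∧ pkn w.1 = 3))) ∨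
      (ht w.1 = n + 5 ∧ pkn w.1 = 2 ∧ w.1 = app (pw (n + 5)) ((.nil △ .nil) △ .nil)) := by
  rcases h with h | h
  · exact Or.inl h
  · right
    refine ⟨?_, ?_, h⟩
    · rw [h, ht_app, ht_pw, ht_node, ht_node, ht_nil]
      omega
    · rw [h, pkn_app, show n + 5 = n + 4 + 1 by rfl, pkn_pw]
      rfl

theorem iH {n : ℕ} {q : Q4 n} : ∀ w ∈ WH n q, w ∉ Inn n := by
  intro w h h'
  have a := numH h
  rcases Inn_num h' with ⟨-, -, b⟩ | b <;> omega

theorem iP {n : ℕ} (hn : 1 ≤ n) : ∀ w ∈ WP n, w ∉ Inn n := by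
  intro w h h'
  rcases numP hn h with a | a | a <;> rcases Inn_num h' with ⟨-, -, b⟩ | b <;> omega

theorem iE {n b : ℕ} (hn : 1 ≤ n) (hb : b ≤ n + 3) : ∀ w ∈ WE n b, w ∉ Inn n := by
  intro w h h'
  have a := numE h
  rcases Inn_num h' with ⟨hP, -, -⟩ | b'
  · rcases h with rfl | rfl | rfl
    · change Pre (n + 3) (wd (Xa n b △ .nil)) at hP
      rcases Xform hb with ⟨b0, hX⟩ | ⟨b0, hX⟩ | ⟨b0, hX⟩ | ⟨b0, A', B', hX⟩ <;> rw [hX] at hP
      · exact notPre2 hP
      · exact notPre3 hn hP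
      · exact notPre3 hn hP
      · exact notPre3 hn hP
    · change Pre (n + 3) (wd (app (Xa n b) (.nil △ .nil))) at hP
      rcases Xform hb with ⟨b0, hX⟩ | ⟨b0, hX⟩ | ⟨b0, hX⟩ | ⟨b0, A', B', hX⟩ <;> rw [hX, app_node'] at hP
      · exact notPre1 hP
      · exact notPre2 hP
      · exact notPre2 hP
      · exact notPre2 hP
    · exact notPre1 hP
  · omega

theorem iK {n : ℕ} : ∀ w ∈ WK n, w ∉ Inn n := by
  intro w h h'
  rcases Inn_num h' with ⟨hP, hS, b⟩ | b
  · rcases h with rfl | rfl | rfl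
    · exact notSuf1 (A := S0 n △ .nil) hS
    · have := kB_inv n; omega
    · exact notPre1 hP
  · rcases numK h with a | a | a <;> omega

theorem iL {n : ℕ} : ∀ w ∈ WL n, w ∉ Inn n := by
  intro w h h'
  rcases Inn_num h' with ⟨hP, hS, b⟩ | b
  · rcases h with rfl | rfl | rfl
    · exact notPre1 hP
    · have := num_hc (lB_cyc n); omega
    · exact notPre2 hP
  · rcases numL h with a | a | a <;> omega

theorem iM {n : ℕ} : ∀ w ∈ WM n, w ∉ Inn n := by
  intro w h h'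
  rcases Inn_num h' with ⟨hP, hS, b⟩ | b
  · rcases h with rfl | rfl | rfl
    · exact notPre1 hP
    · have := num_hc (lB_cyc n); omega
    · rw [xB1] at hP
      exact notPre2 hP
  · rcases numM h with a | a | a <;> omega

theorem iHr {n : ℕ} : ∀ w ∈ WHr n, w ∉ Inn n := by
  intro w h h'
  rcases Inn_num h' with ⟨hP, hS, b⟩ | b
  · rcases h with rfl | rfl | rfl
    · have := rA_inv n; omega
    · exact notPre2 hP
    · exact notPre1 hP
  · rcases numHr h with a | a | a <;> omega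

theorem iHl {n : ℕ} : ∀ w ∈ WHl n, w ∉ Inn n := by
  intro w h h'
  rcases Inn_num h' with ⟨hP, hS, b⟩ | b
  · rcases h with rfl | rfl | rfl
    · exact notPre1 hP
    · have := num_hc (sB_cyc n); omega
    · exact notPre2 hP
  · rcases numHl h with a | a | a <;> omega

end T4

end Pool.OddHC
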