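import Pool.Agent.Work.MP_8f87b2_h73.T4L

/-!
MP_8f87b2_co, the layer `t = 4` (`k = n + 7`, `s = n + 3`), part M: the words of the top and the words of the layer.
-/

set_option autoImplicit false

namespace Pool.OddHC

open Finset BinaryTree Equiv Pool.OddHop

namespace T4

theorem app_or {X Y : BinaryTree Unit} (h : app X (.nil △ .nil) = app Y (.nil △ .nil)) : X = Y := by
  induction X generalizing Y with
  | nil =>
    cases Y with
    | nil => rfl
    | node _ C D =>
      exfalso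
      change .nil △ .nil = C △ app D (.nil △ .nil) at h
      injection h with _ _ h2
      cases D with
      | nil => cases h2
      | node _ _ _ => cases h2
  | node _ A B _ ih =>
    cases Y with
    | nil =>
      exfalso
      change A △ app B (.nil △ .nil) = .nil △ .nil at h
      injection h with _ _ h2
      cases B with
      | nil => cases h2
      | node _ _ _ => cases h2
    | node _ C D =>
      change A △ app B (.nil △ .nil) = C △ app D (.nil △ .nil) at h
      injection h with _ h1 h2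
      change A △ B = C △ D
      rw [h1, ih h2]

theorem leaf_yT (n : ℕ) (f : ZMod (2 * (n + 3) + 1) → ℕ) : leaf (yT (pwX (n + 3)) f) = 0 := by
  cases hy : yT (pwX (n + 3)) f with
  | nil => exact absurd hy (yT_ne (by omega) _ _)
  | node _ A B => rfl

theorem pkn_yT3 (n : ℕ) (f : ZMod (2 * (n + 3) + 1) → ℕ) : pkn (yT (pwX (n + 3)) f) = 1 + ∑ x, f x := by
  unfold yT
  rw [(ins_num (pwX (n + 3)).1 _ (by rw [lf_length, X_num])).2, lf_sum]
  change pkn (pw (n + 2 + 1)) + _ = _
  rw [pkn_pw]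

theorem ht_yT3 (n : ℕ) (f : ZMod (2 * (n + 3) + 1) → ℕ) : ht (yT (pwX (n + 3)) f) = n + 4 := by
  rw [ht_yT _ _ (by omega)]
  change ht (pw (n + 3)) + 1 = _
  rw [ht_pw]

theorem zR_eq (n : ℕ) : zR (n + 2) = ((.nil △ pw (n + 2)) △ .nil) △ .nil := by
  change tY (n + 3) 2 = _
  rw [tY_up (n + 3) 2 (by omega) (by omega)]
  rfl

/-- the words of the top of height at most `n + 5` -/
theorem top_cases {n : ℕ} {ι : Q3 (n + 2) → Q3 (n + 2)} {w : X (n + 2 + 5)} (h : w ∈ topW8' (n + 2) ι) :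
    (n + 5 < ht w.1) ∨ (ht w.1 = n + 5 ∧ pkn w.1 = 3) ∨
    (ht w.1 = n + 5 ∧ pkn w.1 = 2 ∧ w.1 = (.nil △ .nil) △ pw (n + 5)) ∨
    (ht w.1 = n + 4 ∧ pkn w.1 = 3 ∧ w.1 = pw (n + 3) △ ((.nil △ (.nil △ .nil)) △ .nil)) ∨
    (ht w.1 = n + 4 ∧ pkn w.1 = 2 ∧ w.1 = ((.nil △ .nil) △ .nil) △ pw (n + 4)) ∨
    (ht w.1 = n + 4 ∧ pkn w.1 = 3 ∧ w.1 = (.nil △ .nil) △ (((.nil △ pw (n + 2)) △ .nil) △ .nil)) ∨
    (ht w.1 = n + 4 ∧ pkn w.1 = 4 ∧ (n + 2) % 2 = 1 ∧
      w.1 = ((.nil △ pw (n + 2)) △ .nil) △ (.nil △ (.nil △ .nil))) ∨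
    (ht w.1 = n + 4 ∧ pkn w.1 = 4 ∧ ∃ (f : ZMod (2 * (n + 3) + 1) → ℕ) (hf : ∑ z, f z + 1 = 3),
      ι (qB f hf 0) = qB f hf (-1) ∧
      (w.1 = app (yT (pwX (n + 3)) f) (.nil △ .nil) ∨ w.1 = .nil △ yT (pwX (n + 3)) f)) := by
  rcases h with ((⟨i, hi, rfl⟩ | h) | h) | h
  · have hv := inv8 (d := n + 2) (i := i) (by omega)
    have h1 := congrArg Prod.fst hv
    have h2 := congrArg Prod.snd hv
    change ht _ = _ at h1
    change pkn _ = _ at h2
    interval_cases i
    · left; rw [h1]; change n + 5 < n + 2 + 5; omega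
    · left; rw [h1]; change n + 5 < n + 2 + 4; omega
    · left; rw [h1]; change n + 5 < n + 2 + 4; omega
    · exact Or.inr (Or.inl ⟨h1, h2⟩)
    · exact Or.inr (Or.inr (Or.inr (Or.inl ⟨h1, h2, rfl⟩)))
    · exact Or.inr (Or.inr (Or.inr (Or.inr (Or.inl ⟨h1, h2, rfl⟩))))
    · exact Or.inr (Or.inr (Or.inl ⟨h1, h2, rfl⟩))
    · left; rw [h1]; change n + 5 < n + 2 + 4; omega
  · obtain ⟨f, hf, -, h⟩ := h
    rcases h with rfl | ⟨hc, -⟩
    · left
      rw [ht_H2]
      omega
    · right; left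
      obtain ⟨a, b⟩ := n2_ht hc
      rw [htc_cyc] at a
      rw [pkc_cyc] at b
      exact ⟨a, b⟩
  · obtain ⟨ho, rfl | rfl | rfl⟩ := h
    · refine Or.inr (Or.inr (Or.inr (Or.inr (Or.inr (Or.inl ⟨ht_zA _, pkn_zA _, ?_⟩)))))
      change (.nil △ .nil) △ zR (n + 2) = _
      rw [zR_eq]
    · exact Or.inr (Or.inl ⟨ht_zB _, pkn_zB _⟩)
    · refine Or.inr (Or.inr (Or.inr (Or.inr (Or.inr (Or.inr (Or.inl ⟨ht_zC _, pkn_zC _, ho, ?_⟩))))))
      change app (zR (n + 2)) (.nil △ (.nil △ .nil)) = _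
      rw [zR_eq]
      rfl
  · obtain ⟨f, hf, a1, -, -, rfl | rfl | rfl⟩ := h
    · right; left
      refine ⟨ht_H4 f _, ?_⟩
      change leaf (yT (pwX (n + 3)) f) + pkn (yT (pwX (n + 3)) f) + 0 = 3
      rw [leaf_yT, pkn_yT3]
      change ∑ z : ZMod (2 * (n + 3) + 1), f z + 1 = 3 at hf
      omega
    · refine Or.inr (Or.inr (Or.inr (Or.inr (Or.inr (Or.inr (Or.inr ⟨?_, ?_, f, hf, a1, Or.inl rfl⟩))))))
      · change ht (app (yT (pwX (n + 3)) f) (.nil △ .nil)) = _
        rw [ht_app, ht_yT3, ht_node, ht_nil]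
        omega
      · change pkn (app (yT (pwX (n + 3)) f) (.nil △ .nil)) = _
        rw [pkn_app, pkn_yT3]
        change ∑ z : ZMod (2 * (n + 3) + 1), f z + 1 = 3 at hf
        change 1 + _ + 1 = 4
        omega
    · refine Or.inr (Or.inr (Or.inr (Or.inr (Or.inr (Or.inr (Or.inr ⟨?_, ?_, f, hf, a1, Or.inr rfl⟩))))))
      · change ht (.nil △ yT (pwX (n + 3)) f) = _
        rw [ht_node, ht_yT3, ht_nil]
        omega
      · change 1 + 0 + pkn (yT (pwX (n + 3)) f) = _
        rw [pkn_yT3]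
        change ∑ z : ZMod (2 * (n + 3) + 1), f z + 1 = 3 at hf
        omega

/-- the words of height `n + 4` with four peaks -/
theorem top_four {n : ℕ} {ι : Q3 (n + 2) → Q3 (n + 2)} {w : X (n + 2 + 5)} (h : w ∈ topW8' (n + 2) ι)
    (h1 : ht w.1 = n + 4) (h2 : pkn w.1 = 4) :
    ((n + 2) % 2 = 1 ∧ w.1 = ((.nil △ pw (n + 2)) △ .nil) △ (.nil △ (.nil △ .nil))) ∨
    (∃ (f : ZMod (2 * (n + 3) + 1) → ℕ) (hf : ∑ z, f z + 1 = 3), ι (qB f hf 0) = qB f hf (-1) ∧
      (w.1 = app (yT (pwX (n + 3)) f) (.nil △ .nil) ∨ w.1 = .nil △ yT (pwX (n + 3)) f)) := by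
  rcases top_cases h with c | c | c | c | c | c | c | c
  · omega
  · omega
  · omega
  · omega
  · omega
  · omega
  · exact Or.inl ⟨c.2.2.1, c.2.2.2⟩
  · exact Or.inr c.2.2

theorem app_yT_ne {n : ℕ} {f : ZMod (2 * (n + 3) + 1) → ℕ} {Y : BinaryTree Unit} :
    app (yT (pwX (n + 3)) f) (.nil △ .nil) ≠ Y △ .nil := by
  intro h
  cases hy : yT (pwX (n + 3)) f with
  | nil => exact yT_ne (by omega) _ _ hy
  | node _ A B =>
    rw [hy] at h
    change A △ app B (.nil △ .nil) = Y △ .nil at h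
    injection h with _ _ h2
    cases B with
    | nil => cases h2
    | node _ _ _ => cases h2

theorem tH {n : ℕ} {ι : Q3 (n + 2) → Q3 (n + 2)} {q : Q4 n} : ∀ w ∈ topW8' (n + 2) ι, w ∉ WH n q := by
  intro w h h'
  rcases h' with ⟨Y, hY, a, b⟩ | ⟨-, a, b⟩
  · rcases top_four h a b with ⟨-, e⟩ | ⟨f, hf, -, e | e⟩
    · rw [hY] at e
      simp at e
    · rw [hY] at e
      exact app_yT_ne e.symm
    · rw [hY] at e
      injection e with _ _ e2
      exact yT_ne (by omega) _ _ e2.symm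
  · rcases top_cases h with c | c | c | c | c | c | c | c <;> omega

theorem tP {n : ℕ} (hn : 1 ≤ n) {ι : Q3 (n + 2) → Q3 (n + 2)} : ∀ w ∈ topW8' (n + 2) ι, w ∉ WP n := by
  intro w h h'
  rcases h' with rfl | rfl | rfl
  · have a := pA_inv n
    rcases top_cases h with c | c | c | c | ⟨-, -, c⟩ | c | c | c
    · omega
    · omega
    · omega
    · omega
    · change pw (n + 3) △ pw 3 = _ at c
      simp [pw_succ] at c
    · omega
    · omega
    · omega
  · have a := pB_inv hn
    rcases top_cases h with c | c | c | c | c | c | c | c <;> omega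
  · have a := pC_inv n
    rcases top_cases h with c | c | c | c | c | c | c | c <;> omega

/-- the words of height `n + 4` with three peaks -/
theorem top_three {n : ℕ} {ι : Q3 (n + 2) → Q3 (n + 2)} {w : X (n + 2 + 5)} (h : w ∈ topW8' (n + 2) ι)
    (h1 : ht w.1 ≤ n + 4) (h2 : pkn w.1 = 3) :
    w.1 = pw (n + 3) △ ((.nil △ (.nil △ .nil)) △ .nil) ∨
    w.1 = (.nil △ .nil) △ (((.nil △ pw (n + 2)) △ .nil) △ .nil) := by
  rcases top_cases h with c | c | c | c | c | c | c | c
  · omega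
  · omega
  · omega
  · exact Or.inl c.2.2
  · omega
  · exact Or.inr c.2.2
  · omega
  · omega

theorem top_low {n : ℕ} {ι : Q3 (n + 2) → Q3 (n + 2)} {w : X (n + 2 + 5)} (h : w ∈ topW8' (n + 2) ι) :
    n + 4 ≤ ht w.1 := by
  rcases top_cases h with c | c | c | c | c | c | c | c <;> omega

theorem tE {n a : ℕ} {ι : Q3 (n + 2) → Q3 (n + 2)} : ∀ w ∈ topW8' (n + 2) ι, w ∉ WE n a := by
  intro w h h'
  have hl := top_low h
  rcases numE h' with c | c
  · rcases h' with rfl | rfl | rfl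
    · rcases top_three h (by omega) c.2 with e | e
      · change Xa n a △ .nil = _ at e
        simp at e
      · change Xa n a △ .nil = _ at e
        simp at e
    · rw [ht_xB] at c; omega
    · rw [ht_xF] at c; omega
  · omega

theorem tK {n : ℕ} {ι : Q3 (n + 2) → Q3 (n + 2)} : ∀ w ∈ topW8' (n + 2) ι, w ∉ WK n := by
  intro w h h'
  have hl := top_low h
  rcases h' with rfl | rfl | rfl
  · have a := kA_inv n
    rcases top_three h (by omega) a.2 with e | e
    · change app (pw (n + 3)) ((.nil △ .nil) △ .nil) △ (.nil △ .nil) = _ at e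
      simp [app_nil', app_node', pw_succ] at e
    · change app (pw (n + 3)) ((.nil △ .nil) △ .nil) △ (.nil △ .nil) = _ at e
      simp [app_nil', app_node', pw_succ] at e
  · have := kB_inv n; omega
  · have := kC_inv n; omega

theorem tJ {n q : ℕ} (hq : q ≤ n + 1) {ι : Q3 (n + 2) → Q3 (n + 2)} : ∀ w ∈ topW8' (n + 2) ι, w ∉ WJ n q := by
  intro w h h'
  have hl := top_low h
  rcases numJ hq h' with c | c | c
  · have e : w.1 = (.nil △ .nil) △ pw (n + 5) := by
      rcases top_cases h with d | d | d | d | d | d | d | d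
      · omega
      · omega
      · exact d.2.2
      · omega
      · omega
      · omega
      · omega
      · omega
    obtain ⟨i, hi, rfl⟩ := h'
    have hv := congrArg Prod.fst (xt_inv (n := n) hi hq)
    change ht _ = _ at hv
    rw [xt_val hi (by omega)] at e
    rw [c.1] at hv
    rcases Rform hq with ⟨q0, hR⟩ | ⟨q1, A, B, C, hR⟩ <;> rw [hR] at e <;> interval_cases i <;> first
      | (exfalso; simp [shi] at hv; done)
      | (simp [sh_0, sh_1, sh_2, sh_3, sh_4, sh_5, sh_6, sh_7, sh_8, sh_9, app_nil', app_node', pw_succ] at e; done)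
  · have e := top_three h (by omega) c.2
    obtain ⟨i, hi, rfl⟩ := h'
    have hv := congrArg Prod.fst (xt_inv (n := n) hi hq)
    change ht _ = _ at hv
    rw [xt_val hi (by omega)] at e
    rw [c.1] at hv
    rcases Rform hq with ⟨q0, hR⟩ | ⟨q1, A, B, C, hR⟩ <;> rw [hR] at e <;> interval_cases i <;> first
      | (exfalso; simp [shi] at hv; done)
      | (simp [sh_0, sh_1, sh_2, sh_3, sh_4, sh_5, sh_6, sh_7, sh_8, sh_9, app_nil', app_node', pw_succ] at e; done)
  · omega

theorem tR {n : ℕ} (hn : 1 ≤ n) {ι : Q3 (n + 2) → Q3 (n + 2)} : ∀ w ∈ topW8' (n + 2) ι, w ∉ WR n := by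
  rintro w h ⟨i, hi, -, rfl⟩
  have hv := wr_inv hn i hi
  have h1 := congrArg Prod.fst hv
  have h2 := congrArg Prod.snd hv
  change ht _ = _ at h1
  change pkn _ = _ at h2
  have hw : (wr n i).1 = tr n i := rfl
  rcases top_cases h with c | c | ⟨c1, c2, c⟩ | ⟨c1, c2, c⟩ | ⟨c1, c2, c⟩ | ⟨c1, c2, c⟩ | c | c
  · rw [h1] at c
    interval_cases i <;> simp [hr] at c
  · rw [h1, h2] at c
    interval_cases i <;> simp [hr] at c
  · rw [h1] at c1
    rw [h2] at c2
    rw [hw] at c
    interval_cases i <;> first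
      | (exfalso; simp [hr] at c1; done)
      | (exfalso; simp [tr, pw_succ] at c; done)
  · rw [h1] at c1
    rw [h2] at c2
    rw [hw] at c
    interval_cases i <;> first
      | (exfalso; simp [hr] at c1; done)
      | (exfalso; simp [tr, pw_succ] at c; done)
  · rw [h1] at c1
    rw [h2] at c2
    rw [hw] at c
    interval_cases i <;> first
      | (exfalso; simp [hr] at c1; done)
      | (exfalso; simp [tr, pw_succ] at c; done)
  · rw [h1] at c1
    rw [h2] at c2
    rw [hw] at c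
    interval_cases i <;> first
      | (exfalso; simp [hr] at c1; done)
      | (exfalso; simp [tr, pw_succ] at c; done)
  · rw [h1, h2] at c
    interval_cases i <;> simp [hr] at c
  · rw [h1, h2] at c
    interval_cases i <;> simp [hr] at c

/-- the words of the top are not inner words -/
theorem tI {n : ℕ} {ι : Q3 (n + 2) → Q3 (n + 2)} : ∀ w ∈ topW8' (n + 2) ι, w ∉ Inn n := by
  intro w h h'
  have hl := top_low h
  rcases Inn_num h' with ⟨hP, hS, b⟩ | ⟨b1, b2, b3⟩
  · rcases top_three h (by omega) (by omega) with e | e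
    · rw [e] at hS
      have e2 : pw (n + 3) △ ((.nil △ (.nil △ .nil)) △ .nil) =
        app (pw (n + 3) △ .nil) (app (.nil △ .nil) (.nil △ .nil) △ .nil) := rfl
      rw [e2] at hS
      exact notSuf2 (by simp) hS
    · rw [e] at hP
      exact notPre2 hP
  · rcases top_cases h with c | c | ⟨c1, c2, c⟩ | c | c | c | c | c
    · omega
    · omega
    · rw [b3] at c
      simp [app_node', app_nil', pw_succ] at c
    · omega
    · omega
    · omega
    · omega
    · omega

end T4

end Pool.OddHC
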