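import Pool.Agent.Work.MP_8f87b2_h73.T4M

/-!
MP_8f87b2_co, the layer `t = 4` (`k = n + 7`, `s = n + 3`), part N: the matching of the class of three beads of the top and the
links of the layer.
-/

set_option autoImplicit false

namespace Pool.OddHC

open Finset BinaryTree Equiv Pool.OddHop

namespace T4

/-- the last component -/
def lst : BinaryTree Unit → BinaryTree Unit
  | .nil => .nil
  | .node _ A .nil => A
  | .node _ _ (.node u C D) => lst (.node u C D)

theorem lst_app (Y : BinaryTree Unit) : lst (app Y (.nil △ .nil)) = .nil := by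
  induction Y with
  | nil => rfl
  | node _ A B _ ih =>
    cases B with
    | nil => rfl
    | node _ C D => exact ih

/-- two beads -/
def g2 (n : ℕ) (a b : ZMod (2 * (n + 3) + 1)) : ZMod (2 * (n + 3) + 1) → ℕ :=
  fun x => (if x = a then 1 else 0) + if x = b then 1 else 0

theorem g2_sum (n : ℕ) (a b : ZMod (2 * (n + 3) + 1)) : ∑ x, g2 n a b x + 1 = 3 := by
  unfold g2
  rw [sum_add_distrib, one_bead_sum, one_bead_sum]

theorem v3_sum (n : ℕ) (a b c : ZMod (2 * (n + 3) + 1)) :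
    ∑ x, (g2 n a b x + if x = c then 1 else 0) = 3 := by
  rw [sum_add_distrib, one_bead_sum, g2_sum]

/-- the class of three beads -/
def q3 (n : ℕ) (a b c : ZMod (2 * (n + 3) + 1)) : Q3 (n + 2) :=
  Quotient.mk _ ⟨fun x => g2 n a b x + if x = c then 1 else 0, v3_sum n a b c⟩

theorem qB_q3 (n : ℕ) (a b c : ZMod (2 * (n + 3) + 1)) : (qB (g2 n a b) (g2_sum n a b) c : Q3 (n + 2)) = q3 n a b c :=
  rfl

/-- the top uses the hop `{a, b, 0} - {a, b, -1}` -/
def Bd (n : ℕ) (ι : Q3 (n + 2) → Q3 (n + 2)) (a b : ZMod (2 * (n + 3) + 1)) : Prop :=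
  ι (q3 n a b 0) = q3 n a b (-1)

theorem Bd_of {n : ℕ} {ι : Q3 (n + 2) → Q3 (n + 2)} {f : ZMod (2 * (n + 3) + 1) → ℕ} {hf : ∑ z, f z + 1 = 3}
    (h : (ι (qB f hf 0) : Q3 (n + 2)) = qB f hf (-1)) {a b : ZMod (2 * (n + 3) + 1)} (hfg : f = g2 n a b) : Bd n ι a b := by
  subst hfg
  exact h

theorem yT_front (n h : ℕ) : yT (pwX (n + 3)) (g2 n (h : ZMod (2 * (n + 3) + 1)) 0) = .nil △ tY (n + 3) h :=
  ins_front (pwX (n + 3)) _

theorem yT_back (n h : ℕ) : yT (pwX (n + 3)) (g2 n (h : ZMod (2 * (n + 3) + 1)) (-1)) =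
    app (tY (n + 3) h) (.nil △ .nil) := ins_back (pwX (n + 3)) _

theorem tL {n : ℕ} {ι : Q3 (n + 2) → Q3 (n + 2)} (hι : ¬ Bd n ι ((0 : ℕ) : ZMod (2 * (n + 3) + 1)) 0) :
    ∀ w ∈ topW8' (n + 2) ι, w ∉ WL n := by
  intro w h h'
  have hl := top_low h
  rcases h' with rfl | rfl | rfl
  · have a := lA_inv n
    rcases top_four h a.1 a.2 with ⟨-, e⟩ | ⟨f, hf, hb, e | e⟩
    · change .nil △ (.nil △ (.nil △ pw (n + 4))) = _ at e
      simp at e
    · have e1 := congrArg lst e
      rw [lst_app] at e1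
      change pw (n + 3) = .nil at e1
      exact pw_ne (by omega) e1
    · change .nil △ (.nil △ (.nil △ pw (n + 4))) = _ at e
      injection e with _ _ e2
      apply hι
      refine Bd_of hb (yT_inj (u := pwX (n + 3)) ?_)
      rw [yT_front, tY_zero (n + 3) (by omega)]
      exact e2.symm
  · have := num_hc (lB_cyc n); omega
  · have := num_yc (lC_cyc n); omega

theorem tM {n : ℕ} {ι : Q3 (n + 2) → Q3 (n + 2)} (hι : ¬ Bd n ι ((2 * (n + 2) + 1 : ℕ) : ZMod (2 * (n + 3) + 1)) 0) :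
    ∀ w ∈ topW8' (n + 2) ι, w ∉ WM n := by
  intro w h h'
  have hl := top_low h
  rcases h' with rfl | rfl | rfl
  · have a := mA_inv n
    rcases top_four h a.1 a.2 with ⟨-, e⟩ | ⟨f, hf, hb, e | e⟩
    · change .nil △ (.nil △ (app (pw (n + 3)) (.nil △ .nil) △ .nil)) = _ at e
      simp at e
    · have e1 := congrArg lst e
      rw [lst_app] at e1
      change app (pw (n + 3)) (.nil △ .nil) = .nil at e1
      simp [pw_succ, app_node'] at e1
    · change .nil △ (.nil △ (app (pw (n + 3)) (.nil △ .nil) △ .nil)) = _ at e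
      injection e with _ _ e2
      apply hι
      refine Bd_of hb (yT_inj (u := pwX (n + 3)) ?_)
      rw [yT_front, tY_node (n + 2) (2 * (n + 2)) (by omega) (by omega), tY_last]
      exact e2.symm
  · have := num_hc (lB_cyc n); omega
  · rw [ht_xB] at hl; omega

theorem tHr {n : ℕ} (he : (n + 2) % 2 = 0) {ι : Q3 (n + 2) → Q3 (n + 2)}
    (hι : ¬ Bd n ι ((2 : ℕ) : ZMod (2 * (n + 3) + 1)) (-1)) : ∀ w ∈ topW8' (n + 2) ι, w ∉ WHr n := by
  intro w h h'
  have hl := top_low h
  rcases h' with rfl | rfl | rfl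
  · have a := rA_inv n
    rcases top_four h a.1 a.2 with ⟨e, -⟩ | ⟨f, hf, hb, e | e⟩
    · omega
    · change ((.nil △ pw (n + 2)) △ .nil) △ (.nil △ (.nil △ .nil)) = _ at e
      have e2 : ((.nil △ pw (n + 2)) △ .nil) △ (.nil △ (.nil △ .nil)) =
        app (((.nil △ pw (n + 2)) △ .nil) △ (.nil △ .nil)) (.nil △ .nil) := rfl
      rw [e2] at e
      have e3 := app_or e
      apply hι
      refine Bd_of hb (yT_inj (u := pwX (n + 3)) ?_)
      rw [yT_back, tY_up (n + 3) 2 (by omega) (by omega), ← e3]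
      rfl
    · change ((.nil △ pw (n + 2)) △ .nil) △ (.nil △ (.nil △ .nil)) = _ at e
      simp at e
  · have := num_yc (rB_cyc n); omega
  · have := num_hc (rC_cyc n); omega

theorem tHl {n : ℕ} (he : (n + 2) % 2 = 0) {ι : Q3 (n + 2) → Q3 (n + 2)}
    (hι : ¬ Bd n ι ((3 : ℕ) : ZMod (2 * (n + 3) + 1)) 0) : ∀ w ∈ topW8' (n + 2) ι, w ∉ WHl n := by
  intro w h h'
  have hl := top_low h
  rcases h' with rfl | rfl | rfl
  · have a := sA_inv n
    rcases top_four h a.1 a.2 with ⟨e, -⟩ | ⟨f, hf, hb, e | e⟩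
    · omega
    · have e1 := congrArg lst e
      rw [lst_app] at e1
      change ((.nil △ pw (n + 1)) △ .nil) △ .nil = .nil at e1
      simp at e1
    · change .nil △ (.nil △ ((((.nil △ pw (n + 1)) △ .nil) △ .nil) △ .nil)) = _ at e
      injection e with _ _ e2
      apply hι
      refine Bd_of hb (yT_inj (u := pwX (n + 3)) ?_)
      rw [yT_front, tY_up (n + 3) 3 (by omega) (by omega), ← e2]
      rfl
  · have := num_hc (sB_cyc n); omega
  · have := num_yc (sC_cyc n); omega

/-! ### Classes of three beads -/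

theorem q3_rel {n : ℕ} {a b c a' b' c' : ZMod (2 * (n + 3) + 1)} : q3 n a b c = q3 n a' b' c' ↔
    ∃ t : ZMod (2 * (n + 3) + 1), ∀ x, (g2 n a' b' (x + t) + if x + t = c' then 1 else 0) =
      g2 n a b x + if x = c then 1 else 0 := by
  constructor
  · intro h
    obtain ⟨t, -, ht⟩ := Quotient.exact h
    exact ⟨t, ht⟩
  · rintro ⟨t, ht⟩
    apply Quotient.sound
    exact ⟨t, Subsingleton.elim _ _, ht⟩

theorem q3_perm1 {n : ℕ} (a b c : ZMod (2 * (n + 3) + 1)) : q3 n a b c = q3 n b a c := by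
  rw [q3_rel]
  refine ⟨0, fun x => ?_⟩
  unfold g2
  simp only [add_zero]
  omega

theorem q3_perm2 {n : ℕ} (a b c : ZMod (2 * (n + 3) + 1)) : q3 n a b c = q3 n a c b := by
  rw [q3_rel]
  refine ⟨0, fun x => ?_⟩
  unfold g2
  simp only [add_zero]
  omega

theorem q3_shift {n : ℕ} (a b c t : ZMod (2 * (n + 3) + 1)) : q3 n a b c = q3 n (a + t) (b + t) (c + t) := by
  rw [q3_rel]
  refine ⟨t, fun x => ?_⟩
  unfold g2
  simp only [add_left_inj]

theorem q3_hop {n : ℕ} (a b c : ZMod (2 * (n + 3) + 1)) : HopQ (one_dvd _) (q3 n a b c) (q3 n a b (c + 1)) := by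
  refine ⟨_, _, rfl, rfl, c, c + 1, Or.inl rfl, fun z => ?_⟩
  change (g2 n a b z + if z = c then 1 else 0) + (if c + 1 = z then 1 else 0) =
    (g2 n a b z + if z = c + 1 then 1 else 0) + (if c = z then 1 else 0)
  have e1 : (c + 1 = z) ↔ (z = c + 1) := eq_comm
  have e2 : (c = z) ↔ (z = c) := eq_comm
  simp only [e1, e2]
  omega

theorem Hop_symm {n : ℕ} {q q' : Q3 (n + 2)} (h : HopQ (one_dvd _) q q') : HopQ (one_dvd _) q' q := by
  obtain ⟨a, a', h1, h2, h3⟩ := h
  exact ⟨a', a, h2, h1, h3.symm⟩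

/-- the moves of one bead -/
theorem q3_move {n : ℕ} {a b c s s' : ZMod (2 * (n + 3) + 1)} {f : ZMod (2 * (n + 3) + 1) → ℕ}
    {hf : ∑ z, f z + 1 = 3} (h : q3 n a b c = qB f hf s) :
    (qB f hf s' : Q3 (n + 2)) = q3 n (a + (s' - s)) b c ∨ (qB f hf s' : Q3 (n + 2)) = q3 n a (b + (s' - s)) c ∨
      (qB f hf s' : Q3 (n + 2)) = q3 n a b (c + (s' - s)) := by
  obtain ⟨t, -, ht⟩ := Quotient.exact h.symm
  change ∀ x, (g2 n a b (x + t) + if x + t = c then 1 else 0) = f x + if x = s then 1 else 0 at ht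
  have hs := ht s
  rw [if_pos rfl] at hs
  unfold g2 at hs ht
  have key : s + t = a ∨ s + t = b ∨ s + t = c := by
    by_contra hc
    push Not at hc
    rw [if_neg hc.1, if_neg hc.2.1, if_neg hc.2.2] at hs
    omega
  have e : ∀ x y : ZMod (2 * (n + 3) + 1), x = s ↔ x + t = s + t := fun x _ => by simp
  have fin : ∀ a' b' c' : ZMod (2 * (n + 3) + 1), s + t = c' →
      (∀ x, f x = (if x + t = a' then 1 else 0) + if x + t = b' then 1 else 0) →
      (qB f hf s' : Q3 (n + 2)) = q3 n a' b' (c' + (s' - s)) := by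
    intro a' b' c' h1 h2
    apply Quotient.sound
    refine ⟨t, Subsingleton.elim _ _, fun x => ?_⟩
    change (g2 n a' b' (x + t) + if x + t = c' + (s' - s) then 1 else 0) = f x + if x = s' then 1 else 0
    rw [h2 x]
    unfold g2
    have e3 : x + t = c' + (s' - s) ↔ x = s' := by
      rw [← h1]
      constructor
      · intro h; linear_combination h
      · rintro rfl; ring
    simp only [e3]
  rcases key with k | k | k
  · left
    have h3 := fin b c a k (fun x => by
      have h4 := ht x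
      rw [show (if x = s then 1 else 0 : ℕ) = if x + t = a then 1 else 0 from by
        simp only [e x x, k]] at h4
      omega)
    rw [h3, q3_perm2, q3_perm1]
  · right; left
    have h3 := fin a c b k (fun x => by
      have h4 := ht x
      rw [show (if x = s then 1 else 0 : ℕ) = if x + t = b then 1 else 0 from by
        simp only [e x x, k]] at h4
      omega)
    rw [h3, q3_perm2]
  · right; right
    exact fin a b c k (fun x => by
      have h4 := ht x
      rw [show (if x = s then 1 else 0 : ℕ) = if x + t = c then 1 else 0 from by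
        simp only [e x x, k]] at h4
      omega)

theorem q3_nb {n : ℕ} {a b c : ZMod (2 * (n + 3) + 1)} {q : Q3 (n + 2)} (h : HopQ (one_dvd _) (q3 n a b c) q) :
    ∃ e : ZMod (2 * (n + 3) + 1), (e = 1 ∨ e = -1) ∧ (q = q3 n (a + e) b c ∨ q = q3 n a (b + e) c ∨
      q = q3 n a b (c + e)) := by
  obtain ⟨f, hf, ⟨h1, h2⟩ | ⟨h1, h2⟩⟩ := hop_star (j := n + 3) (by omega) h
  · refine ⟨1, Or.inl rfl, ?_⟩
    have h3 := q3_move (s' := 0) h1
    rw [h2]
    simpa using h3
  · refine ⟨-1, Or.inr rfl, ?_⟩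
    have h3 := q3_move (s' := -1) h2
    rw [h1]
    simpa using h3

/-! ### Different classes -/

theorem cn0 {n m : ℕ} (h1 : 1 ≤ m) (h2 : m ≤ 6) : ((m : ℕ) : ZMod (2 * (n + 3) + 1)) ≠ 0 := by
  intro h
  have h3 := (ZMod.natCast_eq_zero_iff m (2 * (n + 3) + 1)).1 h
  have := Nat.le_of_dvd (by omega) h3
  omega

theorem q3_inj {n : ℕ} {i j : ZMod (2 * (n + 3) + 1)} (h : q3 n 0 0 i = q3 n 0 0 j) : i = j := by
  obtain ⟨t, ht⟩ := q3_rel.1 h
  unfold g2 at ht
  have h0 := ht 0
  rw [if_pos rfl, zero_add] at h0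
  have t0 : t = 0 := by
    by_contra hne
    rw [if_neg hne] at h0
    split_ifs at h0 <;> omega
  subst t0
  have h1 := ht i
  rw [add_zero] at h1
  by_contra hne
  rw [if_neg hne, if_pos rfl] at h1
  omega

theorem q3_ne {n : ℕ} {i : ZMod (2 * (n + 3) + 1)} : q3 n 0 0 i ≠ q3 n 0 1 2 := by
  intro h
  have c1 := cn0 (n := n) (m := 1) le_rfl (by norm_num)
  have c2 := cn0 (n := n) (m := 2) (by norm_num) (by norm_num)
  push_cast at c1 c2
  obtain ⟨t, ht⟩ := q3_rel.1 h
  unfold g2 at ht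
  have h0 := ht 0
  rw [if_pos rfl, zero_add] at h0
  by_cases a : t = 0
  · rw [if_pos a, if_neg (by rw [a]; exact c1.symm), if_neg (by rw [a]; exact c2.symm)] at h0
    omega
  · by_cases b : t = 1
    · rw [if_neg a, if_pos b, if_neg (by
        rw [b]; intro h
        apply c1
        linear_combination -h)] at h0
      omega
    · rw [if_neg a, if_neg b] at h0
      split_ifs at h0 <;> omega

theorem q3_ne2 {n : ℕ} : q3 n 2 (-1) 0 ≠ q3 n 3 0 (-1) := by
  intro h
  have c1 := cn0 (n := n) (m := 1) le_rfl (by norm_num)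
  have c2 := cn0 (n := n) (m := 2) (by norm_num) (by norm_num)
  have c3 := cn0 (n := n) (m := 3) (by norm_num) (by norm_num)
  have c4 := cn0 (n := n) (m := 4) (by norm_num) (by norm_num)
  have c5 := cn0 (n := n) (m := 5) (by norm_num) (by norm_num)
  push_cast at c1 c2 c3 c4 c5
  obtain ⟨t, ht⟩ := q3_rel.1 h
  unfold g2 at ht
  have h0 := ht (-1)
  have h1 := ht 0
  have h2 := ht 2
  rw [if_pos rfl] at h0
  rw [zero_add, if_pos rfl] at h1
  rw [if_pos rfl] at h2
  have k : -1 + t = 3 ∨ -1 + t = 0 ∨ -1 + t = -1 := by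
    by_contra hc
    push Not at hc
    rw [if_neg hc.1, if_neg hc.2.1, if_neg hc.2.2] at h0
    omega
  rcases k with k | k | k
  · have e : t = 4 := by linear_combination k
    rw [e, if_neg (by intro h; apply c1; linear_combination h), if_neg c4,
      if_neg (by intro h; apply c5; linear_combination h)] at h1
    omega
  · have e : t = 1 := by linear_combination k
    rw [e, if_neg (by intro h; apply c2; linear_combination -h), if_neg c1,
      if_neg (by intro h; apply c2; linear_combination h)] at h1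
    omega
  · have e : t = 0 := by linear_combination k
    rw [e, add_zero, if_neg (by intro h; apply c1; linear_combination -h), if_neg c2,
      if_neg (by intro h; apply c3; linear_combination h)] at h2
    omega

theorem q30_eq (n : ℕ) : q30 (n + 2) = q3 n 0 0 3 := by
  have h : q30 (n + 2) = q3 n ((2 : ℕ) : ZMod (2 * (n + 3) + 1)) (-1) (-1) := rfl
  have e1 : (-1 + 1 : ZMod (2 * (n + 3) + 1)) = 0 := by ring
  have e2 : (((2 : ℕ) : ZMod (2 * (n + 3) + 1)) + 1) = 3 := by push_cast; ring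
  rw [h, q3_shift _ _ _ 1, q3_perm1, q3_perm2, e1, e2]

/-! ### Six classes -/

theorem swap6 {α : Type*} (ι : α → α) (R : α → α → Prop) (hs : ∀ x y, R x y → R y x) {P Y Z A B C : α}
    (hi : ∀ q, ι (ι q) = q) (hR : ∀ q, ι q = q ∨ R q (ι q)) (hnd : [P, Y, Z, A, B, C].Nodup)
    (h1 : ι P = Z) (h2 : ι C = B) (h3 : ι Y = A) (r1 : R P Y) (r2 : R Z C) (r3 : R A B) :
    ∃ κ : α → α, (∀ q, κ (κ q) = q) ∧ (∀ q, κ q = q ∨ R q (κ q)) ∧ (∀ q, κ q = q ↔ ι q = q) ∧ κ P = Y := by
  classical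
  have h1' : ι Z = P := by rw [← h1, hi]
  have h2' : ι B = C := by rw [← h2, hi]
  have h3' : ι A = Y := by rw [← h3, hi]
  simp only [List.nodup_cons, List.mem_cons, List.not_mem_nil, or_false, not_or, List.nodup_nil, not_false_iff,
    and_true] at hnd
  obtain ⟨⟨d1, d2, d3, d4, d5⟩, ⟨d6, d7, d8, d9⟩, ⟨d10, d11, d12⟩, ⟨d13, d14⟩, d15⟩ := hnd
  set κ : α → α := fun q => if q = P then Y else if q = Y then P else if q = Z then C else if q = C then Z else
    if q = A then B else if q = B then A else ι q with hκ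
  have kP : κ P = Y := by simp only [hκ]; rw [if_pos trivial]
  have kY : κ Y = P := by simp only [hκ]; rw [if_neg (Ne.symm d1), if_pos trivial]
  have kZ : κ Z = C := by simp only [hκ]; rw [if_neg (Ne.symm d2), if_neg (Ne.symm d6), if_pos trivial]
  have kC : κ C = Z := by
    simp only [hκ]; rw [if_neg (Ne.symm d5), if_neg (Ne.symm d9), if_neg (Ne.symm d12), if_pos trivial]
  have kA : κ A = B := by
    simp only [hκ]
    rw [if_neg (Ne.symm d3), if_neg (Ne.symm d7), if_neg (Ne.symm d10), if_neg d14, if_pos trivial]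
  have kB : κ B = A := by
    simp only [hκ]
    rw [if_neg (Ne.symm d4), if_neg (Ne.symm d8), if_neg (Ne.symm d11), if_neg d15, if_neg (Ne.symm d13),
      if_pos trivial]
  have ko : ∀ q, q ≠ P → q ≠ Y → q ≠ Z → q ≠ C → q ≠ A → q ≠ B → κ q = ι q := by
    intro q e1 e2 e3 e4 e5 e6
    simp only [hκ]
    rw [if_neg e1, if_neg e2, if_neg e3, if_neg e4, if_neg e5, if_neg e6]
  have ko2 : ∀ q, q ≠ P → q ≠ Y → q ≠ Z → q ≠ C → q ≠ A → q ≠ B →
      ι q ≠ P ∧ ι q ≠ Y ∧ ι q ≠ Z ∧ ι q ≠ C ∧ ι q ≠ A ∧ ι q ≠ B := by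
    intro q e1 e2 e3 e4 e5 e6
    refine ⟨?_, ?_, ?_, ?_, ?_, ?_⟩
    · intro h; apply e3; rw [← hi q, h, h1]
    · intro h; apply e5; rw [← hi q, h, h3]
    · intro h; apply e1; rw [← hi q, h, h1']
    · intro h; apply e6; rw [← hi q, h, h2]
    · intro h; apply e2; rw [← hi q, h, h3']
    · intro h; apply e4; rw [← hi q, h, h2']
  refine ⟨κ, ?_, ?_, ?_, kP⟩
  · intro q
    by_cases e1 : q = P
    · rw [e1, kP, kY]
    by_cases e2 : q = Y
    · rw [e2, kY, kP]
    by_cases e3 : q = Z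
    · rw [e3, kZ, kC]
    by_cases e4 : q = C
    · rw [e4, kC, kZ]
    by_cases e5 : q = A
    · rw [e5, kA, kB]
    by_cases e6 : q = B
    · rw [e6, kB, kA]
    obtain ⟨f1, f2, f3, f4, f5, f6⟩ := ko2 q e1 e2 e3 e4 e5 e6
    rw [ko q e1 e2 e3 e4 e5 e6, ko _ f1 f2 f3 f4 f5 f6, hi]
  · intro q
    by_cases e1 : q = P
    · right; rw [e1, kP]; exact r1
    by_cases e2 : q = Y
    · right; rw [e2, kY]; exact hs _ _ r1
    by_cases e3 : q = Z
    · right; rw [e3, kZ]; exact r2
    by_cases e4 : q = C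
    · right; rw [e4, kC]; exact hs _ _ r2
    by_cases e5 : q = A
    · right; rw [e5, kA]; exact r3
    by_cases e6 : q = B
    · right; rw [e6, kB]; exact hs _ _ r3
    rw [ko q e1 e2 e3 e4 e5 e6]
    exact hR q
  · intro q
    by_cases e1 : q = P
    · rw [e1, kP, h1]
      exact ⟨fun h => absurd h.symm d1, fun h => absurd h.symm d2⟩
    by_cases e2 : q = Y
    · rw [e2, kY, h3]
      exact ⟨fun h => absurd h d1, fun h => absurd h.symm d7⟩
    by_cases e3 : q = Z
    · rw [e3, kZ, h1']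
      exact ⟨fun h => absurd h.symm d12, fun h => absurd h d2⟩
    by_cases e4 : q = C
    · rw [e4, kC, h2]
      exact ⟨fun h => absurd h d12, fun h => absurd h d15⟩
    by_cases e5 : q = A
    · rw [e5, kA, h3']
      exact ⟨fun h => absurd h.symm d13, fun h => absurd h d7⟩
    by_cases e6 : q = B
    · rw [e6, kB, h2']
      exact ⟨fun h => absurd h d13, fun h => absurd h.symm d15⟩
    rw [ko q e1 e2 e3 e4 e5 e6]

/-! ### The choice of the matching -/

/-- for `s = 1 mod 4` one of the two links is free -/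
theorem choose_H {n : ℕ} {ι : Q3 (n + 2) → Q3 (n + 2)} (hι : OK3 (n + 2) ι) :
    ¬ Bd n ι ((2 : ℕ) : ZMod (2 * (n + 3) + 1)) (-1) ∨ ¬ Bd n ι ((3 : ℕ) : ZMod (2 * (n + 3) + 1)) 0 := by
  by_contra hc
  push Not at hc
  obtain ⟨h1, h2⟩ := hc
  unfold Bd at h1 h2
  have e1 : q3 n ((2 : ℕ) : ZMod (2 * (n + 3) + 1)) (-1) (-1) = q3 n 0 0 3 := (q30_eq n).symm.trans rfl |>.symm
  have e2 : q3 n ((3 : ℕ) : ZMod (2 * (n + 3) + 1)) 0 0 = q3 n 0 0 3 := by
    rw [q3_perm1, q3_perm2]
    push_cast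
    rfl
  rw [e1] at h1
  rw [e2, ← h1, hι.inv] at h2
  push_cast at h2
  exact q3_ne2 h2

/-- for `s = 2 mod 4` there is a matching with one of the two links of the pile free -/
theorem choose_L (n : ℕ) : ∃ ι : Q3 (n + 2) → Q3 (n + 2), OK3 (n + 2) ι ∧
    (¬ Bd n ι ((0 : ℕ) : ZMod (2 * (n + 3) + 1)) 0 ∨
      ¬ Bd n ι ((2 * (n + 2) + 1 : ℕ) : ZMod (2 * (n + 3) + 1)) 0) := by
  obtain ⟨ι, hι⟩ := exists_OK3 (n + 2)
  by_cases hb : ¬ Bd n ι ((0 : ℕ) : ZMod (2 * (n + 3) + 1)) 0 ∨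
      ¬ Bd n ι ((2 * (n + 2) + 1 : ℕ) : ZMod (2 * (n + 3) + 1)) 0
  · exact ⟨ι, hι, hb⟩
  push Not at hb
  obtain ⟨h1, h2⟩ := hb
  have c1 := cn0 (n := n) (m := 1) le_rfl (by norm_num)
  have c2 := cn0 (n := n) (m := 2) (by norm_num) (by norm_num)
  have c3 := cn0 (n := n) (m := 3) (by norm_num) (by norm_num)
  have c4 := cn0 (n := n) (m := 4) (by norm_num) (by norm_num)
  have c5 := cn0 (n := n) (m := 5) (by norm_num) (by norm_num)
  push_cast at c1 c2 c3 c4 c5
  have em2 : ((2 * (n + 2) + 1 : ℕ) : ZMod (2 * (n + 3) + 1)) = -2 := by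
    have := ZMod.natCast_self (2 * (n + 3) + 1)
    push_cast at this ⊢
    linear_combination this
  unfold Bd at h1 h2
  rw [em2] at h2
  rw [Nat.cast_zero] at h1
  have eC : q3 n (-2) 0 0 = q3 n 0 0 (-2) := by rw [q3_perm1, q3_perm2]
  have eB : q3 n (-2) 0 (-1) = q3 n 0 1 2 := by
    rw [q3_shift _ _ _ 2, q3_perm2, show (-2 + 2 : ZMod (2 * (n + 3) + 1)) = 0 by ring,
      show (-1 + 2 : ZMod (2 * (n + 3) + 1)) = 1 by ring, zero_add]
  rw [eC, eB] at h2
  -- the partner of `{0, 0, 1}`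
  have h3 : ι (q3 n 0 0 1) = q3 n 0 0 2 := by
    have hY : HopQ (one_dvd _) (q3 n 0 0 1) (ι (q3 n 0 0 1)) := by
      rcases hι.hop (q3 n 0 0 1) with h | h
      · exfalso
        have h4 := ((hι.fix _).1 h).1
        rw [q30_eq] at h4
        have h5 := q3_inj h4
        apply c2
        linear_combination -h5
      · exact h
    have eZ : q3 n 0 1 1 = q3 n 0 0 (-1) := by
      rw [q3_shift _ _ _ (-1), q3_perm1, q3_perm2]
      congr 1 <;> ring
    have eB2 : q3 n 0 (-1) 1 = q3 n 0 1 2 := by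
      rw [q3_shift _ _ _ 1, q3_perm1]
      congr 1 <;> ring
    have nP : ι (q3 n 0 0 1) ≠ q3 n 0 0 0 := by
      intro h
      have h4 := congrArg ι h
      rw [hι.inv, h1] at h4
      have h5 := q3_inj h4
      apply c2
      linear_combination h5
    have nZ : ι (q3 n 0 0 1) ≠ q3 n 0 0 (-1) := by
      intro h
      rw [← h1] at h
      have h4 := congrArg ι h
      rw [hι.inv, hι.inv] at h4
      exact c1 (q3_inj h4)
    have nB : ι (q3 n 0 0 1) ≠ q3 n 0 1 2 := by
      intro h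
      rw [← h2] at h
      have h4 := congrArg ι h
      rw [hι.inv, hι.inv] at h4
      have h5 := q3_inj h4
      apply c3
      linear_combination h5
    obtain ⟨e, he, h⟩ := q3_nb hY
    rcases he with rfl | rfl <;> rcases h with h | h | h
    · exfalso
      apply nZ
      rw [h, ← eZ, q3_perm1, zero_add]
    · exfalso
      apply nZ
      rw [h, ← eZ, zero_add]
    · rw [h, show (1 + 1 : ZMod (2 * (n + 3) + 1)) = 2 by ring]
    · exfalso
      apply nB
      rw [h, ← eB2, q3_perm1, zero_add]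
    · exfalso
      apply nB
      rw [h, ← eB2, zero_add]
    · exfalso
      apply nP
      rw [h, show (1 + -1 : ZMod (2 * (n + 3) + 1)) = 0 by ring]
  have r1 : HopQ (one_dvd _) (q3 n 0 0 0) (q3 n 0 0 1) := by
    have := q3_hop (n := n) 0 0 0
    rwa [zero_add] at this
  have r2 : HopQ (one_dvd _) (q3 n 0 0 (-1)) (q3 n 0 0 (-2)) := by
    have := q3_hop (n := n) 0 0 (-2)
    rw [show (-2 + 1 : ZMod (2 * (n + 3) + 1)) = -1 by ring] at this
    exact Hop_symm this
  have r3 : HopQ (one_dvd _) (q3 n 0 0 2) (q3 n 0 1 2) := by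
    have := q3_hop (n := n) 0 2 0
    rwa [zero_add, q3_perm2, q3_perm2 0 2 1] at this
  have hnd : [q3 n 0 0 0, q3 n 0 0 1, q3 n 0 0 (-1), q3 n 0 0 2, q3 n 0 1 2, q3 n 0 0 (-2)].Nodup := by
    have ne : ∀ {i j : ZMod (2 * (n + 3) + 1)}, i ≠ j → q3 n 0 0 i ≠ q3 n 0 0 j := fun h h' => h (q3_inj h')
    simp only [List.nodup_cons, List.mem_cons, List.not_mem_nil, or_false, not_or, List.nodup_nil, not_false_iff,
      and_true]
    refine ⟨⟨ne ?_, ne ?_, ne ?_, q3_ne, ne ?_⟩, ⟨ne ?_, ne ?_, q3_ne, ne ?_⟩, ⟨ne ?_, q3_ne, ne ?_⟩,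
      ⟨q3_ne, ne ?_⟩, fun h => q3_ne h.symm⟩
    · intro h; apply c1; linear_combination -h
    · intro h; apply c1; linear_combination h
    · intro h; apply c2; linear_combination -h
    · intro h; apply c2; linear_combination h
    · intro h; apply c2; linear_combination h
    · intro h; apply c1; linear_combination -h
    · intro h; apply c3; linear_combination h
    · intro h; apply c3; linear_combination -h
    · intro h; apply c1; linear_combination h
    · intro h; apply c4; linear_combination h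
  obtain ⟨κ, k1, k2, k3, k4⟩ := swap6 ι (HopQ (one_dvd _)) (fun _ _ h => Hop_symm h) hι.inv hι.hop hnd h1 h2 h3
    r1 r2 r3
  refine ⟨κ, ⟨k1, k2, fun q => (k3 q).trans (hι.fix q)⟩, Or.inl ?_⟩
  unfold Bd
  rw [Nat.cast_zero, k4]
  intro h
  have h5 := q3_inj h
  apply c2
  linear_combination h5

end T4

end Pool.OddHC
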