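import Pool.Agent.Work.MP_8f87b2_h73.T4N

/-!
MP_8f87b2_co, the layer `t = 4` (`k = n + 7`, `s = n + 3`), part O: the system of the class `(s, 1, 1, 1, 1)` without the word
`()()()()[s]`.
-/

set_option autoImplicit false

namespace Pool.OddHC

open Finset BinaryTree Equiv Pool.OddHop

namespace T4

theorem swap2 {α : Type*} (ι : α → α) (R : α → α → Prop) (hs : ∀ x y, R x y → R y x) {P Y : α}
    (hi : ∀ q, ι (ι q) = q) (hR : ∀ q, ι q = q ∨ R q (ι q)) (hf : ∀ q, ι q = q ↔ q = P ∨ q = Y)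
    (hne : P ≠ Y) (r1 : R P Y) :
    ∃ κ : α → α, (∀ q, κ (κ q) = q) ∧ (∀ q, κ q = q ∨ R q (κ q)) ∧ (∀ q, κ q ≠ q) ∧ κ P = Y := by
  classical
  have h1 : ι P = P := (hf P).2 (Or.inl rfl)
  have h2 : ι Y = Y := (hf Y).2 (Or.inr rfl)
  set κ : α → α := fun q => if q = P then Y else if q = Y then P else ι q with hκ
  have kP : κ P = Y := if_pos rfl
  have kY : κ Y = P := by
    simp only [hκ]
    rw [if_neg (Ne.symm hne), if_pos trivial]
  have ko : ∀ q, q ≠ P → q ≠ Y → κ q = ι q := by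
    intro q e1 e2
    simp only [hκ]
    rw [if_neg e1, if_neg e2]
  have ko2 : ∀ q, q ≠ P → q ≠ Y → ι q ≠ P ∧ ι q ≠ Y := by
    intro q e1 e2
    constructor
    · intro h; apply e1; rw [← hi q, h, h1]
    · intro h; apply e2; rw [← hi q, h, h2]
  refine ⟨κ, ?_, ?_, ?_, kP⟩
  · intro q
    by_cases e1 : q = P
    · rw [e1, kP, kY]
    by_cases e2 : q = Y
    · rw [e2, kY, kP]
    obtain ⟨f1, f2⟩ := ko2 q e1 e2
    rw [ko q e1 e2, ko _ f1 f2, hi]
  · intro q
    by_cases e1 : q = P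
    · right; rw [e1, kP]; exact r1
    by_cases e2 : q = Y
    · right; rw [e2, kY]; exact hs _ _ r1
    rw [ko q e1 e2]
    exact hR q
  · intro q
    by_cases e1 : q = P
    · rw [e1, kP]; exact Ne.symm hne
    by_cases e2 : q = Y
    · rw [e2, kY]; exact hne
    rw [ko q e1 e2]
    intro h
    rcases (hf q).1 h with h | h
    · exact e1 h
    · exact e2 h

/-- pile and near pile -/
def q4P (n : ℕ) : Q4 n := Quotient.mk _ (pileMs 4 0)
def q4Y (n : ℕ) : Q4 n := Quotient.mk _ (nearMs (by norm_num) 0 (0 + 1))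

theorem exists_even {n : ℕ} (he : Even (Nat.card (Q4 n))) : ∃ κ : Q4 n → Q4 n, (∀ q, κ (κ q) = q) ∧
    (∀ q, κ q = q ∨ HopQ (one_dvd _) q (κ q)) ∧ (∀ q, κ q ≠ q) ∧ κ (q4P n) = q4Y n := by
  obtain ⟨ι, h1, h2, h3⟩ := near_py (n := 2 * (n + 2) + 1) (m := 4) ⟨n + 2, rfl⟩ (by omega) (one_dvd _)
    (by norm_num) 0 (0 + 1) (Or.inl rfl) he
  haveI : Fact (1 < 2 * (n + 2) + 1) := ⟨by omega⟩
  refine swap2 ι (HopQ (one_dvd _)) ?_ h1 h2 h3 ?_ ?_
  · intro x y h
    obtain ⟨a, a', h1, h2, h3⟩ := h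
    exact ⟨a', a, h2, h1, h3.symm⟩
  · exact pile_ne_near (m := 4) (one_dvd _) (by norm_num) 0 (0 + 1) (fun h => one_ne_zero (add_eq_left.1 h))
  · refine ⟨_, _, rfl, rfl, 0, 0 + 1, Or.inl rfl, fun z => ?_⟩
    change (if z = 0 then 4 else 0) + (if 0 + 1 = z then 1 else 0) =
      ((if z = 0 then 4 - 1 else 0) + if z = 0 + 1 then 1 else 0) + if 0 = z then 1 else 0
    have e1 : ((0 : ZMod (2 * (n + 2) + 1)) + 1 = z) ↔ (z = 0 + 1) := eq_comm
    have e2 : ((0 : ZMod (2 * (n + 2) + 1)) = z) ↔ (z = 0) := eq_comm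
    simp only [e1, e2]
    split_ifs <;> omega

/-- `()()()()[s]` -/
def oX (n : ℕ) : X (n + 2 + 5) := mk n (.nil △ (.nil △ (.nil △ (.nil △ pw (n + 3))))) (by
  simp only [nn, nz, pw_num]; ring)

/-- three beads in the first hole -/
theorem yT_000 (n : ℕ) : yT (pwX (n + 2)) (fun x => ((if x = 0 then 1 else 0) + if x = 0 then 1 else 0) +
    if x = 0 then 1 else 0) = .nil △ (.nil △ (.nil △ pw (n + 3))) := by
  unfold yT
  rw [ins_front (pwX (n + 2)), ins_front (pwX (n + 2))]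
  have h := tY_zero (n + 2) (by omega)
  unfold tY at h
  rw [Nat.cast_zero] at h
  change .nil △ (.nil △ ins (pw (n + 2)) _) = _
  rw [h]

/-- the form of the words of the triples of four beads -/
def HF (n : ℕ) (w : X (n + 2 + 5)) : Prop := ∃ f : ZMod (2 * (n + 2) + 1) → ℕ, ∑ x, f x = 3 ∧
  (w.1 = yT (pwX (n + 2)) f △ .nil ∨ w.1 = app (yT (pwX (n + 2)) f) (.nil △ .nil) ∨
    w.1 = .nil △ yT (pwX (n + 2)) f)

/-- the words of the triples of four beads without `()()()()[s]` -/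
def WH' (n : ℕ) (q0 : Q4 n) : Set (X (n + 2 + 5)) :=
  {w | w ∈ WH n q0 ∧ (w = oX n → (n + 3) % 4 = 1 ∨ (n + 3) % 4 = 2) ∧ HF n w}

theorem WH'_sub {n : ℕ} {q0 : Q4 n} {w : X (n + 2 + 5)} (h : w ∈ WH' n q0) : w ∈ WH n q0 := h.1

theorem sys_H' (n : ℕ) (q0 : Q4 n) {O : Set (Cyc (n + 2 + 5))} (hO : OT n ⊆ O) :
    HasSys O (NH n q0) (WH' n q0) ∅ := by
  obtain ⟨ι, h1, h2, e, hx⟩ : ∃ ι : Q4 n → Q4 n, (∀ q, ι (ι q) = q) ∧
      (∀ q, ι q = q ∨ HopQ (one_dvd _) q (ι q)) ∧
      {c | ∃ q, ι q ≠ q ∧ fc (by omega) (pwX (n + 2)) (T_pwX _) (hk4 n) q = c} = NH n q0 ∧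
      (((n + 3) % 4 = 1 ∨ (n + 3) % 4 = 2) ∨ ι (q4P n) = q4Y n) := by
    by_cases ho : (n + 3) % 4 = 1 ∨ (n + 3) % 4 = 2
    · obtain ⟨ι, h1, h2, h3⟩ := near_prescribed (n := 2 * (n + 2) + 1) ⟨n + 2, rfl⟩
        (one_dvd _) (show 1 ≤ 4 by norm_num) (show 4 ≠ 2 by norm_num) q0
      refine ⟨ι, h1, h2, ?_, Or.inl ho⟩
      ext c
      constructor
      · rintro ⟨q, hq, rfl⟩
        refine ⟨q, rfl, ?_⟩
        rwa [Ne, h3, odd_card4] at hq
      · rintro ⟨q, hq, hq'⟩
        refine ⟨q, ?_, hq⟩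
        rw [Ne, h3, odd_card4]
        exact hq'
    · have hev : Even (Nat.card (Q4 n)) := by
        rw [← Nat.not_odd_iff_even, odd_card4]
        exact ho
      obtain ⟨ι, h1, h2, h3, h4⟩ := exists_even hev
      refine ⟨ι, h1, h2, ?_, Or.inr h4⟩
      ext c
      constructor
      · rintro ⟨q, hq, rfl⟩
        exact ⟨q, rfl, fun h => ho h.2⟩
      · rintro ⟨q, hq, hq'⟩
        exact ⟨q, h3 q, hq⟩
  have h := sys_efix (by omega) (pwX (n + 2)) (T_pwX _) (hk4 n) ι h1 h2 O (by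
    intro f hf _ _
    apply hO
    change n + 4 ≤ htc (cyc _)
    rw [htc_cyc, ht_wH _ _ _ (by omega)]
    change n + 4 ≤ ht (pw (n + 2)) + 2
    rw [ht_pw])
  rw [e] at h
  refine h.mono ?_ (fun _ hx => hx)
  rintro w ⟨f, hf, a1, a2, a3, a4⟩
  have hk := hk4 n
  have hpf : ∀ (g : ZMod (2 * (n + 2) + 1) → ℕ), pkn (yT (pwX (n + 2)) g) = 1 + ∑ x, g x := by
    intro g
    unfold yT
    rw [(ins_num (pwX (n + 2)).1 _ (by rw [lf_length, X_num])).2, lf_sum]
    change pkn (pw (n + 1 + 1)) + _ = _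
    rw [pkn_pw]
  have hhf : ∀ (g : ZMod (2 * (n + 2) + 1) → ℕ), ht (yT (pwX (n + 2)) g) = n + 3 := by
    intro g
    rw [ht_yT _ _ (by omega)]
    change ht (pw (n + 2)) + 1 = _
    rw [ht_pw]
  have hln : leaf (yT (pwX (n + 2)) f) = 0 := by
    have h5 := hhf f
    cases hx : yT (pwX (n + 2)) f with
    | nil => rw [hx, ht_nil] at h5; omega
    | node _ A B => rfl
  refine ⟨?_, ?_, ?_⟩
  · rcases a4 with a4 | a4 | a4
    · left
      refine ⟨yT (pwX (n + 2)) f, by rw [a4]; rfl, ?_, ?_⟩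
      · rw [a4, ht_wH _ _ _ (by omega)]
        change ht (pw (n + 2)) + 2 = _
        rw [ht_pw]
      · rw [a4]
        change leaf (yT (pwX (n + 2)) f) + pkn (yT (pwX (n + 2)) f) + 0 = 4
        rw [hln, hpf]
        omega
    · right
      refine ⟨?_, ?_, ?_⟩
      · rw [← e, a4]
        exact ⟨qB f hf (-1), by rw [a2]; exact a3, (wB_cyc (by omega) _ (T_pwX _) (hk4 n) f hf).symm⟩
      · rw [a4]
        change ht (app (yT (pwX (n + 2)) f) (.nil △ .nil)) = _
        rw [ht_app, hhf, ht_node, ht_nil]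
        omega
      · rw [a4]
        change pkn (app (yT (pwX (n + 2)) f) (.nil △ .nil)) = _
        rw [pkn_app, hpf]
        change 1 + _ + 1 = 5
        omega
    · right
      refine ⟨?_, ?_, ?_⟩
      · rw [← e, a4]
        exact ⟨qB f hf 0, by rw [a1]; exact a3.symm, (wF_cyc (by omega) _ (T_pwX _) (hk4 n) f hf).symm⟩
      · rw [a4]
        change ht (.nil △ yT (pwX (n + 2)) f) = _
        rw [ht_node, hhf, ht_nil]
        omega
      · rw [a4]
        change 1 + 0 + pkn (yT (pwX (n + 2)) f) = _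
        rw [hpf]
        omega
  · rintro rfl
    rcases hx with hx | h4
    · exact hx
    exfalso
    rcases a4 with a4 | a4 | a4
    · have a5 : .nil △ (.nil △ (.nil △ (.nil △ pw (n + 3)))) = yT (pwX (n + 2)) f △ .nil := congrArg Subtype.val a4
      simp at a5
    · have a5 : .nil △ (.nil △ (.nil △ (.nil △ pw (n + 3)))) = app (yT (pwX (n + 2)) f) (.nil △ .nil) :=
        congrArg Subtype.val a4
      have a6 := congrArg lst a5
      rw [lst_app] at a6
      change pw (n + 2) = .nil at a6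
      exact pw_ne (by omega) a6
    · have a5 : .nil △ (.nil △ (.nil △ (.nil △ pw (n + 3)))) = .nil △ yT (pwX (n + 2)) f := congrArg Subtype.val a4
      injection a5 with _ _ a6
      rw [← yT_000] at a6
      have a7 := yT_inj a6
      have hfz : ∀ z, f z = ((if z = 0 then 1 else 0) + if z = 0 then 1 else 0) + if z = 0 then 1 else 0 :=
        fun z => (congrFun a7 z).symm
      haveI : Fact (1 < 2 * (n + 2) + 1) := ⟨by omega⟩
      have b1 : (qB f hf 0 : Q4 n) = q4P n := by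
        unfold qB q4P
        congr 1
        apply Subtype.ext
        funext z
        change f z + (if z = 0 then 1 else 0) = if z = 0 then 4 else 0
        rw [hfz z]
        by_cases hz : z = 0
        · simp only [if_pos hz]
        · simp only [if_neg hz]
      have b2 : (qB f hf (-1) : Q4 n) = Quotient.mk _ (nearMs (by norm_num) 0 (0 - 1)) := by
        unfold qB
        congr 1
        apply Subtype.ext
        funext z
        change f z + (if z = -1 then 1 else 0) = (if z = 0 then 4 - 1 else 0) + if z = 0 - 1 then 1 else 0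
        rw [hfz z, zero_sub]
        by_cases hz : z = 0
        · simp only [if_pos hz]
        · simp only [if_neg hz]
      rw [b1, b2, h4] at a1
      exact near_ne_near (m := 4) (one_dvd _) ⟨n + 2, rfl⟩ (by omega) (by norm_num) 0 a1
  · refine ⟨f, by omega, ?_⟩
    rcases a4 with a4 | a4 | a4
    · exact Or.inl (congrArg Subtype.val a4)
    · exact Or.inr (Or.inl (congrArg Subtype.val a4))
    · exact Or.inr (Or.inr (congrArg Subtype.val a4))

/-- `()()()()[s]` is in the T-cycle of the pile -/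
theorem oX_cyc (n : ℕ) : cyc (oX n) = hc n (qP n) := by
  have h : cyc (oX n) = hc n (q4 n ((0 : ℕ) : ZMod (2 * (n + 2) + 1)) 0 0 0) := by
    refine q4_front (h := 0) ?_
    rw [tY_zero (n + 2) (by omega)]
    rfl
  rw [h]
  congr 1
  unfold qP q4 qF
  apply Quotient.sound
  refine ⟨-1, Subsingleton.elim _ _, fun x => ?_⟩
  unfold dl
  have e : x + -1 = -1 ↔ x = 0 := by
    constructor
    · intro h; linear_combination h
    · rintro rfl; ring
  simp only [e, Nat.cast_zero]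

theorem oX_odd {n : ℕ} (ho : (n + 3) % 4 = 1 ∨ (n + 3) % 4 = 2) : oX n ∉ WH n (qP n) := by
  intro h
  refine dH_link ho h (Or.inr (Or.inl ⟨?_, oX_cyc n⟩))
  exact (num_hc (oX_cyc n)).1

end T4

end Pool.OddHC
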