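import Pool.Agent.Work.MP_8f87b2_h73.T4O

/-!
MP_8f87b2_co, the layer `t = 4` (`k = n + 7`, `s = n + 3`), part P: the unions.
-/

set_option autoImplicit false

namespace Pool.OddHC

open Finset BinaryTree Equiv Pool.OddHop

namespace T4

/-- a part of the layer with plain triples only; `q0`: the gadgets J use the words over `R_q`, `q0 ≤ q`; `r`: the gadget over
`[s](())` is used -/
structure Blk (n : ℕ) (ι : Q3 (n + 2) → Q3 (n + 2)) (q0 : ℕ) (r : Prop) (N : Set (Cyc (n + 2 + 5)))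
    (W : Set (X (n + 2 + 5))) : Prop where
  sys : HasSys (OT n) N W ∅
  inn : ∀ w ∈ W, w ∉ Inn n
  top : ∀ w ∈ topW8' (n + 2) ι, w ∉ W
  J : ∀ q, q0 ≤ q → q ≤ n + 1 → ∀ w ∈ W, w ∉ WJ n q
  R : r → ∀ w ∈ W, w ∉ WR n

theorem Blk.union {n : ℕ} {ι : Q3 (n + 2) → Q3 (n + 2)} {q0 : ℕ} {r : Prop} {N1 N2 : Set (Cyc (n + 2 + 5))}
    {W1 W2 : Set (X (n + 2 + 5))} (h1 : Blk n ι q0 r N1 W1) (h2 : Blk n ι q0 r N2 W2)
    (hN : ∀ c ∈ N1, c ∉ N2) (hW : ∀ w ∈ W1, w ∉ W2) : Blk n ι q0 r (N1 ∪ N2) (W1 ∪ W2) where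
  sys := by
    have h := sys_union h1.sys (h2.sys.mono_old (O' := OT n ∪ N1) fun c hc => Or.inl hc) hN hW
      (fun w _ => Set.notMem_empty w)
    rwa [Set.union_empty] at h
  inn := by
    rintro w (h | h)
    · exact h1.inn w h
    · exact h2.inn w h
  top := by
    rintro w hw (h | h)
    · exact h1.top w hw h
    · exact h2.top w hw h
  J := by
    rintro q hq hq' w (h | h)
    · exact h1.J q hq hq' w h
    · exact h2.J q hq hq' w h
  R := by
    rintro hr w (h | h)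
    · exact h1.R hr w h
    · exact h2.R hr w h

variable {n : ℕ} {ι : Q3 (n + 2) → Q3 (n + 2)} {q0 : ℕ} {r : Prop}

theorem blkH (hn : 1 ≤ n) (q : Q4 n) : Blk n ι q0 r (NH n q) (WH' n q) where
  sys := sys_H' n q (fun _ h => h)
  inn := fun w h => iH w h.1
  top := fun w h h' => tH w h h'.1
  J := fun _ _ hp w h => dHJ hp w h.1
  R := fun _ w h => dHR hn w h.1

theorem blkP (hn : 1 ≤ n) : Blk n ι q0 r (NP n) (WP n) where
  sys := sys_P hn (fun _ h => h)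
  inn := iP hn
  top := tP hn
  J := fun _ _ hq => dPJ hn hq
  R := fun _ => dPR hn

/-- the T-cycles and the words of the triples `{a₀, a₀ + 1}, ..` -/
def YN (n a₀ m : ℕ) : Set (Cyc (n + 2 + 5)) := {c | ∃ i, a₀ ≤ i ∧ i < a₀ + 2 * m ∧ c = yc n i}
def EU (n a₀ m : ℕ) : Set (X (n + 2 + 5)) := {w | ∃ i < m, w ∈ WE n (a₀ + 2 * i)}

theorem blkE (hn : 1 ≤ n) {a₀ m : ℕ} (hm : a₀ + 2 * m ≤ n + 4) (h0 : 1 ≤ q0 ∨ 1 ≤ a₀) :
    Blk n ι q0 r (YN n a₀ m) (EU n a₀ m) where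
  sys := sys_Cs hm (fun _ h => h)
  inn := by
    rintro w ⟨i, hi, h⟩
    exact iE hn (by omega) w h
  top := by
    rintro w hw ⟨i, hi, h⟩
    exact tE w hw h
  J := by
    rintro q hq hq' w ⟨i, hi, h⟩ h'
    exact dJE hq' (show a₀ + 2 * i ≤ n + 3 by omega) (by omega) w h' h
  R := by
    rintro _ w ⟨i, hi, h⟩
    exact dER (by omega) w h

theorem blkK (hr : ¬ r) : Blk n ι q0 r {c | c = zc n 0 ∨ c = yc n 0} (WK n) where
  sys := sys_K (fun _ h => h)
  inn := iK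
  top := tK
  J := fun _ _ hq => dKJ hq
  R := fun h => absurd h hr

theorem blkL (hn : 1 ≤ n) (hι : ¬ Bd n ι ((0 : ℕ) : ZMod (2 * (n + 3) + 1)) 0) :
    Blk n ι q0 r {c | c = hc n (qP n) ∨ c = yc n 0} (WL n) where
  sys := sys_L (fun _ h => h)
  inn := iL
  top := tL hι
  J := fun _ _ hq => dLJ hq
  R := fun _ => dLR hn

theorem blkM (hn : 1 ≤ n) (hι : ¬ Bd n ι ((2 * (n + 2) + 1 : ℕ) : ZMod (2 * (n + 3) + 1)) 0) :
    Blk n ι q0 r {c | c = hc n (qP n) ∨ c = yc n 2} (WM n) where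
  sys := sys_M (fun _ h => h)
  inn := iM
  top := tM hι
  J := fun _ _ hq => dMJ hq
  R := fun _ => dMR hn

theorem blkHr (hr : ¬ r) (he : (n + 2) % 2 = 0) (hι : ¬ Bd n ι ((2 : ℕ) : ZMod (2 * (n + 3) + 1)) (-1)) :
    Blk n ι q0 r {c | c = yc n 3 ∨ c = hc n (qR n)} (WHr n) where
  sys := sys_HLr (fun _ h => h)
  inn := iHr
  top := tHr he hι
  J := fun _ _ hq => dHrJ hq
  R := fun h => absurd h hr

theorem blkHl (hr : ¬ r) (he : (n + 2) % 2 = 0) (hι : ¬ Bd n ι ((3 : ℕ) : ZMod (2 * (n + 3) + 1)) 0) :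
    Blk n ι q0 r {c | c = yc n 3 ∨ c = hc n (qL n)} (WHl n) where
  sys := sys_HLl (fun _ h => h)
  inn := iHl
  top := tHl he hι
  J := fun _ _ hq => dHlJ hq
  R := fun h => absurd h hr

/-! ### The T-cycles are different -/

theorem pkc_NH {q : Q4 n} {c : Cyc (n + 2 + 5)} (h : c ∈ NH n q) : pkc c = 5 := by
  obtain ⟨p, rfl, -⟩ := h
  exact pkc_hc p

theorem pkc_NP (hn : 1 ≤ n) {c : Cyc (n + 2 + 5)} (h : c ∈ NP n) : pkc c = 2 ∨ (pkc c = 3 ∧ c = cyc (pC n)) := by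
  rcases h with rfl | rfl
  · left
    rw [pkc_cyc, (pB_inv hn).2]
  · right
    rw [pkc_cyc, (pC_inv n).2.1]
    exact ⟨rfl, rfl⟩

theorem pkc_YN {a₀ m : ℕ} {c : Cyc (n + 2 + 5)} (h : c ∈ YN n a₀ m) : pkc c = 4 := by
  obtain ⟨i, -, -, rfl⟩ := h
  exact pkc_yc n i

theorem nHP (hn : 1 ≤ n) {q : Q4 n} : ∀ c ∈ NH n q, c ∉ NP n := by
  intro c h h'
  have a := pkc_NH h
  rcases pkc_NP hn h' with b | b <;> omega

theorem blkHP (hn : 1 ≤ n) (q : Q4 n) : Blk n ι q0 r (NH n q ∪ NP n) (WH' n q ∪ WP n) :=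
  (blkH hn q).union (blkP hn) (nHP hn) (fun w h => dHP hn w h.1)

/-- with the triples -/
theorem blkHPE (hn : 1 ≤ n) (q : Q4 n) {a₀ m : ℕ} (hm : a₀ + 2 * m ≤ n + 4) (h0 : 1 ≤ q0 ∨ 1 ≤ a₀) :
    Blk n ι q0 r (NH n q ∪ NP n ∪ YN n a₀ m) (WH' n q ∪ WP n ∪ EU n a₀ m) := by
  refine (blkHP hn q).union (blkE hn hm h0) ?_ ?_
  · rintro c (h | h) h'
    · have a := pkc_NH h
      have b := pkc_YN h'
      omega
    · have b := pkc_YN h'
      rcases pkc_NP hn h with a | a <;> omega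
  · rintro w (h | h) ⟨i, hi, h'⟩
    · exact dHE w h.1 h'
    · exact dPE hn w h h'

/-- with two families of triples -/
theorem blkHPEE (hn : 1 ≤ n) (q : Q4 n) {a₀ m a₁ m₁ : ℕ} (hm : a₀ + 2 * m ≤ a₁) (hm₁ : a₁ + 2 * m₁ ≤ n + 4)
    (h0 : 1 ≤ q0 ∨ 1 ≤ a₀) :
    Blk n ι q0 r (NH n q ∪ NP n ∪ YN n a₀ m ∪ YN n a₁ m₁) (WH' n q ∪ WP n ∪ EU n a₀ m ∪ EU n a₁ m₁) := by
  refine (blkHPE hn q (by omega) h0).union (blkE hn hm₁ (by omega)) ?_ ?_
  · rintro c ((h | h) | h) h'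
    · have a := pkc_NH h
      have b := pkc_YN h'
      omega
    · have b := pkc_YN h'
      rcases pkc_NP hn h with a | a <;> omega
    · obtain ⟨i, i1, i2, rfl⟩ := h
      obtain ⟨j, j1, j2, h⟩ := h'
      have := yc_inj (by omega) (by omega) h
      omega
  · rintro w ((h | h) | ⟨j, hj, h⟩) ⟨i, hi, h'⟩
    · exact dHE w h.1 h'
    · exact dPE hn w h h'
    · exact WE_dis (by omega) (by omega) w h h'

/-! ### The four cases: the plain part -/

/-- `s = 0 mod 4` -/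
theorem blk0 (hn : 1 ≤ n) (hr : ¬ r) (q : Q4 n) (h4 : (n + 3) % 4 = 0) :
    Blk n ι q0 r (NH n q ∪ NP n ∪ YN n 1 ((n + 3) / 2) ∪ {c | c = zc n 0 ∨ c = yc n 0})
      (WH' n q ∪ WP n ∪ EU n 1 ((n + 3) / 2) ∪ WK n) := by
  refine (blkHPE hn q (by omega) (by omega)).union (blkK hr) ?_ ?_
  · rintro c ((h | h) | h) (h' | h')
    · have a := pkc_NH h
      rw [h', pkc_zc] at a; omega
    · have a := pkc_NH h
      rw [h', pkc_yc] at a; omega
    · rcases pkc_NP hn h with a | a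
      · rw [h', pkc_zc] at a; omega
      · exact pC_ne (a.2.symm.trans h')
    · rcases pkc_NP hn h with a | a
      · rw [h', pkc_yc] at a; omega
      · rw [h', pkc_yc] at a; omega
    · have a := pkc_YN h
      rw [h', pkc_zc] at a; omega
    · obtain ⟨i, i1, i2, h⟩ := h
      have := yc_inj (by omega) (by omega) (h.symm.trans h')
      omega
  · rintro w ((h | h) | ⟨i, hi, h⟩)
    · exact dHK w h.1
    · exact dPK hn w h
    · exact dEK (by omega) (by omega) w h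

/-- `s = 1 mod 4`: the part without the link -/
theorem blk1 (hn : 1 ≤ n) (hr : ¬ r) (q : Q4 n) (h4 : (n + 3) % 4 = 1) :
    Blk n ι q0 r (NH n q ∪ NP n ∪ YN n 1 1 ∪ YN n 4 (n / 2) ∪ {c | c = zc n 0 ∨ c = yc n 0})
      (WH' n q ∪ WP n ∪ EU n 1 1 ∪ EU n 4 (n / 2) ∪ WK n) := by
  refine (blkHPEE hn q (by omega) (by omega) (by omega)).union (blkK hr) ?_ ?_
  · rintro c (((h | h) | h) | h) (h' | h')
    · have a := pkc_NH h
      rw [h', pkc_zc] at a; omega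
    · have a := pkc_NH h
      rw [h', pkc_yc] at a; omega
    · rcases pkc_NP hn h with a | a
      · rw [h', pkc_zc] at a; omega
      · exact pC_ne (a.2.symm.trans h')
    · rcases pkc_NP hn h with a | a
      · rw [h', pkc_yc] at a; omega
      · rw [h', pkc_yc] at a; omega
    · have a := pkc_YN h
      rw [h', pkc_zc] at a; omega
    · obtain ⟨i, i1, i2, h⟩ := h
      have := yc_inj (by omega) (by omega) (h.symm.trans h')
      omega
    · have a := pkc_YN h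
      rw [h', pkc_zc] at a; omega
    · obtain ⟨i, i1, i2, h⟩ := h
      have := yc_inj (by omega) (by omega) (h.symm.trans h')
      omega
  · rintro w (((h | h) | ⟨i, hi, h⟩) | ⟨i, hi, h⟩)
    · exact dHK w h.1
    · exact dPK hn w h
    · exact dEK (by omega) (by omega) w h
    · exact dEK (by omega) (by omega) w h

theorem NH_self {q : Q4 n} (ho : (n + 3) % 4 = 1 ∨ (n + 3) % 4 = 2) : hc n q ∉ NH n q := by
  rintro ⟨p, hp, hne⟩
  exact hne ⟨hc_inj hp, ho⟩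

theorem NP_num (hn : 1 ≤ n) {c : Cyc (n + 2 + 5)} (h : c ∈ NP n) : pkc c ≤ 3 := by
  rcases pkc_NP hn h with a | a <;> omega

/-- `s = 1 mod 4` with a link -/
theorem blk1' (hn : 1 ≤ n) (hr : ¬ r) (h4 : (n + 3) % 4 = 1) {q : Q4 n} {W : Set (X (n + 2 + 5))}
    (hB : Blk n ι q0 r {c | c = yc n 3 ∨ c = hc n q} W) (hHW : ∀ w ∈ WH n q, w ∉ W) (hPW : ∀ w ∈ WP n, w ∉ W)
    (hEW : ∀ a, a + 1 ≤ n + 3 → a ≠ 2 → a ≠ 3 → ∀ w ∈ WE n a, w ∉ W) (hKW : ∀ w ∈ WK n, w ∉ W) :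
    Blk n ι q0 r (NH n q ∪ NP n ∪ YN n 1 1 ∪ YN n 4 (n / 2) ∪ {c | c = zc n 0 ∨ c = yc n 0} ∪
      {c | c = yc n 3 ∨ c = hc n q}) (WH' n q ∪ WP n ∪ EU n 1 1 ∪ EU n 4 (n / 2) ∪ WK n ∪ W) := by
  refine (blk1 hn hr q h4).union hB ?_ ?_
  · rintro c ((((h | h) | h) | h) | (h | h)) (h' | h')
    · have a := pkc_NH h
      rw [h', pkc_yc] at a; omega
    · rw [h'] at h
      exact NH_self (Or.inl h4) h
    · have a := NP_num hn h
      rw [h', pkc_yc] at a; omega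
    · have a := NP_num hn h
      rw [h', pkc_hc] at a; omega
    · obtain ⟨i, i1, i2, h⟩ := h
      have := yc_inj (by omega) (by omega) (h.symm.trans h')
      omega
    · have a := pkc_YN h
      rw [h', pkc_hc] at a; omega
    · obtain ⟨i, i1, i2, h⟩ := h
      have := yc_inj (by omega) (by omega) (h.symm.trans h')
      omega
    · have a := pkc_YN h
      rw [h', pkc_hc] at a; omega
    · have a := pkc_zc n 0
      rw [← h, h', pkc_yc] at a; omega
    · have a := pkc_zc n 0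
      rw [← h, h', pkc_hc] at a; omega
    · have := yc_inj (by omega) (by omega) (h.symm.trans h')
      omega
    · have a := pkc_yc n 0
      rw [← h, h', pkc_hc] at a; omega
  · rintro w ((((h | h) | ⟨i, hi, h⟩) | ⟨i, hi, h⟩) | h)
    · exact hHW w h.1
    · exact hPW w h
    · exact hEW _ (by omega) (by omega) (by omega) w h
    · exact hEW _ (by omega) (by omega) (by omega) w h
    · exact hKW w h

/-- `s = 2 mod 4`, LONG -/
theorem blk2L (hn : 1 ≤ n) (h4 : (n + 3) % 4 = 2) (hι : ¬ Bd n ι ((0 : ℕ) : ZMod (2 * (n + 3) + 1)) 0) :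
    Blk n ι q0 r (NH n (qP n) ∪ NP n ∪ YN n 1 ((n + 3) / 2) ∪ {c | c = hc n (qP n) ∨ c = yc n 0})
      (WH' n (qP n) ∪ WP n ∪ EU n 1 ((n + 3) / 2) ∪ WL n) := by
  refine (blkHPE hn _ (by omega) (by omega)).union (blkL hn hι) ?_ ?_
  · rintro c ((h | h) | h) (h' | h')
    · rw [h'] at h
      exact NH_self (Or.inr h4) h
    · have a := pkc_NH h
      rw [h', pkc_yc] at a; omega
    · have a := NP_num hn h
      rw [h', pkc_hc] at a; omega
    · have a := NP_num hn h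
      rw [h', pkc_yc] at a; omega
    · have a := pkc_YN h
      rw [h', pkc_hc] at a; omega
    · obtain ⟨i, i1, i2, h⟩ := h
      have := yc_inj (by omega) (by omega) (h.symm.trans h')
      omega
  · rintro w ((h | h) | ⟨i, hi, h⟩)
    · exact dHL (Or.inr h4) w h.1
    · exact dPL hn w h
    · exact dEL (by omega) (by omega) w h

/-- `s = 2 mod 4`, the second link -/
theorem blk2M (hn : 1 ≤ n) (hq : 1 ≤ q0) (h4 : (n + 3) % 4 = 2)
    (hι : ¬ Bd n ι ((2 * (n + 2) + 1 : ℕ) : ZMod (2 * (n + 3) + 1)) 0) :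
    Blk n ι q0 r (NH n (qP n) ∪ NP n ∪ YN n 0 1 ∪ YN n 3 ((n + 1) / 2) ∪ {c | c = hc n (qP n) ∨ c = yc n 2})
      (WH' n (qP n) ∪ WP n ∪ EU n 0 1 ∪ EU n 3 ((n + 1) / 2) ∪ WM n) := by
  refine (blkHPEE hn _ (by omega) (by omega) (by omega)).union (blkM hn hι) ?_ ?_
  · rintro c (((h | h) | h) | h) (h' | h')
    · rw [h'] at h
      exact NH_self (Or.inr h4) h
    · have a := pkc_NH h
      rw [h', pkc_yc] at a; omega
    · have a := NP_num hn h
      rw [h', pkc_hc] at a; omega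
    · have a := NP_num hn h
      rw [h', pkc_yc] at a; omega
    · have a := pkc_YN h
      rw [h', pkc_hc] at a; omega
    · obtain ⟨i, i1, i2, h⟩ := h
      have := yc_inj (by omega) (by omega) (h.symm.trans h')
      omega
    · have a := pkc_YN h
      rw [h', pkc_hc] at a; omega
    · obtain ⟨i, i1, i2, h⟩ := h
      have := yc_inj (by omega) (by omega) (h.symm.trans h')
      omega
  · rintro w (((h | h) | ⟨i, hi, h⟩) | ⟨i, hi, h⟩)
    · exact dHM (Or.inr h4) w h.1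
    · exact dPM hn w h
    · exact dEM hn (by omega) (by omega) (by omega) w h
    · exact dEM hn (by omega) (by omega) (by omega) w h

end T4

end Pool.OddHC
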