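import Pool.Agent.Work.MP_8f87b2_h73.T4P
import Pool.Agent.Work.MP_8f87b2_h73.T4I

/-!
MP_8f87b2_co, the layer `t = 4` (`k = n + 7`, `s = n + 3`), part Q: **the layer**.
-/

set_option autoImplicit false

namespace Pool.OddHC

open Finset BinaryTree Equiv Pool.OddHop

namespace T4

variable {n : ℕ}

/-- the T-cycles and the words of a chain -/
def ZN (n p₀ m : ℕ) : Set (Cyc (n + 2 + 5)) := {c | ∃ i, p₀ ≤ i ∧ i < p₀ + 2 * m ∧ c = zc n i}
def JU (n p₀ m : ℕ) : Set (X (n + 2 + 5)) := {w | ∃ q, p₀ - 1 ≤ q ∧ q < p₀ - 1 + 2 * m ∧ w ∈ WJ n q}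

theorem sys_ZN {p₀ m : ℕ} (hn : 1 ≤ n) (hp : 1 ≤ p₀) (hm : p₀ + 2 * m ≤ n + 2)
    {O : Set (Cyc (n + 2 + 5))} (hO : OJ n ⊆ O) (hO' : zc n (p₀ - 1) ∈ O) :
    HasSys O (ZN n p₀ m) (JU n p₀ m) (Inn n) := sys_Jchain hn hp hm hO hO'

/-- chain and last class -/
theorem sys_ZNJ {p₀ m : ℕ} (hn : 1 ≤ n) (hp : 1 ≤ p₀) (hm : p₀ + 2 * m = n + 1) (hm1 : 1 ≤ m)
    {O : Set (Cyc (n + 2 + 5))} (hO : OJ n ⊆ O) (hO' : zc n (p₀ - 1) ∈ O) :
    HasSys O (ZN n p₀ m ∪ {c | c = zc n (n + 1)}) (JU n p₀ m ∪ (WJ n (n + 1) ∪ WJ n n)) (Inn n) := by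
  have h := sys_union (sys_ZN hn hp (by omega) hO hO') (sys_JN hn (O := O ∪ ZN n p₀ m) (fun c hc => Or.inl (hO hc))
    (Or.inr ⟨n, by omega, by omega, rfl⟩)) ?_ ?_ ?_
  · rwa [Set.union_self] at h
  · rintro c ⟨i, i1, i2, rfl⟩ h'
    have := zc_inj (by omega) (by omega) h'
    omega
  · rintro w ⟨q, q1, q2, h⟩ (h' | h')
    · exact WJ_dis hn (by omega) (by omega) (by omega) w h h'
    · exact WJ_dis hn (by omega) (by omega) (by omega) w h h'
  · rintro w ⟨q, q1, q2, h⟩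
    exact WJ_inn (by omega) w h

/-- J2 over `[s](())` and a chain -/
theorem sys_RZ {m : ℕ} (hn : 1 ≤ n) (hm : 2 + 2 * m ≤ n + 2)
    {O : Set (Cyc (n + 2 + 5))} (hO : OJ n ⊆ O) (hO' : cyc (pC n) ∈ O) :
    HasSys O ({c | c = zc n 0 ∨ c = zc n 1} ∪ ZN n 2 m) (WR n ∪ JU n 2 m) (Inn n) := by
  have h := sys_union (sys_JR hn hO hO') (sys_ZN hn (p₀ := 2) (m := m) (by omega) (by omega)
    (O := O ∪ {c | c = zc n 0 ∨ c = zc n 1}) (fun c hc => Or.inl (hO hc)) (Or.inr (Or.inr rfl))) ?_ ?_ ?_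
  · rwa [Set.union_self] at h
  · rintro c (rfl | rfl) ⟨i, i1, i2, h⟩
    · have := zc_inj (by omega) (by omega) h
      omega
    · have := zc_inj (by omega) (by omega) h
      omega
  · rintro w h ⟨q, q1, q2, h'⟩
    exact dRJ (by omega) (by omega) w h h'
  · exact wr_inn hn

/-- J2 over `[s](())`, a chain and the last class -/
theorem sys_RZJ {m : ℕ} (hn : 1 ≤ n) (hm : 2 + 2 * m = n + 1) (hm1 : 1 ≤ m)
    {O : Set (Cyc (n + 2 + 5))} (hO : OJ n ⊆ O) (hO' : cyc (pC n) ∈ O) :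
    HasSys O ({c | c = zc n 0 ∨ c = zc n 1} ∪ (ZN n 2 m ∪ {c | c = zc n (n + 1)}))
      (WR n ∪ (JU n 2 m ∪ (WJ n (n + 1) ∪ WJ n n))) (Inn n) := by
  have h := sys_union (sys_JR hn hO hO') (sys_ZNJ hn (p₀ := 2) (m := m) (by omega) (by omega) hm1
    (O := O ∪ {c | c = zc n 0 ∨ c = zc n 1}) (fun c hc => Or.inl (hO hc)) (Or.inr (Or.inr rfl))) ?_ ?_ ?_
  · rwa [Set.union_self] at h
  · rintro c (rfl | rfl) (⟨i, i1, i2, h⟩ | h)
    · have := zc_inj (by omega) (by omega) h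
      omega
    · have := zc_inj (by omega) (by omega) h
      omega
    · have := zc_inj (by omega) (by omega) h
      omega
    · have := zc_inj (by omega) (by omega) h
      omega
  · rintro w h (⟨q, q1, q2, h'⟩ | h' | h')
    · exact dRJ (by omega) (by omega) w h h'
    · exact dRJ (by omega) (by omega) w h h'
    · exact dRJ (by omega) (by omega) w h h'
  · exact wr_inn hn

/-- the classes of height `n + 3` -/
theorem cls (hn : 3 ≤ n) {c : Cyc (n + 2 + 5)} (h : htc c = n + 3) :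
    c ∈ NP n ∨ (∃ i, i ≤ n + 1 ∧ c = zc n i) ∨ (∃ i, i ≤ n + 3 ∧ c = yc n i) ∨ ∃ q, c = hc n q := by
  obtain ⟨w, rfl⟩ := Quotient.exists_rep c
  change htc (cyc w) = n + 3 at h
  rw [htc_cyc] at h
  rcases class_all w h with a | ⟨a, b⟩ | a | a | a
  · left; left
    exact class_P hn w (pB n) h a (pB_inv (by omega)).1 (pB_inv (by omega)).2
  · left; right
    obtain ⟨c1, c2, c3⟩ := pC_inv n
    exact class_B (by omega) w (pC n) h a b c1 c2 c3
  · exact Or.inr (Or.inl a)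
  · exact Or.inr (Or.inr (Or.inl a))
  · exact Or.inr (Or.inr (Or.inr a))

theorem NP_ht (hn : 1 ≤ n) {c : Cyc (n + 2 + 5)} (h : c ∈ NP n) : htc c = n + 3 := by
  rcases h with rfl | rfl
  · rw [htc_cyc, (pB_inv hn).1]
  · rw [htc_cyc, (pC_inv n).1]

/-- the words of the layer are among these words -/
def WAll (n : ℕ) : Set (X (n + 2 + 5)) :=
  {w | (∃ q, w ∈ WH' n q) ∨ w ∈ WP n ∨ (∃ a, a + 1 ≤ n + 3 ∧ w ∈ WE n a) ∨ w ∈ WK n ∨ w ∈ WL n ∨ w ∈ WM n ∨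
    w ∈ WHr n ∨ w ∈ WHl n ∨ w ∈ WR n ∨ ∃ q, q ≤ n + 1 ∧ w ∈ WJ n q}

/-- **THE LAYER**: what the rest of the proof needs -/
structure Lay (n : ℕ) (ι : Q3 (n + 2) → Q3 (n + 2)) (W : Set (X (n + 2 + 5))) : Prop where
  ok : OK3 (n + 2) ι
  sys : HasSys (OT n) {c | htc c = n + 3} W (Inn n)
  top : ∀ w ∈ topW8' (n + 2) ι, w ∉ W
  inn : ∀ w ∈ W, w ∉ Inn n
  all : W ⊆ WAll n
  oX : (n + 3) % 4 ≠ 1 → oX n ∉ W

theorem oX_free {w : X (n + 2 + 5)} (h : w ∈ WAll n) (hw : w = oX n) :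
    (∃ q, w ∈ WH' n q) ∨ w ∈ WHr n ∨ w ∈ WHl n ∨ w ∈ WL n ∨ w ∈ WM n := by
  have hx := num_hc (oX_cyc n)
  rw [← hw] at hx
  rcases h with h | h | ⟨a, ha, h⟩ | h | h | h | h | h | h | ⟨q, hq, h⟩
  · exact Or.inl h
  · exfalso
    rcases h with rfl | rfl | rfl
    · have := pA_inv n; omega
    · have h2 := congrArg Subtype.val hw
      change app (pw (n + 3)) (pw 3 △ .nil) = .nil △ _ at h2
      simp [pw_succ, app_node'] at h2
    · have := pC_inv n; omega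
  · exfalso
    have := numE h
    omega
  · exfalso
    rcases numK h with a | a | a <;> omega
  · exact Or.inr (Or.inr (Or.inr (Or.inl h)))
  · exact Or.inr (Or.inr (Or.inr (Or.inr h)))
  · exact Or.inr (Or.inl h)
  · exact Or.inr (Or.inr (Or.inl h))
  · exfalso
    obtain ⟨i, hi, -, h⟩ := h
    have h2 : tr n i = .nil △ (.nil △ (.nil △ (.nil △ pw (n + 3)))) := congrArg Subtype.val (h.symm.trans hw)
    interval_cases i <;> simp [tr, pw_succ] at h2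
  · exfalso
    have := numJ hq h
    omega

theorem oX_L : oX n ∉ WL n := by
  rintro (h | h | h)
  · have h2 : .nil △ (.nil △ (.nil △ (.nil △ pw (n + 3)))) = .nil △ (.nil △ (.nil △ pw (n + 4))) :=
      congrArg Subtype.val h
    simp [pw_succ] at h2
  · have h2 : .nil △ (.nil △ (.nil △ (.nil △ pw (n + 3)))) = app (pw (n + 3)) (.nil △ (.nil △ (.nil △ (.nil △ .nil)))) :=
      congrArg Subtype.val h
    simp [pw_succ, app_node'] at h2
  · have h2 : .nil △ (.nil △ (.nil △ (.nil △ pw (n + 3)))) = (.nil △ (.nil △ (.nil △ .nil))) △ pw (n + 3) :=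
      congrArg Subtype.val h
    simp at h2

theorem oX_M : oX n ∉ WM n := by
  rintro (h | h | h)
  · have h2 : .nil △ (.nil △ (.nil △ (.nil △ pw (n + 3)))) =
        .nil △ (.nil △ (app (pw (n + 3)) (.nil △ .nil) △ .nil)) := congrArg Subtype.val h
    simp at h2
  · have h2 : .nil △ (.nil △ (.nil △ (.nil △ pw (n + 3)))) = app (pw (n + 3)) (.nil △ (.nil △ (.nil △ (.nil △ .nil)))) :=
      congrArg Subtype.val h
    simp [pw_succ, app_node'] at h2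
  · have h1 := num_hc (oX_cyc n)
    rw [h] at h1
    have h2 := num_yc (cyc_xB n 1)
    omega

/-- plain part and gadgets J -/
theorem glue {ι : Q3 (n + 2) → Q3 (n + 2)} {q0 : ℕ} {r : Prop} {NA NB : Set (Cyc (n + 2 + 5))}
    {WA WB : Set (X (n + 2 + 5))} (hι : OK3 (n + 2) ι) (hA : Blk n ι q0 r NA WA)
    (hB : HasSys (OT n ∪ NA) NB WB (Inn n)) (hn : 1 ≤ n)
    (hWB : ∀ w ∈ WB, (∃ q, q0 ≤ q ∧ q ≤ n + 1 ∧ w ∈ WJ n q) ∨ (r ∧ w ∈ WR n)) (hN : ∀ c ∈ NA, c ∉ NB)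
    (hall : ∀ c : Cyc (n + 2 + 5), c ∈ NA ∪ NB ↔ htc c = n + 3) (hW : ∀ w ∈ WA, w ∈ WAll n)
    (hoX : (n + 3) % 4 ≠ 1 → oX n ∉ WA) : Lay n ι (WA ∪ WB) where
  ok := hι
  sys := by
    have h := sys_union hA.sys hB hN (by
      intro w hw hw'
      rcases hWB w hw' with ⟨q, q1, q2, h⟩ | ⟨hr, h⟩
      · exact hA.J q q1 q2 w hw h
      · exact hA.R hr w hw h) hA.inn
    have e : NA ∪ NB = {c | htc c = n + 3} := by
      ext c
      exact hall c
    rw [e, Set.empty_union] at h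
    exact h
  top := by
    rintro w hw (h | h)
    · exact hA.top w hw h
    · rcases hWB w h with ⟨q, q1, q2, h⟩ | ⟨hr, h⟩
      · exact tJ q2 w hw h
      · exact tR hn w hw h
  inn := by
    rintro w (h | h)
    · exact hA.inn w h
    · rcases hWB w h with ⟨q, q1, q2, h⟩ | ⟨hr, h⟩
      · exact WJ_inn q2 w h
      · exact wr_inn hn w h
  all := by
    rintro w (h | h)
    · exact hW w h
    · rcases hWB w h with ⟨q, q1, q2, h⟩ | ⟨hr, h⟩
      · exact Or.inr (Or.inr (Or.inr (Or.inr (Or.inr (Or.inr (Or.inr (Or.inr (Or.inr ⟨q, q2, h⟩))))))))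
      · exact Or.inr (Or.inr (Or.inr (Or.inr (Or.inr (Or.inr (Or.inr (Or.inr (Or.inl h))))))))
  oX := by
    rintro h4 (h | h)
    · exact hoX h4 h
    · have h1 := num_hc (oX_cyc n)
      rcases hWB _ h with ⟨q, q1, q2, h⟩ | ⟨hr, h⟩
      · have := numJ q2 h
        omega
      · have := numR hn h
        omega

end T4

end Pool.OddHC
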