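import Pool.Agent.Work.MP_8f87b2_h73.T4Q

/-!
MP_8f87b2_co, the layer `t = 4` (`k = n + 7`, `s = n + 3`), part R: **the layer exists**.
-/

set_option autoImplicit false

namespace Pool.OddHC

open Finset BinaryTree Equiv Pool.OddHop

namespace T4

variable {n : ℕ}

theorem oX_P : oX n ∉ WP n := by
  intro h
  have hx := num_hc (oX_cyc n)
  rcases h with h | h | h
  · have := pA_inv n
    rw [← h] at this
    omega
  · have h2 : .nil △ (.nil △ (.nil △ (.nil △ pw (n + 3)))) = app (pw (n + 3)) (pw 3 △ .nil) := congrArg Subtype.val h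
    simp [pw_succ, app_node'] at h2
  · have := pC_inv n
    rw [← h] at this
    omega

theorem oX_E {a : ℕ} : oX n ∉ WE n a := by
  intro h
  have hx := num_hc (oX_cyc n)
  have := numE h
  omega

theorem oX_EU {a m : ℕ} : oX n ∉ EU n a m := by
  rintro ⟨i, -, h⟩
  exact oX_E h

theorem oX_K : oX n ∉ WK n := by
  intro h
  have hx := num_hc (oX_cyc n)
  rcases numK h with a | a | a <;> omega

theorem OJ_sub (hn : 3 ≤ n) {NA : Set (Cyc (n + 2 + 5))} (h : ∀ i, i ≤ n + 3 → yc n i ∈ NA) :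
    OJ n ⊆ OT n ∪ NA := by
  rintro c (hc | ⟨h1, h2⟩)
  · exact Or.inl hc
  · right
    rcases cls hn h1 with a | ⟨i, hi, rfl⟩ | ⟨i, hi, rfl⟩ | ⟨q, rfl⟩
    · have := NP_num (by omega) a
      omega
    · rw [pkc_zc] at h2
      omega
    · exact h i hi
    · rw [pkc_hc] at h2
      omega

theorem hc_NH (q q0 : Q4 n) : hc n q ∈ NH n q0 ∨ (q = q0 ∧ ((n + 3) % 4 = 1 ∨ (n + 3) % 4 = 2)) := by
  by_cases h : q = q0 ∧ ((n + 3) % 4 = 1 ∨ (n + 3) % 4 = 2)
  · exact Or.inr h
  · exact Or.inl ⟨q, rfl, h⟩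

theorem NH_ht {q : Q4 n} {c : Cyc (n + 2 + 5)} (h : c ∈ NH n q) : htc c = n + 3 := by
  obtain ⟨p, rfl, -⟩ := h
  exact htc_hc p

theorem YN_ht {a m : ℕ} {c : Cyc (n + 2 + 5)} (h : c ∈ YN n a m) : htc c = n + 3 := by
  obtain ⟨i, -, -, rfl⟩ := h
  exact htc_yc n i

theorem ZN_ht {a m : ℕ} {c : Cyc (n + 2 + 5)} (h : c ∈ ZN n a m) : htc c = n + 3 := by
  obtain ⟨i, -, -, rfl⟩ := h
  exact htc_zc n i

theorem ZN_not {a m i : ℕ} (ha : a + 2 * m ≤ n + 2) (hi : i < a) : zc n i ∉ ZN n a m := by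
  rintro ⟨j, j1, j2, h⟩
  have := zc_inj (by omega) (by omega) h
  omega

theorem pkc_ZN {a m : ℕ} {c : Cyc (n + 2 + 5)} (h : c ∈ ZN n a m) : pkc c = 3 := by
  obtain ⟨i, -, -, rfl⟩ := h
  exact pkc_zc n i

/-! ### Membership in the whole set -/

theorem aH {q : Q4 n} : ∀ w ∈ WH' n q, w ∈ WAll n := fun _ h => Or.inl ⟨q, h⟩
theorem aP : ∀ w ∈ WP n, w ∈ WAll n := fun _ h => Or.inr (Or.inl h)
theorem aE {a m : ℕ} (hm : a + 2 * m ≤ n + 4) : ∀ w ∈ EU n a m, w ∈ WAll n := by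
  rintro w ⟨i, hi, h⟩
  exact Or.inr (Or.inr (Or.inl ⟨_, by omega, h⟩))
theorem aK : ∀ w ∈ WK n, w ∈ WAll n := fun _ h => Or.inr (Or.inr (Or.inr (Or.inl h)))
theorem aL : ∀ w ∈ WL n, w ∈ WAll n := fun _ h => Or.inr (Or.inr (Or.inr (Or.inr (Or.inl h))))
theorem aM : ∀ w ∈ WM n, w ∈ WAll n := fun _ h => Or.inr (Or.inr (Or.inr (Or.inr (Or.inr (Or.inl h)))))
theorem aHr : ∀ w ∈ WHr n, w ∈ WAll n := fun _ h =>
  Or.inr (Or.inr (Or.inr (Or.inr (Or.inr (Or.inr (Or.inl h))))))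
theorem aHl : ∀ w ∈ WHl n, w ∈ WAll n := fun _ h =>
  Or.inr (Or.inr (Or.inr (Or.inr (Or.inr (Or.inr (Or.inr (Or.inl h)))))))

/-! ### The four cases -/

theorem lay0 (hn : 3 ≤ n) (h4 : (n + 3) % 4 = 0) {ι : Q3 (n + 2) → Q3 (n + 2)} (hι : OK3 (n + 2) ι) :
    ∃ W, Lay n ι W := by
  have hA := blk0 (ι := ι) (q0 := 0) (r := False) (by omega) (fun h => h) (qP n) h4
  have hY : ∀ i, i ≤ n + 3 → yc n i ∈ NH n (qP n) ∪ NP n ∪ YN n 1 ((n + 3) / 2) ∪ {c | c = zc n 0 ∨ c = yc n 0} := by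
    intro i hi
    rcases Nat.eq_zero_or_pos i with rfl | h0
    · exact Or.inr (Or.inr rfl)
    · exact Or.inl (Or.inr ⟨i, h0, by omega, rfl⟩)
  refine ⟨_, glue hι hA (sys_ZN (p₀ := 1) (m := (n + 1) / 2) (by omega) le_rfl (by omega) (OJ_sub hn hY)
    (Or.inr (Or.inr (Or.inl rfl)))) (by omega) ?_ ?_ ?_ ?_ ?_⟩
  · rintro w ⟨q, q1, q2, h⟩
    exact Or.inl ⟨q, by omega, by omega, h⟩
  · rintro c (((h | h) | h) | (h | h)) h'
    · have a := pkc_NH h
      have b := pkc_ZN h'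
      omega
    · obtain ⟨j, j1, j2, h'⟩ := h'
      rcases pkc_NP (by omega) h with a | a
      · rw [h', pkc_zc] at a; omega
      · exact pC_ne (a.2.symm.trans h')
    · have a := pkc_YN h
      have b := pkc_ZN h'
      omega
    · rw [h] at h'
      exact ZN_not (by omega) (by omega) h'
    · have b := pkc_ZN h'
      rw [h, pkc_yc] at b
      omega
  · intro c
    constructor
    · rintro ((((h | h) | h) | (h | h)) | h)
      · exact NH_ht h
      · exact NP_ht (by omega) h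
      · exact YN_ht h
      · rw [h, htc_zc]
      · rw [h, htc_yc]
      · exact ZN_ht h
    · intro h
      rcases cls hn h with a | ⟨i, hi, rfl⟩ | ⟨i, hi, rfl⟩ | ⟨q, rfl⟩
      · exact Or.inl (Or.inl (Or.inl (Or.inr a)))
      · rcases Nat.eq_zero_or_pos i with rfl | h0
        · exact Or.inl (Or.inr (Or.inl rfl))
        · exact Or.inr ⟨i, h0, by omega, rfl⟩
      · exact Or.inl (hY i hi)
      · rcases hc_NH q (qP n) with a | a
        · exact Or.inl (Or.inl (Or.inl (Or.inl a)))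
        · omega
  · rintro w (((h | h) | h) | h)
    · exact aH w h
    · exact aP w h
    · exact aE (by omega) w h
    · exact aK w h
  · rintro h1 (((h | h) | h) | h)
    · have := h.2.1 rfl
      omega
    · exact oX_P h
    · exact oX_EU h
    · exact oX_K h

theorem lay1 (hn : 3 ≤ n) (h4 : (n + 3) % 4 = 1) {ι : Q3 (n + 2) → Q3 (n + 2)} (hι : OK3 (n + 2) ι)
    {q : Q4 n} {W : Set (X (n + 2 + 5))}
    (hB : Blk n ι 0 False {c | c = yc n 3 ∨ c = hc n q} W) (hHW : ∀ w ∈ WH n q, w ∉ W) (hPW : ∀ w ∈ WP n, w ∉ W)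
    (hEW : ∀ a, a + 1 ≤ n + 3 → a ≠ 2 → a ≠ 3 → ∀ w ∈ WE n a, w ∉ W) (hKW : ∀ w ∈ WK n, w ∉ W)
    (hall : ∀ w ∈ W, w ∈ WAll n) : ∃ W, Lay n ι W := by
  have hA := blk1' (by omega) (fun h => h) h4 hB hHW hPW hEW hKW
  have hY : ∀ i, i ≤ n + 3 → yc n i ∈ NH n q ∪ NP n ∪ YN n 1 1 ∪ YN n 4 (n / 2) ∪ {c | c = zc n 0 ∨ c = yc n 0} ∪
      {c | c = yc n 3 ∨ c = hc n q} := by
    intro i hi
    rcases (by omega : i = 0 ∨ i = 3 ∨ (1 ≤ i ∧ i < 3) ∨ 4 ≤ i) with rfl | rfl | h0 | h0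
    · exact Or.inl (Or.inr (Or.inr rfl))
    · exact Or.inr (Or.inl rfl)
    · exact Or.inl (Or.inl (Or.inl (Or.inr ⟨i, h0.1, by omega, rfl⟩)))
    · exact Or.inl (Or.inl (Or.inr ⟨i, h0, by omega, rfl⟩))
  refine ⟨_, glue hι hA (sys_ZNJ (p₀ := 1) (m := n / 2) (by omega) le_rfl (by omega) (by omega) (OJ_sub hn hY)
    (Or.inr (Or.inl (Or.inr (Or.inl rfl))))) (by omega) ?_ ?_ ?_ ?_ ?_⟩
  · rintro w (⟨q, q1, q2, h⟩ | h | h)
    · exact Or.inl ⟨q, by omega, by omega, h⟩
    · exact Or.inl ⟨n + 1, by omega, by omega, h⟩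
    · exact Or.inl ⟨n, by omega, by omega, h⟩
  · have hz : ∀ c, c ∈ ZN n 1 (n / 2) ∪ {c | c = zc n (n + 1)} → ∃ j, 1 ≤ j ∧ j ≤ n + 1 ∧ c = zc n j := by
      rintro c (⟨j, j1, j2, h⟩ | h)
      · exact ⟨j, j1, by omega, h⟩
      · exact ⟨n + 1, by omega, le_rfl, h⟩
    intro c h h'
    obtain ⟨j, j1, j2, rfl⟩ := hz c h'
    rcases h with ((((h | h) | h) | h) | (h | h)) | (h | h)
    · have a := pkc_NH h
      rw [pkc_zc] at a; omega
    · rcases pkc_NP (by omega) h with a | a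
      · rw [pkc_zc] at a; omega
      · exact pC_ne a.2.symm
    · have a := pkc_YN h
      rw [pkc_zc] at a; omega
    · have a := pkc_YN h
      rw [pkc_zc] at a; omega
    · have := zc_inj (by omega) (by omega) h
      omega
    · have a := pkc_zc n j
      rw [h, pkc_yc] at a; omega
    · have a := pkc_zc n j
      rw [h, pkc_yc] at a; omega
    · have a := pkc_zc n j
      rw [h, pkc_hc] at a; omega
  · intro c
    constructor
    · rintro ((((((h | h) | h) | h) | (h | h)) | (h | h)) | (h | h))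
      · exact NH_ht h
      · exact NP_ht (by omega) h
      · exact YN_ht h
      · exact YN_ht h
      · rw [h, htc_zc]
      · rw [h, htc_yc]
      · rw [h, htc_yc]
      · rw [h, htc_hc]
      · exact ZN_ht h
      · have h' : c = zc n (n + 1) := h
        rw [h', htc_zc]
    · intro h
      rcases cls hn h with a | ⟨i, hi, rfl⟩ | ⟨i, hi, rfl⟩ | ⟨p, rfl⟩
      · exact Or.inl (Or.inl (Or.inl (Or.inl (Or.inl (Or.inr a)))))
      · rcases (by omega : i = 0 ∨ i = n + 1 ∨ (1 ≤ i ∧ i < n + 1)) with rfl | rfl | h0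
        · exact Or.inl (Or.inl (Or.inr (Or.inl rfl)))
        · exact Or.inr (Or.inr rfl)
        · exact Or.inr (Or.inl ⟨i, h0.1, by omega, rfl⟩)
      · exact Or.inl (hY i hi)
      · rcases hc_NH p q with a | a
        · exact Or.inl (Or.inl (Or.inl (Or.inl (Or.inl (Or.inl a)))))
        · exact Or.inl (Or.inr (Or.inr (by rw [a.1])))
  · rintro w (((((h | h) | h) | h) | h) | h)
    · exact aH w h
    · exact aP w h
    · exact aE (by omega) w h
    · exact aE (by omega) w h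
    · exact aK w h
    · exact hall w h
  · intro h1
    omega

theorem lay2L (hn : 3 ≤ n) (h4 : (n + 3) % 4 = 2) {ι : Q3 (n + 2) → Q3 (n + 2)} (hι : OK3 (n + 2) ι)
    (hb : ¬ Bd n ι ((0 : ℕ) : ZMod (2 * (n + 3) + 1)) 0) : ∃ W, Lay n ι W := by
  have hA := blk2L (q0 := 1) (r := True) (by omega) h4 hb
  have hY : ∀ i, i ≤ n + 3 → yc n i ∈ NH n (qP n) ∪ NP n ∪ YN n 1 ((n + 3) / 2) ∪
      {c | c = hc n (qP n) ∨ c = yc n 0} := by
    intro i hi
    rcases Nat.eq_zero_or_pos i with rfl | h0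
    · exact Or.inr (Or.inr rfl)
    · exact Or.inl (Or.inr ⟨i, h0, by omega, rfl⟩)
  refine ⟨_, glue hι hA (sys_RZJ (m := (n - 1) / 2) (by omega) (by omega) (by omega) (OJ_sub hn hY)
    (Or.inr (Or.inl (Or.inl (Or.inr (Or.inr rfl)))))) (by omega) ?_ ?_ ?_ ?_ ?_⟩
  · rintro w (h | ⟨q, q1, q2, h⟩ | h | h)
    · exact Or.inr ⟨trivial, h⟩
    · exact Or.inl ⟨q, by omega, by omega, h⟩
    · exact Or.inl ⟨n + 1, by omega, by omega, h⟩
    · exact Or.inl ⟨n, by omega, by omega, h⟩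
  · have hz : ∀ c, c ∈ {c | c = zc n 0 ∨ c = zc n 1} ∪ (ZN n 2 ((n - 1) / 2) ∪ {c | c = zc n (n + 1)}) →
        ∃ j, j ≤ n + 1 ∧ c = zc n j := by
      rintro c ((h | h) | (⟨j, j1, j2, h⟩ | h))
      · exact ⟨0, by omega, h⟩
      · exact ⟨1, by omega, h⟩
      · exact ⟨j, by omega, h⟩
      · exact ⟨n + 1, le_rfl, h⟩
    intro c h h'
    obtain ⟨j, j2, rfl⟩ := hz c h'
    rcases h with ((h | h) | h) | (h | h)
    · have a := pkc_NH h
      rw [pkc_zc] at a; omega
    · rcases pkc_NP (by omega) h with a | a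
      · rw [pkc_zc] at a; omega
      · exact pC_ne a.2.symm
    · have a := pkc_YN h
      rw [pkc_zc] at a; omega
    · have a := pkc_zc n j
      rw [h, pkc_hc] at a; omega
    · have a := pkc_zc n j
      rw [h, pkc_yc] at a; omega
  · intro c
    constructor
    · rintro ((((h | h) | h) | (h | h)) | ((h | h) | (h | h)))
      · exact NH_ht h
      · exact NP_ht (by omega) h
      · exact YN_ht h
      · rw [h, htc_hc]
      · rw [h, htc_yc]
      · rw [h, htc_zc]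
      · rw [h, htc_zc]
      · exact ZN_ht h
      · have h' : c = zc n (n + 1) := h
        rw [h', htc_zc]
    · intro h
      rcases cls hn h with a | ⟨i, hi, rfl⟩ | ⟨i, hi, rfl⟩ | ⟨q, rfl⟩
      · exact Or.inl (Or.inl (Or.inl (Or.inr a)))
      · rcases (by omega : i = 0 ∨ i = 1 ∨ i = n + 1 ∨ (2 ≤ i ∧ i < n + 1)) with rfl | rfl | rfl | h0
        · exact Or.inr (Or.inl (Or.inl rfl))
        · exact Or.inr (Or.inl (Or.inr rfl))
        · exact Or.inr (Or.inr (Or.inr rfl))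
        · exact Or.inr (Or.inr (Or.inl ⟨i, h0.1, by omega, rfl⟩))
      · exact Or.inl (hY i hi)
      · rcases hc_NH q (qP n) with a | a
        · exact Or.inl (Or.inl (Or.inl (Or.inl a)))
        · exact Or.inl (Or.inr (Or.inl (by rw [a.1])))
  · rintro w (((h | h) | h) | h)
    · exact aH w h
    · exact aP w h
    · exact aE (by omega) w h
    · exact aL w h
  · rintro h1 (((h | h) | h) | h)
    · exact oX_odd (Or.inr h4) h.1
    · exact oX_P h
    · exact oX_EU h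
    · exact oX_L h

theorem lay2M (hn : 3 ≤ n) (h4 : (n + 3) % 4 = 2) {ι : Q3 (n + 2) → Q3 (n + 2)} (hι : OK3 (n + 2) ι)
    (hb : ¬ Bd n ι ((2 * (n + 2) + 1 : ℕ) : ZMod (2 * (n + 3) + 1)) 0) : ∃ W, Lay n ι W := by
  have hA := blk2M (q0 := 1) (r := True) (by omega) le_rfl h4 hb
  have hY : ∀ i, i ≤ n + 3 → yc n i ∈ NH n (qP n) ∪ NP n ∪ YN n 0 1 ∪ YN n 3 ((n + 1) / 2) ∪
      {c | c = hc n (qP n) ∨ c = yc n 2} := by
    intro i hi
    rcases (by omega : i = 2 ∨ i < 2 ∨ 3 ≤ i) with rfl | h0 | h0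
    · exact Or.inr (Or.inr rfl)
    · exact Or.inl (Or.inl (Or.inr ⟨i, by omega, by omega, rfl⟩))
    · exact Or.inl (Or.inr ⟨i, h0, by omega, rfl⟩)
  refine ⟨_, glue hι hA (sys_RZJ (m := (n - 1) / 2) (by omega) (by omega) (by omega) (OJ_sub hn hY)
    (Or.inr (Or.inl (Or.inl (Or.inl (Or.inr (Or.inr rfl))))))) (by omega) ?_ ?_ ?_ ?_ ?_⟩
  · rintro w (h | ⟨q, q1, q2, h⟩ | h | h)
    · exact Or.inr ⟨trivial, h⟩
    · exact Or.inl ⟨q, by omega, by omega, h⟩
    · exact Or.inl ⟨n + 1, by omega, by omega, h⟩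
    · exact Or.inl ⟨n, by omega, by omega, h⟩
  · have hz : ∀ c, c ∈ {c | c = zc n 0 ∨ c = zc n 1} ∪ (ZN n 2 ((n - 1) / 2) ∪ {c | c = zc n (n + 1)}) →
        ∃ j, j ≤ n + 1 ∧ c = zc n j := by
      rintro c ((h | h) | (⟨j, j1, j2, h⟩ | h))
      · exact ⟨0, by omega, h⟩
      · exact ⟨1, by omega, h⟩
      · exact ⟨j, by omega, h⟩
      · exact ⟨n + 1, le_rfl, h⟩
    intro c h h'
    obtain ⟨j, j2, rfl⟩ := hz c h'
    rcases h with (((h | h) | h) | h) | (h | h)
    · have a := pkc_NH h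
      rw [pkc_zc] at a; omega
    · rcases pkc_NP (by omega) h with a | a
      · rw [pkc_zc] at a; omega
      · exact pC_ne a.2.symm
    · have a := pkc_YN h
      rw [pkc_zc] at a; omega
    · have a := pkc_YN h
      rw [pkc_zc] at a; omega
    · have a := pkc_zc n j
      rw [h, pkc_hc] at a; omega
    · have a := pkc_zc n j
      rw [h, pkc_yc] at a; omega
  · intro c
    constructor
    · rintro (((((h | h) | h) | h) | (h | h)) | ((h | h) | (h | h)))
      · exact NH_ht h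
      · exact NP_ht (by omega) h
      · exact YN_ht h
      · exact YN_ht h
      · rw [h, htc_hc]
      · rw [h, htc_yc]
      · rw [h, htc_zc]
      · rw [h, htc_zc]
      · exact ZN_ht h
      · have h' : c = zc n (n + 1) := h
        rw [h', htc_zc]
    · intro h
      rcases cls hn h with a | ⟨i, hi, rfl⟩ | ⟨i, hi, rfl⟩ | ⟨q, rfl⟩
      · exact Or.inl (Or.inl (Or.inl (Or.inl (Or.inr a))))
      · rcases (by omega : i = 0 ∨ i = 1 ∨ i = n + 1 ∨ (2 ≤ i ∧ i < n + 1)) with rfl | rfl | rfl | h0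
        · exact Or.inr (Or.inl (Or.inl rfl))
        · exact Or.inr (Or.inl (Or.inr rfl))
        · exact Or.inr (Or.inr (Or.inr rfl))
        · exact Or.inr (Or.inr (Or.inl ⟨i, h0.1, by omega, rfl⟩))
      · exact Or.inl (hY i hi)
      · rcases hc_NH q (qP n) with a | a
        · exact Or.inl (Or.inl (Or.inl (Or.inl (Or.inl a))))
        · exact Or.inl (Or.inr (Or.inl (by rw [a.1])))
  · rintro w ((((h | h) | h) | h) | h)
    · exact aH w h
    · exact aP w h
    · exact aE (by omega) w h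
    · exact aE (by omega) w h
    · exact aM w h
  · rintro h1 ((((h | h) | h) | h) | h)
    · exact oX_odd (Or.inr h4) h.1
    · exact oX_P h
    · exact oX_EU h
    · exact oX_EU h
    · exact oX_M h

theorem lay3 (hn : 3 ≤ n) (h4 : (n + 3) % 4 = 3) {ι : Q3 (n + 2) → Q3 (n + 2)} (hι : OK3 (n + 2) ι) :
    ∃ W, Lay n ι W := by
  have hA := blkHPE (ι := ι) (q0 := 1) (r := True) (by omega) (qP n) (a₀ := 0) (m := (n + 4) / 2) (by omega)
    (by omega)
  have hY : ∀ i, i ≤ n + 3 → yc n i ∈ NH n (qP n) ∪ NP n ∪ YN n 0 ((n + 4) / 2) := by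
    intro i hi
    exact Or.inr ⟨i, by omega, by omega, rfl⟩
  refine ⟨_, glue hι hA (sys_RZ (m := n / 2) (by omega) (by omega) (OJ_sub hn hY)
    (Or.inr (Or.inl (Or.inr (Or.inr rfl))))) (by omega) ?_ ?_ ?_ ?_ ?_⟩
  · rintro w (h | ⟨q, q1, q2, h⟩)
    · exact Or.inr ⟨trivial, h⟩
    · exact Or.inl ⟨q, by omega, by omega, h⟩
  · have hz : ∀ c, c ∈ {c | c = zc n 0 ∨ c = zc n 1} ∪ ZN n 2 (n / 2) → ∃ j, j ≤ n + 1 ∧ c = zc n j := by
      rintro c ((h | h) | ⟨j, j1, j2, h⟩)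
      · exact ⟨0, by omega, h⟩
      · exact ⟨1, by omega, h⟩
      · exact ⟨j, by omega, h⟩
    intro c h h'
    obtain ⟨j, j2, rfl⟩ := hz c h'
    rcases h with (h | h) | h
    · have a := pkc_NH h
      rw [pkc_zc] at a; omega
    · rcases pkc_NP (by omega) h with a | a
      · rw [pkc_zc] at a; omega
      · exact pC_ne a.2.symm
    · have a := pkc_YN h
      rw [pkc_zc] at a; omega
  · intro c
    constructor
    · rintro (((h | h) | h) | ((h | h) | h))
      · exact NH_ht h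
      · exact NP_ht (by omega) h
      · exact YN_ht h
      · rw [h, htc_zc]
      · rw [h, htc_zc]
      · exact ZN_ht h
    · intro h
      rcases cls hn h with a | ⟨i, hi, rfl⟩ | ⟨i, hi, rfl⟩ | ⟨q, rfl⟩
      · exact Or.inl (Or.inl (Or.inr a))
      · rcases (by omega : i = 0 ∨ i = 1 ∨ (2 ≤ i ∧ i < n + 2)) with rfl | rfl | h0
        · exact Or.inr (Or.inl (Or.inl rfl))
        · exact Or.inr (Or.inl (Or.inr rfl))
        · exact Or.inr (Or.inr ⟨i, h0.1, by omega, rfl⟩)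
      · exact Or.inl (hY i hi)
      · rcases hc_NH q (qP n) with a | a
        · exact Or.inl (Or.inl (Or.inl a))
        · omega
  · rintro w ((h | h) | h)
    · exact aH w h
    · exact aP w h
    · exact aE (by omega) w h
  · rintro h1 ((h | h) | h)
    · have := h.2.1 rfl
      omega
    · exact oX_P h
    · exact oX_EU h

/-- **THE LAYER `t = 4`** -/
theorem exists_layer (hn : 3 ≤ n) : ∃ (ι : Q3 (n + 2) → Q3 (n + 2)) (W : Set (X (n + 2 + 5))), Lay n ι W := by
  rcases (by omega : (n + 3) % 4 = 0 ∨ (n + 3) % 4 = 1 ∨ (n + 3) % 4 = 2 ∨ (n + 3) % 4 = 3) with h4 | h4 | h4 | h4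
  · obtain ⟨ι, hι⟩ := exists_OK3 (n + 2)
    exact ⟨ι, lay0 hn h4 hι⟩
  · obtain ⟨ι, hι⟩ := exists_OK3 (n + 2)
    refine ⟨ι, ?_⟩
    rcases choose_H hι with h | h
    · exact lay1 hn h4 hι (blkHr (fun h => h) (by omega) h) (dHHr (Or.inl h4)) (dPHr (by omega))
        (fun a a1 a2 a3 => dEHr a1 a2 a3) (by
          intro w h h'
          rcases numK h with a | a | ⟨-, -, a⟩ <;> rcases numHr h' with b | b | ⟨-, -, b⟩
          · omega
          · omega
          · have := num_yc b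
            omega
          · omega
          · omega
          · have := num_yc b
            omega
          · have := num_yc a
            omega
          · have := num_yc a
            omega
          · have := yc_inj (by omega) (by omega) (a.symm.trans b)
            omega) aHr
    · exact lay1 hn h4 hι (blkHl (fun h => h) (by omega) h) (dHHl (Or.inl h4)) (dPHl (by omega))
        (fun a a1 a2 a3 => dEHl a1 a2 a3) (by
          intro w h h'
          rcases numK h with a | a | ⟨-, -, a⟩ <;> rcases numHl h' with b | b | ⟨-, -, b⟩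
          · omega
          · omega
          · have := num_yc b
            omega
          · omega
          · omega
          · have := num_yc b
            omega
          · have := num_yc a
            omega
          · have := num_yc a
            omega
          · have := yc_inj (by omega) (by omega) (a.symm.trans b)
            omega) aHl
  · obtain ⟨ι, hι, h | h⟩ := choose_L n
    · exact ⟨ι, lay2L hn h4 hι h⟩
    · exact ⟨ι, lay2M hn h4 hι h⟩
  · obtain ⟨ι, hι⟩ := exists_OK3 (n + 2)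
    exact ⟨ι, lay3 hn h4 hι⟩

end T4

end Pool.OddHC
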