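import Pool.Agent.Work.MP_8f87b2_h73.T4R

/-!
MP_8f87b2_co, the layer `t = 4` (`k = n + 7`, `s = n + 3`), part S: the frame of the proof with this layer.
-/

set_option autoImplicit false

namespace Pool.OddHC

open Finset BinaryTree Equiv Pool.OddHop

namespace T4

variable {n : ℕ}

theorem WAll_ht (hn : 1 ≤ n) {w : X (n + 2 + 5)} (h : w ∈ WAll n) : n + 3 ≤ ht w.1 := by
  rcases h with ⟨q, h⟩ | h | ⟨a, ha, h⟩ | h | h | h | h | h | h | ⟨q, hq, h⟩
  · have := numH h.1; omega
  · rcases numP hn h with a | a | a <;> omega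
  · have := numE h; omega
  · rcases numK h with a | a | a <;> omega
  · rcases numL h with a | a | a <;> omega
  · rcases numM h with a | a | a <;> omega
  · rcases numHr h with a | a | a <;> omega
  · rcases numHl h with a | a | a <;> omega
  · have := numR hn h; omega
  · have := numJ hq h; omega

/-- **THE FRAME with the layer `t = 4`**: `k = n + 7`; the middle are the T-cycles of the heights `3, .., k - 5` -/
theorem ham_of_middle4 (hn : 3 ≤ n) (s : Bool) {ι : Q3 (n + 2) → Q3 (n + 2)} {W4 : Set (X (n + 2 + 5))}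
    (h4 : Lay n ι W4) {W I : Set (X (n + 2 + 5))}
    (h : HasSys {c : Cyc (n + 2 + 5) | n + 3 ≤ htc c} {c | 3 ≤ htc c ∧ htc c < n + 3} W I)
    (hT : ∀ w ∈ topW8' (n + 2) ι, w ∉ W) (hTI : ∀ w ∈ topW8' (n + 2) ι, w ∉ I)
    (h4W : ∀ w ∈ W4, w ∉ W) (h4I : ∀ w ∈ W4, w ∉ I)
    (hB : ∀ w ∈ W, w ∉ botW (n + 2 + 5) s) :
    2 * (n + 2 + 5) + 1 ∈ Pool.Agent.Work.MP_8f87b2_co.compressionSet
      (Pool.Agent.Work.MP_8f87b2_co.oddGraph (n + 2 + 5)) := by
  have h1 := sys_union h4.sys (h.mono_old (O' := OT n ∪ {c | htc c = n + 3}) (by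
    intro c hc
    change n + 3 ≤ htc c at hc
    by_cases h2 : htc c = n + 3
    · exact Or.inr h2
    · exact Or.inl (by change n + 4 ≤ htc c; omega))) (by
    intro c hc hc'
    change htc c = n + 3 at hc
    have := hc'.2
    omega) h4W h4I
  have e : {c : Cyc (n + 2 + 5) | htc c = n + 3} ∪ {c | 3 ≤ htc c ∧ htc c < n + 3} =
      {c | 3 ≤ htc c ∧ htc c < n + 2 + 2} := by
    ext c
    constructor
    · rintro (hc | hc)
      · change htc c = n + 3 at hc
        exact ⟨by omega, by omega⟩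
      · exact ⟨hc.1, by have := hc.2; omega⟩
    · rintro ⟨hc1, hc2⟩
      by_cases h2 : htc c = n + 3
      · exact Or.inl h2
      · exact Or.inr ⟨hc1, by omega⟩
  rw [e] at h1
  refine ham_of_middle' (d := n + 2) (by omega) s h4.ok h1 ?_ ?_ ?_
  · rintro w hw (h2 | h2)
    · exact h4.top w hw h2
    · exact hT w hw h2
  · rintro w hw (h2 | h2)
    · exact tI w hw h2
    · exact hTI w hw h2
  · rintro w (h2 | h2)
    · intro h3
      have h5 := botW_ht h3
      have h6 := WAll_ht (by omega) (h4.all h2)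
      omega
    · exact hB w h2

end T4

end Pool.OddHC
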