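import Pool.Agent.Work.MP_8f87b2_h73.T4M
import Pool.Agent.Work.MP_8f87b2_base.Gad9

/-!
MP_8f87b2_co, the layer `t = 4` (`k = n + 7`, `s = n + 3`), part V: **the nine word gadget over `[s](())`** covers the distances
`0` and `1` with nine of the words of the gadget J2.
-/

set_option autoImplicit false

namespace Pool.OddHC

open Finset BinaryTree Equiv

namespace T4

/-- the nine words among the words of J2 -/
def i9 : ℕ → ℕ
  | 0 => 0
  | 1 => 4
  | 2 => 7
  | 3 => 9
  | 4 => 3
  | 5 => 6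
  | 6 => 17
  | 7 => 12
  | _ => 15

def v9 (n i : ℕ) : X (n + 2 + 5) := wr n (i9 i)

/-- the words -/
def WR9 (n : ℕ) : Set (X (n + 2 + 5)) := {w | ∃ i < 9, w = v9 n i}

theorem i9_lt {i : ℕ} (hi : i < 9) : i9 i < 20 ∧ i9 i ≠ 5 ∧ i9 i ≠ 10 ∧ i9 i ≠ 16 ∧ i9 i ≠ 18 ∧ i9 i ≠ 19 := by
  interval_cases i <;> simp [i9]

theorem WR9_sub (n : ℕ) : WR9 n ⊆ WR n := by
  rintro w ⟨i, hi, rfl⟩
  exact ⟨i9 i, (i9_lt hi).1, (i9_lt hi).2.1, rfl⟩

/-- the inner word of the thread `9 → 17` -/
def W9 (n : ℕ) : List Bool :=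
  List.replicate (n + 3) true ++ ([false, false, true, true, true, true] ++ List.replicate (n + 5) false)

/-- the inner words -/
def Inn9 (n : ℕ) : Set (X (n + 2 + 5)) := {w | w ∈ Inn n ∨ wd w.1 = W9 n}

theorem wd_inj9 {t t' : BinaryTree Unit} (h : wd t = wd t') : t = t' :=
  (wd_inj t t' [] [] (by rw [h])).1

theorem TT_wr9 (n : ℕ) : wd (TT (wr n 9)).1 = W9 n := by
  have h := (FM_S0 n).node (Z := .nil) (by rw [tht, ht_nil]; omega)
  have h' := h.node (Z := .nil) (by rw [tht, ht_nil]; omega)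
  have h2 : H1.FM (wr n 9).1 _ _ := h'
  rw [h2.wdT]
  unfold W9
  simp [wd, List.replicate_succ]

theorem W9_num {n : ℕ} (hn : 1 ≤ n) {w : X (n + 2 + 5)} (h : wd w.1 = W9 n) : ht w.1 = n + 5 ∧ pkn w.1 = 2 := by
  have e : w = TT (wr n 9) := Subtype.ext (wd_inj9 (h.trans (TT_wr9 n).symm))
  have hv := wr_inv hn 9 (by norm_num)
  have h1 := congrArg Prod.fst hv
  have h2 := congrArg Prod.snd hv
  change ht _ = _ at h1
  change pkn _ = _ at h2
  rw [e, ht_same (same_T _), pkn_same (same_T _), h1, h2]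
  exact ⟨rfl, rfl⟩

theorem rep_ne {m m' : ℕ} {l l' : List Bool} (hm : m' < m) :
    List.replicate m true ++ l ≠ List.replicate m' true ++ (false :: l') := by
  obtain ⟨d, rfl⟩ : ∃ d, m = m' + (d + 1) := ⟨m - m' - 1, by omega⟩
  rw [List.replicate_add, List.append_assoc]
  intro h
  have h1 := List.append_cancel_left h
  rw [List.replicate_succ] at h1
  simp at h1

theorem repf (m : ℕ) (l : List Bool) : List.replicate m false ++ false :: l = false :: (List.replicate m false ++ l) := by
  rw [← List.cons_append, ← List.replicate_succ, List.replicate_succ', List.append_assoc]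
  rfl

theorem wd_pw9 (m : ℕ) : wd (pw m) = List.replicate m true ++ List.replicate m false := by
  induction m with
  | zero => rfl
  | succ m ih =>
    rw [pw_succ]
    change true :: (wd (pw m) ++ [false]) = _
    rw [ih, List.append_assoc, List.replicate_succ, List.replicate_succ' (n := m) (a := false)]
    rfl

theorem WR9_inn {n : ℕ} (hn : 1 ≤ n) : ∀ w ∈ WR9 n, w ∉ Inn9 n := by
  rintro w hw (h | h)
  · exact wr_inn hn w (WR9_sub n hw) h
  · obtain ⟨i, hi, rfl⟩ := hw
    have h1 := (W9_num hn h).1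
    have hv := wr_inv hn (i9 i) (i9_lt hi).1
    have h2 := congrArg Prod.fst hv
    change ht _ = _ at h2
    change wd (tr n (i9 i)) = _ at h
    change ht (wr n (i9 i)).1 = _ at h1
    rw [h2] at h1
    unfold W9 at h
    interval_cases i
    · simp [i9, hr] at h1
    · simp [i9, hr] at h1
    · simp [i9, hr] at h1
    · change wd (((pw (n + 2) △ ((.nil △ .nil) △ .nil)) △ .nil) △ .nil) = _ at h
      have e : wd (((pw (n + 2) △ ((.nil △ .nil) △ .nil)) △ .nil) △ .nil) =
          List.replicate (n + 5) true ++ (List.replicate (n + 3) false ++ [true, true, false, false, false, false]) := by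
        simp [wd, wd_pw9, List.replicate_succ, repf]
      rw [e] at h
      exact rep_ne (by omega) h
    · simp [i9, hr] at h1
    · simp [i9, hr] at h1
    · change wd ((pw (n + 3) △ ((.nil △ .nil) △ .nil)) △ .nil) = _ at h
      have e : wd ((pw (n + 3) △ ((.nil △ .nil) △ .nil)) △ .nil) =
          List.replicate (n + 5) true ++ (List.replicate (n + 4) false ++ [true, true, false, false, false]) := by
        simp [wd, wd_pw9, List.replicate_succ, repf]
      rw [e] at h
      exact rep_ne (by omega) h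
    · simp [i9, hr] at h1
    · simp [i9, hr] at h1

/-- the words of the top are not inner words -/
theorem tI9 {n : ℕ} (hn : 1 ≤ n) {ι : Q3 (n + 2) → Q3 (n + 2)} : ∀ w ∈ topW8' (n + 2) ι, w ∉ Inn9 n := by
  rintro w hw (h | h)
  · exact tI w hw h
  · obtain ⟨b1, b2⟩ := W9_num hn h
    rcases top_cases hw with c | c | ⟨c1, c2, c⟩ | c | c | c | c | c
    · omega
    · omega
    · rw [c] at h
      unfold W9 at h
      have e : wd ((.nil △ .nil) △ pw (n + 5)) = [true, true] ++ (false :: (false :: wd (pw (n + 5)))) := rfl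
      rw [e] at h
      exact rep_ne (m := n + 3) (m' := 2) (by omega) h.symm
    · omega
    · omega
    · omega
    · omega
    · omega

theorem i9_cases {i : ℕ} (hi : i < 9) (h2 : 2 ≤ i) : i9 i ≠ 0 ∧ i9 i ≠ 4 ∧ i9 i ≠ 10 := by
  interval_cases i <;> simp [i9]

theorem i9_inj : ∀ i < 9, ∀ j < 9, i9 i = i9 j → i = j := by
  decide

/-- **THE NINE WORD GADGET over `[s](())`**: the distances 0 and 1 -/
theorem sys_JR9 {n : ℕ} (hn : 1 ≤ n) {O : Set (Cyc (n + 2 + 5))} (hO : OJ n ⊆ O) (hO' : cyc (pC n) ∈ O) :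
    HasSys O {c | c = zc n 0 ∨ c = zc n 1} (WR9 n) (Inn9 n) := by
  have ne1 : zc n 0 ≠ zc n 1 := fun h => by
    have := zc_inj (by omega) (by omega) h
    omega
  have e0 : cyc (v9 n 0) = zc n 0 := wr_0 n
  have e1 : cyc (v9 n 1) = zc n 1 := wr_4 n
  have hB : ∀ x, x ∈ (gad9 (v9 n)).B ↔ ∃ i < 9, v9 n i = x := by
    intro x
    change x ∈ (range 9).image (v9 n) ↔ _
    rw [mem_image]
    constructor
    · rintro ⟨i, hi, rfl⟩
      exact ⟨i, mem_range.1 hi, rfl⟩
    · rintro ⟨i, hi, rfl⟩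
      exact ⟨i, mem_range.2 hi, rfl⟩
  have hmem : ∀ i < 9, v9 n i ∈ (gad9 (v9 n)).B := fun i h1 => (hB _).2 ⟨i, h1, rfl⟩
  have hold : ∀ i < 9, 2 ≤ i → cyc (v9 n i) ≠ zc n 0 ∧ cyc (v9 n i) ≠ zc n 1 := by
    intro i hi h2
    obtain ⟨a, b, c⟩ := i9_cases hi h2
    rcases wr_old hn (i9_lt hi).1 a b c with h | h
    · constructor
      · intro he
        change cyc (wr n (i9 i)) = _ at he
        rw [he] at h
        exact OJ_z h
      · intro he
        change cyc (wr n (i9 i)) = _ at he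
        rw [he] at h
        exact OJ_z h
    · change cyc (wr n (i9 i)) ≠ _ ∧ cyc (wr n (i9 i)) ≠ _
      rw [h]
      exact ⟨pC_ne, pC_ne⟩
  apply sys_one (gad9 (v9 n))
  · intro w
    change ((TT : Perm (X (n + 2 + 5))).SameCycle (v9 n 0) w ∨ TT.SameCycle (v9 n 1) w) ↔
      (cyc w = zc n 0 ∨ cyc w = zc n 1)
    rw [← e0, ← e1, cyc_eq, cyc_eq]
    constructor
    · rintro (h | h)
      · exact Or.inl h.symm
      · exact Or.inr h.symm
    · rintro (h | h)
      · exact Or.inl h.symm
      · exact Or.inr h.symm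
  · rintro c (rfl | rfl)
    · exact ⟨_, hmem 0 (by norm_num), e0⟩
    · exact ⟨_, hmem 1 (by norm_num), e1⟩
  · refine ⟨_, hmem 2 (by norm_num), ?_⟩
    obtain ⟨a, b⟩ := hold 2 (by norm_num) le_rfl
    rintro (h | h)
    · exact a h
    · exact b h
  · intro w hw
    obtain ⟨i, hi, rfl⟩ := (hB w).1 hw
    rcases Nat.lt_or_ge i 2 with h2 | h2
    · interval_cases i
      · exact Or.inl (Or.inl e0)
      · exact Or.inl (Or.inr e1)
    · right
      obtain ⟨a, b, c⟩ := i9_cases hi h2
      rcases wr_old hn (i9_lt hi).1 a b c with h | h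
      · exact hO h
      · change cyc (wr n (i9 i)) ∈ O
        rw [h]; exact hO'
  · intro w hw
    obtain ⟨i, hi, rfl⟩ := (hB w).1 hw
    exact ⟨i, hi, rfl⟩
  · exact WR9_inn hn
  · rintro a (rfl | rfl | rfl)
    · refine ⟨?_, hmem 3 (by norm_num), Or.inr (TT_wr9 n)⟩
      change TT (TT (wr n 9)) = wr n 17
      have hR : S0 n ≠ .nil := by
        intro h
        have := S0_num n
        rw [h, nz] at this
        omega
      have hh : Tsq.ht (.nil : BinaryTree Unit) ≤ Tsq.ht (S0 n) := by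
        rw [tht, ht_nil]; omega
      refine Tsq.link (i := 9) (j := 7) hR hh (by simp) rfl ?_
      rw [sq_S0]; rfl
    · exact ⟨wr_link (i := 3) (j := 12) (by simp), hmem 4 (by norm_num), Or.inl (wr_inner hn (i := 3) (by simp))⟩
    · exact ⟨wr_link (i := 6) (j := 15) (by simp), hmem 5 (by norm_num), Or.inl (wr_inner hn (i := 6) (by simp))⟩
  · refine gad9_abs (R := S0 n) (X' := pw (n + 3) △ ((.nil △ .nil) △ .nil)) ?_ ?_ ?_ ?_ ?_ ?_
    · rw [S0_num]
    · simp only [nn, nz, pw_num]
    · intro i hi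
      interval_cases i <;> rfl
    · intro i hi j hj h
      exact i9_inj i hi j hj (wr_inj (i9 i) (i9_lt hi).1 (i9 j) (i9_lt hj).1 h)
    · rw [← cyc_eq, e0, e1]
      exact ne1
    · intro i h2 hi
      obtain ⟨a, b⟩ := hold i hi h2
      constructor
      · intro h
        apply a
        rw [← e0]
        exact (cyc_eq.2 h).symm
      · intro h
        apply b
        rw [← e1]
        exact (cyc_eq.2 h).symm

end T4

end Pool.OddHC
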