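import Pool.Agent.Work.MP_8f87b2_h73.T4V
import Pool.Agent.Work.MP_8f87b2_h73.T4N

/-!
MP_8f87b2_co, the layer `t = 4` (`k = n + 7`, `s = n + 3`), part X: the words which are not used, and the choice of the matching
for `s = 1 mod 4`.
-/

set_option autoImplicit false

namespace Pool.OddHC

open Finset BinaryTree Equiv Pool.OddHop

namespace T4

variable {n : ℕ}

/-- a near matching along a cycle, and the next one -/
theorem shift_match {X : Type*} [Finite X] (f : Perm X) (h : ∀ x y, f.SameCycle x y) (R : X → X → Prop)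
    (hR : ∀ x, R x (f x)) (hs : ∀ x y, R x y → R y x) (he : ¬ Odd (Nat.card X)) (h3 : 2 < Nat.card X) (P Z : X) :
    ∃ ι : X → X, (∀ x, ι (ι x) = x) ∧ (∀ x, ι x = x ∨ R x (ι x)) ∧ (∀ x, ι x ≠ x) ∧ ι P ≠ Z := by
  obtain ⟨ι, k1, k2, k3⟩ := Pool.Agent.Work.MP_8f87b2_h26.exists_near_matching f h P
  have k4 : ∀ x, ι x ≠ x := fun x hx => he ((k3 x).1 hx).2
  have key : ∀ κ : X → X, (∀ x, κ x = x ∨ κ x = f x ∨ f (κ x) = x) → ∀ x, κ x = x ∨ R x (κ x) := by
    intro κ hκ x
    rcases hκ x with a | a | a
    · exact Or.inl a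
    · right; rw [a]; exact hR x
    · right
      have := hR (κ x)
      rw [a] at this
      exact hs _ _ this
  by_cases hZ : ι P = Z
  · refine ⟨fun x => f (ι (f.symm x)), ?_, ?_, ?_, ?_⟩
    · intro x
      simp [k1]
    · apply key
      intro x
      rcases k2 (f.symm x) with a | a | a
      · exact absurd a (k4 _)
      · right; left
        show f (ι (f.symm x)) = f x
        rw [a, Equiv.apply_symm_apply]
      · right; right
        show f (f (ι (f.symm x))) = x
        rw [a, Equiv.apply_symm_apply]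
    · intro x hx
      have h1 : ι (f.symm x) = f.symm x := by
        rw [Equiv.eq_symm_apply]
        exact hx
      exact k4 _ h1
    · -- both matchings use the pair: a cycle of length two
      intro hc
      have hc' : f (ι (f.symm P)) = Z := hc
      have ff : f (f P) = P := by
        rcases k2 P with a | a | a
        · exact absurd a (k4 P)
        · -- `ι P = f P = Z`
          rw [hZ] at a
          rw [a] at hc'
          have h1 : ι (f.symm P) = P := f.injective hc'
          have h2 : ι P = f.symm P := by rw [← h1, k1]; rw [h1]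
          rw [hZ, a] at h2
          rw [h2]
          simp
        · -- `f Z = P`
          rw [hZ] at a
          have h1 : f.symm P = Z := by rw [← a]; simp
          rw [h1, ← hZ, k1] at hc'
          rw [hc', hZ, a]
      -- all elements are `P`, `f P`
      have hall : ∀ x, x = P ∨ x = f P := by
        intro x
        obtain ⟨i, hi⟩ := h P x
        have h2 : ∀ m : ℕ, (f ^ (2 * m)) P = P := by
          intro m
          induction m with
          | zero => rfl
          | succ m ih =>
            rw [show 2 * (m + 1) = 2 * m + 1 + 1 by ring, pow_succ, pow_succ]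
            change (f ^ (2 * m)) (f (f P)) = P
            rw [ff, ih]
        have h2z : ∀ j : ℤ, (f ^ (2 * j)) P = P := by
          intro j
          rcases Int.eq_nat_or_neg j with ⟨m, rfl | rfl⟩
          · have := h2 m
            exact_mod_cast this
          · have h5 := h2 m
            rw [show (2 * -(m : ℤ)) = -((2 * m : ℕ) : ℤ) by push_cast; ring, zpow_neg, zpow_natCast,
              Perm.inv_eq_iff_eq]
            exact h5.symm
        rcases Int.even_or_odd' i with ⟨j, rfl | rfl⟩
        · left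
          rw [← hi, h2z]
        · right
          rw [← hi, show 2 * j + 1 = 1 + 2 * j by ring, zpow_add, zpow_one]
          change f ((f ^ (2 * j)) P) = f P
          rw [h2z]
      classical
      have : Nat.card X ≤ 2 := by
        have hs : Function.Surjective (fun b : Bool => if b then P else f P) := by
          intro x
          rcases hall x with rfl | rfl
          · exact ⟨true, rfl⟩
          · exact ⟨false, rfl⟩
        have := Nat.card_le_card_of_surjective _ hs
        simpa using this
      omega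
  · exact ⟨ι, k1, key ι k2, k4, hZ⟩

/-- three different classes -/
theorem card_Q3 (n : ℕ) : 2 < Nat.card (Q3 (n + 2)) := by
  haveI : Finite (Q3 (n + 2)) := Quotient.finite _
  have c1 := cn0 (n := n) (m := 1) le_rfl (by norm_num)
  have c2 := cn0 (n := n) (m := 2) (by norm_num) (by norm_num)
  push_cast at c1 c2
  have hi : Function.Injective (fun i : Fin 3 => q3 n 0 0 ((i : ℕ) : ZMod (2 * (n + 3) + 1))) := by
    intro i j h
    have h1 := q3_inj h
    have key : ∀ a b : ℕ, a < b → b < 3 → ((a : ℕ) : ZMod (2 * (n + 3) + 1)) ≠ ((b : ℕ) : ZMod (2 * (n + 3) + 1)) := by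
      intro a b hab hb h2
      have h3 : ((b - a : ℕ) : ZMod (2 * (n + 3) + 1)) = 0 := by
        rw [Nat.cast_sub hab.le, h2, sub_self]
      exact cn0 (n := n) (m := b - a) (by omega) (by omega) h3
    rcases lt_trichotomy (i : ℕ) (j : ℕ) with h2 | h2 | h2
    · exact absurd h1 (key _ _ h2 j.2)
    · exact Fin.ext h2
    · exact absurd h1.symm (key _ _ h2 i.2)
  have := Nat.card_le_card_of_injective _ hi
  rw [Nat.card_eq_fintype_card, Fintype.card_fin] at this
  omega

/-- for `s = 1 mod 4` there is a matching such that the left link is free -/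
theorem choose_Hl (he : (n + 2) % 2 = 0) : ∃ ι : Q3 (n + 2) → Q3 (n + 2), OK3 (n + 2) ι ∧
    ¬ Bd n ι ((3 : ℕ) : ZMod (2 * (n + 3) + 1)) 0 := by
  haveI : Finite (Q3 (n + 2)) := Quotient.finite _
  obtain ⟨f, h1, h2⟩ := hasCycle (n := 2 * (n + 2 + 1) + 1) ⟨n + 2 + 1, rfl⟩
    (one_dvd _) (show 1 ≤ 3 by norm_num) (show 3 ≠ 2 by norm_num)
  have hodd : ¬ Odd (Nat.card (Q3 (n + 2))) := by
    rw [odd3]
    omega
  obtain ⟨ι, k1, k2, k3, k4⟩ := shift_match f h2 (HopQ (one_dvd _)) h1 (fun _ _ h => Hop_symm h) hodd (card_Q3 n)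
    (q3 n ((3 : ℕ) : ZMod (2 * (n + 3) + 1)) 0 0) (q3 n ((3 : ℕ) : ZMod (2 * (n + 3) + 1)) 0 (-1))
  refine ⟨ι, ⟨k1, k2, fun q => ⟨fun h => absurd h (k3 q), fun h => ?_⟩⟩, k4⟩
  omega

/-! ### Words which are not used -/

/-- the words `16`, `18`, `19` of J2 -/
def WX (n : ℕ) : Set (X (n + 2 + 5)) := {w | w = wr n 16 ∨ w = wr n 18 ∨ w = wr n 19}

theorem WX_R : WX n ⊆ WR n := by
  rintro w (rfl | rfl | rfl)
  · exact ⟨16, by norm_num, by norm_num, rfl⟩
  · exact ⟨18, by norm_num, by norm_num, rfl⟩
  · exact ⟨19, by norm_num, by norm_num, rfl⟩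

theorem numX (hn : 1 ≤ n) {w : X (n + 2 + 5)} (h : w ∈ WX n) :
    (ht w.1 = n + 3 ∧ pkn w.1 = 3 ∧ cyc w = cyc (pC n)) ∨ (ht w.1 = n + 4 ∧ pkn w.1 = 2) := by
  rcases h with rfl | rfl | rfl
  · have hv := wr_inv hn 16 (by norm_num)
    exact Or.inl ⟨congrArg Prod.fst hv, congrArg Prod.snd hv, wr_B hn (by norm_num)⟩
  · have hv := wr_inv hn 18 (by norm_num)
    exact Or.inl ⟨congrArg Prod.fst hv, congrArg Prod.snd hv, wr_B hn (by norm_num)⟩
  · have hv := wr_inv hn 19 (by norm_num)
    exact Or.inr ⟨congrArg Prod.fst hv, congrArg Prod.snd hv⟩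

/-- the plain words of the layer -/
def Pl (n : ℕ) : Set (X (n + 2 + 5)) :=
  {w | (∃ q, w ∈ WH n q) ∨ w ∈ WP n ∨ (∃ a, a + 1 ≤ n + 3 ∧ w ∈ WE n a) ∨ w ∈ WK n ∨ w ∈ WL n ∨ w ∈ WM n ∨ w ∈ WHl n}

theorem Pl_ht (hn : 1 ≤ n) {w : X (n + 2 + 5)} (h : w ∈ Pl n) : ht w.1 ≤ n + 4 := by
  rcases h with ⟨q, h⟩ | h | ⟨a, ha, h⟩ | h | h | h | h
  · have := numH h; omega
  · rcases numP hn h with a | a | a <;> omega
  · have := numE h; omega
  · rcases numK h with a | a | a <;> omega
  · rcases numL h with a | a | a <;> omega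
  · rcases numM h with a | a | a <;> omega
  · rcases numHl h with a | a | a <;> omega

theorem Pl_X (hn : 1 ≤ n) {w : X (n + 2 + 5)} (h : w ∈ Pl n) : w ∉ WX n := by
  intro h'
  have hx := numX hn h'
  rcases h with ⟨q, h⟩ | h | ⟨a, ha, h⟩ | h | h | h | h
  · have := numH h; omega
  · rcases h with rfl | rfl | rfl
    · rcases h' with h' | h' | h'
      · have h2 := congrArg Subtype.val h'
        change pw (n + 3) △ pw 3 = tr n 16 at h2
        simp [tr, pw_succ] at h2
      · have h2 := congrArg Subtype.val h'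
        change pw (n + 3) △ pw 3 = tr n 18 at h2
        simp [tr, pw_succ] at h2
      · have h2 := congrArg Subtype.val h'
        change pw (n + 3) △ pw 3 = tr n 19 at h2
        simp [tr, pw_succ] at h2
    · have := pB_inv (n := n) hn; omega
    · rcases h' with h' | h' | h'
      · have h2 := congrArg Subtype.val h'
        change app (pw 3) (.nil △ pw (n + 3)) = tr n 16 at h2
        simp [tr, pw_succ, app_node', app_nil'] at h2
      · have h2 := congrArg Subtype.val h'
        change app (pw 3) (.nil △ pw (n + 3)) = tr n 18 at h2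
        simp [tr, pw_succ, app_node', app_nil'] at h2
      · have h2 := congrArg Subtype.val h'
        change app (pw 3) (.nil △ pw (n + 3)) = tr n 19 at h2
        simp [tr, pw_succ, app_node', app_nil'] at h2
  · have := numE h; omega
  · rcases numK h with a | ⟨a1, a2, a3⟩ | a
    · omega
    · rcases hx with ⟨-, -, b⟩ | b
      · exact pC_ne (b.symm.trans a3)
      · omega
    · omega
  · rcases numL h with a | a | a <;> omega
  · rcases numM h with a | a | a <;> omega
  · rcases numHl h with a | a | a <;> omega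

theorem J_X (hn : 1 ≤ n) {q : ℕ} (hq : q ≤ n + 1) {w : X (n + 2 + 5)} (h : w ∈ WJ n q) : w ∉ WX n := by
  intro h'
  rcases Nat.eq_zero_or_pos q with rfl | h0
  · obtain ⟨i, hi, rfl⟩ := h
    have key : ∀ j, j = 16 ∨ j = 18 ∨ j = 19 → xt n i 0 ≠ wr n j := by
      intro j hj e
      have h2 : (xt n i 0).1 = tr n j := congrArg Subtype.val e
      rw [xt_val hi (by omega)] at h2
      rcases Rform hq with ⟨-, hR⟩ | ⟨q1, _⟩
      · rw [hR] at h2
        rcases hj with rfl | rfl | rfl <;> interval_cases i <;>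
          simp [tr, sh_0, sh_1, sh_2, sh_3, sh_4, sh_5, sh_6, sh_7, sh_8, sh_9, app_nil', app_node', pw_succ] at h2
      · omega
    rcases h' with h' | h' | h'
    · exact key 16 (by norm_num) h'
    · exact key 18 (by norm_num) h'
    · exact key 19 (by norm_num) h'
  · exact dRJ hq h0 w (WX_R h') h

theorem R9_X {w : X (n + 2 + 5)} (h : w ∈ WR9 n) : w ∉ WX n := by
  obtain ⟨i, hi, rfl⟩ := h
  obtain ⟨a, -, -, b, c, d⟩ := i9_lt hi
  rintro (h' | h' | h')
  · exact b (wr_inj _ a _ (by norm_num) h')
  · exact c (wr_inj _ a _ (by norm_num) h')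
  · exact d (wr_inj _ a _ (by norm_num) h')

theorem rB_Pl (hn : 1 ≤ n) : rB n ∉ Pl n := by
  intro h
  have hr := num_yc (rB_cyc n)
  rcases h with ⟨q, h⟩ | h | ⟨a, ha, h⟩ | h | h | h | h
  · have := numH h; omega
  · rcases numP hn h with a | a | a <;> omega
  · rcases h with h | h | h
    · have := ht_xH n a
      rw [← h] at this
      omega
    · have h2 : (.nil △ pw (n + 2)) △ ((.nil △ (.nil △ .nil)) △ .nil) = app (Xa n a) (.nil △ .nil) :=
        congrArg Subtype.val h
      rcases Xform (n := n) (b := a) (by omega) with ⟨-, h⟩ | ⟨-, h⟩ | ⟨-, h⟩ | ⟨-, _, _, h⟩ <;> rw [h] at h2 <;>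
        simp [pw_succ, app_node', app_nil'] at h2
    · have h2 : (.nil △ pw (n + 2)) △ ((.nil △ (.nil △ .nil)) △ .nil) = .nil △ Xa n a := congrArg Subtype.val h
      simp at h2
  · rcases h with h | h | h
    · have := kA_inv n
      rw [← h] at this
      omega
    · have := kB_inv n
      rw [← h] at this
      omega
    · have h2 : (.nil △ pw (n + 2)) △ ((.nil △ (.nil △ .nil)) △ .nil) = .nil △ _ := congrArg Subtype.val h
      simp at h2
  · rcases h with h | h | h
    · have := lA_inv n
      rw [← h] at this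
      omega
    · have := num_hc (lB_cyc n)
      rw [← h] at this
      omega
    · have h2 : (.nil △ pw (n + 2)) △ ((.nil △ (.nil △ .nil)) △ .nil) = (.nil △ (.nil △ (.nil △ .nil))) △ pw (n + 3) :=
        congrArg Subtype.val h
      simp [pw_succ] at h2
  · rcases h with h | h | h
    · have := mA_inv n
      rw [← h] at this
      omega
    · have := num_hc (lB_cyc n)
      rw [← h] at this
      omega
    · have h2 : (.nil △ pw (n + 2)) △ ((.nil △ (.nil △ .nil)) △ .nil) = app (Xa n 1) (.nil △ .nil) :=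
        congrArg Subtype.val h
      rw [Xa_1] at h2
      simp [pw_succ, app_node', app_nil'] at h2
  · rcases h with h | h | h
    · have := sA_inv n
      rw [← h] at this
      omega
    · have := num_hc (sB_cyc n)
      rw [← h] at this
      omega
    · have h2 : (.nil △ pw (n + 2)) △ ((.nil △ (.nil △ .nil)) △ .nil) =
          (.nil △ (.nil △ .nil)) △ (((.nil △ pw (n + 1)) △ .nil) △ .nil) := congrArg Subtype.val h
      simp [pw_succ] at h2

theorem rB_J {q : ℕ} (hq : q ≤ n + 1) : rB n ∉ WJ n q := by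
  rintro ⟨i, hi, h⟩
  have h2 : (.nil △ pw (n + 2)) △ ((.nil △ (.nil △ .nil)) △ .nil) = (xt n i q).1 := congrArg Subtype.val h
  rw [xt_val hi (by omega)] at h2
  rcases Rform hq with ⟨-, hR⟩ | ⟨q1, A, B, C, hR⟩
  · rw [hR] at h2
    interval_cases i <;>
      simp [sh_0, sh_1, sh_2, sh_3, sh_4, sh_5, sh_6, sh_7, sh_8, sh_9, app_nil', app_node', pw_succ] at h2
  · rw [hR] at h2
    interval_cases i <;>
      simp [sh_0, sh_1, sh_2, sh_3, sh_4, sh_5, sh_6, sh_7, sh_8, sh_9, app_nil', app_node', pw_succ] at h2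

theorem rB_R9 : rB n ∉ WR9 n := by
  rintro ⟨i, hi, h⟩
  have h2 : (.nil △ pw (n + 2)) △ ((.nil △ (.nil △ .nil)) △ .nil) = tr n (i9 i) := congrArg Subtype.val h
  interval_cases i <;> simp [i9, tr, pw_succ] at h2

end T4

end Pool.OddHC
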